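import Pool.Agent.Lib_helper32.FSUnif

/-! # The incident directions -/

open MeasureTheory Filter Complex Set Topology
open scoped Real SchwartzMap LineDeriv ContDiff NNReal FourierTransform RealInnerProductSpace

namespace FracScat

/-- longitudinal frequency -/
noncomputable def tauf (a h : ℝ) : ℝ := h * a ^ 2 / (1 + √(1 - h ^ 2 * a ^ 2))

lemma tauf_lower {a h : ℝ} (hh : 0 ≤ h) : h * a ^ 2 / 2 ≤ tauf a h := by
  unfold tauf
  have h1 : √(1 - h ^ 2 * a ^ 2) ≤ 1 := by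
    rw [Real.sqrt_le_one]
    have : 0 ≤ h ^ 2 * a ^ 2 := by positivity
    linarith
  have h2 := Real.sqrt_nonneg (1 - h ^ 2 * a ^ 2)
  gcongr
  linarith

lemma tauf_nonneg {a h : ℝ} (hh : 0 ≤ h) : 0 ≤ tauf a h := by
  unfold tauf
  positivity

lemma tauf_upper {a h : ℝ} (hh : 0 ≤ h) : tauf a h ≤ a ^ 2 * h := by
  unfold tauf
  have h2 := Real.sqrt_nonneg (1 - h ^ 2 * a ^ 2)
  rw [div_le_iff₀ (by linarith)]
  have : 0 ≤ a ^ 2 * h := by positivity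
  nlinarith

lemma h_mul_tauf {a h : ℝ} (hle : h ^ 2 * a ^ 2 ≤ 1) : h * tauf a h = 1 - √(1 - h ^ 2 * a ^ 2) := by
  unfold tauf
  have h2 := Real.sqrt_nonneg (1 - h ^ 2 * a ^ 2)
  have h3 := Real.sq_sqrt (show 0 ≤ 1 - h ^ 2 * a ^ 2 by linarith)
  have h4 : 1 + √(1 - h ^ 2 * a ^ 2) ≠ 0 := by linarith
  field_simp
  nlinarith

lemma hasPow_tauf {a h₁ : ℝ} (hpos : 0 < h₁) (hh1 : h₁ ≤ 1) (hle : h₁ ^ 2 * a ^ 2 ≤ 1 / 2) (J : ℕ) :
    HasPow h₁ J (fun h => ((tauf a h : ℝ) : ℂ)) := by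
  obtain ⟨b, hb⟩ := rpow_taylor (1 / 2)
  obtain ⟨C, hC0, hC⟩ := hb J
  have hsmall : ∀ h, 0 < h → h ≤ h₁ → h ^ 2 * a ^ 2 ≤ 1 / 2 := by
    intro h hh hle'
    refine le_trans ?_ hle
    gcongr
  have h1 : HasPow h₁ J (fun h => ∑ m ∈ Finset.range J, ((b m * (-a ^ 2) ^ m : ℝ) : ℂ) * ((h : ℂ) ^ 2) ^ m) := by
    apply HasPow.sum
    intro m _
    apply HasPow.const_mul hh1
    exact ((hasPow_h hh1).pow hh1 2).pow hh1 m
  have h2 : HasPow h₁ J (fun h => ((√(1 - h ^ 2 * a ^ 2) : ℝ) : ℂ)) := by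
    refine h1.of_close (C := C * (a ^ 2) ^ J) (by positivity) fun h hh hle' => ?_
    have hu : |(-(h ^ 2 * a ^ 2))| ≤ 1 / 2 := by
      rw [abs_neg, abs_of_nonneg (by positivity)]; exact hsmall h hh hle'
    have h3 := hC (-(h ^ 2 * a ^ 2)) hu
    have e1 : ((√(1 - h ^ 2 * a ^ 2) : ℝ) : ℂ) - ∑ m ∈ Finset.range J, ((b m * (-a ^ 2) ^ m : ℝ) : ℂ) * ((h : ℂ) ^ 2) ^ m
        = (((1 + -(h ^ 2 * a ^ 2)) ^ (1 / 2 : ℝ) - ∑ m ∈ Finset.range J, b m * (-(h ^ 2 * a ^ 2)) ^ m : ℝ) : ℂ) := by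
      rw [← Real.sqrt_eq_rpow]
      push_cast
      congr 1
      refine Finset.sum_congr rfl fun m _ => ?_
      rw [mul_assoc, ← mul_pow]
      congr 2
      ring
    rw [e1, Complex.norm_real, Real.norm_eq_abs]
    refine h3.trans ?_
    rw [abs_neg, abs_of_nonneg (by positivity), mul_pow, mul_assoc, mul_comm ((h ^ 2) ^ J)]
    have h4 : (h ^ 2) ^ J ≤ h ^ J := by
      apply pow_le_pow_left₀ (by positivity)
      have := hle'.trans hh1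
      nlinarith
    gcongr
  have h3 : HasPow h₁ J (fun h => 1 + ((√(1 - h ^ 2 * a ^ 2) : ℝ) : ℂ)) := (hasPow_const 1).add h2
  have hne : ∀ h : ℝ, (1 : ℝ) ≤ ‖1 + ((√(1 - h ^ 2 * a ^ 2) : ℝ) : ℂ)‖ := by
    intro h
    have h5 := Real.sqrt_nonneg (1 - h ^ 2 * a ^ 2)
    have e2 : 1 + ((√(1 - h ^ 2 * a ^ 2) : ℝ) : ℂ) = ((1 + √(1 - h ^ 2 * a ^ 2) : ℝ) : ℂ) := by
      push_cast; ring
    rw [e2, Complex.norm_real, Real.norm_of_nonneg (by positivity)]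
    linarith
  have h4 : HasPow h₁ J (fun h => (1 + ((√(1 - h ^ 2 * a ^ 2) : ℝ) : ℂ))⁻¹) := by
    apply HasExp.inv one_le_unit hh1 hpos h3 (K := 0) (C := 1) zero_le_one
    · intro h _ _ _ _
      have := hne h
      exact norm_pos_iff.mp (by linarith)
    · intro h _ _ _ _
      rw [norm_inv, pow_zero, mul_one]
      exact inv_le_one_of_one_le₀ (hne h)
  refine ((h4.mul hh1 (hasPow_h hh1)).const_mul hh1 ((a ^ 2 : ℝ) : ℂ)).congr fun h _ _ => ?_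
  unfold tauf
  push_cast
  rw [div_eq_mul_inv]
  ring

section

variable {E : Type*} [NormedAddCommGroup E] [InnerProductSpace ℝ E]

/-- incident direction -/
noncomputable def thetaf (e ξ' : E) (h : ℝ) : E := √(1 - h ^ 2 * ‖ξ'‖ ^ 2) • e - h • ξ'

lemma norm_thetaf {e ξ' : E} (he : ‖e‖ = 1) (hperp : ⟪e, ξ'⟫ = 0) {h : ℝ} (hle : h ^ 2 * ‖ξ'‖ ^ 2 ≤ 1) :
    ‖thetaf e ξ' h‖ = 1 := by
  have h3 := Real.sq_sqrt (show 0 ≤ 1 - h ^ 2 * ‖ξ'‖ ^ 2 by linarith)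
  have h1 : ‖thetaf e ξ' h‖ ^ 2 = 1 := by
    rw [thetaf, @norm_sub_sq_real, norm_smul, norm_smul, he, real_inner_smul_left,
      real_inner_smul_right, hperp, mul_one, Real.norm_eq_abs, Real.norm_eq_abs, sq_abs, mul_pow, sq_abs,
      h3]
    ring
  have h2 := norm_nonneg (thetaf e ξ' h)
  nlinarith

lemma shift_eq {e ξ' : E} {h : ℝ} (hh : 0 < h) (hle : h ^ 2 * ‖ξ'‖ ^ 2 ≤ 1) :
    h⁻¹ • (e - thetaf e ξ' h) = tauf ‖ξ'‖ h • e + ξ' := by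
  have h1 := h_mul_tauf hle
  have h2 : tauf ‖ξ'‖ h = h⁻¹ * (1 - √(1 - h ^ 2 * ‖ξ'‖ ^ 2)) := by
    rw [← h1]; field_simp
  rw [h2, thetaf]
  rw [mul_smul, sub_smul, one_smul, sub_sub_eq_add_sub, add_sub_right_comm, smul_add, smul_smul,
    inv_mul_cancel₀ hh.ne', one_smul]

lemma thetaf_sub {e ξ' : E} (he : ‖e‖ = 1) {h : ℝ} (hh : 0 < h) (hle : h ^ 2 * ‖ξ'‖ ^ 2 ≤ 1) :
    ‖thetaf e ξ' h - e‖ ≤ h * (‖ξ'‖ ^ 2 * h + ‖ξ'‖) := by
  have h1 : thetaf e ξ' h - e = -(h • (tauf ‖ξ'‖ h • e + ξ')) := by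
    rw [← shift_eq hh hle, smul_smul, mul_inv_cancel₀ hh.ne', one_smul]; abel
  rw [h1, norm_neg, norm_smul, Real.norm_of_nonneg hh.le]
  gcongr
  refine (norm_add_le _ _).trans ?_
  rw [norm_smul, he, mul_one, Real.norm_of_nonneg (tauf_nonneg hh.le)]
  gcongr
  exact tauf_upper hh.le

end

end FracScat
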