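import Pool.Agent.Lib_helper32.FSIntExp

/-! # Bounded families of Schwartz functions -/

open MeasureTheory Filter Complex Set Topology
open scoped Real SchwartzMap LineDeriv ContDiff NNReal

namespace FracScat

section

variable {X : Type*} [NormedAddCommGroup X] [NormedSpace ℝ X]
variable {X' : Type*} [NormedAddCommGroup X'] [NormedSpace ℝ X']
variable {α : Type*}

/-- bounded families in Schwartz space -/
def BddFam (F : α → 𝓢(X, ℂ)) : Prop :=
  ∀ k i : ℕ, ∃ C : ℝ, ∀ a, SchwartzMap.seminorm ℝ k i (F a) ≤ C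

lemma bddFam_const (F : 𝓢(X, ℂ)) : BddFam (fun _ : α => F) :=
  fun k i => ⟨SchwartzMap.seminorm ℝ k i F, fun _ => le_rfl⟩

lemma BddFam.bound {F : α → 𝓢(X, ℂ)} (hF : BddFam F) (q : Seminorm ℝ 𝓢(X, ℂ)) (hq : Continuous q) :
    ∃ C : ℝ, 0 ≤ C ∧ ∀ a, q (F a) ≤ C := by
  classical
  obtain ⟨t, C, _, hC⟩ := Seminorm.bound_of_continuous (schwartz_withSeminorms ℝ X ℂ) q hq
  choose B hB using hF
  have h1 : ∀ a, (t.sup (schwartzSeminormFamily ℝ X ℂ)) (F a) ≤ ∑ m ∈ t, |B m.1 m.2| := by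
    intro a
    apply Seminorm.finset_sup_apply_le (Finset.sum_nonneg fun _ _ => abs_nonneg _)
    intro m hm
    refine (hB m.1 m.2 a).trans ((le_abs_self _).trans ?_)
    exact Finset.single_le_sum (f := fun m : ℕ × ℕ => |B m.1 m.2|) (fun _ _ => abs_nonneg _) hm
  refine ⟨C * ∑ m ∈ t, |B m.1 m.2|, mul_nonneg C.2 (Finset.sum_nonneg fun _ _ => abs_nonneg _),
    fun a => ?_⟩
  calc q (F a) ≤ (C • t.sup (schwartzSeminormFamily ℝ X ℂ)) (F a) := hC (F a)
    _ = C * (t.sup (schwartzSeminormFamily ℝ X ℂ)) (F a) := rfl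
    _ ≤ _ := mul_le_mul_of_nonneg_left (h1 a) C.2

lemma BddFam.map {F : α → 𝓢(X, ℂ)} (hF : BddFam F) (T : 𝓢(X, ℂ) →L[ℂ] 𝓢(X', ℂ)) :
    BddFam (fun a => T (F a)) := by
  intro k i
  let q : Seminorm ℝ 𝓢(X, ℂ) :=
    (SchwartzMap.seminorm ℝ k i).comp ((T.restrictScalars ℝ : 𝓢(X, ℂ) →L[ℝ] 𝓢(X', ℂ)) : 𝓢(X, ℂ) →ₗ[ℝ] 𝓢(X', ℂ))
  have hq : Continuous q := by
    have h1 : Continuous (SchwartzMap.seminorm ℝ k i : Seminorm ℝ 𝓢(X', ℂ)) :=
      (schwartz_withSeminorms ℝ X' ℂ).continuous_seminorm (k, i)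
    exact h1.comp T.continuous
  obtain ⟨C, _, hC⟩ := hF.bound q hq
  exact ⟨C, hC⟩

lemma BddFam.comp {β : Type*} {F : α → 𝓢(X, ℂ)} (hF : BddFam F) (φ : β → α) :
    BddFam (fun b => F (φ b)) := fun k i => by
  obtain ⟨C, hC⟩ := hF k i
  exact ⟨C, fun b => hC _⟩

variable [FiniteDimensional ℝ X] [MeasurableSpace X] [BorelSpace X] (μ : Measure X)
  [μ.IsAddHaarMeasure]

lemma BddFam.integral {F : α → 𝓢(X, ℂ)} (hF : BddFam F) :
    ∃ C : ℝ, 0 ≤ C ∧ ∀ a, ∫ x, ‖F a x‖ ∂μ ≤ C := by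
  obtain ⟨C1, h1⟩ := hF 0 0
  obtain ⟨C2, h2⟩ := hF (0 + μ.integrablePower) 0
  set A := 2 ^ μ.integrablePower * (∫ x, (1 + ‖x‖) ^ (- (μ.integrablePower : ℝ)) ∂μ) with hA
  have hA0 : 0 ≤ A := by
    apply mul_nonneg (by positivity)
    exact integral_nonneg fun x => by positivity
  refine ⟨A * (|C1| + |C2|), by positivity, fun a => ?_⟩
  have h3 := SchwartzMap.integral_pow_mul_iteratedFDeriv_le ℝ μ (F a) 0 0
  simp only [pow_zero, one_mul, norm_iteratedFDeriv_zero] at h3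
  refine h3.trans ?_
  rw [← hA]
  gcongr
  · exact (h1 a).trans (le_abs_self _)
  · exact (h2 a).trans (le_abs_self _)

omit [MeasurableSpace X] [BorelSpace X] in
lemma Dh_pow_op (v : X) (i : ℕ) :
    ∃ (L : ℕ) (T : ℕ → 𝓢(X, ℂ) →L[ℂ] 𝓢(X, ℂ)), ∀ (h : ℝ) (F : 𝓢(X, ℂ)), ((Dh v h) ^ i) F
      = ∑ l ∈ Finset.range L, (h : ℂ) ^ l • T l F := by
  induction i with
  | zero => exact ⟨1, fun _ => ContinuousLinearMap.id ℂ _, fun h F => by simp⟩
  | succ i ih =>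
    obtain ⟨L, T, hT⟩ := ih
    refine ⟨L + 1, fun l => (if l < L then (D0 v).comp (T l) else 0)
      + (if l = 0 then 0 else (D1 X).comp (T (l - 1))), fun h F => ?_⟩
    have e1 : ((Dh v h) ^ (i + 1)) F = Dh v h (((Dh v h) ^ i) F) := by
      rw [pow_succ']; rfl
    rw [e1, hT h, map_sum]
    simp_rw [add_apply, smul_add]
    rw [Finset.sum_add_distrib, Finset.sum_range_succ, Finset.sum_range_succ']
    simp only [lt_irrefl, if_false, zero_apply, smul_zero, add_zero, Nat.succ_ne_zero,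
      Nat.add_sub_cancel, if_true]
    rw [← Finset.sum_add_distrib]
    refine Finset.sum_congr rfl fun l hl => ?_
    rw [if_pos (Finset.mem_range.mp hl), map_smul]
    simp only [Dh, add_apply, smul_apply, smul_add, smul_smul, pow_succ,
      ContinuousLinearMap.comp_apply]

lemma BddFam.N1 {F : α → 𝓢(X, ℂ)} (hF : BddFam F) (v : X) (m : ℕ) :
    ∃ C : ℝ, 0 ≤ C ∧ ∀ a, ∀ h : ℝ, 0 ≤ h → h ≤ 1 → FracScat.N1 μ v h m (F a) ≤ C := by
  have key : ∀ i : ℕ, ∃ C : ℝ, 0 ≤ C ∧ ∀ a, ∀ h : ℝ, 0 ≤ h → h ≤ 1 →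
      ∫ x, ‖(((Dh v h) ^ i) (F a)) x‖ ∂μ ≤ C := by
    intro i
    obtain ⟨L, T, hT⟩ := Dh_pow_op v i
    have h1 : ∀ l, ∃ C : ℝ, 0 ≤ C ∧ ∀ a, ∫ x, ‖(T l (F a)) x‖ ∂μ ≤ C := fun l =>
      (hF.map (T l)).integral μ
    choose B hB0 hB using h1
    refine ⟨∑ l ∈ Finset.range L, B l, Finset.sum_nonneg fun l _ => hB0 l, fun a h hh hh1 => ?_⟩
    calc ∫ x, ‖(((Dh v h) ^ i) (F a)) x‖ ∂μ
        ≤ ∫ x, ∑ l ∈ Finset.range L, ‖(T l (F a)) x‖ ∂μ := by
          apply integral_mono (SchwartzMap.integrable _).norm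
            (integrable_finsetSum _ fun l _ => (SchwartzMap.integrable _).norm)
          intro x
          simp only [hT h, sum_apply, smul_apply]
          refine (norm_sum_le _ _).trans (Finset.sum_le_sum fun l _ => ?_)
          rw [norm_smul, norm_pow, Complex.norm_real, Real.norm_of_nonneg hh]
          exact mul_le_of_le_one_left (norm_nonneg _) (pow_le_one₀ hh hh1)
      _ = ∑ l ∈ Finset.range L, ∫ x, ‖(T l (F a)) x‖ ∂μ :=
          integral_finsetSum _ fun l _ => (SchwartzMap.integrable _).norm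
      _ ≤ _ := Finset.sum_le_sum fun l _ => hB l a
  choose B hB0 hB using key
  refine ⟨∑ i ∈ Finset.range (m + 1), B i, Finset.sum_nonneg fun i _ => hB0 i, fun a h hh hh1 => ?_⟩
  unfold FracScat.N1
  exact Finset.sum_le_sum fun i _ => hB i a h hh hh1

end

/-! ### multiplication by functions with bounded derivatives -/

section

variable {X : Type*} [NormedAddCommGroup X] [NormedSpace ℝ X]
variable {α : Type*}

/-- smooth with uniformly bounded derivatives -/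
def UBdd (H : α → X → ℂ) : Prop :=
  (∀ a, ContDiff ℝ ∞ (H a)) ∧ ∀ i : ℕ, ∃ B : ℝ, 0 ≤ B ∧ ∀ a x, ‖iteratedFDeriv ℝ i (H a) x‖ ≤ B

lemma UBdd.tg {H : α → X → ℂ} (hH : UBdd H) (a : α) : (H a).HasTemperateGrowth := by
  refine ⟨hH.1 a, fun n => ?_⟩
  obtain ⟨B, _, hB⟩ := hH.2 n
  exact ⟨0, B, fun x => by simpa using hB a x⟩

lemma BddFam.mulU {F : α → 𝓢(X, ℂ)} (hF : BddFam F) {H : α → X → ℂ} (hH : UBdd H) :
    BddFam (fun a => SchwartzMap.smulLeftCLM ℂ (H a) (F a)) := by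
  intro k i
  choose B hB0 hB using hH.2
  choose C hC using hF k
  refine ⟨∑ j ∈ Finset.range (i + 1), (i.choose j : ℝ) * B j * |C (i - j)|, fun a => ?_⟩
  apply SchwartzMap.seminorm_le_bound
  · exact Finset.sum_nonneg fun j _ => by have := hB0 j; positivity
  intro x
  have e1 : ((SchwartzMap.smulLeftCLM ℂ (H a) (F a) : 𝓢(X, ℂ)) : X → ℂ) = fun x => H a x * F a x := by
    ext x; rw [SchwartzMap.smulLeftCLM_apply_apply (hH.tg a), smul_eq_mul]
  rw [e1]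
  have h1 := norm_iteratedFDeriv_mul_le (𝕜 := ℝ) (n := i) (N := ∞) (hH.1 a) ((F a).smooth ⊤) x
    (mod_cast le_top)
  calc ‖x‖ ^ k * ‖iteratedFDeriv ℝ i (fun x => H a x * F a x) x‖
      ≤ ‖x‖ ^ k * ∑ j ∈ Finset.range (i + 1), (i.choose j : ℝ) * ‖iteratedFDeriv ℝ j (H a) x‖
        * ‖iteratedFDeriv ℝ (i - j) (F a) x‖ := by gcongr
    _ = ∑ j ∈ Finset.range (i + 1), (i.choose j : ℝ) * ‖iteratedFDeriv ℝ j (H a) x‖
        * (‖x‖ ^ k * ‖iteratedFDeriv ℝ (i - j) (F a) x‖) := by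
        rw [Finset.mul_sum]
        exact Finset.sum_congr rfl fun j _ => by ring
    _ ≤ _ := by
        apply Finset.sum_le_sum
        intro j _
        have h2 := (SchwartzMap.le_seminorm ℝ k (i - j) (F a) x).trans (hC (i - j) a)
        have h3 := hB j a x
        have h4 := le_abs_self (C (i - j))
        have h5 := hB0 j
        gcongr
        exact h2.trans h4

end

end FracScat
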