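import Pool.Agent.Lib_helper32.FSLap

/-! # The Born expansion with power-expandable coefficients -/

open MeasureTheory Filter Complex Set Topology
open scoped Real SchwartzMap LineDeriv ContDiff NNReal

namespace FracScat

section

variable {E : Type} [NormedAddCommGroup E] [InnerProductSpace ℝ E] [FiniteDimensional ℝ E]
  [MeasurableSpace E] [BorelSpace E]

omit [FiniteDimensional ℝ E] [MeasurableSpace E] [BorelSpace E] in
/-- the product `V(η - ·) g` as a Schwartz function with a translation uniform estimate -/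
lemma exists_conv (V : 𝓢(E, ℂ)) {g : E → ℂ} (hg : UBdd (fun _ : Unit => g)) {B : ℝ}
    (hB : ∀ i ≤ 2, ∀ x, ‖iteratedFDeriv ℝ i g x‖ ≤ B) (η : E) :
    ∃ F : 𝓢(E, ℂ), (∀ ξ, F ξ = V (η - ξ) * g ξ) ∧ ∀ ξ, S2 F ξ ≤ 12 * B * S2 V (η - ξ) := by
  have hB0 : 0 ≤ B := (norm_nonneg _).trans (hB 0 (by norm_num) 0)
  set Vn : 𝓢(E, ℂ) := SchwartzMap.compCLMOfContinuousLinearEquiv ℂ
    (ContinuousLinearEquiv.neg ℝ (M := E)) V with hVn
  set W : 𝓢(E, ℂ) := SchwartzMap.compSubConstCLM ℂ η Vn with hW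
  have hWx : ∀ ξ, W ξ = V (η - ξ) := by
    intro ξ
    rw [hW, SchwartzMap.compSubConstCLM_apply, hVn]
    simp
  have hWd : ∀ i ξ, ‖iteratedFDeriv ℝ i W ξ‖ ≤ ‖iteratedFDeriv ℝ i V (η - ξ)‖ := by
    intro i ξ
    have h1 : (W : E → ℂ) = fun ξ => (fun y => V (y + η)) ((-ContinuousLinearMap.id ℝ E) ξ) := by
      ext ξ
      rw [hWx]
      simp only [neg_apply, ContinuousLinearMap.id_apply]
      congr 1; abel
    rw [h1]
    have hsm : ContDiff ℝ ∞ (fun y : E => V (y + η)) :=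
      (V.smooth ⊤).comp (contDiff_id.add contDiff_const)
    refine (norm_iteratedFDeriv_comp_clm_le hsm _ i ξ).trans ?_
    rw [iteratedFDeriv_comp_add_right]
    have h2 : (-ContinuousLinearMap.id ℝ E) ξ + η = η - ξ := by
      simp only [neg_apply, ContinuousLinearMap.id_apply]
      abel
    rw [h2]
    apply mul_le_of_le_one_right (norm_nonneg _)
    apply pow_le_one₀ (norm_nonneg _)
    rw [norm_neg]
    exact ContinuousLinearMap.norm_id_le
  have htg := hg.tg ()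
  refine ⟨SchwartzMap.smulLeftCLM ℂ g W, fun ξ => ?_, fun ξ => ?_⟩
  · rw [SchwartzMap.smulLeftCLM_apply_apply htg, hWx, smul_eq_mul, mul_comm]
  · have e1 : ((SchwartzMap.smulLeftCLM ℂ g W : 𝓢(E, ℂ)) : E → ℂ) = fun x => g x * W x := by
      ext x; rw [SchwartzMap.smulLeftCLM_apply_apply htg, smul_eq_mul]
    have hS : ∀ i ≤ 2, ‖iteratedFDeriv ℝ i V (η - ξ)‖ ≤ S2 V (η - ξ) := by
      intro i hi
      exact Finset.single_le_sum (f := fun i => ‖iteratedFDeriv ℝ i V (η - ξ)‖)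
        (fun _ _ => norm_nonneg _) (Finset.mem_range.mpr (by omega))
    have hS0 : 0 ≤ S2 V (η - ξ) := (norm_nonneg _).trans (hS 0 (by norm_num))
    have key : ∀ i ∈ Finset.range 3, ‖iteratedFDeriv ℝ i (fun x => g x * W x) ξ‖
        ≤ 4 * (B * S2 V (η - ξ)) := by
      intro i hi
      have hi' : i ≤ 2 := by have := Finset.mem_range.mp hi; omega
      have h1 := norm_iteratedFDeriv_mul_le (𝕜 := ℝ) (n := i) (N := ∞) (hg.1 ()) (W.smooth ⊤) ξ
        (mod_cast le_top)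
      refine h1.trans ?_
      calc _ ≤ ∑ j ∈ Finset.range (i + 1), (i.choose j : ℝ) * (B * S2 V (η - ξ)) := by
            apply Finset.sum_le_sum
            intro j hj
            have hj' := Finset.mem_range.mp hj
            rw [mul_assoc]
            gcongr
            · exact hB j (by omega) ξ
            · exact (hWd _ ξ).trans (hS _ (by omega))
        _ = 2 ^ i * (B * S2 V (η - ξ)) := by
            rw [← Finset.sum_mul]
            congr 1
            exact_mod_cast Nat.sum_range_choose i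
        _ ≤ 4 * (B * S2 V (η - ξ)) := by
            gcongr
            interval_cases i <;> norm_num
    unfold S2
    rw [e1]
    calc _ ≤ ∑ _i ∈ Finset.range 3, 4 * (B * S2 V (η - ξ)) := Finset.sum_le_sum key
      _ = _ := by rw [Finset.sum_const, Finset.card_range]; simp [S2]; ring

/-- the translation-uniform bound for the Born operator -/
lemma conv_bound {s : ℝ} (hs : 1 / 2 < s) {e : E} (he : ‖e‖ = 1) :
    ∃ C, 0 ≤ C ∧ ∀ h ε, 0 < h → 2 * s * h ≤ 1 → 0 < ε → ∀ (V : 𝓢(E, ℂ)) (g : E → ℂ),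
      UBdd (fun _ : Unit => g) → ∀ B : ℝ, (∀ i ≤ 2, ∀ x, ‖iteratedFDeriv ℝ i g x‖ ≤ B) → ∀ η,
      ‖∫ ξ, (V (η - ξ) * g ξ) * qker s e h 0 ε ξ‖ ≤ C * B * ∫ ξ, S2 V ξ := by
  obtain ⟨C, hC0, hC⟩ := lap_bound hs he
  refine ⟨C * 12, by positivity, fun h ε hh hh1 hε V g hg B hB η => ?_⟩
  obtain ⟨F, hF, hFS⟩ := exists_conv V hg hB η
  have h1 := hC h ε hh hh1 hε F
  simp_rw [hF] at h1
  refine h1.trans ?_
  have h2 : ∫ ξ, S2 F ξ ≤ 12 * B * ∫ ξ, S2 V ξ := by
    calc ∫ ξ, S2 F ξ ≤ ∫ ξ, 12 * B * S2 V (η - ξ) :=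
          integral_mono (integrable_S2 F) (((integrable_S2 V).comp_sub_left η).const_mul _) hFS
      _ = 12 * B * ∫ ξ, S2 V ξ := by
          rw [integral_const_mul, integral_sub_left_eq_self (fun ξ => S2 V ξ) volume η]
  calc _ ≤ C * (12 * B * ∫ ξ, S2 V ξ) := by gcongr
    _ = _ := by ring

theorem born_expansion {s : ℝ} {e : E} {V G : 𝓢(E, ℂ)} {h₁ : ℝ} {m : ℝ → ℂ} {τ : ℝ → ℝ}
    {g : ℝ → E → ℂ} (hs : 1 / 2 < s) (he : ‖e‖ = 1) (h₁le : h₁ ≤ 1 / (2 * s))
    (hg : UBdd (fun h : Ioc (0 : ℝ) h₁ => g h))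
    (hborn : ∀ h, 0 < h → h ≤ h₁ → BornEq s e h V (m h) (fun ξ => G (ξ + τ h • e)) (g h))
    (hpow : ∀ J, HasPow h₁ J (fun h => ((τ h : ℝ) : ℂ)))
    {A : ℝ} (hA : 0 ≤ A) (hτA : ∀ h, 0 < h → h ≤ h₁ → |τ h| ≤ A * h) (N : ℕ) :
    ∀ (X : Type) [NormedAddCommGroup X] [NormedSpace ℝ X] [FiniteDimensional ℝ X]
      [MeasurableSpace X] [BorelSpace X] (μ : Measure X) [μ.IsAddHaarMeasure]
      (ι : Type) [Fintype ι] (P : ι → X →L[ℝ] E) (v : X) (_ : ∀ j, P j v = e) (η : X →L[ℝ] E)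
      (F : 𝓢(X, ℂ)), ∃ a : ℕ → ℝ → ℂ, (∀ n J, HasPow h₁ J (a n)) ∧ ∃ C, 0 ≤ C ∧
        ∀ h, 0 < h → h ≤ h₁ →
          ‖Ifun μ s e P v h 0 (Fintype.card ι) (SchwartzMap.smulLeftCLM ℂ (fun x => g h (η x)) F)
            - ∑ n ∈ Finset.range N, (m h) ^ n * a n h‖ ≤ C * ‖m h‖ ^ N := by
  have hh0 : 1 / (2 * s) ≤ 1 := by
    rw [div_le_one (by linarith)]; linarith
  have hcond : ∀ h, 0 < h → h ≤ h₁ → 2 * s * h ≤ 1 := by
    intro h hh hh1
    have := hh1.trans h₁le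
    rw [le_div_iff₀ (by linarith)] at this
    linarith
  induction N with
  | zero =>
    intro X _ _ _ _ _ μ _ ι _ P v hv η F
    obtain ⟨C, hC0, hC⟩ := ((bddFam_const (α := Ioc (0 : ℝ) h₁) F).mulU (hg.comp_clm η)).N1 μ v
      (Fintype.card ι + 1)
    refine ⟨fun _ _ => 0, fun n J => hasPow_const 0, 2 ^ (Fintype.card ι) * C, by positivity,
      fun h hh hh1 => ?_⟩
    simp only [Finset.range_zero, Finset.sum_empty, sub_zero, pow_zero, mul_one]
    refine (norm_Ifun_le μ e P v hs hh (hcond h hh hh1) (fun _ => le_rfl) _ le_rfl).trans ?_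
    gcongr
    exact hC ⟨h, hh, hh1⟩ h hh.le (hh1.trans (h₁le.trans hh0))
  | succ N ih =>
    intro X _ _ _ _ _ μ _ ι _ P v hv η F
    have hv' : ∀ o, nextP P o (v, e) = e := by
      rintro (_ | j)
      · rfl
      · exact hv j
    obtain ⟨a, ha, C, hC0, hC⟩ := ih (X × E) (μ.prod volume) (Option ι) (nextP P) (v, e) hv'
      (ContinuousLinearMap.snd ℝ X E) (nextF F V η)
    refine ⟨fun n => if n = 0 then (fun h => Ifun μ s e P v h 0 (Fintype.card ι)
        (Ftau F G η e (τ h))) else a (n - 1), fun n J => ?_, C, hC0, fun h hh hh1 => ?_⟩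
    · rcases Nat.eq_zero_or_pos n with rfl | hn
      · simp only [if_true]
        exact hasPow_Ifun_tau μ he P hv hs F G η h₁le (hpow J) hA hτA
      · simp only [hn.ne', if_false]
        exact ha _ J
    · have hgh : UBdd (fun _ : Unit => g h) := hg.reindex (fun _ : Unit => ⟨h, hh, hh1⟩)
      have hΓh : UBdd (fun _ : Unit => fun ξ => G (ξ + τ h • e)) :=
        uBdd_translate G (fun _ : Unit => τ h • e)
      obtain ⟨C', hC'0, hC'⟩ := conv_bound (E := E) hs he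
      obtain ⟨B0, hB00, hB0⟩ := hgh.2 0
      obtain ⟨B1, hB10, hB1⟩ := hgh.2 1
      obtain ⟨B2, hB20, hB2⟩ := hgh.2 2
      have hBB : ∀ i ≤ 2, ∀ x, ‖iteratedFDeriv ℝ i (g h) x‖ ≤ B0 + B1 + B2 := by
        intro i hi x
        interval_cases i
        · linarith [hB0 () x]
        · linarith [hB1 () x]
        · linarith [hB2 () x]
      have hrec := Ifun_rec μ he P hv hs hh (hcond h hh hh1) V hΓh hgh (hborn h hh hh1)
        (fun η ε hε => hC' h ε hh (hcond h hh hh1) hε V (g h) hgh _ hBB η) η F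
      have e2 : SchwartzMap.smulLeftCLM ℂ (fun x => G (η x + τ h • e)) F = Ftau F G η e (τ h) := rfl
      rw [hrec, e2, Finset.sum_range_succ']
      simp only [Nat.succ_ne_zero, if_false, if_true, Nat.add_sub_cancel, pow_zero, one_mul]
      have e3 : Ifun μ s e P v h 0 (Fintype.card ι) (Ftau F G η e (τ h))
          + m h * Ifun (μ.prod volume) s e (nextP P) (v, e) h 0 (Fintype.card (Option ι))
            (SchwartzMap.smulLeftCLM ℂ (fun p : X × E => g h p.2) (nextF F V η))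
          - (∑ k ∈ Finset.range N, (m h) ^ (k + 1) * a k h
            + Ifun μ s e P v h 0 (Fintype.card ι) (Ftau F G η e (τ h)))
          = m h * (Ifun (μ.prod volume) s e (nextP P) (v, e) h 0 (Fintype.card (Option ι))
            (SchwartzMap.smulLeftCLM ℂ (fun p : X × E => g h p.2) (nextF F V η))
            - ∑ k ∈ Finset.range N, (m h) ^ k * a k h) := by
        rw [mul_sub, Finset.mul_sum]
        have : ∀ k, m h * ((m h) ^ k * a k h) = (m h) ^ (k + 1) * a k h := fun k => by ring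
        simp_rw [this]
        ring
      rw [e3, norm_mul, pow_succ]
      calc _ ≤ ‖m h‖ * (C * ‖m h‖ ^ N) := by
            gcongr
            exact hC h hh hh1
        _ = _ := by ring

/-- Expansion of the amplitude `g h 0`. -/
theorem amp_expansion {s : ℝ} {e : E} {V G : 𝓢(E, ℂ)} {h₁ : ℝ} {m : ℝ → ℂ} {τ : ℝ → ℝ}
    {g : ℝ → E → ℂ} (hs : 1 / 2 < s) (he : ‖e‖ = 1) (h₁le : h₁ ≤ 1 / (2 * s))
    (hg : UBdd (fun h : Ioc (0 : ℝ) h₁ => g h))
    (hborn : ∀ h, 0 < h → h ≤ h₁ → BornEq s e h V (m h) (fun ξ => G (ξ + τ h • e)) (g h))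
    (hpow : ∀ J, HasPow h₁ J (fun h => ((τ h : ℝ) : ℂ)))
    {A : ℝ} (hA : 0 ≤ A) (hτA : ∀ h, 0 < h → h ≤ h₁ → |τ h| ≤ A * h) (N : ℕ) :
    ∃ a : ℕ → ℝ → ℂ, (∀ n J, HasPow h₁ J (a n)) ∧ ∃ C, 0 ≤ C ∧
        ∀ h, 0 < h → h ≤ h₁ →
          ‖g h 0 - G (τ h • e) - ∑ n ∈ Finset.range N, (m h) ^ (n + 1) * a n h‖
            ≤ C * ‖m h‖ ^ (N + 1) := by
  have hcond : ∀ h, 0 < h → h ≤ h₁ → 2 * s * h ≤ 1 := by
    intro h hh hh1
    have := hh1.trans h₁le
    rw [le_div_iff₀ (by linarith)] at this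
    linarith
  set Vn : 𝓢(E, ℂ) := SchwartzMap.compCLMOfContinuousLinearEquiv ℂ
    (ContinuousLinearEquiv.neg ℝ (M := E)) V with hVn
  have hVnx : ∀ ξ, Vn ξ = V (0 - ξ) := by
    intro ξ; rw [hVn]; simp
  obtain ⟨a, ha, C, hC0, hC⟩ := born_expansion hs he h₁le hg hborn hpow hA hτA N E volume Unit
    (fun _ => ContinuousLinearMap.id ℝ E) e (fun _ => rfl) (ContinuousLinearMap.id ℝ E) Vn
  refine ⟨a, ha, C, hC0, fun h hh hh1 => ?_⟩
  obtain ⟨ℓ, hℓ1, hℓ2⟩ := hborn h hh hh1 0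
  have hgh : UBdd (fun _ : Unit => g h) := hg.reindex (fun _ : Unit => ⟨h, hh, hh1⟩)
  have hlim := tendsto_Jfun_zero (volume : Measure E) (ι := Unit) he
    (fun _ => ContinuousLinearMap.id ℝ E) (v := e) (fun _ => rfl) hs hh (hcond h hh hh1)
    (SchwartzMap.smulLeftCLM ℂ (fun x => g h x) Vn) (le_refl (Fintype.card Unit))
  have hmap : Tendsto (fun ε : ℝ => (fun _ : Unit => ε)) (𝓝[>] 0) (epsFilter Unit) := by
    apply tendsto_nhdsWithin_iff.mpr
    constructor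
    · rw [tendsto_pi_nhds]
      intro _
      exact tendsto_id.mono_left nhdsWithin_le_nhds
    · filter_upwards [self_mem_nhdsWithin] with ε hε _
      exact hε
  have h2 := hlim.comp hmap
  have h3 : ∀ ε : ℝ, Jfun volume s e (fun _ : Unit => ContinuousLinearMap.id ℝ E) h
      (fun _ => ε) (SchwartzMap.smulLeftCLM ℂ (fun x => g h x) Vn) 0
      = ∫ ξ, (V (0 - ξ) * g h ξ) * qker s e h 0 ε ξ := by
    intro ε
    simp only [Jfun, Qker, Finset.univ_unique, Finset.prod_singleton,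
      ContinuousLinearMap.id_apply]
    refine integral_congr_ae (Eventually.of_forall fun ξ => ?_)
    simp only
    rw [SchwartzMap.smulLeftCLM_apply_apply (hgh.tg ()), hVnx, smul_eq_mul]
    ring
  have h4 : ℓ = Ifun volume s e (fun _ : Unit => ContinuousLinearMap.id ℝ E) e h 0
      (Fintype.card Unit) (SchwartzMap.smulLeftCLM ℂ (fun x => g h x) Vn) := by
    refine tendsto_nhds_unique hℓ1 (h2.congr fun ε => ?_)
    exact h3 ε
  have h5 := hC h hh hh1
  simp only [ContinuousLinearMap.id_apply] at h5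
  rw [← h4] at h5
  have h6 : g h 0 - G (τ h • e) - ∑ n ∈ Finset.range N, (m h) ^ (n + 1) * a n h
      = m h * (ℓ - ∑ n ∈ Finset.range N, (m h) ^ n * a n h) := by
    simp only [zero_add] at hℓ2
    rw [hℓ2, mul_sub, Finset.mul_sum]
    have : ∀ k, m h * ((m h) ^ k * a k h) = (m h) ^ (k + 1) * a k h := fun k => by ring
    simp_rw [this]
    ring
  rw [h6, norm_mul, pow_succ]
  calc _ ≤ ‖m h‖ * (C * ‖m h‖ ^ N) := by gcongr
    _ = _ := by ring

end

end FracScat
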