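import Mathlib

/-! # Fixed angle scattering for the fractional Schrödinger equation: definitions

`E` is a finite-dimensional real inner product space (in the result: `EuclideanSpace ℝ (Fin d)`).
The Fourier transform is Mathlib's `𝓕 f ξ = ∫ exp(-2πi⟨x,ξ⟩) f x dx`, so `(-Δ)^s` is the
multiplier `(2π‖ξ‖)^(2s)`. -/

open MeasureTheory Filter Complex Set Topology
open scoped Real ContDiff FourierTransform RealInnerProductSpace

namespace FracScat

variable {E : Type*} [NormedAddCommGroup E] [InnerProductSpace ℝ E] [FiniteDimensional ℝ E]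
  [MeasurableSpace E] [BorelSpace E]

/-- The bilinear pairing of `((-Δ)^s - (k^(2s) + iε))⁻¹ f` with the test function `φ`, written on
the Fourier side. -/
noncomputable def resolventPairing (s k ε : ℝ) (f φ : E → ℂ) : ℂ :=
  ∫ ξ : E, 𝓕 f ξ * 𝓕 φ (-ξ) /
    ((((2 * π * ‖ξ‖) ^ (2 * s) : ℝ) : ℂ) - ((k ^ (2 * s) : ℝ) : ℂ) - (ε : ℂ) * I)

/-- `w` is the outgoing solution of `((-Δ)^s - k^(2s)) w = f`, i.e. the one given by the limiting
absorption principle: `((-Δ)^s - (k^(2s) + iε))⁻¹ f → w` as `ε → 0+`, in the sense of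
distributions. -/
def IsOutgoing (s k : ℝ) (f w : E → ℂ) : Prop :=
  LocallyIntegrable w ∧ ∀ φ : E → ℂ, ContDiff ℝ ∞ φ → HasCompactSupport φ →
    Tendsto (fun ε : ℝ => resolventPairing s k ε f φ) (𝓝[>] 0) (𝓝 (∫ x, w x * φ x))

/-- `u` is a total field for the potential `V`, wave number `k` and incident direction `θ`:
`u = e^{ik⟨θ,x⟩} + u^{sc}` where `u^{sc}` is the outgoing solution of
`((-Δ)^s - k^(2s)) u^{sc} = V u`. -/
def IsTotalField (s k : ℝ) (V : E → ℂ) (θ : E) (u : E → ℂ) : Prop :=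
  LocallyIntegrable u ∧
    IsOutgoing s k (fun x => V x * u x) (fun x => u x - cexp (I * ((k * ⟪θ, x⟫ : ℝ) : ℂ)))

/-- The scattering amplitude in the direction `xhat` of the total field `u`. -/
noncomputable def amplitude (k : ℝ) (V : E → ℂ) (xhat : E) (u : E → ℂ) : ℂ :=
  ∫ y, cexp (-I * ((k * ⟪xhat, y⟫ : ℝ) : ℂ)) * V y * u y

end FracScat
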