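import Pool.Agent.Lib_helper32.FSMain

/-! # Existence of total fields: preliminaries -/

open MeasureTheory Filter Complex Set Topology
open scoped Real SchwartzMap LineDeriv ContDiff NNReal FourierTransform RealInnerProductSpace

namespace FracScat

section

variable {E : Type} [NormedAddCommGroup E] [InnerProductSpace ℝ E] [FiniteDimensional ℝ E]
  [MeasurableSpace E] [BorelSpace E]

/-- the limiting functional for one kernel -/
noncomputable def Lh (s : ℝ) (e : E) (h : ℝ) (F : 𝓢(E, ℂ)) : ℂ :=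
  Ifun volume s e (fun _ : Unit => ContinuousLinearMap.id ℝ E) e h 0 (Fintype.card Unit) F

lemma tendsto_Lh {s h : ℝ} {e : E} (he : ‖e‖ = 1) (hs : 1 / 2 < s) (hh : 0 < h) (hh1 : 2 * s * h ≤ 1)
    (F : 𝓢(E, ℂ)) :
    Tendsto (fun ε : ℝ => ∫ ξ, F ξ * qker s e h 0 ε ξ) (𝓝[>] 0) (𝓝 (Lh s e h F)) := by
  have hlim := tendsto_Jfun_zero (volume : Measure E) (ι := Unit) he
    (fun _ => ContinuousLinearMap.id ℝ E) (v := e) (fun _ => rfl) hs hh hh1
    F (le_refl (Fintype.card Unit))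
  have hmap : Tendsto (fun ε : ℝ => (fun _ : Unit => ε)) (𝓝[>] 0) (epsFilter Unit) := by
    apply tendsto_nhdsWithin_iff.mpr
    constructor
    · rw [tendsto_pi_nhds]
      intro _
      exact tendsto_id.mono_left nhdsWithin_le_nhds
    · filter_upwards [self_mem_nhdsWithin] with ε hε _
      exact hε
  refine (hlim.comp hmap).congr fun ε => ?_
  simp only [Function.comp_apply, Jfun, Qker, Finset.univ_unique, Finset.prod_singleton,
    ContinuousLinearMap.id_apply]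

omit [FiniteDimensional ℝ E] [MeasurableSpace E] [BorelSpace E] in
/-- pointwise product rule for `S2` -/
lemma S2_mul_le {H : E → ℂ} (hH : ContDiff ℝ ∞ H) (g F : 𝓢(E, ℂ)) (hF : ∀ ξ, F ξ = H ξ * g ξ)
    {B : ℝ} (ξ : E) (hB : ∀ i ≤ 2, ‖iteratedFDeriv ℝ i H ξ‖ ≤ B) : S2 F ξ ≤ 12 * B * S2 g ξ := by
  have hB0 : 0 ≤ B := (norm_nonneg _).trans (hB 0 (by norm_num))
  have hS : ∀ i ≤ 2, ‖iteratedFDeriv ℝ i g ξ‖ ≤ S2 g ξ := by
    intro i hi
    exact Finset.single_le_sum (f := fun i => ‖iteratedFDeriv ℝ i g ξ‖)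
      (fun _ _ => norm_nonneg _) (Finset.mem_range.mpr (by omega))
  have hS0 : 0 ≤ S2 g ξ := (norm_nonneg _).trans (hS 0 (by norm_num))
  have e1 : (F : E → ℂ) = fun x => H x * g x := funext hF
  have key : ∀ i ∈ Finset.range 3, ‖iteratedFDeriv ℝ i (fun x => H x * g x) ξ‖
      ≤ 4 * (B * S2 g ξ) := by
    intro i hi
    have hi' : i ≤ 2 := by have := Finset.mem_range.mp hi; omega
    have h1 := norm_iteratedFDeriv_mul_le (𝕜 := ℝ) (n := i) (N := ∞) hH (g.smooth ⊤) ξ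
      (mod_cast le_top)
    refine h1.trans ?_
    calc _ ≤ ∑ j ∈ Finset.range (i + 1), (i.choose j : ℝ) * (B * S2 g ξ) := by
          apply Finset.sum_le_sum
          intro j hj
          have hj' := Finset.mem_range.mp hj
          rw [mul_assoc]
          gcongr
          · exact hB j (by omega)
          · exact hS _ (by omega)
      _ = 2 ^ i * (B * S2 g ξ) := by
          rw [← Finset.sum_mul]
          congr 1
          exact_mod_cast Nat.sum_range_choose i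
      _ ≤ 4 * (B * S2 g ξ) := by
          gcongr
          interval_cases i <;> norm_num
  unfold S2
  rw [e1]
  calc _ ≤ ∑ _i ∈ Finset.range 3, 4 * (B * S2 g ξ) := Finset.sum_le_sum key
    _ = _ := by rw [Finset.sum_const, Finset.card_range]; simp [S2]; ring

/-- the character `ξ ↦ e^{2πi⟨ξ,x⟩}` -/
noncomputable def chx (x ξ : E) : ℂ := cexp (((2 * π * ⟪ξ, x⟫ : ℝ) : ℂ) * I)

omit [FiniteDimensional ℝ E] [MeasurableSpace E] [BorelSpace E] in
lemma chx_contDiff (x : E) : ContDiff ℝ ∞ (chx x) := by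
  unfold chx
  apply ContDiff.cexp
  apply ContDiff.mul _ contDiff_const
  apply Complex.ofRealCLM.contDiff.comp
  exact contDiff_const.mul (contDiff_id.inner ℝ contDiff_const)

lemma iteratedDeriv_cexp_real (c : ℂ) (j : ℕ) :
    iteratedDeriv j (fun t : ℝ => cexp (c * t)) = fun t : ℝ => c ^ j * cexp (c * t) := by
  induction j with
  | zero => ext t; simp
  | succ j ih =>
    rw [iteratedDeriv_succ, ih]
    ext t
    have h1 : HasDerivAt (fun t : ℝ => c ^ j * cexp (c * t)) (c ^ (j + 1) * cexp (c * t)) t := by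
      have h2 : HasDerivAt (fun t : ℝ => c * (t : ℂ)) c t := by
        simpa using (Complex.ofRealCLM.hasDerivAt (x := t)).const_mul c
      refine (h2.cexp.const_mul (c ^ j)).congr_deriv ?_
      rw [pow_succ]; ring
    exact h1.deriv

omit [FiniteDimensional ℝ E] [MeasurableSpace E] [BorelSpace E] in
lemma norm_iteratedFDeriv_chx (x ξ : E) (i : ℕ) :
    ‖iteratedFDeriv ℝ i (chx x) ξ‖ ≤ (2 * π * ‖x‖) ^ i := by
  have hsm : ContDiff ℝ ∞ (fun t : ℝ => cexp ((2 * π * I) * t)) := by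
    apply ContDiff.cexp
    exact contDiff_const.mul Complex.ofRealCLM.contDiff
  have e1 : chx x = fun ξ => (fun t : ℝ => cexp ((2 * π * I) * t)) ((innerSL ℝ x) ξ) := by
    ext ξ
    simp only [chx, innerSL_apply_apply]
    rw [real_inner_comm x ξ]
    push_cast
    congr 1
    ring
  rw [e1]
  refine (norm_iteratedFDeriv_comp_clm_le hsm (innerSL ℝ x) i ξ).trans ?_
  rw [norm_iteratedFDeriv_eq_norm_iteratedDeriv, iteratedDeriv_cexp_real, innerSL_apply_norm,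
    norm_mul, norm_pow, Complex.norm_exp]
  have h2 : ((2 * π * I) * ((innerSL ℝ x) ξ : ℝ) : ℂ).re = 0 := by simp
  rw [h2, Real.exp_zero, mul_one]
  have h3 : ‖(2 * π * I : ℂ)‖ = 2 * π := by
    rw [norm_mul, norm_mul, Complex.norm_I, Complex.norm_real, Real.norm_of_nonneg Real.pi_pos.le]
    simp
  rw [h3, ← mul_pow]

omit [FiniteDimensional ℝ E] [MeasurableSpace E] [BorelSpace E] in
lemma norm_iteratedFDeriv_chx_le (x ξ : E) {i : ℕ} (hi : i ≤ 2) :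
    ‖iteratedFDeriv ℝ i (chx x) ξ‖ ≤ (1 + 2 * π * ‖x‖) ^ 2 := by
  refine (norm_iteratedFDeriv_chx x ξ i).trans ?_
  have h0 : 0 ≤ 2 * π * ‖x‖ := by positivity
  calc (2 * π * ‖x‖) ^ i ≤ (1 + 2 * π * ‖x‖) ^ i := by gcongr; linarith
    _ ≤ _ := pow_le_pow_right₀ (by linarith) hi

omit [FiniteDimensional ℝ E] [MeasurableSpace E] [BorelSpace E] in
lemma chx_uBdd (x : E) : UBdd (fun _ : Unit => chx x) :=
  ⟨fun _ => chx_contDiff x, fun i => ⟨(2 * π * ‖x‖) ^ i, by positivity, fun _ ξ =>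
    norm_iteratedFDeriv_chx x ξ i⟩⟩

/-- modulation -/
noncomputable def modG (g : 𝓢(E, ℂ)) (x : E) : 𝓢(E, ℂ) := SchwartzMap.smulLeftCLM ℂ (chx x) g

omit [FiniteDimensional ℝ E] [MeasurableSpace E] [BorelSpace E] in
lemma modG_apply (g : 𝓢(E, ℂ)) (x ξ : E) : modG g x ξ = chx x ξ * g ξ := by
  rw [modG, SchwartzMap.smulLeftCLM_apply_apply ((chx_uBdd x).tg ()), smul_eq_mul]

omit [FiniteDimensional ℝ E] [MeasurableSpace E] [BorelSpace E] in
lemma S2_modG (g : 𝓢(E, ℂ)) (x ξ : E) : S2 (modG g x) ξ ≤ 12 * (1 + 2 * π * ‖x‖) ^ 2 * S2 g ξ :=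
  S2_mul_le (chx_contDiff x) g _ (modG_apply g x) ξ fun _ hi => norm_iteratedFDeriv_chx_le x ξ hi

lemma integral_S2_modG (g : 𝓢(E, ℂ)) (x : E) :
    ∫ ξ, S2 (modG g x) ξ ≤ 12 * (1 + 2 * π * ‖x‖) ^ 2 * ∫ ξ, S2 g ξ := by
  rw [← integral_const_mul]
  exact integral_mono (integrable_S2 _) ((integrable_S2 g).const_mul _) (S2_modG g x)

/-- the scattered wave at level `ε` -/
noncomputable def weps (s : ℝ) (e : E) (h : ℝ) (g : 𝓢(E, ℂ)) (ε : ℝ) (x : E) : ℂ :=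
  (mfun s h : ℂ) * (chx x (h⁻¹ • e) * ∫ ξ, modG g x ξ * qker s e h 0 ε ξ)

/-- the scattered wave -/
noncomputable def wfun (s : ℝ) (e : E) (h : ℝ) (g : 𝓢(E, ℂ)) (x : E) : ℂ :=
  (mfun s h : ℂ) * (chx x (h⁻¹ • e) * Lh s e h (modG g x))

lemma tendsto_weps {s h : ℝ} {e : E} (he : ‖e‖ = 1) (hs : 1 / 2 < s) (hh : 0 < h)
    (hh1 : 2 * s * h ≤ 1) (g : 𝓢(E, ℂ)) (x : E) :
    Tendsto (fun ε : ℝ => weps s e h g ε x) (𝓝[>] 0) (𝓝 (wfun s e h g x)) :=
  ((tendsto_Lh he hs hh hh1 (modG g x)).const_mul _).const_mul _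

omit [FiniteDimensional ℝ E] [MeasurableSpace E] [BorelSpace E] in
lemma norm_chx (x ξ : E) : ‖chx x ξ‖ = 1 := by
  rw [chx, Complex.norm_exp_ofReal_mul_I]

lemma norm_weps_le {s : ℝ} {e : E} {C : ℝ}
    (hC : ∀ h ε, 0 < h → 2 * s * h ≤ 1 → 0 < ε → ∀ F : 𝓢(E, ℂ),
      ‖∫ ξ, F ξ * qker s e h 0 ε ξ‖ ≤ C * ∫ ξ, S2 F ξ) (hC0 : 0 ≤ C) {h ε : ℝ} (hh : 0 < h)
    (hh1 : 2 * s * h ≤ 1) (hε : 0 < ε) (g : 𝓢(E, ℂ)) (x : E) :
    ‖weps s e h g ε x‖ ≤ mfun s h * (C * (12 * (1 + 2 * π * ‖x‖) ^ 2 * ∫ ξ, S2 g ξ)) := by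
  rw [weps, norm_mul, norm_mul, norm_chx, one_mul, Complex.norm_real,
    Real.norm_of_nonneg (mfun_pos hh).le]
  have h1 := (hC h ε hh hh1 hε (modG g x)).trans
    (mul_le_mul_of_nonneg_left (integral_S2_modG g x) hC0)
  have := (mfun_pos (s := s) hh).le
  gcongr

lemma norm_wfun_le {s : ℝ} {e : E} (he : ‖e‖ = 1) (hs : 1 / 2 < s) {C : ℝ}
    (hC : ∀ h ε, 0 < h → 2 * s * h ≤ 1 → 0 < ε → ∀ F : 𝓢(E, ℂ),
      ‖∫ ξ, F ξ * qker s e h 0 ε ξ‖ ≤ C * ∫ ξ, S2 F ξ) (hC0 : 0 ≤ C) {h : ℝ} (hh : 0 < h)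
    (hh1 : 2 * s * h ≤ 1) (g : 𝓢(E, ℂ)) (x : E) :
    ‖wfun s e h g x‖ ≤ mfun s h * (C * (12 * (1 + 2 * π * ‖x‖) ^ 2 * ∫ ξ, S2 g ξ)) := by
  refine le_of_tendsto (tendsto_weps he hs hh hh1 g x).norm ?_
  filter_upwards [self_mem_nhdsWithin] with ε hε
  exact norm_weps_le hC hC0 hh hh1 hε g x

end

end FracScat
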