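import Pool.Agent.Lib_helper32.FSExA

/-! # Existence of total fields: the scattered wave solves the equation weakly -/

open MeasureTheory Filter Complex Set Topology
open scoped Real SchwartzMap LineDeriv ContDiff NNReal FourierTransform RealInnerProductSpace

namespace FracScat

section

variable {E : Type} [NormedAddCommGroup E] [InnerProductSpace ℝ E] [FiniteDimensional ℝ E]
  [MeasurableSpace E] [BorelSpace E]

omit [FiniteDimensional ℝ E] in
lemma measurable_qker_x (s : ℝ) (e : E) (h ε : ℝ) : Measurable (fun ξ : E => qker s e h 0 ε ξ) := by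
  have := (measurable_qker s e h ε).comp
    (measurable_const.prodMk measurable_id : Measurable (fun ξ : E => ((0 : ℝ), ξ)))
  exact this

omit [FiniteDimensional ℝ E] [MeasurableSpace E] [BorelSpace E] in
lemma norm_qker_le_zero {s h ε : ℝ} (e ξ : E) (hs : 1 / 2 < s) (hh : 0 < h) (hh1 : 2 * s * h ≤ 1)
    (hε : 0 < ε) : ‖qker s e h 0 ε ξ‖ ≤ 2 * h / ε :=
  norm_qker_le_eps e ξ hs hh hh1 le_rfl zero_le_one hε

lemma integrable_mul_qker {s h ε : ℝ} (e : E) (hs : 1 / 2 < s) (hh : 0 < h) (hh1 : 2 * s * h ≤ 1)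
    (hε : 0 < ε) {g : E → ℂ} (hg : Integrable g) :
    Integrable (fun ξ => g ξ * qker s e h 0 ε ξ) :=
  hg.mul_bdd (measurable_qker_x s e h ε).aestronglyMeasurable
    (Eventually.of_forall fun ξ => norm_qker_le_zero e ξ hs hh hh1 hε)

omit [FiniteDimensional ℝ E] [MeasurableSpace E] [BorelSpace E] in
lemma continuous_chx : Continuous (fun p : E × E => chx p.1 p.2) := by
  unfold chx
  fun_prop

lemma measurable_weps (s : ℝ) (e : E) (h : ℝ) (g : 𝓢(E, ℂ)) (ε : ℝ) :
    Measurable (weps s e h g ε) := by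
  unfold weps
  apply Measurable.const_mul
  apply Measurable.mul
  · exact (continuous_chx.comp (continuous_id.prodMk continuous_const)).measurable
  · have hmeas : Measurable (fun p : E × E => modG g p.1 p.2 * qker s e h 0 ε p.2) := by
      simp_rw [modG_apply]
      apply Measurable.mul
      · exact continuous_chx.measurable.mul (g.continuous.measurable.comp measurable_snd)
      · exact (measurable_qker_x s e h ε).comp measurable_snd
    exact (hmeas.stronglyMeasurable.integral_prod_right (ν := volume)).measurable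

lemma measurable_wfun {s h : ℝ} {e : E} (he : ‖e‖ = 1) (hs : 1 / 2 < s) (hh : 0 < h)
    (hh1 : 2 * s * h ≤ 1) (g : 𝓢(E, ℂ)) : Measurable (wfun s e h g) := by
  have hlim : Tendsto (fun n : ℕ => (1 : ℝ) / (n + 1)) atTop (𝓝[>] 0) := by
    apply tendsto_nhdsWithin_iff.mpr
    exact ⟨tendsto_one_div_add_atTop_nhds_zero_nat, Eventually.of_forall fun n => by
      simp only [mem_Ioi]; positivity⟩
  refine measurable_of_tendsto_metrizable (f := fun n : ℕ => weps s e h g (1 / (n + 1)))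
    (fun n => measurable_weps s e h g _) ?_
  rw [tendsto_pi_nhds]
  intro x
  exact (tendsto_weps he hs hh hh1 g x).comp hlim

/-- polynomial bound function -/
noncomputable def polyB (x : E) : ℝ := 12 * (1 + 2 * π * ‖x‖) ^ 2

omit [FiniteDimensional ℝ E] [MeasurableSpace E] [BorelSpace E] in
lemma continuous_polyB : Continuous (polyB : E → ℝ) := by
  unfold polyB
  fun_prop

omit [FiniteDimensional ℝ E] [MeasurableSpace E] [BorelSpace E] in
lemma polyB_nonneg (x : E) : 0 ≤ polyB x := by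
  unfold polyB
  positivity

lemma locallyIntegrable_wfun {s : ℝ} {e : E} (he : ‖e‖ = 1) (hs : 1 / 2 < s) {C : ℝ}
    (hC : ∀ h ε, 0 < h → 2 * s * h ≤ 1 → 0 < ε → ∀ F : 𝓢(E, ℂ),
      ‖∫ ξ, F ξ * qker s e h 0 ε ξ‖ ≤ C * ∫ ξ, S2 F ξ) (hC0 : 0 ≤ C) {h : ℝ} (hh : 0 < h)
    (hh1 : 2 * s * h ≤ 1) (g : 𝓢(E, ℂ)) : LocallyIntegrable (wfun s e h g) := by
  have hc : Continuous (fun x : E => mfun s h * (C * (polyB x * ∫ ξ, S2 g ξ))) := by
    have := continuous_polyB (E := E)
    fun_prop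
  refine hc.locallyIntegrable.mono (measurable_wfun he hs hh hh1 g).aestronglyMeasurable
    (Eventually.of_forall fun x => ?_)
  refine (norm_wfun_le he hs hC hC0 hh hh1 g x).trans ?_
  rw [Real.norm_eq_abs]
  exact le_abs_self _

omit [FiniteDimensional ℝ E] [MeasurableSpace E] [BorelSpace E] in
lemma chx_add (x ξ ζ : E) : chx x (ξ + ζ) = chx x ξ * chx x ζ := by
  simp only [chx]
  rw [← Complex.exp_add, inner_add_left]
  congr 1
  push_cast
  ring

lemma fourier_neg_eq (φ : E → ℂ) (ζ : E) : 𝓕 φ (-ζ) = ∫ x, chx x ζ * φ x := by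
  rw [Real.fourier_eq']
  refine integral_congr_ae (Eventually.of_forall fun x => ?_)
  simp only [chx, smul_eq_mul]
  congr 2
  rw [inner_neg_right, real_inner_comm x ζ]
  push_cast
  ring

/-- Fubini -/
lemma pairing_eq {s h ε : ℝ} (e : E) (hs : 1 / 2 < s) (hh : 0 < h) (hh1 : 2 * s * h ≤ 1)
    (hε : 0 < ε) (g : 𝓢(E, ℂ)) {φ : E → ℂ} (hφ : Integrable φ) :
    (mfun s h : ℂ) * ∫ ξ, (𝓕 φ (-(ξ + h⁻¹ • e)) * g ξ) * qker s e h 0 ε ξ
      = ∫ x, weps s e h g ε x * φ x := by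
  have hgq := integrable_mul_qker e hs hh hh1 hε g.integrable
  have hprod : Integrable (fun z : E × E => (chx z.1 z.2 * chx z.1 (h⁻¹ • e)) *
      (φ z.1 * (g z.2 * qker s e h 0 ε z.2))) (volume.prod volume) := by
    apply (hφ.mul_prod hgq).bdd_mul (c := 1)
    · have h2 : Continuous (fun z : E × E => chx z.1 (h⁻¹ • e)) :=
        continuous_chx.comp (continuous_fst.prodMk continuous_const)
      exact (continuous_chx.mul h2).aestronglyMeasurable
    · refine Eventually.of_forall fun z => ?_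
      rw [norm_mul, norm_chx, norm_chx, one_mul]
  have h1 : ∫ ξ, (𝓕 φ (-(ξ + h⁻¹ • e)) * g ξ) * qker s e h 0 ε ξ
      = ∫ ξ, ∫ x, (chx x ξ * chx x (h⁻¹ • e)) * (φ x * (g ξ * qker s e h 0 ε ξ)) := by
    refine integral_congr_ae (Eventually.of_forall fun ξ => ?_)
    simp only
    rw [fourier_neg_eq, mul_assoc, ← integral_mul_const]
    refine integral_congr_ae (Eventually.of_forall fun x => ?_)
    simp only
    rw [chx_add]
    ring
  rw [h1, ← integral_integral_swap hprod, ← integral_const_mul]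
  refine integral_congr_ae (Eventually.of_forall fun x => ?_)
  simp only [weps]
  have h2 : ∫ ξ, (chx x ξ * chx x (h⁻¹ • e)) * (φ x * (g ξ * qker s e h 0 ε ξ))
      = (chx x (h⁻¹ • e) * φ x) * ∫ ξ, modG g x ξ * qker s e h 0 ε ξ := by
    rw [← integral_const_mul]
    refine integral_congr_ae (Eventually.of_forall fun ξ => ?_)
    simp only
    rw [modG_apply]
    ring
  rw [h2]
  ring

lemma integrable_polyB_mul {φ : E → ℂ} (hφ : Integrable φ) {R : ℝ} (hR : ∀ x, R < ‖x‖ → φ x = 0) :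
    Integrable (fun x => polyB x * ‖φ x‖) := by
  refine (hφ.norm.const_mul (12 * (1 + 2 * π * |R|) ^ 2)).mono' ?_ (Eventually.of_forall fun x => ?_)
  · exact continuous_polyB.aestronglyMeasurable.mul hφ.norm.aestronglyMeasurable
  · rw [norm_mul, norm_norm, Real.norm_of_nonneg (polyB_nonneg x)]
    by_cases hx : R < ‖x‖
    · rw [hR x hx]; simp
    · push Not at hx
      unfold polyB
      gcongr
      exact hx.trans (le_abs_self _)

/-- bound of the pairing, uniform in `ε` -/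
lemma pairing_bound {s : ℝ} {e : E} {C : ℝ} (hs : 1 / 2 < s)
    (hC : ∀ h ε, 0 < h → 2 * s * h ≤ 1 → 0 < ε → ∀ F : 𝓢(E, ℂ),
      ‖∫ ξ, F ξ * qker s e h 0 ε ξ‖ ≤ C * ∫ ξ, S2 F ξ) (hC0 : 0 ≤ C) {h ε : ℝ} (hh : 0 < h)
    (hh1 : 2 * s * h ≤ 1) (hε : 0 < ε) (g : 𝓢(E, ℂ)) {φ : E → ℂ} (hφ : Integrable φ) {R : ℝ}
    (hR : ∀ x, R < ‖x‖ → φ x = 0) :
    ‖(mfun s h : ℂ) * ∫ ξ, (𝓕 φ (-(ξ + h⁻¹ • e)) * g ξ) * qker s e h 0 ε ξ‖
      ≤ (mfun s h * (C * ∫ ξ, S2 g ξ)) * ∫ x, polyB x * ‖φ x‖ := by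
  rw [pairing_eq e hs hh hh1 hε g hφ, ← integral_const_mul]
  refine norm_integral_le_of_norm_le ((integrable_polyB_mul hφ hR).const_mul _)
    (Eventually.of_forall fun x => ?_)
  rw [norm_mul]
  calc _ ≤ mfun s h * (C * (12 * (1 + 2 * π * ‖x‖) ^ 2 * ∫ ξ, S2 g ξ)) * ‖φ x‖ := by
        gcongr
        exact norm_weps_le hC hC0 hh hh1 hε g x
    _ = _ := by unfold polyB; ring

/-- the weak limit -/
lemma tendsto_pairing {s : ℝ} {e : E} (he : ‖e‖ = 1) (hs : 1 / 2 < s) {C : ℝ}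
    (hC : ∀ h ε, 0 < h → 2 * s * h ≤ 1 → 0 < ε → ∀ F : 𝓢(E, ℂ),
      ‖∫ ξ, F ξ * qker s e h 0 ε ξ‖ ≤ C * ∫ ξ, S2 F ξ) (hC0 : 0 ≤ C) {h : ℝ} (hh : 0 < h)
    (hh1 : 2 * s * h ≤ 1) (g : 𝓢(E, ℂ)) {φ : E → ℂ} (hφ : Integrable φ) {R : ℝ}
    (hR : ∀ x, R < ‖x‖ → φ x = 0) :
    Tendsto (fun ε : ℝ => (mfun s h : ℂ) * ∫ ξ, (𝓕 φ (-(ξ + h⁻¹ • e)) * g ξ) * qker s e h 0 ε ξ)
      (𝓝[>] 0) (𝓝 (∫ x, wfun s e h g x * φ x)) := by
  have h1 : Tendsto (fun ε : ℝ => ∫ x, weps s e h g ε x * φ x) (𝓝[>] 0)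
      (𝓝 (∫ x, wfun s e h g x * φ x)) := by
    apply tendsto_integral_filter_of_dominated_convergence
      (fun x => (mfun s h * (C * ∫ ξ, S2 g ξ)) * (polyB x * ‖φ x‖))
    · exact Eventually.of_forall fun ε =>
        (measurable_weps s e h g ε).aestronglyMeasurable.mul hφ.aestronglyMeasurable
    · filter_upwards [self_mem_nhdsWithin] with ε hε
      refine Eventually.of_forall fun x => ?_
      rw [norm_mul]
      calc _ ≤ mfun s h * (C * (12 * (1 + 2 * π * ‖x‖) ^ 2 * ∫ ξ, S2 g ξ)) * ‖φ x‖ := by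
            gcongr
            exact norm_weps_le hC hC0 hh hh1 hε g x
        _ = _ := by unfold polyB; ring
    · exact (integrable_polyB_mul hφ hR).const_mul _
    · exact Eventually.of_forall fun x => (tendsto_weps he hs hh hh1 g x).mul_const _
  refine h1.congr' ?_
  filter_upwards [self_mem_nhdsWithin] with ε hε
  exact (pairing_eq e hs hh hh1 hε g hφ).symm

end

end FracScat
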