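import Pool.Agent.Lib_helper32.FSExB

/-! # Existence of total fields: one step of the Neumann series -/

open MeasureTheory Filter Complex Set Topology
open scoped Real SchwartzMap LineDeriv ContDiff NNReal FourierTransform RealInnerProductSpace

namespace FracScat

section

variable {E : Type} [NormedAddCommGroup E] [InnerProductSpace ℝ E] [FiniteDimensional ℝ E]
  [MeasurableSpace E] [BorelSpace E]

omit [FiniteDimensional ℝ E] [MeasurableSpace E] [BorelSpace E] in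
lemma weight_le (η ξ : E) (N : ℕ) : (1 + ‖η‖) ^ N ≤ (1 + ‖ξ‖) ^ N * (1 + ‖η - ξ‖) ^ N := by
  rw [← mul_pow]
  apply pow_le_pow_left₀ (by positivity)
  have h1 : ‖η‖ ≤ ‖ξ‖ + ‖η - ξ‖ := by
    have := norm_add_le ξ (η - ξ)
    rwa [add_sub_cancel] at this
  have h2 := mul_nonneg (norm_nonneg ξ) (norm_nonneg (η - ξ))
  nlinarith

lemma integrable_weight_iter (F : 𝓢(E, ℂ)) (N i : ℕ) :
    Integrable (fun y => (1 + ‖y‖) ^ N * ‖iteratedFDeriv ℝ i F y‖) := by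
  have h0 := F.integrable_pow_mul_iteratedFDeriv volume 0 i
  have h1 := F.integrable_pow_mul_iteratedFDeriv volume N i
  refine ((h0.add h1).const_mul (2 ^ (N - 1))).mono' ?_ (Eventually.of_forall fun y => ?_)
  · have : Continuous (fun y => iteratedFDeriv ℝ i F y) :=
      (F.smooth ⊤).continuous_iteratedFDeriv (mod_cast le_top)
    exact ((by fun_prop : Continuous fun y : E => (1 + ‖y‖) ^ N).mul this.norm).aestronglyMeasurable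
  · have h2 : (1 + ‖y‖) ^ N ≤ 2 ^ (N - 1) * (1 ^ N + ‖y‖ ^ N) :=
      add_pow_le zero_le_one (norm_nonneg y) N
    rw [norm_mul, norm_norm, Real.norm_of_nonneg (by positivity)]
    simp only [Pi.add_apply, pow_zero, one_mul]
    rw [one_pow] at h2
    calc _ ≤ (2 ^ (N - 1) * (1 + ‖y‖ ^ N)) * ‖iteratedFDeriv ℝ i F y‖ := by gcongr
      _ = _ := by ring

lemma integrable_weight_S2 (F : 𝓢(E, ℂ)) (N : ℕ) :
    Integrable (fun y => (1 + ‖y‖) ^ N * S2 F y) := by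
  unfold S2
  simp_rw [Finset.mul_sum]
  exact integrable_finsetSum _ fun i _ => integrable_weight_iter F N i

omit [MeasurableSpace E] [BorelSpace E] [FiniteDimensional ℝ E] in
/-- reflected translate -/
lemma exists_refl (V : 𝓢(E, ℂ)) (η : E) :
    ∃ W : 𝓢(E, ℂ), (∀ ξ, W ξ = V (η - ξ)) ∧ ∀ ξ, S2 W ξ ≤ S2 V (η - ξ) := by
  set Vn : 𝓢(E, ℂ) := SchwartzMap.compCLMOfContinuousLinearEquiv ℂ
    (ContinuousLinearEquiv.neg ℝ (M := E)) V with hVn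
  set W : 𝓢(E, ℂ) := SchwartzMap.compSubConstCLM ℂ η Vn with hW
  have hWx : ∀ ξ, W ξ = V (η - ξ) := by
    intro ξ
    rw [hW, SchwartzMap.compSubConstCLM_apply, hVn]
    simp
  have hWd : ∀ i ξ, ‖iteratedFDeriv ℝ i W ξ‖ ≤ ‖iteratedFDeriv ℝ i V (η - ξ)‖ := by
    intro i ξ
    have h1 : (W : E → ℂ) = fun ξ => (fun y => V (y + η)) ((-ContinuousLinearMap.id ℝ E) ξ) := by
      ext ξ
      rw [hWx]
      simp only [neg_apply, ContinuousLinearMap.id_apply]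
      congr 1; abel
    rw [h1]
    have hsm : ContDiff ℝ ∞ (fun y : E => V (y + η)) :=
      (V.smooth ⊤).comp (contDiff_id.add contDiff_const)
    refine (norm_iteratedFDeriv_comp_clm_le hsm _ i ξ).trans ?_
    rw [iteratedFDeriv_comp_add_right]
    have h2 : (-ContinuousLinearMap.id ℝ E) ξ + η = η - ξ := by
      simp only [neg_apply, ContinuousLinearMap.id_apply]
      abel
    rw [h2]
    apply mul_le_of_le_one_right (norm_nonneg _)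
    apply pow_le_one₀ (norm_nonneg _)
    rw [norm_neg]
    exact ContinuousLinearMap.norm_id_le
  exact ⟨W, hWx, fun ξ => Finset.sum_le_sum fun i _ => hWd i ξ⟩

/-- weighted convolution bound -/
lemma conv_weight (V g : 𝓢(E, ℂ)) (N : ℕ) {P : ℝ}
    (hP : ∀ i ≤ 2, ∀ ξ, (1 + ‖ξ‖) ^ N * ‖iteratedFDeriv ℝ i g ξ‖ ≤ P) (η : E) :
    ∃ F : 𝓢(E, ℂ), (∀ ξ, F ξ = V (η - ξ) * g ξ) ∧
      (1 + ‖η‖) ^ N * ∫ ξ, S2 F ξ ≤ 12 * P * ∫ y, (1 + ‖y‖) ^ N * S2 V y := by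
  have hP0 : 0 ≤ P := (by positivity : (0 : ℝ) ≤ _).trans (hP 0 (by norm_num) 0)
  obtain ⟨W, hW, hWS⟩ := exists_refl V η
  refine ⟨SchwartzMap.smulLeftCLM ℂ g W, fun ξ => ?_, ?_⟩
  · rw [SchwartzMap.smulLeftCLM_apply_apply g.hasTemperateGrowth, hW, smul_eq_mul, mul_comm]
  set F : 𝓢(E, ℂ) := SchwartzMap.smulLeftCLM ℂ g W with hF
  have hFx : ∀ ξ, F ξ = g ξ * W ξ := fun ξ => by
    rw [hF, SchwartzMap.smulLeftCLM_apply_apply g.hasTemperateGrowth, smul_eq_mul]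
  have hpt : ∀ ξ, (1 + ‖η‖) ^ N * S2 F ξ ≤ 12 * P * ((1 + ‖η - ξ‖) ^ N * S2 V (η - ξ)) := by
    intro ξ
    have hw : (0 : ℝ) < (1 + ‖ξ‖) ^ N := by positivity
    have h1 : S2 F ξ ≤ 12 * (P / (1 + ‖ξ‖) ^ N) * S2 W ξ := by
      apply S2_mul_le (g.smooth ⊤) W F hFx ξ
      intro i hi
      rw [le_div_iff₀ hw, mul_comm]
      exact hP i hi ξ
    have hS0 : 0 ≤ S2 V (η - ξ) := Finset.sum_nonneg fun _ _ => norm_nonneg _
    calc (1 + ‖η‖) ^ N * S2 F ξ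
        ≤ ((1 + ‖ξ‖) ^ N * (1 + ‖η - ξ‖) ^ N) * (12 * (P / (1 + ‖ξ‖) ^ N) * S2 V (η - ξ)) := by
          apply mul_le_mul (weight_le η ξ N) _ (Finset.sum_nonneg fun _ _ => norm_nonneg _)
            (by positivity)
          refine h1.trans ?_
          gcongr
          exact hWS ξ
      _ = _ := by field_simp
  rw [← integral_const_mul]
  calc _ ≤ ∫ ξ, 12 * P * ((1 + ‖η - ξ‖) ^ N * S2 V (η - ξ)) :=
        integral_mono ((integrable_S2 F).const_mul _)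
          (((integrable_weight_S2 V N).comp_sub_left η).const_mul _) hpt
    _ = _ := by
        rw [integral_const_mul, integral_sub_left_eq_self
          (fun y => (1 + ‖y‖) ^ N * S2 V y) volume η]

/-- weighted Bernstein inequality -/
lemma bernstein_weighted (χ : 𝓢(E, ℂ)) {f : E → ℂ} (hf : Integrable f)
    (hmom : ∀ n : ℕ, Integrable (fun x => ‖x‖ ^ n * ‖f x‖)) (hχ : ∀ x, χ x * f x = f x)
    (c : E) (N : ℕ) {B : ℝ} (hB : ∀ ξ, (1 + ‖ξ‖) ^ N * ‖𝓕 f (ξ + c)‖ ≤ B) (i : ℕ) (ξ : E) :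
    (1 + ‖ξ‖) ^ N * ‖iteratedFDeriv ℝ i (𝓕 f) (ξ + c)‖
      ≤ (∫ y, (1 + ‖y‖) ^ N * ‖iteratedFDeriv ℝ i (𝓕 χ : 𝓢(E, ℂ)) y‖) * B := by
  have hB0 : 0 ≤ B := (by positivity : (0 : ℝ) ≤ _).trans (hB 0)
  have hI := integrable_weight_iter (𝓕 χ : 𝓢(E, ℂ)) N i
  set K := ∫ y, (1 + ‖y‖) ^ N * ‖iteratedFDeriv ℝ i (𝓕 χ : 𝓢(E, ℂ)) y‖ with hK
  have hK0 : 0 ≤ K := integral_nonneg fun _ => by positivity
  have hwξ : (0 : ℝ) < (1 + ‖ξ‖) ^ N := by positivity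
  rw [mul_comm, ← le_div_iff₀ hwξ]
  apply ContinuousMultilinearMap.opNorm_le_bound (by positivity)
  intro v
  rw [iteratedFDeriv_fourier_apply hmom hf.aestronglyMeasurable]
  set χv : 𝓢(E, ℂ) := SchwartzMap.smulLeftCLM ℂ (mono v) χ with hχv
  have hχvx : ∀ x, χv x = mono v x * χ x := fun x => by
    rw [hχv, SchwartzMap.smulLeftCLM_apply_apply (mono_tg v), smul_eq_mul]
  have e1 : (fun x => mono v x * f x) = fun x => χv x * f x := by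
    ext x; rw [hχvx]; rw [mul_assoc, hχ x]
  rw [e1, fourier_mul_eq_conv χv hf]
  have e2 : ∀ ξ, (𝓕 χv : 𝓢(E, ℂ)) ξ = iteratedFDeriv ℝ i (𝓕 χ : 𝓢(E, ℂ)) ξ v := by
    intro ξ
    have h3 : ((𝓕 χ : 𝓢(E, ℂ)) : E → ℂ) = 𝓕 (χ : E → ℂ) := SchwartzMap.fourier_coe χ
    rw [h3, iteratedFDeriv_fourier_apply (schwartz_moments χ) χ.continuous.aestronglyMeasurable]
    have h4 : ((𝓕 χv : 𝓢(E, ℂ)) : E → ℂ) = 𝓕 (χv : E → ℂ) := SchwartzMap.fourier_coe χv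
    rw [h4]
    exact congrArg (fun g : E → ℂ => 𝓕 g ξ) (funext fun x => hχvx x)
  rw [← integral_add_right_eq_self _ c]
  have hbound : ∀ ζ, ‖(𝓕 χv : 𝓢(E, ℂ)) (ξ + c - (ζ + c)) * 𝓕 f (ζ + c)‖
      ≤ (B / (1 + ‖ξ‖) ^ N * ∏ j, ‖v j‖) *
        ((1 + ‖ξ - ζ‖) ^ N * ‖iteratedFDeriv ℝ i (𝓕 χ : 𝓢(E, ℂ)) (ξ - ζ)‖) := by
    intro ζ
    rw [norm_mul, e2, add_sub_add_right_eq_sub]
    have hwζ : (0 : ℝ) < (1 + ‖ζ‖) ^ N := by positivity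
    have h5 : ‖𝓕 f (ζ + c)‖ ≤ B / (1 + ‖ζ‖) ^ N := by
      rw [le_div_iff₀ hwζ, mul_comm]; exact hB ζ
    have h6 : B / (1 + ‖ζ‖) ^ N ≤ B / (1 + ‖ξ‖) ^ N * (1 + ‖ξ - ζ‖) ^ N := by
      rw [div_mul_eq_mul_div, div_le_div_iff₀ hwζ hwξ]
      have := weight_le ξ ζ N
      calc B * (1 + ‖ξ‖) ^ N ≤ B * ((1 + ‖ζ‖) ^ N * (1 + ‖ξ - ζ‖) ^ N) := by gcongr
        _ = _ := by ring
    calc _ ≤ (‖iteratedFDeriv ℝ i (𝓕 χ : 𝓢(E, ℂ)) (ξ - ζ)‖ * ∏ j, ‖v j‖) *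
          (B / (1 + ‖ξ‖) ^ N * (1 + ‖ξ - ζ‖) ^ N) := by
          gcongr
          · exact ContinuousMultilinearMap.le_opNorm _ _
          · exact h5.trans h6
      _ = _ := by ring
  calc _ ≤ ∫ ζ, (B / (1 + ‖ξ‖) ^ N * ∏ j, ‖v j‖) *
        ((1 + ‖ξ - ζ‖) ^ N * ‖iteratedFDeriv ℝ i (𝓕 χ : 𝓢(E, ℂ)) (ξ - ζ)‖) :=
        norm_integral_le_of_norm_le ((hI.comp_sub_left ξ).const_mul _) (Eventually.of_forall hbound)
    _ = _ := by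
        rw [integral_const_mul, integral_sub_left_eq_self
          (fun y => (1 + ‖y‖) ^ N * ‖iteratedFDeriv ℝ i (𝓕 χ : 𝓢(E, ℂ)) y‖) volume ξ, ← hK]
        ring

/-- the Fourier transform of `f` is Schwartz if it decays -/
lemma exists_schwartz (χ : 𝓢(E, ℂ)) {f : E → ℂ} (hf : Integrable f)
    (hmom : ∀ n : ℕ, Integrable (fun x => ‖x‖ ^ n * ‖f x‖)) (hχ : ∀ x, χ x * f x = f x)
    (c : E) (hdec : ∀ N : ℕ, ∃ B, ∀ ξ, (1 + ‖ξ‖) ^ N * ‖𝓕 f (ξ + c)‖ ≤ B) :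
    ∃ g : 𝓢(E, ℂ), ∀ ξ, g ξ = 𝓕 f (ξ + c) := by
  have hcd : ContDiff ℝ ∞ (𝓕 f) := contDiff_fourier_of_moments hmom
  refine ⟨⟨fun ξ => 𝓕 f (ξ + c), hcd.comp (contDiff_id.add contDiff_const), fun k n => ?_⟩,
    fun ξ => rfl⟩
  obtain ⟨B, hB⟩ := hdec k
  refine ⟨(∫ y, (1 + ‖y‖) ^ k * ‖iteratedFDeriv ℝ n (𝓕 χ : 𝓢(E, ℂ)) y‖) * B, fun ξ => ?_⟩
  rw [iteratedFDeriv_comp_add_right]
  refine le_trans ?_ (bernstein_weighted χ hf hmom hχ c k hB n ξ)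
  gcongr
  linarith [norm_nonneg ξ]

lemma decay_bound (g : 𝓢(E, ℂ)) (N : ℕ) :
    ∃ P, 0 ≤ P ∧ ∀ i ≤ 2, ∀ ξ, (1 + ‖ξ‖) ^ N * ‖iteratedFDeriv ℝ i g ξ‖ ≤ P := by
  have h1 : ∀ i : ℕ, ∃ P, 0 ≤ P ∧ ∀ ξ, (1 + ‖ξ‖) ^ N * ‖iteratedFDeriv ℝ i g ξ‖ ≤ P := by
    intro i
    obtain ⟨C, hC⟩ := g.decay N i
    obtain ⟨C', hC'⟩ := g.decay 0 i
    refine ⟨2 ^ (N - 1) * (|C'| + |C|), by positivity, fun ξ => ?_⟩
    have h2 : (1 + ‖ξ‖) ^ N ≤ 2 ^ (N - 1) * (1 ^ N + ‖ξ‖ ^ N) :=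
      add_pow_le zero_le_one (norm_nonneg ξ) N
    have h3 := (hC.2 ξ).trans (le_abs_self C)
    have h4 := (hC'.2 ξ).trans (le_abs_self C')
    rw [pow_zero, one_mul] at h4
    calc _ ≤ (2 ^ (N - 1) * (1 ^ N + ‖ξ‖ ^ N)) * ‖iteratedFDeriv ℝ i g ξ‖ := by gcongr
      _ = 2 ^ (N - 1) * (‖iteratedFDeriv ℝ i g ξ‖ + ‖ξ‖ ^ N * ‖iteratedFDeriv ℝ i g ξ‖) := by
          rw [one_pow]; ring
      _ ≤ _ := by gcongr
  choose P hP0 hP using h1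
  refine ⟨P 0 + P 1 + P 2, by have := hP0 0; have := hP0 1; have := hP0 2; positivity,
    fun i hi ξ => (hP i ξ).trans ?_⟩
  have := hP0 0; have := hP0 1; have := hP0 2
  interval_cases i <;> linarith

end

end FracScat
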