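import Pool.Agent.Lib_helper32.FSExC

/-! # Existence of total fields: the step and the Neumann series -/

open MeasureTheory Filter Complex Set Topology
open scoped Real SchwartzMap LineDeriv ContDiff NNReal FourierTransform RealInnerProductSpace

namespace FracScat

section

variable {E : Type} [NormedAddCommGroup E] [InnerProductSpace ℝ E] [FiniteDimensional ℝ E]
  [MeasurableSpace E] [BorelSpace E]

/-- constant of the step -/
noncomputable def DN (χ V : 𝓢(E, ℂ)) (C : ℝ) (N : ℕ) : ℝ :=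
  (∑ i ∈ Finset.range 3, ∫ y, (1 + ‖y‖) ^ N * ‖iteratedFDeriv ℝ i (𝓕 χ : 𝓢(E, ℂ)) y‖) *
    (C * (12 * ∫ y, (1 + ‖y‖) ^ N * S2 (𝓕 V : 𝓢(E, ℂ)) y))

lemma fourier_Vw (V : 𝓢(E, ℂ)) (w : E → ℂ) (η : E) :
    𝓕 (fun x => V x * w x) η = ∫ x, w x * modV V η x := by
  rw [Real.fourier_eq']
  refine integral_congr_ae (Eventually.of_forall fun x => ?_)
  simp only [modV, smul_eq_mul]
  ring

lemma step {s : ℝ} {e : E} (he : ‖e‖ = 1) (hs : 1 / 2 < s) {C : ℝ}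
    (hC : ∀ h ε, 0 < h → 2 * s * h ≤ 1 → 0 < ε → ∀ F : 𝓢(E, ℂ),
      ‖∫ ξ, F ξ * qker s e h 0 ε ξ‖ ≤ C * ∫ ξ, S2 F ξ) (hC0 : 0 ≤ C) {V : 𝓢(E, ℂ)}
    (hV : HasCompactSupport V) {R : ℝ} (hR : ∀ x, R < ‖x‖ → V x = 0) {χ : 𝓢(E, ℂ)}
    (hχ : ∀ x, ‖x‖ ≤ R → χ x = 1) {h : ℝ} (hh : 0 < h) (hh1 : 2 * s * h ≤ 1) (g : 𝓢(E, ℂ)) :
    ∃ g' : 𝓢(E, ℂ), (∀ ξ, g' ξ = 𝓕 (fun x => V x * wfun s e h g x) (ξ + h⁻¹ • e)) ∧
      ∀ (N : ℕ) (P : ℝ), (∀ i ≤ 2, ∀ ξ, (1 + ‖ξ‖) ^ N * ‖iteratedFDeriv ℝ i g ξ‖ ≤ P) →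
        ∀ i ≤ 2, ∀ ξ, (1 + ‖ξ‖) ^ N * ‖iteratedFDeriv ℝ i g' ξ‖ ≤ mfun s h * DN χ V C N * P := by
  set f : E → ℂ := fun x => V x * wfun s e h g x with hf
  have hloc := locallyIntegrable_wfun he hs hC hC0 hh hh1 g
  have hfi : Integrable f := integrable_Vu hV hloc
  have hfR : ∀ x, R < ‖x‖ → f x = 0 := fun x hx => by rw [hf]; simp [hR x hx]
  have hmom := moments_of_bdd hfi hfR
  have hχf : ∀ x, χ x * f x = f x := by
    intro x
    by_cases hx : R < ‖x‖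
    · rw [hfR x hx]; simp
    · rw [hχ x (not_lt.mp hx), one_mul]
  have hm0 := (mfun_pos (s := s) hh).le
  have hdec : ∀ (N : ℕ) (P : ℝ), (∀ i ≤ 2, ∀ ξ, (1 + ‖ξ‖) ^ N * ‖iteratedFDeriv ℝ i g ξ‖ ≤ P) →
      ∀ η, (1 + ‖η‖) ^ N * ‖𝓕 f (η + h⁻¹ • e)‖
        ≤ mfun s h * (C * (12 * P * ∫ y, (1 + ‖y‖) ^ N * S2 (𝓕 V : 𝓢(E, ℂ)) y)) := by
    intro N P hP η
    obtain ⟨F, hF, hFS⟩ := conv_weight (𝓕 V : 𝓢(E, ℂ)) g N hP η
    have hint : Integrable (modV V (η + h⁻¹ • e)) :=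
      (modV_contDiff V _).continuous.integrable_of_hasCompactSupport (modV_hasCompactSupport hV _)
    have hφR : ∀ x, R < ‖x‖ → modV V (η + h⁻¹ • e) x = 0 := fun x hx => by
      rw [modV, hR x hx, mul_zero]
    have hlim := tendsto_pairing he hs hC hC0 hh hh1 g hint hφR
    rw [← fourier_Vw] at hlim
    have hle : ∀ ε : ℝ, 0 < ε → ‖(mfun s h : ℂ) * ∫ ξ, (𝓕 (modV V (η + h⁻¹ • e)) (-(ξ + h⁻¹ • e)) * g ξ)
        * qker s e h 0 ε ξ‖ ≤ mfun s h * (C * ∫ ξ, S2 F ξ) := by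
      intro ε hε
      rw [norm_mul, Complex.norm_real, Real.norm_of_nonneg hm0]
      have e1 : ∫ ξ, (𝓕 (modV V (η + h⁻¹ • e)) (-(ξ + h⁻¹ • e)) * g ξ) * qker s e h 0 ε ξ
          = ∫ ξ, F ξ * qker s e h 0 ε ξ := by
        refine integral_congr_ae (Eventually.of_forall fun ξ => ?_)
        simp only
        rw [fourier_modV, hF]
        congr 4
        abel
      rw [e1]
      gcongr
      exact hC h ε hh hh1 hε F
    have h1 : ‖𝓕 f (η + h⁻¹ • e)‖ ≤ mfun s h * (C * ∫ ξ, S2 F ξ) := by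
      refine le_of_tendsto hlim.norm ?_
      filter_upwards [self_mem_nhdsWithin] with ε hε
      exact hle ε hε
    calc _ ≤ (1 + ‖η‖) ^ N * (mfun s h * (C * ∫ ξ, S2 F ξ)) := by gcongr
      _ = mfun s h * (C * ((1 + ‖η‖) ^ N * ∫ ξ, S2 F ξ)) := by ring
      _ ≤ _ := by gcongr
  obtain ⟨g', hg'⟩ := exists_schwartz χ hfi hmom hχf (h⁻¹ • e) (fun N => by
    obtain ⟨P, _, hP⟩ := decay_bound g N
    exact ⟨_, hdec N P hP⟩)
  refine ⟨g', hg', fun N P hP i hi ξ => ?_⟩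
  have hP0 : 0 ≤ P := (by positivity : (0 : ℝ) ≤ _).trans (hP 0 (by norm_num) 0)
  have h2 := bernstein_weighted χ hfi hmom hχf (h⁻¹ • e) N (hdec N P hP) i ξ
  have e2 : (g' : E → ℂ) = fun ξ => 𝓕 f (ξ + h⁻¹ • e) := funext hg'
  rw [e2, iteratedFDeriv_comp_add_right]
  refine h2.trans ?_
  have h3 : ∫ y, (1 + ‖y‖) ^ N * ‖iteratedFDeriv ℝ i (𝓕 χ : 𝓢(E, ℂ)) y‖
      ≤ ∑ i ∈ Finset.range 3, ∫ y, (1 + ‖y‖) ^ N * ‖iteratedFDeriv ℝ i (𝓕 χ : 𝓢(E, ℂ)) y‖ :=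
    Finset.single_le_sum (f := fun i => ∫ y, (1 + ‖y‖) ^ N * ‖iteratedFDeriv ℝ i (𝓕 χ : 𝓢(E, ℂ)) y‖)
      (fun _ _ => integral_nonneg fun _ => by positivity) (Finset.mem_range.mpr (by omega))
  have hI0 : 0 ≤ ∫ y, (1 + ‖y‖) ^ N * S2 (𝓕 V : 𝓢(E, ℂ)) y :=
    integral_nonneg fun y => mul_nonneg (by positivity) (Finset.sum_nonneg fun _ _ => norm_nonneg _)
  calc _ ≤ (∑ i ∈ Finset.range 3, ∫ y, (1 + ‖y‖) ^ N * ‖iteratedFDeriv ℝ i (𝓕 χ : 𝓢(E, ℂ)) y‖) *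
        (mfun s h * (C * (12 * P * ∫ y, (1 + ‖y‖) ^ N * S2 (𝓕 V : 𝓢(E, ℂ)) y))) := by
        gcongr
    _ = _ := by unfold DN; ring

lemma hasSum_integral_mul {us : ℕ → E → ℂ} (hmeas : ∀ n, Measurable (us n)) {Q : E → ℝ}
    (hb : ∀ n x, ‖us n x‖ ≤ Q x * (1 / 2) ^ n) {ψ : E → ℂ} (hψm : AEStronglyMeasurable ψ)
    (hψ : Integrable (fun x => Q x * ‖ψ x‖)) :
    HasSum (fun n => ∫ x, us n x * ψ x) (∫ x, (∑' n, us n x) * ψ x) := by
  have hpt : ∀ n x, ‖us n x * ψ x‖ ≤ (Q x * ‖ψ x‖) * (1 / 2) ^ n := by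
    intro n x
    rw [norm_mul]
    calc _ ≤ (Q x * (1 / 2) ^ n) * ‖ψ x‖ := by gcongr; exact hb n x
      _ = _ := by ring
  have hint : ∀ n, Integrable (fun x => us n x * ψ x) := fun n =>
    (hψ.mul_const _).mono' ((hmeas n).aestronglyMeasurable.mul hψm) (Eventually.of_forall (hpt n))
  have hsum : Summable (fun n => ∫ x, ‖us n x * ψ x‖) := by
    refine Summable.of_nonneg_of_le (fun n => integral_nonneg fun _ => norm_nonneg _) (fun n => ?_)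
      ((summable_geometric_of_lt_one (by norm_num) (by norm_num : (1 / 2 : ℝ) < 1)).mul_left
        (∫ x, Q x * ‖ψ x‖))
    rw [← integral_mul_const]
    exact integral_mono (hint n).norm (hψ.mul_const _) (hpt n)
  have h1 := hasSum_integral_of_summable_integral_norm hint hsum
  have h2 : ∫ x, ∑' n, us n x * ψ x = ∫ x, (∑' n, us n x) * ψ x := by
    refine integral_congr_ae (Eventually.of_forall fun x => ?_)
    simp only
    rw [tsum_mul_right]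
  rwa [h2] at h1

lemma resolventPairing_gen {s h : ℝ} (hh : 0 < h) (e : E) (f φ : E → ℂ) (ε : ℝ) :
    resolventPairing s (2 * π / h) ((2 * π / h) ^ (2 * s) * ε) f φ
      = (mfun s h : ℂ) * ∫ ξ, (𝓕 φ (-(ξ + h⁻¹ • e)) * 𝓕 f (ξ + h⁻¹ • e)) * qker s e h 0 ε ξ := by
  rw [resolventPairing, ← integral_add_right_eq_self _ (h⁻¹ • e), ← integral_const_mul]
  refine integral_congr_ae (Eventually.of_forall fun ξ => ?_)
  simp only
  rw [denom_eq hh, qker, mfun_eq hh]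
  have hc : (((2 * π / h) ^ (2 * s) : ℝ) : ℂ) ≠ 0 := by
    rw [Ne, Complex.ofReal_eq_zero]
    exact (Real.rpow_pos_of_pos (by positivity) _).ne'
  have hhc : (h : ℂ) ≠ 0 := by exact_mod_cast hh.ne'
  by_cases hb : bker s e h 0 ε ξ = 0
  · rw [hb]; simp
  · push_cast
    field_simp

lemma measurable_tsum {us : ℕ → E → ℂ} (hmeas : ∀ n, Measurable (us n)) {Q : E → ℝ}
    (hb : ∀ n x, ‖us n x‖ ≤ Q x * (1 / 2) ^ n) : Measurable (fun x => ∑' n, us n x) := by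
  have hs : ∀ x, Summable (fun n => us n x) := fun x =>
    Summable.of_norm_bounded ((summable_geometric_of_lt_one (by norm_num)
      (by norm_num : (1 / 2 : ℝ) < 1)).mul_left (Q x)) (fun n => hb n x)
  refine measurable_of_tendsto_metrizable (f := fun N x => ∑ n ∈ Finset.range N, us n x)
    (fun N => Finset.measurable_sum _ fun n _ => hmeas n) ?_
  rw [tendsto_pi_nhds]
  intro x
  exact (hs x).hasSum.tendsto_sum_nat

lemma norm_tsum_half_le {us : ℕ → E → ℂ} {Q : E → ℝ}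
    (hb : ∀ n x, ‖us n x‖ ≤ Q x * (1 / 2) ^ n) (x : E) : ‖∑' n, us n x‖ ≤ 2 * Q x := by
  have h1 : HasSum (fun n : ℕ => Q x * (1 / 2 : ℝ) ^ n) (Q x * 2) := by
    have := hasSum_geometric_two.mul_left (Q x)
    simpa using this
  have := tsum_of_norm_bounded h1 (fun n => hb n x)
  linarith

end

end FracScat
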