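import Pool.Agent.Lib_helper32.FSExD

/-! # Existence and uniqueness of total fields at high frequency -/

open MeasureTheory Filter Complex Set Topology
open scoped Real SchwartzMap LineDeriv ContDiff NNReal FourierTransform RealInnerProductSpace

namespace FracScat

section

variable {E : Type} [NormedAddCommGroup E] [InnerProductSpace ℝ E] [FiniteDimensional ℝ E]
  [MeasurableSpace E] [BorelSpace E]

/-- plane wave -/
noncomputable def eth (h : ℝ) (θ x : E) : ℂ := cexp (I * ((2 * π / h * ⟪θ, x⟫ : ℝ) : ℂ))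

omit [FiniteDimensional ℝ E] [MeasurableSpace E] [BorelSpace E] in
lemma norm_eth (h : ℝ) (θ x : E) : ‖eth h θ x‖ = 1 := by
  rw [eth, mul_comm, Complex.norm_exp_ofReal_mul_I]

omit [FiniteDimensional ℝ E] [MeasurableSpace E] [BorelSpace E] in
lemma continuous_eth (h : ℝ) (θ : E) : Continuous (eth h θ) := by
  unfold eth
  fun_prop

lemma fourier_V_eth (V : 𝓢(E, ℂ)) {h : ℝ} (θ η : E) :
    𝓕 (fun x => V x * eth h θ x) η = (𝓕 V : 𝓢(E, ℂ)) (η - h⁻¹ • θ) := by
  have h4 : ((𝓕 V : 𝓢(E, ℂ)) : E → ℂ) = 𝓕 (V : E → ℂ) := SchwartzMap.fourier_coe V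
  rw [h4, Real.fourier_eq', Real.fourier_eq']
  refine integral_congr_ae (Eventually.of_forall fun x => ?_)
  simp only [eth, smul_eq_mul]
  rw [mul_left_comm, ← Complex.exp_add, mul_comm]
  congr 2
  rw [inner_sub_right, real_inner_smul_right, real_inner_comm x θ]
  push_cast
  ring

theorem exists_totalField {s : ℝ} (hs : 1 / 2 < s) {e : E} (he : ‖e‖ = 1) {V : 𝓢(E, ℂ)}
    (hV : HasCompactSupport V) :
    ∃ h₁, 0 < h₁ ∧ h₁ ≤ 1 / (2 * s) ∧ ∀ h, 0 < h → h ≤ h₁ → ∀ θ : E,
      ∃ u : E → ℂ, IsTotalField s (2 * π / h) V θ u := by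
  obtain ⟨C, hC0, hC⟩ := lap_bound hs he
  obtain ⟨R, hR⟩ := exists_radius hV
  obtain ⟨χ, hχ⟩ := exists_cutoff (E := E) R
  set N : ℕ := Module.finrank ℝ E + 1 with hN
  obtain ⟨h₁, hh₁, hh₁', hsmall⟩ := exists_h1 hs (DN χ V C N)
  refine ⟨h₁, hh₁, hh₁', fun h hh hle θ => ?_⟩
  have hcond : 2 * s * h ≤ 1 := by
    have := hle.trans hh₁'
    rw [le_div_iff₀ (by linarith)] at this
    linarith
  have hm0 := (mfun_pos (s := s) hh).le
  have hcpos : 0 < (2 * π / h) ^ (2 * s) := Real.rpow_pos_of_pos (by positivity) _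
  choose nextG hnext1 hnext2 using fun g => step he hs hC hC0 hV hR hχ hh hcond g
  set g0 : 𝓢(E, ℂ) := transl (𝓕 V) (h⁻¹ • (e - θ)) with hg0
  set gs : ℕ → 𝓢(E, ℂ) := fun n => nextG^[n] g0 with hgs
  have hgs0 : gs 0 = g0 := rfl
  have hgsS : ∀ n, gs (n + 1) = nextG (gs n) := fun n => by
    rw [hgs]; exact Function.iterate_succ_apply' nextG n g0
  obtain ⟨P0, hP00, hP0⟩ := decay_bound g0 N
  have hP : ∀ n, ∀ i ≤ 2, ∀ ξ, (1 + ‖ξ‖) ^ N * ‖iteratedFDeriv ℝ i (gs n) ξ‖ ≤ P0 * (1 / 2) ^ n := by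
    intro n
    induction n with
    | zero => intro i hi ξ; rw [hgs0, pow_zero, mul_one]; exact hP0 i hi ξ
    | succ n ih =>
      intro i hi ξ
      rw [hgsS]
      refine (hnext2 (gs n) N _ ih i hi ξ).trans ?_
      calc mfun s h * DN χ V C N * (P0 * (1 / 2) ^ n) ≤ 1 / 2 * (P0 * (1 / 2) ^ n) := by
            gcongr
            exact hsmall h hh hle
        _ = _ := by rw [pow_succ]; ring
  set us : ℕ → E → ℂ := fun n => Nat.casesOn n (eth h θ) (fun n => wfun s e h (gs n)) with hus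
  have hus0 : us 0 = eth h θ := rfl
  have husS : ∀ n, us (n + 1) = wfun s e h (gs n) := fun n => rfl
  have hgu : ∀ n ξ, gs n ξ = 𝓕 (fun x => V x * us n x) (ξ + h⁻¹ • e) := by
    intro n ξ
    cases n with
    | zero =>
      rw [hgs0, hus0, fourier_V_eth, hg0, transl_apply, smul_sub, add_sub_assoc]
    | succ n => rw [hgsS, husS]; exact hnext1 (gs n) ξ
  -- integral bounds
  set Jd : ℝ := ∫ ξ : E, (1 + ‖ξ‖) ^ (-(N : ℝ)) with hJd
  have hJint : Integrable (fun ξ : E => (1 + ‖ξ‖) ^ (-(N : ℝ))) :=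
    integrable_one_add_norm (by rw [hN]; push_cast; linarith)
  have hJ0 : 0 ≤ Jd := integral_nonneg fun _ => by positivity
  have hS2pt : ∀ n ξ, S2 (gs n) ξ ≤ (3 * P0 * (1 / 2) ^ n) * (1 + ‖ξ‖) ^ (-(N : ℝ)) := by
    intro n ξ
    have hw : (0 : ℝ) < (1 + ‖ξ‖) ^ N := by positivity
    rw [Real.rpow_neg (by positivity), Real.rpow_natCast, ← div_eq_mul_inv, le_div_iff₀ hw, S2,
      Finset.sum_mul]
    calc _ ≤ ∑ _i ∈ Finset.range 3, P0 * (1 / 2) ^ n := by
          apply Finset.sum_le_sum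
          intro i hi
          rw [mul_comm]
          exact hP n i (by have := Finset.mem_range.mp hi; omega) ξ
      _ = _ := by rw [Finset.sum_const, Finset.card_range]; simp; ring
  have hσ : ∀ n, ∫ ξ, S2 (gs n) ξ ≤ (3 * P0 * Jd) * (1 / 2) ^ n := by
    intro n
    calc _ ≤ ∫ ξ : E, (3 * P0 * (1 / 2) ^ n) * (1 + ‖ξ‖) ^ (-(N : ℝ)) :=
          integral_mono (integrable_S2 _) (hJint.const_mul _) (hS2pt n)
      _ = _ := by rw [integral_const_mul, ← hJd]; ring
  set A : ℝ := mfun s h * (C * (3 * P0 * Jd)) with hA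
  have hA0 : 0 ≤ A := by positivity
  have hub : ∀ n x, ‖us (n + 1) x‖ ≤ (A * polyB x) * (1 / 2) ^ n := by
    intro n x
    rw [husS]
    refine (norm_wfun_le he hs hC hC0 hh hcond (gs n) x).trans ?_
    have := polyB_nonneg x
    calc _ = mfun s h * (C * (polyB x * ∫ ξ, S2 (gs n) ξ)) := by unfold polyB; ring
      _ ≤ mfun s h * (C * (polyB x * ((3 * P0 * Jd) * (1 / 2) ^ n))) := by
          gcongr; exact hσ n
      _ = _ := by rw [hA]; ring
  set Q : E → ℝ := fun x => (2 * A + 1) * (1 + polyB x) with hQ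
  have hQc : Continuous Q := by
    have := continuous_polyB (E := E)
    rw [hQ]; fun_prop
  have hub' : ∀ n x, ‖us n x‖ ≤ Q x * (1 / 2) ^ n := by
    intro n x
    have hp := polyB_nonneg x
    cases n with
    | zero =>
      rw [hus0, norm_eth, pow_zero, mul_one, hQ]
      simp only
      nlinarith
    | succ n =>
      refine (hub n x).trans ?_
      rw [pow_succ, hQ]
      simp only
      have h2 : (0 : ℝ) ≤ (1 / 2) ^ n := by positivity
      have h3 : A * polyB x ≤ (2 * A + 1) * (1 + polyB x) * (1 / 2) := by nlinarith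
      calc _ ≤ ((2 * A + 1) * (1 + polyB x) * (1 / 2)) * (1 / 2) ^ n := by gcongr
        _ = _ := by ring
  have humeas : ∀ n, Measurable (us n) := by
    intro n
    cases n with
    | zero => exact (continuous_eth h θ).measurable
    | succ n => rw [husS]; exact measurable_wfun he hs hh hcond (gs n)
  set u : E → ℂ := fun x => ∑' n, us n x with hu
  have hsummable : ∀ x, Summable (fun n => us n x) := fun x =>
    Summable.of_norm_bounded ((summable_geometric_of_lt_one (by norm_num)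
      (by norm_num : (1 / 2 : ℝ) < 1)).mul_left (Q x)) (fun n => hub' n x)
  have huQ : ∀ x, ‖u x‖ ≤ 2 * Q x := fun x => norm_tsum_half_le hub' x
  have hum : Measurable u := measurable_tsum humeas hub'
  have hloc : LocallyIntegrable u := by
    refine (continuous_const.mul hQc : Continuous fun x => 2 * Q x).locallyIntegrable.mono
      hum.aestronglyMeasurable (Eventually.of_forall fun x => ?_)
    exact (huQ x).trans (le_abs_self _)
  have hsc : ∀ x, u x - eth h θ x = ∑' n, us (n + 1) x := by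
    intro x
    rw [hu]
    simp only
    rw [(hsummable x).tsum_eq_zero_add, hus0]
    ring
  have hpsi : ∀ ψ : E → ℂ, Integrable ψ → (∃ R', ∀ x, R' < ‖x‖ → ψ x = 0) →
      Integrable (fun x => Q x * ‖ψ x‖) := by
    rintro ψ hψ ⟨R', hR'⟩
    have h1 := (hψ.norm.add (integrable_polyB_mul hψ hR')).const_mul (2 * A + 1)
    refine h1.congr (Eventually.of_forall fun x => ?_)
    simp only [Pi.add_apply, hQ]
    ring
  have hA_psi : ∀ ψ : E → ℂ, Integrable ψ → (∃ R', ∀ x, R' < ‖x‖ → ψ x = 0) →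
      Integrable (fun x => (A * polyB x) * ‖ψ x‖) := by
    rintro ψ hψ ⟨R', hR'⟩
    have h1 := (integrable_polyB_mul hψ hR').const_mul A
    refine h1.congr (Eventually.of_forall fun x => ?_)
    simp only
    ring
  -- the Fourier transform of `V u`
  have hFu : ∀ ξ, HasSum (fun n => gs n ξ) (𝓕 (fun x => V x * u x) (ξ + h⁻¹ • e)) := by
    intro ξ
    rw [fourier_Vw]
    have hint : Integrable (modV V (ξ + h⁻¹ • e)) :=
      (modV_contDiff V _).continuous.integrable_of_hasCompactSupport (modV_hasCompactSupport hV _)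
    have hφR : ∃ R', ∀ x, R' < ‖x‖ → modV V (ξ + h⁻¹ • e) x = 0 := ⟨R, fun x hx => by
      rw [modV, hR x hx, mul_zero]⟩
    have h1 := hasSum_integral_mul humeas hub' hint.aestronglyMeasurable (hpsi _ hint hφR)
    have h2 : (fun n => gs n ξ) = fun n => ∫ x, us n x * modV V (ξ + h⁻¹ • e) x :=
      funext fun n => by rw [hgu, fourier_Vw]
    rw [h2]
    exact h1
  have hnorm : ∀ n, ∫ ξ, ‖gs n ξ‖ ≤ (3 * P0 * Jd) * (1 / 2) ^ n := by
    intro n
    refine le_trans ?_ (hσ n)
    refine integral_mono (gs n).integrable.norm (integrable_S2 _) fun ξ => ?_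
    have := Finset.single_le_sum (f := fun i => ‖iteratedFDeriv ℝ i (gs n) ξ‖)
      (fun _ _ => norm_nonneg _) (Finset.mem_range.mpr (by norm_num : 0 < 3))
    simpa [S2] using this
  refine ⟨u, hloc, ?_, fun φ hφs hφc => ?_⟩
  · exact hloc.sub (continuous_eth h θ).locallyIntegrable
  -- the weak formulation
  have hφint : Integrable φ := hφs.continuous.integrable_of_hasCompactSupport hφc
  obtain ⟨R', hR'⟩ : ∃ R', ∀ x, R' < ‖x‖ → φ x = 0 := by
    obtain ⟨R', hR'⟩ := hφc.isCompact.isBounded.subset_closedBall 0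
    refine ⟨R', fun x hx => ?_⟩
    by_contra hne
    have := hR' (subset_tsupport _ hne)
    rw [mem_closedBall_zero_iff] at this
    linarith
  set p : ℕ → ℝ → ℂ := fun n ε =>
    (mfun s h : ℂ) * ∫ ξ, (𝓕 φ (-(ξ + h⁻¹ • e)) * gs n ξ) * qker s e h 0 ε ξ with hp
  have hptend : ∀ n, Tendsto (p n) (𝓝[>] 0) (𝓝 (∫ x, us (n + 1) x * φ x)) := fun n =>
    tendsto_pairing he hs hC hC0 hh hcond (gs n) hφint hR'
  have hpolyφ0 : 0 ≤ ∫ x, polyB x * ‖φ x‖ :=
    integral_nonneg fun x => mul_nonneg (polyB_nonneg x) (norm_nonneg _)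
  have hpb : ∀ ε : ℝ, 0 < ε → ∀ n, ‖p n ε‖ ≤ (A * ∫ x, polyB x * ‖φ x‖) * (1 / 2) ^ n := by
    intro ε hε n
    refine (pairing_bound hs hC hC0 hh hcond hε (gs n) hφint hR').trans ?_
    calc _ ≤ (mfun s h * (C * ((3 * P0 * Jd) * (1 / 2) ^ n))) * ∫ x, polyB x * ‖φ x‖ := by
          gcongr; exact hσ n
      _ = _ := by rw [hA]; ring
  have htan : Tendsto (fun ε => ∑' n, p n ε) (𝓝[>] 0) (𝓝 (∑' n, ∫ x, us (n + 1) x * φ x)) := by
    refine tendsto_tsum_of_dominated_convergence
      ((summable_geometric_of_lt_one (by norm_num) (by norm_num : (1 / 2 : ℝ) < 1)).mul_left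
        (A * ∫ x, polyB x * ‖φ x‖)) hptend ?_
    filter_upwards [self_mem_nhdsWithin] with ε hε
    exact hpb ε hε
  have hlimval : ∑' n, ∫ x, us (n + 1) x * φ x = ∫ x, (u x - eth h θ x) * φ x := by
    have h1 := hasSum_integral_mul (us := fun n => us (n + 1)) (fun n => humeas (n + 1)) hub
      hφint.aestronglyMeasurable (hA_psi φ hφint ⟨R', hR'⟩)
    rw [h1.tsum_eq]
    refine integral_congr_ae (Eventually.of_forall fun x => ?_)
    simp only
    rw [hsc x]
  have hFφc : Continuous (𝓕 φ) :=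
    (contDiff_fourier_of_moments (moments_of_bdd hφint hR')).continuous
  have hres : ∀ ε : ℝ, 0 < ε →
      ∑' n, p n ε = resolventPairing s (2 * π / h) ((2 * π / h) ^ (2 * s) * ε) (fun x => V x * u x) φ := by
    intro ε hε
    rw [resolventPairing_gen hh e]
    set F : ℕ → E → ℂ := fun n ξ => (𝓕 φ (-(ξ + h⁻¹ • e)) * gs n ξ) * qker s e h 0 ε ξ with hF
    have hm1 : Continuous (fun ξ : E => 𝓕 φ (-(ξ + h⁻¹ • e))) := by fun_prop
    have hFint : ∀ n, Integrable (F n) := by
      intro n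
      apply integrable_mul_qker e hs hh hcond hε
      exact (gs n).integrable.bdd_mul (c := ∫ x, ‖φ x‖) hm1.aestronglyMeasurable
        (Eventually.of_forall fun ξ => norm_fourier_le _)
    have hφ0 : 0 ≤ ∫ x, ‖φ x‖ := integral_nonneg fun _ => norm_nonneg _
    have hFsum : Summable (fun n => ∫ ξ, ‖F n ξ‖) := by
      refine Summable.of_nonneg_of_le (fun n => integral_nonneg fun _ => norm_nonneg _) (fun n => ?_)
        ((summable_geometric_of_lt_one (by norm_num) (by norm_num : (1 / 2 : ℝ) < 1)).mul_left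
          ((∫ x, ‖φ x‖) * (2 * h / ε) * (3 * P0 * Jd)))
      calc ∫ ξ, ‖F n ξ‖ ≤ ∫ ξ, ((∫ x, ‖φ x‖) * (2 * h / ε)) * ‖gs n ξ‖ := by
            refine integral_mono (hFint n).norm ((gs n).integrable.norm.const_mul _) fun ξ => ?_
            simp only [hF]
            rw [norm_mul, norm_mul]
            calc _ ≤ ((∫ x, ‖φ x‖) * ‖gs n ξ‖) * (2 * h / ε) := by
                  gcongr
                  · exact norm_fourier_le _
                  · exact norm_qker_le_zero e ξ hs hh hcond hε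
              _ = _ := by ring
        _ = ((∫ x, ‖φ x‖) * (2 * h / ε)) * ∫ ξ, ‖gs n ξ‖ := integral_const_mul _ _
        _ ≤ ((∫ x, ‖φ x‖) * (2 * h / ε)) * ((3 * P0 * Jd) * (1 / 2) ^ n) := by
            gcongr; exact hnorm n
        _ = _ := by ring
    have h1 := hasSum_integral_of_summable_integral_norm hFint hFsum
    have h2 : ∫ ξ, ∑' n, F n ξ
        = ∫ ξ, (𝓕 φ (-(ξ + h⁻¹ • e)) * 𝓕 (fun x => V x * u x) (ξ + h⁻¹ • e)) * qker s e h 0 ε ξ := by
      refine integral_congr_ae (Eventually.of_forall fun ξ => ?_)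
      simp only [hF]
      rw [tsum_mul_right, tsum_mul_left, (hFu ξ).tsum_eq]
    rw [h2] at h1
    rw [← h1.tsum_eq, hp]
    simp only
    rw [tsum_mul_left]
  have hT : Tendsto (fun ε => resolventPairing s (2 * π / h) ((2 * π / h) ^ (2 * s) * ε)
      (fun x => V x * u x) φ) (𝓝[>] 0) (𝓝 (∫ x, (u x - eth h θ x) * φ x)) := by
    rw [← hlimval]
    refine htan.congr' ?_
    filter_upwards [self_mem_nhdsWithin] with ε hε
    exact hres ε hε
  have hmap : Tendsto (fun ε : ℝ => ((2 * π / h) ^ (2 * s))⁻¹ * ε) (𝓝[>] 0) (𝓝[>] 0) := by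
    apply tendsto_nhdsWithin_iff.mpr
    constructor
    · have : Tendsto (fun ε : ℝ => ((2 * π / h) ^ (2 * s))⁻¹ * ε) (𝓝 0)
          (𝓝 (((2 * π / h) ^ (2 * s))⁻¹ * 0)) := tendsto_id.const_mul _
      rw [mul_zero] at this
      exact this.mono_left nhdsWithin_le_nhds
    · filter_upwards [self_mem_nhdsWithin] with ε hε
      exact mul_pos (inv_pos.mpr hcpos) hε
  refine (hT.comp hmap).congr fun ε => ?_
  simp only [Function.comp_apply]
  rw [← mul_assoc, mul_inv_cancel₀ hcpos.ne', one_mul]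

end

end FracScat
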