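import Mathlib

/-! # Uniform power expansions in a small parameter -/

open MeasureTheory Filter Set Topology

namespace FracScat

variable {Y : Type*} [MeasurableSpace Y]

/-- `f h y = ∑_{j<J} h^j c_j y + O(h^J w(y)^K)` uniformly on `S`. -/
def ExpC (S : Set Y) (w : Y → ℝ) (h₀ : ℝ) (J : ℕ) (f : ℝ → Y → ℂ) (c : ℕ → Y → ℂ) : Prop :=
  (∀ j, Measurable (c j)) ∧ ∃ (K : ℕ) (C : ℝ), 0 ≤ C ∧ (∀ j < J, ∀ y ∈ S, ‖c j y‖ ≤ C * w y ^ K) ∧
    ∀ h, 0 < h → h ≤ h₀ → ∀ y ∈ S,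
      ‖f h y - ∑ j ∈ Finset.range J, (h : ℂ) ^ j * c j y‖ ≤ C * h ^ J * w y ^ K

/-- existence of an expansion -/
def HasExp (S : Set Y) (w : Y → ℝ) (h₀ : ℝ) (J : ℕ) (f : ℝ → Y → ℂ) : Prop :=
  ∃ c, ExpC S w h₀ J f c

variable {S : Set Y} {w : Y → ℝ} {h₀ : ℝ} {J : ℕ} {f g : ℝ → Y → ℂ}

lemma HasExp.congr (hf : HasExp S w h₀ J f) (hfg : ∀ h, 0 < h → h ≤ h₀ → ∀ y ∈ S, g h y = f h y) :
    HasExp S w h₀ J g := by
  obtain ⟨c, hc, K, C, hC, h1, h2⟩ := hf
  refine ⟨c, hc, K, C, hC, h1, fun h hh hh1 y hy => ?_⟩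
  rw [hfg h hh hh1 y hy]
  exact h2 h hh hh1 y hy

lemma ExpC.congr {c : ℕ → Y → ℂ} (hf : ExpC S w h₀ J f c)
    (hfg : ∀ h, 0 < h → h ≤ h₀ → ∀ y ∈ S, g h y = f h y) :
    ExpC S w h₀ J g c := by
  obtain ⟨hc, K, C, hC, h1, h2⟩ := hf
  refine ⟨hc, K, C, hC, h1, fun h hh hh1 y hy => ?_⟩
  rw [hfg h hh hh1 y hy]
  exact h2 h hh hh1 y hy

/-- a bounded-by-weight function -/
lemma HasExp.bound (hw : ∀ y ∈ S, 1 ≤ w y) (hf : HasExp S w h₀ J f) :
    ∃ (K : ℕ) (C : ℝ), 0 ≤ C ∧ ∀ h, 0 < h → h ≤ h₀ → h ≤ 1 → ∀ y ∈ S, ‖f h y‖ ≤ C * w y ^ K := by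
  obtain ⟨c, hc, K, C, hC, h1, h2⟩ := hf
  refine ⟨K, C * (J + 1), by positivity, fun h hh hh1 hh2 y hy => ?_⟩
  have h3 := h2 h hh hh1 y hy
  have hwy : 0 ≤ w y := by linarith [hw y hy]
  have h4 : ‖∑ j ∈ Finset.range J, (h : ℂ) ^ j * c j y‖ ≤ J * (C * w y ^ K) := by
    calc _ ≤ ∑ j ∈ Finset.range J, C * w y ^ K := by
          refine (norm_sum_le _ _).trans (Finset.sum_le_sum fun j hj => ?_)
          rw [norm_mul, norm_pow, Complex.norm_real, Real.norm_of_nonneg hh.le]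
          calc h ^ j * ‖c j y‖ ≤ 1 * (C * w y ^ K) :=
                mul_le_mul (pow_le_one₀ hh.le hh2) (h1 j (Finset.mem_range.mp hj) y hy)
                  (norm_nonneg _) (by norm_num)
            _ = _ := one_mul _
      _ = _ := by rw [Finset.sum_const, Finset.card_range, nsmul_eq_mul]
  have h5 : C * h ^ J * w y ^ K ≤ C * w y ^ K := by
    have : h ^ J ≤ 1 := pow_le_one₀ hh.le hh2
    have h6 : 0 ≤ C * w y ^ K := by positivity
    nlinarith
  calc ‖f h y‖ = ‖(f h y - ∑ j ∈ Finset.range J, (h : ℂ) ^ j * c j y)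
        + ∑ j ∈ Finset.range J, (h : ℂ) ^ j * c j y‖ := by congr 1; ring
    _ ≤ C * w y ^ K + J * (C * w y ^ K) := (norm_add_le _ _).trans (add_le_add (h3.trans h5) h4)
    _ = _ := by ring

/-- truncation -/
lemma ExpC.mono {c : ℕ → Y → ℂ} (hw : ∀ y ∈ S, 1 ≤ w y) (hh0 : h₀ ≤ 1)
    (hf : ExpC S w h₀ J f c) {J' : ℕ} (hJ : J' ≤ J) : ExpC S w h₀ J' f c := by
  obtain ⟨hc, K, C, hC, h1, h2⟩ := hf
  refine ⟨hc, K, C + (J - J' : ℕ) * C, by positivity, fun j hj y hy => ?_, fun h hh hh1 y hy => ?_⟩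
  · have hwy : 0 ≤ w y := by linarith [hw y hy]
    refine (h1 j (lt_of_lt_of_le hj hJ) y hy).trans ?_
    have h3 : 0 ≤ (J - J' : ℕ) * C * w y ^ K := by positivity
    nlinarith
  · have hwy : 0 ≤ w y := by linarith [hw y hy]
    have hle : h ≤ 1 := hh1.trans hh0
    have h3 := h2 h hh hh1 y hy
    have e1 : ∑ j ∈ Finset.range J, (h : ℂ) ^ j * c j y = ∑ j ∈ Finset.range J', (h : ℂ) ^ j * c j y
        + ∑ j ∈ Finset.Ico J' J, (h : ℂ) ^ j * c j y := by
      rw [Finset.range_eq_Ico, Finset.range_eq_Ico, Finset.sum_Ico_consecutive _ (Nat.zero_le _) hJ]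
    have h4 : ‖∑ j ∈ Finset.Ico J' J, (h : ℂ) ^ j * c j y‖ ≤ (J - J' : ℕ) * (C * h ^ J' * w y ^ K) := by
      calc _ ≤ ∑ j ∈ Finset.Ico J' J, C * h ^ J' * w y ^ K := by
            refine (norm_sum_le _ _).trans (Finset.sum_le_sum fun j hj => ?_)
            rw [norm_mul, norm_pow, Complex.norm_real, Real.norm_of_nonneg hh.le]
            have hj' := Finset.mem_Ico.mp hj
            calc h ^ j * ‖c j y‖ ≤ h ^ J' * (C * w y ^ K) :=
                  mul_le_mul (pow_le_pow_of_le_one hh.le hle hj'.1) (h1 j hj'.2 y hy)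
                    (norm_nonneg _) (by positivity)
              _ = _ := by ring
        _ = _ := by rw [Finset.sum_const, Nat.card_Ico, nsmul_eq_mul]
    have h5 : C * h ^ J * w y ^ K ≤ C * h ^ J' * w y ^ K := by
      have : h ^ J ≤ h ^ J' := pow_le_pow_of_le_one hh.le hle hJ
      gcongr
    calc ‖f h y - ∑ j ∈ Finset.range J', (h : ℂ) ^ j * c j y‖
        = ‖(f h y - ∑ j ∈ Finset.range J, (h : ℂ) ^ j * c j y)
          + ∑ j ∈ Finset.Ico J' J, (h : ℂ) ^ j * c j y‖ := by rw [e1]; congr 1; ring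
      _ ≤ C * h ^ J' * w y ^ K + (J - J' : ℕ) * (C * h ^ J' * w y ^ K) :=
          (norm_add_le _ _).trans (add_le_add (h3.trans h5) h4)
      _ = _ := by ring

lemma HasExp.mono (hw : ∀ y ∈ S, 1 ≤ w y) (hh0 : h₀ ≤ 1)
    (hf : HasExp S w h₀ J f) {J' : ℕ} (hJ : J' ≤ J) : HasExp S w h₀ J' f := by
  obtain ⟨c, hc⟩ := hf
  exact ⟨c, hc.mono hw hh0 hJ⟩

lemma hasExp_zero_of_bound {K : ℕ} {C : ℝ} (hC : 0 ≤ C)
    (hb : ∀ h, 0 < h → h ≤ h₀ → ∀ y ∈ S, ‖f h y‖ ≤ C * w y ^ K) : HasExp S w h₀ 0 f := by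
  refine ⟨fun _ _ => 0, fun _ => measurable_const, K, C, hC, fun j hj => absurd hj (Nat.not_lt_zero j),
    fun h hh hh1 y hy => ?_⟩
  simpa using hb h hh hh1 y hy

/-- functions not depending on `h` -/
lemma hasExp_const {a : Y → ℂ} (ha : Measurable a) (hw : ∀ y ∈ S, 1 ≤ w y) (K : ℕ) {C : ℝ} (hC : 0 ≤ C)
    (hb : ∀ y ∈ S, ‖a y‖ ≤ C * w y ^ K) (J : ℕ) : HasExp S w h₀ J (fun _ y => a y) := by
  rcases Nat.eq_zero_or_pos J with rfl | hJ
  · exact hasExp_zero_of_bound hC fun h _ _ y hy => hb y hy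
  refine ⟨fun j y => if j = 0 then a y else 0, fun j => ?_, K, C, hC, fun j _ y hy => ?_,
    fun h hh hh1 y hy => ?_⟩
  · by_cases hj : j = 0
    · simpa [hj] using ha
    · simp [hj]
  · by_cases hj : j = 0
    · simpa [hj] using hb y hy
    · have hwy : 0 ≤ w y := by linarith [hw y hy]
      simp [hj]; positivity
  · have hwy : 0 ≤ w y := by linarith [hw y hy]
    have e1 : ∑ j ∈ Finset.range J, (h : ℂ) ^ j * (if j = 0 then a y else 0) = a y := by
      rw [Finset.sum_eq_single_of_mem 0 (Finset.mem_range.mpr hJ)]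
      · simp
      · intro j _ hj; simp [hj]
    rw [e1, sub_self, norm_zero]
    positivity

lemma HasExp.add (hw : ∀ y ∈ S, 1 ≤ w y) (hf : HasExp S w h₀ J f) (hg : HasExp S w h₀ J g) :
    HasExp S w h₀ J (fun h y => f h y + g h y) := by
  obtain ⟨c, hc, K, C, hC, h1, h2⟩ := hf
  obtain ⟨c', hc', K', C', hC', h1', h2'⟩ := hg
  refine ⟨fun j y => c j y + c' j y, fun j => (hc j).add (hc' j), K + K', C + C', by positivity,
    fun j hj y hy => ?_, fun h hh hh1 y hy => ?_⟩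
  · have hwy := hw y hy
    have e1 : w y ^ K ≤ w y ^ (K + K') := pow_le_pow_right₀ hwy (Nat.le_add_right _ _)
    have e2 : w y ^ K' ≤ w y ^ (K + K') := pow_le_pow_right₀ hwy (Nat.le_add_left _ _)
    calc ‖c j y + c' j y‖ ≤ C * w y ^ K + C' * w y ^ K' :=
          (norm_add_le _ _).trans (add_le_add (h1 j hj y hy) (h1' j hj y hy))
      _ ≤ C * w y ^ (K + K') + C' * w y ^ (K + K') := by gcongr
      _ = _ := by ring
  · have hwy := hw y hy
    have e1 : w y ^ K ≤ w y ^ (K + K') := pow_le_pow_right₀ hwy (Nat.le_add_right _ _)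
    have e2 : w y ^ K' ≤ w y ^ (K + K') := pow_le_pow_right₀ hwy (Nat.le_add_left _ _)
    have e3 : f h y + g h y - ∑ j ∈ Finset.range J, (h : ℂ) ^ j * (c j y + c' j y)
        = (f h y - ∑ j ∈ Finset.range J, (h : ℂ) ^ j * c j y)
          + (g h y - ∑ j ∈ Finset.range J, (h : ℂ) ^ j * c' j y) := by
      simp_rw [mul_add]
      rw [Finset.sum_add_distrib]; ring
    rw [e3]
    calc _ ≤ C * h ^ J * w y ^ K + C' * h ^ J * w y ^ K' :=
          (norm_add_le _ _).trans (add_le_add (h2 h hh hh1 y hy) (h2' h hh hh1 y hy))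
      _ ≤ C * h ^ J * w y ^ (K + K') + C' * h ^ J * w y ^ (K + K') := by gcongr
      _ = _ := by ring

/-- multiplication by `h` raises the order -/
lemma HasExp.h_mul (hw : ∀ y ∈ S, 1 ≤ w y) (hf : HasExp S w h₀ J f) :
    HasExp S w h₀ (J + 1) (fun h y => h * f h y) := by
  obtain ⟨c, hc, K, C, hC, h1, h2⟩ := hf
  refine ⟨fun j y => if j = 0 then 0 else c (j - 1) y, fun j => ?_, K, C, hC, fun j hj y hy => ?_,
    fun h hh hh1 y hy => ?_⟩
  · by_cases hj : j = 0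
    · simp [hj]
    · simpa [hj] using hc _
  · by_cases hj0 : j = 0
    · subst hj0
      have := hw y hy
      simp only [if_true, norm_zero]
      positivity
    · simpa [hj0] using h1 (j - 1) (by omega) y hy
  · rw [Finset.sum_range_succ']
    simp only [Nat.succ_ne_zero, if_false, if_true, mul_zero, add_zero, Nat.add_sub_cancel]
    have e1 : ∀ j, (h : ℂ) ^ (j + 1) * c j y = h * ((h : ℂ) ^ j * c j y) := fun j => by ring
    simp_rw [e1]
    rw [← Finset.mul_sum, ← mul_sub, norm_mul, Complex.norm_real, Real.norm_of_nonneg hh.le]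
    calc h * _ ≤ h * (C * h ^ J * w y ^ K) := by
          gcongr; exact h2 h hh hh1 y hy
      _ = _ := by ring

/-- decomposition -/
lemma HasExp.decomp (hf : HasExp S w h₀ (J + 1) f) :
    ∃ (a : Y → ℂ) (f₁ : ℝ → Y → ℂ), Measurable a ∧
      (∃ (K : ℕ) (C : ℝ), 0 ≤ C ∧ ∀ y ∈ S, ‖a y‖ ≤ C * w y ^ K) ∧ HasExp S w h₀ J f₁ ∧
      ∀ h, 0 < h → h ≤ h₀ → ∀ y ∈ S, f h y = a y + h * f₁ h y := by
  obtain ⟨c, hc, K, C, hC, h1, h2⟩ := hf
  refine ⟨c 0, fun h y => (f h y - c 0 y) / h, hc 0, ⟨K, C, hC, fun y hy => h1 0 (Nat.succ_pos J) y hy⟩,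
    ⟨fun j => c (j + 1), fun j => hc _, K, C, hC, fun j hj y hy => h1 (j + 1) (by omega) y hy,
      fun h hh hh1 y hy => ?_⟩, fun h hh hh1 y hy => ?_⟩
  · have h3 := h2 h hh hh1 y hy
    rw [Finset.sum_range_succ'] at h3
    have hne : (h : ℂ) ≠ 0 := by exact_mod_cast hh.ne'
    have e1 : (f h y - c 0 y) / h - ∑ j ∈ Finset.range J, (h : ℂ) ^ j * c (j + 1) y
        = (f h y - (∑ j ∈ Finset.range J, (h : ℂ) ^ (j + 1) * c (j + 1) y + (h : ℂ) ^ 0 * c 0 y)) / h := by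
      have e2 : ∀ j, (h : ℂ) ^ (j + 1) * c (j + 1) y = h * ((h : ℂ) ^ j * c (j + 1) y) :=
        fun j => by ring
      simp_rw [e2]
      rw [← Finset.mul_sum]
      field_simp
      ring
    rw [e1, norm_div, Complex.norm_real, Real.norm_of_nonneg hh.le, div_le_iff₀ hh]
    calc _ ≤ C * h ^ (J + 1) * w y ^ K := h3
      _ = _ := by ring
  · have hne : (h : ℂ) ≠ 0 := by exact_mod_cast hh.ne'
    field_simp
    ring

/-- multiplication by a fixed function -/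
lemma HasExp.const_mul {a : Y → ℂ} (ha : Measurable a) (hw : ∀ y ∈ S, 1 ≤ w y) {K₀ : ℕ} {C₀ : ℝ}
    (hC₀ : 0 ≤ C₀) (hb : ∀ y ∈ S, ‖a y‖ ≤ C₀ * w y ^ K₀) (hf : HasExp S w h₀ J f) :
    HasExp S w h₀ J (fun h y => a y * f h y) := by
  obtain ⟨c, hc, K, C, hC, h1, h2⟩ := hf
  refine ⟨fun j y => a y * c j y, fun j => ha.mul (hc j), K₀ + K, C₀ * C, by positivity,
    fun j hj y hy => ?_, fun h hh hh1 y hy => ?_⟩
  · have hwy : 0 ≤ w y := by linarith [hw y hy]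
    rw [norm_mul, pow_add]
    calc _ ≤ (C₀ * w y ^ K₀) * (C * w y ^ K) :=
          mul_le_mul (hb y hy) (h1 j hj y hy) (norm_nonneg _) (by positivity)
      _ = _ := by ring
  · have hwy : 0 ≤ w y := by linarith [hw y hy]
    have e1 : a y * f h y - ∑ j ∈ Finset.range J, (h : ℂ) ^ j * (a y * c j y)
        = a y * (f h y - ∑ j ∈ Finset.range J, (h : ℂ) ^ j * c j y) := by
      rw [mul_sub, Finset.mul_sum]
      congr 1
      exact Finset.sum_congr rfl fun j _ => by ring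
    rw [e1, norm_mul, pow_add]
    calc _ ≤ (C₀ * w y ^ K₀) * (C * h ^ J * w y ^ K) :=
          mul_le_mul (hb y hy) (h2 h hh hh1 y hy) (norm_nonneg _) (by positivity)
      _ = _ := by ring

lemma HasExp.mul (hw : ∀ y ∈ S, 1 ≤ w y) (hh0 : h₀ ≤ 1) (hf : HasExp S w h₀ J f)
    (hg : HasExp S w h₀ J g) : HasExp S w h₀ J (fun h y => f h y * g h y) := by
  induction J generalizing f g with
  | zero =>
    obtain ⟨K, C, hC, h1⟩ := hf.bound hw
    obtain ⟨K', C', hC', h1'⟩ := hg.bound hw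
    refine hasExp_zero_of_bound (K := K + K') (C := C * C') (by positivity) fun h hh hh1 y hy => ?_
    have hwy : 0 ≤ w y := by linarith [hw y hy]
    rw [norm_mul, pow_add]
    calc _ ≤ (C * w y ^ K) * (C' * w y ^ K') :=
          mul_le_mul (h1 h hh hh1 (hh1.trans hh0) y hy) (h1' h hh hh1 (hh1.trans hh0) y hy)
            (norm_nonneg _) (by positivity)
      _ = _ := by ring
  | succ J ih =>
    have hfJ := hf.mono hw hh0 (Nat.le_succ J)
    have hgJ := hg.mono hw hh0 (Nat.le_succ J)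
    obtain ⟨a, f₁, ha, ⟨K, C, hC, hab⟩, hf1, hfe⟩ := hf.decomp
    obtain ⟨b, g₁, hb, ⟨K', C', hC', hbb⟩, hg1, hge⟩ := hg.decomp
    have h0 : HasExp S w h₀ (J + 1) (fun _ y => a y * b y) := by
      refine hasExp_const (ha.mul hb) hw (K + K') (C := C * C') (by positivity) (fun y hy => ?_) _
      have hwy : 0 ≤ w y := by linarith [hw y hy]
      rw [Pi.mul_apply, norm_mul, pow_add]
      calc _ ≤ (C * w y ^ K) * (C' * w y ^ K') :=
            mul_le_mul (hab y hy) (hbb y hy) (norm_nonneg _) (by positivity)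
        _ = _ := by ring
    have h1 := (ih hf1 hgJ).add hw (hg1.const_mul ha hw hC hab)
    refine (h0.add hw (h1.h_mul hw)).congr fun h hh hh1 y hy => ?_
    rw [hfe h hh hh1 y hy, hge h hh hh1 y hy]
    ring

lemma hasExp_h (hw : ∀ y ∈ S, 1 ≤ w y) (hh0 : h₀ ≤ 1) (J : ℕ) :
    HasExp S w h₀ J (fun h _ => (h : ℂ)) := by
  have h1 : HasExp S w h₀ J (fun _ (_ : Y) => (1 : ℂ)) :=
    hasExp_const measurable_const hw 0 zero_le_one (by simp) J
  refine ((h1.h_mul hw).mono hw hh0 (Nat.le_succ J)).congr fun h _ _ y _ => by simp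

lemma hasExp_constant (hw : ∀ y ∈ S, 1 ≤ w y) (a : ℂ) (J : ℕ) :
    HasExp S w h₀ J (fun _ (_ : Y) => a) :=
  hasExp_const measurable_const hw 0 (norm_nonneg a) (by simp) J

lemma HasExp.sum {κ : Type*} (u : Finset κ) {f : κ → ℝ → Y → ℂ} (hw : ∀ y ∈ S, 1 ≤ w y)
    (hf : ∀ i ∈ u, HasExp S w h₀ J (f i)) : HasExp S w h₀ J (fun h y => ∑ i ∈ u, f i h y) := by
  classical
  induction u using Finset.induction_on with
  | empty => simpa using hasExp_constant (S := S) (h₀ := h₀) hw (0 : ℂ) J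
  | insert i u hi ih =>
    have h1 := (hf i (Finset.mem_insert_self _ _)).add hw
      (ih fun j hj => hf j (Finset.mem_insert_of_mem hj))
    refine h1.congr fun h _ _ y _ => ?_
    rw [Finset.sum_insert hi]

lemma HasExp.prod {κ : Type*} (u : Finset κ) {f : κ → ℝ → Y → ℂ} (hw : ∀ y ∈ S, 1 ≤ w y)
    (hh0 : h₀ ≤ 1)
    (hf : ∀ i ∈ u, HasExp S w h₀ J (f i)) : HasExp S w h₀ J (fun h y => ∏ i ∈ u, f i h y) := by
  classical
  induction u using Finset.induction_on with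
  | empty => simpa using hasExp_constant (S := S) (h₀ := h₀) hw (1 : ℂ) J
  | insert i u hi ih =>
    have h1 := (hf i (Finset.mem_insert_self _ _)).mul hw hh0
      (ih fun j hj => hf j (Finset.mem_insert_of_mem hj))
    refine h1.congr fun h _ _ y _ => ?_
    rw [Finset.prod_insert hi]

lemma HasExp.pow (hw : ∀ y ∈ S, 1 ≤ w y) (hh0 : h₀ ≤ 1) (hf : HasExp S w h₀ J f) (m : ℕ) :
    HasExp S w h₀ J (fun h y => f h y ^ m) := by
  have := HasExp.prod (Finset.range m) (f := fun _ => f) hw hh0 (fun _ _ => hf)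
  refine this.congr fun h _ _ y _ => ?_
  simp

lemma HasExp.sub (hw : ∀ y ∈ S, 1 ≤ w y) (hf : HasExp S w h₀ J f) (hg : HasExp S w h₀ J g) :
    HasExp S w h₀ J (fun h y => f h y - g h y) := by
  have h1 := hg.const_mul (a := fun _ => (-1 : ℂ)) measurable_const hw (K₀ := 0) (C₀ := 1) (by norm_num) (by simp)
  refine (hf.add hw h1).congr fun h _ _ y _ => by ring

/-- division by `h` -/
lemma HasExp.div_h (hw : ∀ y ∈ S, 1 ≤ w y) (hh0 : h₀ ≤ 1) (hpos : 0 < h₀) (hf : HasExp S w h₀ (J + 1) f)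
    (hlim : ∀ y ∈ S, Tendsto (fun h => f h y) (𝓝[>] 0) (𝓝 0)) :
    HasExp S w h₀ J (fun h y => f h y / h) := by
  obtain ⟨a, f₁, ha, ⟨K, C, hC, hab⟩, hf1, hfe⟩ := hf.decomp
  obtain ⟨K₁, C₁, hC₁, hb1⟩ := hf1.bound hw
  have ha0 : ∀ y ∈ S, a y = 0 := by
    intro y hy
    have h1 : Tendsto (fun h => f h y) (𝓝[>] 0) (𝓝 (a y)) := by
      have h2 : Tendsto (fun h : ℝ => h * (C₁ * w y ^ K₁)) (𝓝[>] 0) (𝓝 0) := by
        have : Tendsto (fun h : ℝ => h * (C₁ * w y ^ K₁)) (𝓝 0) (𝓝 (0 * (C₁ * w y ^ K₁))) :=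
          (continuous_id.mul continuous_const).tendsto 0
        rw [zero_mul] at this
        exact this.mono_left nhdsWithin_le_nhds
      rw [tendsto_iff_norm_sub_tendsto_zero]
      refine squeeze_zero' (Eventually.of_forall fun _ => norm_nonneg _) ?_ h2
      have hIoc : Ioc (0 : ℝ) h₀ ∈ 𝓝[>] (0 : ℝ) := Ioc_mem_nhdsGT hpos
      filter_upwards [hIoc] with h hh
      rw [hfe h hh.1 hh.2 y hy, add_sub_cancel_left, norm_mul, Complex.norm_real,
        Real.norm_of_nonneg hh.1.le]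
      exact mul_le_mul_of_nonneg_left (hb1 h hh.1 hh.2 (hh.2.trans hh0) y hy) hh.1.le
    exact tendsto_nhds_unique h1 (hlim y hy)
  refine hf1.congr fun h hh hh1 y hy => ?_
  have hne : (h : ℂ) ≠ 0 := by exact_mod_cast hh.ne'
  rw [hfe h hh hh1 y hy, ha0 y hy]
  field_simp
  ring

/-- inversion -/
lemma HasExp.inv (hw : ∀ y ∈ S, 1 ≤ w y) (hh0 : h₀ ≤ 1) (hpos : 0 < h₀) (hf : HasExp S w h₀ J f)
    {K : ℕ} {C : ℝ} (hC : 0 ≤ C) (hne : ∀ h, 0 < h → h ≤ h₀ → ∀ y ∈ S, f h y ≠ 0)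
    (hb : ∀ h, 0 < h → h ≤ h₀ → ∀ y ∈ S, ‖(f h y)⁻¹‖ ≤ C * w y ^ K) :
    HasExp S w h₀ J (fun h y => (f h y)⁻¹) := by
  induction J with
  | zero => exact hasExp_zero_of_bound hC hb
  | succ J ih =>
    have hfJ := ih (hf.mono hw hh0 (Nat.le_succ J))
    obtain ⟨a, f₁, ha, ⟨K', C', hC', hab⟩, hf1, hfe⟩ := hf.decomp
    obtain ⟨K₁, C₁, hC₁, hb1⟩ := hf1.bound hw
    -- lower bound for `a`
    have hlow : ∀ y ∈ S, 1 ≤ ‖a y‖ * (C * w y ^ K) := by
      intro y hy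
      have h1 : ∀ h, 0 < h → h ≤ h₀ → 1 ≤ (‖a y‖ + h * (C₁ * w y ^ K₁)) * (C * w y ^ K) := by
        intro h hh hh1
        have h2 := hb h hh hh1 y hy
        have h3 : ‖f h y‖ ≤ ‖a y‖ + h * (C₁ * w y ^ K₁) := by
          rw [hfe h hh hh1 y hy]
          refine (norm_add_le _ _).trans ?_
          rw [norm_mul, Complex.norm_real, Real.norm_of_nonneg hh.le]
          gcongr
          exact hb1 h hh hh1 (hh1.trans hh0) y hy
        have h4 : 1 = ‖f h y‖ * ‖(f h y)⁻¹‖ := by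
          rw [← norm_mul, mul_inv_cancel₀ (hne h hh hh1 y hy), norm_one]
        rw [h4]
        have hwy : 0 ≤ w y := by linarith [hw y hy]
        apply mul_le_mul h3 h2 (norm_nonneg _) (by positivity)
      have h2 : Tendsto (fun h : ℝ => (‖a y‖ + h * (C₁ * w y ^ K₁)) * (C * w y ^ K)) (𝓝[>] 0)
          (𝓝 ((‖a y‖ + 0 * (C₁ * w y ^ K₁)) * (C * w y ^ K))) := by
        apply Tendsto.mono_left _ nhdsWithin_le_nhds
        apply Continuous.tendsto
        fun_prop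
      rw [zero_mul, add_zero] at h2
      refine ge_of_tendsto h2 ?_
      filter_upwards [Ioc_mem_nhdsGT hpos] with h hh
      exact h1 h hh.1 hh.2
    have hane : ∀ y ∈ S, a y ≠ 0 := by
      intro y hy h0
      have := hlow y hy
      rw [h0, norm_zero, zero_mul] at this
      linarith
    have hab' : ∀ y ∈ S, ‖(a y)⁻¹‖ ≤ C * w y ^ K := by
      intro y hy
      rw [norm_inv, inv_le_iff_one_le_mul₀ (norm_pos_iff.mpr (hane y hy)), mul_comm]
      exact hlow y hy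
    have h0 : HasExp S w h₀ (J + 1) (fun _ y => (a y)⁻¹) := hasExp_const ha.inv hw K hC hab' _
    have h1 := ((hf1.mul hw hh0 hfJ).const_mul ha.inv hw hC hab').h_mul hw
    refine (h0.sub hw h1).congr fun h hh hh1 y hy => ?_
    have e1 := hfe h hh hh1 y hy
    have e2 := hne h hh hh1 y hy
    have e3 := hane y hy
    have e4 : (f h y)⁻¹ = (a y)⁻¹ - h * ((a y)⁻¹ * (f₁ h y * (f h y)⁻¹)) := by
      field_simp
      rw [e1]; ring
    simpa using e4

/-- pull-back of an expansion along a map controlling the weight -/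
lemma HasExp.comp {Y' : Type*} [MeasurableSpace Y'] {S' : Set Y'} {w' : Y' → ℝ} {φ : Y' → Y}
    (hφ : Measurable φ) (hw : ∀ y ∈ S, 1 ≤ w y) (hw' : ∀ y ∈ S', 1 ≤ w' y)
    (hS : ∀ y ∈ S', φ y ∈ S) {A : ℝ}
    (hA : ∀ y ∈ S', w (φ y) ≤ A * w' y) (hf : HasExp S w h₀ J f) :
    HasExp S' w' h₀ J (fun h y => f h (φ y)) := by
  obtain ⟨c, hc, K, C, hC, h1, h2⟩ := hf
  have hA' : ∀ y ∈ S', w (φ y) ^ K ≤ |A| ^ K * w' y ^ K := by
    intro y hy
    rw [← mul_pow]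
    have h3 := hw _ (hS y hy)
    have h4 := hA y hy
    have h5 := hw' y hy
    gcongr
    exact h4.trans (by gcongr; exact le_abs_self A)
  refine ⟨fun j y => c j (φ y), fun j => (hc j).comp hφ, K, C * |A| ^ K, by positivity,
    fun j hj y hy => ?_, fun h hh hh1 y hy => ?_⟩
  · calc _ ≤ C * w (φ y) ^ K := h1 j hj _ (hS y hy)
      _ ≤ C * (|A| ^ K * w' y ^ K) := by gcongr; exact hA' y hy
      _ = _ := by ring
  · calc _ ≤ C * h ^ J * w (φ y) ^ K := h2 h hh hh1 _ (hS y hy)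
      _ ≤ C * h ^ J * (|A| ^ K * w' y ^ K) := by gcongr; exact hA' y hy
      _ = _ := by ring

end FracScat
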