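import Pool.Agent.Lib_helper32.FSBorn
import Pool.Agent.Lib_helper32.FSDefs

/-! # Fourier lemmas -/

open MeasureTheory Filter Complex Set Topology
open scoped Real SchwartzMap LineDeriv ContDiff NNReal FourierTransform RealInnerProductSpace

namespace FracScat

section

variable {E : Type*} [NormedAddCommGroup E] [InnerProductSpace ℝ E] [FiniteDimensional ℝ E]
  [MeasurableSpace E] [BorelSpace E]

/-- `𝓕 (χ f) = 𝓕 χ * 𝓕 f`. -/
lemma fourier_mul_eq_conv (χ : 𝓢(E, ℂ)) {f : E → ℂ} (hf : Integrable f) (ζ : E) :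
    𝓕 (fun x => χ x * f x) ζ = ∫ ξ, (𝓕 χ : 𝓢(E, ℂ)) (ζ - ξ) * 𝓕 f ξ := by
  have hg : Integrable (fun ξ => (𝓕 χ : 𝓢(E, ℂ)) (ζ - ξ)) := (𝓕 χ : 𝓢(E, ℂ)).integrable.comp_sub_left ζ
  have h1 := VectorFourier.integral_fourierIntegral_smul_eq_flip (e := 𝐞) (μ := (volume : Measure E))
    (ν := (volume : Measure E)) (L := innerₗ E) (f := f) (g := fun ξ => (𝓕 χ : 𝓢(E, ℂ)) (ζ - ξ))
    Real.continuous_fourierChar (by exact continuous_inner) hf hg
  have h2 : ∀ x, VectorFourier.fourierIntegral 𝐞 (volume : Measure E) (innerₗ E).flip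
      (fun ξ => (𝓕 χ : 𝓢(E, ℂ)) (ζ - ξ)) x = 𝐞 (-⟪x, ζ⟫) • χ x := by
    intro x
    have e1 : χ x = 𝓕⁻ ((𝓕 χ : 𝓢(E, ℂ)) : E → ℂ) x := by
      rw [← SchwartzMap.fourierInv_coe]; simp
    rw [e1, Real.fourierInv_eq, VectorFourier.fourierIntegral,
      ← integral_sub_left_eq_self (fun v => 𝐞 ⟪v, x⟫ • (𝓕 χ : 𝓢(E, ℂ)) v) volume ζ,
      Circle.smul_def, smul_eq_mul, ← integral_const_mul]
    refine integral_congr_ae (Eventually.of_forall fun ξ => ?_)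
    simp only [LinearMap.flip_apply, innerₗ_apply_apply, Circle.smul_def, smul_eq_mul, ← mul_assoc,
      ← Circle.coe_mul, ← AddChar.map_add_eq_mul]
    congr 3
    rw [inner_sub_left, real_inner_comm x ζ, real_inner_comm x ξ]
    ring
  rw [Real.fourier_eq]
  have h3 : ∫ ξ, (𝓕 χ : 𝓢(E, ℂ)) (ζ - ξ) * 𝓕 f ξ
      = ∫ ξ, (VectorFourier.fourierIntegral 𝐞 volume (innerₗ E) f ξ) • (𝓕 χ : 𝓢(E, ℂ)) (ζ - ξ) := by
    refine integral_congr_ae (Eventually.of_forall fun ξ => ?_)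
    simp only [smul_eq_mul]
    rw [mul_comm]; rfl
  rw [h3, h1]
  refine integral_congr_ae (Eventually.of_forall fun x => ?_)
  simp only
  rw [h2]
  simp only [Circle.smul_def, smul_eq_mul]
  ring

/-- the polynomial `∏ (-2πi ⟨x, v_j⟩)` -/
noncomputable def mono {i : ℕ} (v : Fin i → E) (x : E) : ℂ :=
  ∏ j, (-(2 * π * I)) * ((⟪x, v j⟫ : ℝ) : ℂ)

omit [FiniteDimensional ℝ E] [MeasurableSpace E] [BorelSpace E] in
lemma mono_tg {i : ℕ} (v : Fin i → E) : (mono v).HasTemperateGrowth := by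
  classical
  have h2 : ∀ j, Function.HasTemperateGrowth (fun x : E => (-(2 * π * I)) * ((⟪x, v j⟫ : ℝ) : ℂ)) := by
    intro j
    exact (Function.HasTemperateGrowth.const _).mul
      (Function.HasTemperateGrowth.comp Function.Complex.hasTemperateGrowth_ofReal
        (Function.hasTemperateGrowth_inner_left (v j)))
  have key : ∀ s : Finset (Fin i), Function.HasTemperateGrowth
      (fun x : E => ∏ j ∈ s, (-(2 * π * I)) * ((⟪x, v j⟫ : ℝ) : ℂ)) := by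
    intro s
    induction s using Finset.induction_on with
    | empty => simp
    | insert a s ha ih =>
      simp_rw [Finset.prod_insert ha]
      exact (h2 a).mul ih
  exact key _

lemma iteratedFDeriv_fourier_apply {f : E → ℂ} (hf : ∀ n : ℕ, Integrable (fun x => ‖x‖ ^ n * ‖f x‖))
    (hm : AEStronglyMeasurable f) (i : ℕ) (ζ : E) (v : Fin i → E) :
    iteratedFDeriv ℝ i (𝓕 f) ζ v = 𝓕 (fun x => mono v x * f x) ζ := by
  rw [Real.iteratedFDeriv_fourier (N := ⊤) (fun n _ => hf n) hm (mod_cast le_top),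
    Real.fourier_continuousMultilinearMap_apply
      (VectorFourier.integrable_fourierPowSMulRight _ (hf i) hm)]
  refine congrArg (fun g : E → ℂ => 𝓕 g ζ) (funext fun x => ?_)
  rw [VectorFourier.fourierPowSMulRight_apply]
  have h1 : ∀ j, ((innerSL ℝ) x) (v j) = ⟪x, v j⟫ := fun j => rfl
  simp only [h1, mono, smul_eq_mul, real_smul, Finset.prod_mul_distrib,
    Finset.prod_const, Finset.card_univ, Fintype.card_fin, ofReal_prod]
  ring

lemma moments_of_bdd {f : E → ℂ} (hf : Integrable f) {R : ℝ} (hR : ∀ x, R < ‖x‖ → f x = 0) (n : ℕ) :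
    Integrable (fun x => ‖x‖ ^ n * ‖f x‖) := by
  refine (hf.norm.const_mul (|R| ^ n)).mono' ?_ (Eventually.of_forall fun x => ?_)
  · exact (continuous_norm.pow n).aestronglyMeasurable.mul hf.norm.aestronglyMeasurable
  · rw [norm_mul, norm_norm, norm_pow, norm_norm]
    by_cases hx : R < ‖x‖
    · rw [hR x hx]; simp
    · push Not at hx
      gcongr
      exact hx.trans (le_abs_self _)

lemma schwartz_moments (χ : 𝓢(E, ℂ)) (n : ℕ) : Integrable (fun x => ‖x‖ ^ n * ‖χ x‖) := by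
  simpa using SchwartzMap.integrable_pow_mul_iteratedFDeriv (volume : Measure E) χ n 0

/-- Bernstein type inequality. -/
lemma bernstein (χ : 𝓢(E, ℂ)) {f : E → ℂ} (hf : Integrable f)
    (hmom : ∀ n : ℕ, Integrable (fun x => ‖x‖ ^ n * ‖f x‖)) (hχ : ∀ x, χ x * f x = f x)
    {B : ℝ} (hB : ∀ ζ, ‖𝓕 f ζ‖ ≤ B) (i : ℕ) (ζ : E) :
    ‖iteratedFDeriv ℝ i (𝓕 f) ζ‖ ≤ (∫ ξ, ‖iteratedFDeriv ℝ i (𝓕 χ : 𝓢(E, ℂ)) ξ‖) * B := by
  have hB0 : 0 ≤ B := (norm_nonneg _).trans (hB 0)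
  have hI : Integrable (fun ξ => ‖iteratedFDeriv ℝ i (𝓕 χ : 𝓢(E, ℂ)) ξ‖) := by
    simpa using SchwartzMap.integrable_pow_mul_iteratedFDeriv (volume : Measure E) (𝓕 χ : 𝓢(E, ℂ)) 0 i
  apply ContinuousMultilinearMap.opNorm_le_bound
  · exact mul_nonneg (integral_nonneg fun _ => norm_nonneg _) hB0
  intro v
  rw [iteratedFDeriv_fourier_apply hmom hf.aestronglyMeasurable]
  set χv : 𝓢(E, ℂ) := SchwartzMap.smulLeftCLM ℂ (mono v) χ with hχv
  have hχvx : ∀ x, χv x = mono v x * χ x := fun x => by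
    rw [hχv, SchwartzMap.smulLeftCLM_apply_apply (mono_tg v), smul_eq_mul]
  have e1 : (fun x => mono v x * f x) = fun x => χv x * f x := by
    ext x; rw [hχvx]; rw [mul_assoc, hχ x]
  rw [e1, fourier_mul_eq_conv χv hf]
  have e2 : ∀ ξ, (𝓕 χv : 𝓢(E, ℂ)) ξ = iteratedFDeriv ℝ i (𝓕 χ : 𝓢(E, ℂ)) ξ v := by
    intro ξ
    have h3 : ((𝓕 χ : 𝓢(E, ℂ)) : E → ℂ) = 𝓕 (χ : E → ℂ) := SchwartzMap.fourier_coe χ
    rw [h3, iteratedFDeriv_fourier_apply (schwartz_moments χ) χ.continuous.aestronglyMeasurable]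
    have h4 : ((𝓕 χv : 𝓢(E, ℂ)) : E → ℂ) = 𝓕 (χv : E → ℂ) := SchwartzMap.fourier_coe χv
    rw [h4]
    exact congrArg (fun g : E → ℂ => 𝓕 g ξ) (funext fun x => hχvx x)
  have hbound : ∀ ξ, ‖(𝓕 χv : 𝓢(E, ℂ)) (ζ - ξ) * 𝓕 f ξ‖
      ≤ (∏ j, ‖v j‖) * B * ‖iteratedFDeriv ℝ i (𝓕 χ : 𝓢(E, ℂ)) (ζ - ξ)‖ := by
    intro ξ
    rw [norm_mul, e2]
    calc _ ≤ (‖iteratedFDeriv ℝ i (𝓕 χ : 𝓢(E, ℂ)) (ζ - ξ)‖ * ∏ j, ‖v j‖) * B := by
          gcongr
          · exact ContinuousMultilinearMap.le_opNorm _ _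
          · exact hB ξ
      _ = _ := by ring
  calc _ ≤ ∫ ξ, (∏ j, ‖v j‖) * B * ‖iteratedFDeriv ℝ i (𝓕 χ : 𝓢(E, ℂ)) (ζ - ξ)‖ :=
        norm_integral_le_of_norm_le ((hI.comp_sub_left ζ).const_mul _) (Eventually.of_forall hbound)
    _ = _ := by
        rw [integral_const_mul, integral_sub_left_eq_self
          (fun ξ => ‖iteratedFDeriv ℝ i (𝓕 χ : 𝓢(E, ℂ)) ξ‖) volume ζ]
        ring

omit [MeasurableSpace E] [BorelSpace E] in
/-- existence of a Schwartz cutoff -/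
lemma exists_cutoff (R : ℝ) : ∃ χ : 𝓢(E, ℂ), ∀ x, ‖x‖ ≤ R → χ x = 1 := by
  let b : ContDiffBump (0 : E) := ⟨max R 1, max R 1 + 1, by positivity, by linarith⟩
  have hsm : ContDiff ℝ ∞ (fun x : E => ((b x : ℝ) : ℂ)) :=
    Complex.ofRealCLM.contDiff.comp b.contDiff
  have hcs : HasCompactSupport (fun x : E => ((b x : ℝ) : ℂ)) :=
    b.hasCompactSupport.comp_left (g := fun y : ℝ => (y : ℂ)) (by simp)
  refine ⟨hcs.toSchwartzMap hsm, fun x hx => ?_⟩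
  change ((b x : ℝ) : ℂ) = 1
  rw [b.one_of_mem_closedBall]
  · simp
  · simp only [mem_closedBall_zero_iff]
    exact hx.trans (le_max_left _ _)

lemma norm_fourier_le {f : E → ℂ} (ζ : E) : ‖𝓕 f ζ‖ ≤ ∫ x, ‖f x‖ := by
  rw [Real.fourier_eq]
  refine (norm_integral_le_integral_norm _).trans (le_of_eq ?_)
  refine integral_congr_ae (Eventually.of_forall fun x => ?_)
  simp

lemma contDiff_fourier_of_moments {f : E → ℂ} (hmom : ∀ n : ℕ, Integrable (fun x => ‖x‖ ^ n * ‖f x‖)) :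
    ContDiff ℝ ∞ (𝓕 f) := Real.contDiff_fourier (N := ⊤) (fun n _ => hmom n)

end

end FracScat
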