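import Pool.Agent.Lib_helper32.FSProd
import Pool.Agent.Lib_helper32.FSExp

/-! # Power expansion of the rotated resolvent symbol -/

open MeasureTheory Filter Complex Set Topology
open scoped Real

namespace FracScat

lemma HasExp.of_close {Y : Type*} [MeasurableSpace Y] {S : Set Y} {w : Y → ℝ} {h₀ : ℝ} {J : ℕ}
    {f T : ℝ → Y → ℂ} (hw : ∀ y ∈ S, 1 ≤ w y) (hT : HasExp S w h₀ J T) {K : ℕ} {C : ℝ} (hC : 0 ≤ C)
    (hb : ∀ h, 0 < h → h ≤ h₀ → ∀ y ∈ S, ‖f h y - T h y‖ ≤ C * h ^ J * w y ^ K) :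
    HasExp S w h₀ J f := by
  have h1 : HasExp S w h₀ J (fun h y => f h y - T h y) := by
    refine ⟨fun _ _ => 0, fun _ => measurable_const, K, C, hC, fun j _ y hy => ?_,
      fun h hh hh1 y hy => ?_⟩
    · have := hw y hy
      simp only [norm_zero]; positivity
    · simpa using hb h hh hh1 y hy
  refine (h1.add hw hT).congr fun h _ _ y _ => by ring

/-- Taylor bound for `(1+u)^s` -/
lemma rpow_taylor (s : ℝ) : ∃ b : ℕ → ℝ, ∀ J : ℕ, ∃ C, 0 ≤ C ∧ ∀ u : ℝ, |u| ≤ 1 / 2 →
    |(1 + u) ^ s - ∑ m ∈ Finset.range J, b m * u ^ m| ≤ C * |u| ^ J := by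
  have hp := Real.one_add_rpow_hasFPowerSeriesOnBall_zero (a := s)
  obtain ⟨a, ha, C, hC, hb⟩ := hp.uniform_geometric_approx' (r' := 3 / 4) (by
    rw [← ENNReal.coe_one, ENNReal.coe_lt_coe]
    rw [div_lt_one (by norm_num)]; norm_num)
  refine ⟨fun m => (binomialSeries ℝ s).coeff m, fun J => ⟨C * (4 / 3) ^ J, by positivity, fun u hu => ?_⟩⟩
  have h1 := hb u (by
    rw [mem_ball_zero_iff, Real.norm_eq_abs]
    have : ((3 / 4 : NNReal) : ℝ) = 3 / 4 := by norm_num
    rw [this]; linarith) J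
  rw [zero_add] at h1
  have h2 : (binomialSeries ℝ s).partialSum J u
      = ∑ m ∈ Finset.range J, (binomialSeries ℝ s).coeff m * u ^ m := by
    rw [FormalMultilinearSeries.partialSum]
    refine Finset.sum_congr rfl fun m _ => ?_
    rw [FormalMultilinearSeries.apply_eq_pow_smul_coeff, smul_eq_mul, mul_comm]
  rw [h2, Real.norm_eq_abs] at h1
  refine h1.trans ?_
  have h3 : ((3 / 4 : NNReal) : ℝ) = 3 / 4 := by norm_num
  rw [h3, Real.norm_eq_abs, mul_assoc, ← mul_pow]
  have ha0 := ha.1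
  have ha1 := ha.2
  have h4 : a * (|u| / (3 / 4)) ≤ 1 * (|u| / (3 / 4)) := by gcongr
  exact mul_le_mul_of_nonneg_left (pow_le_pow_left₀ (by positivity) (by linarith) J) hC.le

section

variable {E : Type*} [NormedAddCommGroup E] [InnerProductSpace ℝ E]
  [MeasurableSpace E] [BorelSpace E]

/-- the domain of the angle variable -/
def SE (E : Type*) : Set (E × ℝ) := {p | 0 < p.2 ∧ p.2 ≤ 1}

/-- the weight -/
noncomputable def wE (E : Type*) [NormedAddCommGroup E] (p : E × ℝ) : ℝ := (1 + ‖p.1‖) / p.2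

omit [InnerProductSpace ℝ E] [MeasurableSpace E] [BorelSpace E] in
lemma wE_ge (p : E × ℝ) (hp : p ∈ SE E) : 1 + ‖p.1‖ ≤ wE E p := by
  have h1 := norm_nonneg p.1
  obtain ⟨h2, h3⟩ := hp
  rw [wE, le_div_iff₀ h2]
  nlinarith

omit [InnerProductSpace ℝ E] [MeasurableSpace E] [BorelSpace E] in
lemma one_le_wE : ∀ p ∈ SE E, 1 ≤ wE E p := fun p hp => by
  have h1 := norm_nonneg p.1
  linarith [wE_ge p hp]

omit [InnerProductSpace ℝ E] in
lemma hasExp_exp {s : ℝ} (hs : 1 / 2 < s) (J : ℕ) :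
    HasExp (SE E) (wE E) (1 / (2 * s)) J
      (fun h p => Complex.exp (-((2 * s * h * p.2 : ℝ) : ℂ) * I)) := by
  refine ⟨fun j p => (-(2 * s * p.2) * I) ^ j / (j.factorial : ℂ), fun j => ?_, 0,
    (2 * s) ^ J * Real.exp 1, by positivity, fun j hj p hp => ?_, fun h hh hh1 p hp => ?_⟩
  · apply Continuous.measurable
    fun_prop
  · obtain ⟨h2, h3⟩ := hp
    rw [norm_div, norm_pow, norm_mul, norm_neg, Complex.norm_I, mul_one, Complex.norm_natCast]
    have e1 : ‖(2 * (s : ℂ) * (p.2 : ℂ))‖ = 2 * s * p.2 := by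
      rw [norm_mul, norm_mul, Complex.norm_real, Complex.norm_real, Real.norm_of_nonneg (by linarith),
        Real.norm_of_nonneg h2.le]; simp
    rw [e1, pow_zero, mul_one]
    have h4 : (2 * s * p.2) ^ j / (j.factorial : ℝ) ≤ (2 * s * p.2) ^ j :=
      div_le_self (by positivity) (by exact_mod_cast Nat.one_le_iff_ne_zero.mpr (Nat.factorial_ne_zero j))
    have h5 : (2 * s * p.2) ^ j ≤ (2 * s) ^ j :=
      pow_le_pow_left₀ (by positivity) (by nlinarith) j
    have h6 : (2 * s) ^ j ≤ (2 * s) ^ J := pow_le_pow_right₀ (by linarith) hj.le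
    have h7 : (1 : ℝ) ≤ Real.exp 1 := Real.one_le_exp (by norm_num)
    calc _ ≤ (2 * s) ^ J := h4.trans (h5.trans h6)
      _ ≤ _ := le_mul_of_one_le_right (by positivity) h7
  · obtain ⟨h2, h3⟩ := hp
    have h4 := Complex.norm_exp_sub_sum_le_norm_mul_exp (-((2 * s * h * p.2 : ℝ) : ℂ) * I) J
    have e1 : ∀ j, (h : ℂ) ^ j * ((-(2 * s * p.2) * I) ^ j / (j.factorial : ℂ))
        = (-((2 * s * h * p.2 : ℝ) : ℂ) * I) ^ j / (j.factorial : ℂ) := by
      intro j
      rw [← mul_div_assoc, ← mul_pow]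
      congr 2
      push_cast; ring
    simp_rw [e1]
    refine h4.trans ?_
    have hz : ‖(-((2 * s * h * p.2 : ℝ) : ℂ) * I)‖ = 2 * s * h * p.2 := by
      rw [norm_mul, norm_neg, Complex.norm_I, mul_one, Complex.norm_real, Real.norm_of_nonneg]
      positivity
    rw [hz, pow_zero, mul_one]
    have h5 : 2 * s * h ≤ 1 := by
      rw [le_div_iff₀ (by positivity)] at hh1
      linarith
    have h6 : (2 * s * h * p.2) ^ J ≤ (2 * s) ^ J * h ^ J := by
      rw [← mul_pow]
      exact pow_le_pow_left₀ (by positivity)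
        (by nlinarith [mul_pos (mul_pos two_pos (by linarith : 0 < s)) hh]) J
    have h7 : Real.exp (2 * s * h * p.2) ≤ Real.exp 1 := by
      apply Real.exp_le_exp.mpr
      nlinarith
    calc _ ≤ ((2 * s) ^ J * h ^ J) * Real.exp 1 :=
          mul_le_mul h6 h7 (Real.exp_pos _).le (by positivity)
      _ = _ := by ring

lemma hasExp_norm {s : ℝ} (hs : 1 / 2 < s) {e : E} (he : ‖e‖ = 1) (J : ℕ) :
    HasExp (SE E) (wE E) (1 / (2 * s)) J
      (fun h p => ((‖e + h • p.1‖ ^ (2 * s) : ℝ) : ℂ)) := by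
  have hs0 : 0 < s := by linarith
  have hh0 : 1 / (2 * s) ≤ 1 := by
    rw [div_le_one (by positivity)]; linarith
  obtain ⟨b, hb⟩ := rpow_taylor s
  obtain ⟨C, hC, hCb⟩ := hb J
  set u : ℝ → E × ℝ → ℝ := fun h p => 2 * h * inner ℝ e p.1 + h ^ 2 * ‖p.1‖ ^ 2 with hu
  have hnorm : ∀ h p, ‖e + h • p.1‖ ^ 2 = 1 + u h p := by
    intro h p
    rw [norm_add_sq_real, he, norm_smul, inner_smul_right, mul_pow, Real.norm_eq_abs, sq_abs, hu]
    ring
  have hpow : ∀ h p, ‖e + h • p.1‖ ^ (2 * s) = (1 + u h p) ^ s := by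
    intro h p
    rw [← hnorm, ← Real.rpow_natCast_mul (norm_nonneg _)]
    norm_num
  have hu1 : ∀ h p, 0 ≤ h → h ≤ 1 → p ∈ SE E → |u h p| ≤ h * wE E p ^ 2 := by
    intro h p hh hh1 hp
    have h1 := wE_ge p hp
    have h2 := norm_nonneg p.1
    have h3 : |inner ℝ e p.1| ≤ ‖p.1‖ := by
      have := abs_real_inner_le_norm e p.1
      rwa [he, one_mul] at this
    have h4 : |u h p| ≤ 2 * h * ‖p.1‖ + h ^ 2 * ‖p.1‖ ^ 2 := by
      rw [hu]
      refine (abs_add_le _ _).trans ?_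
      rw [abs_mul, abs_mul, abs_of_nonneg hh, abs_two, abs_of_nonneg (by positivity : (0 : ℝ) ≤ h ^ 2 * ‖p.1‖ ^ 2)]
      gcongr
    calc |u h p| ≤ 2 * h * ‖p.1‖ + h ^ 2 * ‖p.1‖ ^ 2 := h4
      _ ≤ h * (1 + ‖p.1‖) ^ 2 := by nlinarith [mul_nonneg (mul_nonneg hh (by linarith : 0 ≤ 1 - h)) (sq_nonneg ‖p.1‖)]
      _ ≤ _ := by gcongr
  have hT : HasExp (SE E) (wE E) (1 / (2 * s)) J
      (fun h p => ∑ m ∈ Finset.range J, (b m : ℂ) * ((u h p : ℝ) : ℂ) ^ m) := by
    apply HasExp.sum _ one_le_wE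
    intro m _
    apply HasExp.mul one_le_wE hh0 (hasExp_constant one_le_wE _ _)
    apply HasExp.pow one_le_wE hh0
    have h1 : HasExp (SE E) (wE E) (1 / (2 * s)) J (fun _ p => ((inner ℝ e p.1 : ℝ) : ℂ)) := by
      refine hasExp_const ?_ one_le_wE 1 (C := 1) (by norm_num) (fun p hp => ?_) J
      · apply Continuous.measurable; fun_prop
      · rw [Complex.norm_real, Real.norm_eq_abs, pow_one, one_mul]
        have := abs_real_inner_le_norm e p.1
        rw [he, one_mul] at this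
        linarith [wE_ge p hp]
    have h2 : HasExp (SE E) (wE E) (1 / (2 * s)) J (fun _ p => ((‖p.1‖ ^ 2 : ℝ) : ℂ)) := by
      refine hasExp_const ?_ one_le_wE 2 (C := 1) (by norm_num) (fun p hp => ?_) J
      · apply Continuous.measurable; fun_prop
      · rw [Complex.norm_real, Real.norm_of_nonneg (by positivity), one_mul]
        have := wE_ge p hp
        gcongr
        linarith
    have hH := hasExp_h (S := SE E) (w := wE E) one_le_wE hh0 J
    have h3 := ((hasExp_constant (S := SE E) (w := wE E) (h₀ := 1 / (2 * s)) one_le_wE 2 J).mul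
      one_le_wE hh0 (hH.mul one_le_wE hh0 h1)).add one_le_wE
      ((hH.pow one_le_wE hh0 2).mul one_le_wE hh0 h2)
    refine h3.congr fun h _ _ p _ => ?_
    simp only [hu]
    push_cast
    ring
  set n := ⌈s⌉₊
  set B := ∑ m ∈ Finset.range J, |b m| * 2 ^ (J - m) with hB
  have hB0 : 0 ≤ B := Finset.sum_nonneg fun m _ => by positivity
  refine HasExp.of_close one_le_wE hT (K := 2 * J + 2 * n) (C := C + 3 ^ n * 2 ^ J + B)
    (by positivity) fun h hh hh1 p hp => ?_
  have hle : h ≤ 1 := hh1.trans hh0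
  have hw1 := one_le_wE p hp
  have hw0 : 0 ≤ wE E p := by linarith
  have hu1' := hu1 h p hh.le hle hp
  have hcast : ((‖e + h • p.1‖ ^ (2 * s) : ℝ) : ℂ) - ∑ m ∈ Finset.range J, (b m : ℂ) * ((u h p : ℝ) : ℂ) ^ m
      = (((1 + u h p) ^ s - ∑ m ∈ Finset.range J, b m * u h p ^ m : ℝ) : ℂ) := by
    rw [hpow]; push_cast; rfl
  rw [hcast, Complex.norm_real, Real.norm_eq_abs]
  have hJ : |u h p| ^ J ≤ h ^ J * wE E p ^ (2 * J) := by
    rw [pow_mul, ← mul_pow]; gcongr
  have hJn : wE E p ^ (2 * J) ≤ wE E p ^ (2 * J + 2 * n) :=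
    pow_le_pow_right₀ hw1 (Nat.le_add_right _ _)
  rcases le_or_gt |u h p| (1 / 2) with hcase | hcase
  · have h1 := hCb _ hcase
    calc _ ≤ C * |u h p| ^ J := h1
      _ ≤ C * (h ^ J * wE E p ^ (2 * J + 2 * n)) := by
          gcongr; exact hJ.trans (by gcongr)
      _ ≤ (C + 3 ^ n * 2 ^ J + B) * (h ^ J * wE E p ^ (2 * J + 2 * n)) := by
          gcongr
          have : 0 ≤ (3 : ℝ) ^ n * 2 ^ J := by positivity
          linarith
      _ = _ := by ring
  · have h1 : |(1 + u h p) ^ s| ≤ 3 ^ n * 2 ^ J * (|u h p| ^ J * |u h p| ^ n) := by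
      have h0 : 0 ≤ 1 + u h p := by rw [← hnorm]; positivity
      rw [abs_of_nonneg (Real.rpow_nonneg h0 _)]
      have h2 : 1 + u h p ≤ 3 * |u h p| := by
        have := le_abs_self (u h p); linarith
      calc (1 + u h p) ^ s ≤ (3 * |u h p|) ^ s := Real.rpow_le_rpow h0 h2 hs0.le
        _ ≤ (3 * |u h p|) ^ ((n : ℕ) : ℝ) :=
            Real.rpow_le_rpow_of_exponent_le (by linarith) (Nat.le_ceil s)
        _ = 3 ^ n * |u h p| ^ n := by rw [Real.rpow_natCast, mul_pow]
        _ ≤ 3 ^ n * |u h p| ^ n * (2 * |u h p|) ^ J :=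
            le_mul_of_one_le_right (by positivity) (one_le_pow₀ (by linarith))
        _ = _ := by rw [mul_pow]; ring
    have h3 : |∑ m ∈ Finset.range J, b m * u h p ^ m| ≤ B * |u h p| ^ J := by
      rw [hB, Finset.sum_mul]
      refine (Finset.abs_sum_le_sum_abs _ _).trans (Finset.sum_le_sum fun m hm => ?_)
      have hm' := (Finset.mem_range.mp hm).le
      rw [abs_mul, abs_pow, mul_assoc]
      gcongr
      calc |u h p| ^ m ≤ |u h p| ^ m * (2 * |u h p|) ^ (J - m) :=
            le_mul_of_one_le_right (by positivity) (one_le_pow₀ (by linarith))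
        _ = 2 ^ (J - m) * (|u h p| ^ m * |u h p| ^ (J - m)) := by rw [mul_pow]; ring
        _ = 2 ^ (J - m) * |u h p| ^ J := by rw [← pow_add, Nat.add_sub_cancel' hm']
    have h4 : |u h p| ^ n ≤ wE E p ^ (2 * n) := by
      rw [pow_mul]
      gcongr
      exact hu1'.trans (by nlinarith [sq_nonneg (wE E p)])
    have h5 : |u h p| ^ J * |u h p| ^ n ≤ h ^ J * wE E p ^ (2 * J + 2 * n) := by
      rw [pow_add, ← mul_assoc]
      gcongr
    have h6 : |u h p| ^ J ≤ h ^ J * wE E p ^ (2 * J + 2 * n) := hJ.trans (by gcongr)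
    calc _ ≤ |(1 + u h p) ^ s| + |∑ m ∈ Finset.range J, b m * u h p ^ m| := abs_sub _ _
      _ ≤ 3 ^ n * 2 ^ J * (h ^ J * wE E p ^ (2 * J + 2 * n)) + B * (h ^ J * wE E p ^ (2 * J + 2 * n)) :=
          add_le_add (h1.trans (by gcongr)) (h3.trans (by gcongr))
      _ ≤ (C + 3 ^ n * 2 ^ J + B) * (h ^ J * wE E p ^ (2 * J + 2 * n)) := by
          have : 0 ≤ C * (h ^ J * wE E p ^ (2 * J + 2 * n)) := by positivity
          nlinarith
      _ = _ := by ring

/-- The rotated symbol has power expansions. -/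
theorem hasExp_qker {s : ℝ} (hs : 1 / 2 < s) {e : E} (he : ‖e‖ = 1) (J : ℕ) :
    HasExp (SE E) (wE E) (1 / (2 * s)) J (fun h p => qker s e h p.2 0 p.1) := by
  have hs0 : 0 < s := by linarith
  have hh0 : 1 / (2 * s) ≤ 1 := by
    rw [div_le_one (by positivity)]; linarith
  have hpos : 0 < 1 / (2 * s) := by positivity
  have h1 : HasExp (SE E) (wE E) (1 / (2 * s)) (J + 1) (fun h p => bker s e h p.2 0 p.1) := by
    have h2 := ((hasExp_exp (E := E) hs (J + 1)).mul one_le_wE hh0 (hasExp_norm hs he (J + 1))).sub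
      one_le_wE (hasExp_constant one_le_wE 1 (J + 1))
    refine h2.congr fun h _ _ p _ => ?_
    simp [bker]
  have h3 := h1.div_h one_le_wE hh0 hpos (fun p hp => by
    have hc : Continuous (fun h : ℝ => bker s e h p.2 0 p.1) := by
      unfold bker
      apply Continuous.sub
      · apply Continuous.sub _ continuous_const
        apply Continuous.mul
        · fun_prop
        · apply Complex.continuous_ofReal.comp
          apply Continuous.rpow_const
          · fun_prop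
          · intro x; right; positivity
      · fun_prop
    have h4 := hc.tendsto 0
    have h5 : bker s e 0 p.2 0 p.1 = 0 := by simp [bker, he]
    rw [h5] at h4
    exact h4.mono_left nhdsWithin_le_nhds)
  have hcond : ∀ h, 0 < h → h ≤ 1 / (2 * s) → 2 * s * h ≤ 1 := by
    intro h hh hh1
    rw [le_div_iff₀ (by positivity)] at hh1
    linarith
  have h6 := h3.inv one_le_wE hh0 hpos (K := 1) (C := 2) (by norm_num) (fun h hh hh1 p hp => by
    have := bker_ne_zero_t e p.1 hs hh (hcond h hh hh1) hp.1 hp.2 (le_refl (0 : ℝ))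
    have hne : (h : ℂ) ≠ 0 := by exact_mod_cast hh.ne'
    exact div_ne_zero this hne) (fun h hh hh1 p hp => by
    have h7 := norm_qker_le_t e p.1 hs hh (hcond h hh hh1) hp.1 hp.2 (le_refl (0 : ℝ))
    have h8 : (bker s e h p.2 0 p.1 / h)⁻¹ = qker s e h p.2 0 p.1 := by
      rw [qker, inv_div]
    rw [h8, pow_one]
    refine h7.trans ?_
    rw [wE, ← mul_div_assoc]
    have := hp.1
    have := norm_nonneg p.1
    gcongr
    linarith)
  refine h6.congr fun h _ _ p _ => ?_
  rw [qker, inv_div]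

end

end FracScat
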