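import Pool.Agent.Lib_helper32.FSLimit
import Pool.Agent.Lib_helper32.FSKerExp

/-! # Power expansion of the limiting functional -/

open MeasureTheory Filter Complex Set Topology
open scoped Real SchwartzMap LineDeriv

namespace FracScat

/-- power expansion of a function of `h` -/
def HasPow (h₀ : ℝ) (J : ℕ) (a : ℝ → ℂ) : Prop :=
  HasExp (Set.univ : Set Unit) (fun _ => 1) h₀ J (fun h _ => a h)

lemma hasPow_iff {h₀ : ℝ} {J : ℕ} {a : ℝ → ℂ} :
    HasPow h₀ J a ↔ ∃ (c : ℕ → ℂ) (C : ℝ), 0 ≤ C ∧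
      ∀ h, 0 < h → h ≤ h₀ → ‖a h - ∑ j ∈ Finset.range J, (h : ℂ) ^ j * c j‖ ≤ C * h ^ J := by
  constructor
  · rintro ⟨c, hc, K, C, hC, h1, h2⟩
    refine ⟨fun j => c j (), C, hC, fun h hh hh1 => ?_⟩
    simpa using h2 h hh hh1 () (mem_univ _)
  · rintro ⟨c, C, hC, h2⟩
    refine ⟨fun j _ => c j, fun _ => measurable_const, 0, C + ∑ j ∈ Finset.range J, ‖c j‖,
      ?_, fun j hj y _ => ?_, fun h hh hh1 y _ => ?_⟩
    · have : 0 ≤ ∑ j ∈ Finset.range J, ‖c j‖ := Finset.sum_nonneg fun _ _ => norm_nonneg _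
      linarith
    · have := Finset.single_le_sum (f := fun j => ‖c j‖) (fun _ _ => norm_nonneg _)
        (Finset.mem_range.mpr hj)
      simp only [one_pow, mul_one]
      linarith
    · have h3 : 0 ≤ ∑ j ∈ Finset.range J, ‖c j‖ := Finset.sum_nonneg fun _ _ => norm_nonneg _
      have h4 : 0 ≤ h ^ J := by positivity
      refine (h2 h hh hh1).trans ?_
      simp only [one_pow, mul_one]
      nlinarith

lemma one_le_unit : ∀ y ∈ (Set.univ : Set Unit), (1 : ℝ) ≤ (fun _ : Unit => (1 : ℝ)) y :=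
  fun _ _ => le_rfl

section

variable {h₀ : ℝ} {J : ℕ} {a b : ℝ → ℂ}

lemma HasPow.congr (ha : HasPow h₀ J a) (hab : ∀ h, 0 < h → h ≤ h₀ → b h = a h) : HasPow h₀ J b :=
  HasExp.congr ha fun h hh hh1 _ _ => hab h hh hh1

lemma HasPow.add (ha : HasPow h₀ J a) (hb : HasPow h₀ J b) : HasPow h₀ J (fun h => a h + b h) :=
  HasExp.add one_le_unit ha hb

lemma HasPow.sub (ha : HasPow h₀ J a) (hb : HasPow h₀ J b) : HasPow h₀ J (fun h => a h - b h) :=
  HasExp.sub one_le_unit ha hb

lemma HasPow.mul (hh0 : h₀ ≤ 1) (ha : HasPow h₀ J a) (hb : HasPow h₀ J b) :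
    HasPow h₀ J (fun h => a h * b h) :=
  HasExp.mul one_le_unit hh0 ha hb

lemma HasPow.pow (hh0 : h₀ ≤ 1) (ha : HasPow h₀ J a) (m : ℕ) :
    HasPow h₀ J (fun h => a h ^ m) :=
  HasExp.pow one_le_unit hh0 ha m

lemma hasPow_const (c : ℂ) : HasPow h₀ J (fun _ => c) := hasExp_constant one_le_unit c J

lemma hasPow_h (hh0 : h₀ ≤ 1) : HasPow h₀ J (fun h => (h : ℂ)) := hasExp_h one_le_unit hh0 J

lemma HasPow.const_mul (hh0 : h₀ ≤ 1) (c : ℂ) (ha : HasPow h₀ J a) : HasPow h₀ J (fun h => c * a h) :=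
  (hasPow_const c).mul hh0 ha

lemma HasPow.sum {κ : Type*} (u : Finset κ) {f : κ → ℝ → ℂ}
    (hf : ∀ i ∈ u, HasPow h₀ J (f i)) : HasPow h₀ J (fun h => ∑ i ∈ u, f i h) :=
  HasExp.sum u one_le_unit hf

end

lemma Dh_pow_poly {X : Type*} [NormedAddCommGroup X] [NormedSpace ℝ X] [FiniteDimensional ℝ X]
    (v : X) (F : 𝓢(X, ℂ)) (i : ℕ) :
    ∃ (L : ℕ) (G : ℕ → 𝓢(X, ℂ)), ∀ h : ℝ, ((Dh v h) ^ i) F
      = ∑ l ∈ Finset.range L, (h : ℂ) ^ l • G l := by
  induction i with
  | zero => exact ⟨1, fun _ => F, fun h => by simp⟩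
  | succ i ih =>
    obtain ⟨L, G, hG⟩ := ih
    refine ⟨L + 1, fun l => (if l < L then D0 v (G l) else 0)
      + (if l = 0 then 0 else D1 X (G (l - 1))), fun h => ?_⟩
    have e1 : ((Dh v h) ^ (i + 1)) F = Dh v h (((Dh v h) ^ i) F) := by
      rw [pow_succ']; rfl
    rw [e1, hG h, map_sum]
    simp_rw [smul_add]
    rw [Finset.sum_add_distrib, Finset.sum_range_succ, Finset.sum_range_succ']
    simp only [lt_irrefl, if_false, smul_zero, add_zero, Nat.succ_ne_zero, Nat.add_sub_cancel,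
      if_true]
    rw [← Finset.sum_add_distrib]
    refine Finset.sum_congr rfl fun l hl => ?_
    rw [if_pos (Finset.mem_range.mp hl), map_smul]
    simp only [Dh, add_apply, smul_apply, smul_add, smul_smul, pow_succ]

section

variable {E : Type*} [NormedAddCommGroup E] [InnerProductSpace ℝ E]
  [MeasurableSpace E] [BorelSpace E]
variable {X : Type*} [NormedAddCommGroup X] [NormedSpace ℝ X] [FiniteDimensional ℝ X]
  [MeasurableSpace X] [BorelSpace X] (μ : Measure X) [μ.IsAddHaarMeasure]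
variable {ι : Type*} [Fintype ι]

omit [FiniteDimensional ℝ X] in
lemma hasExp_Qker {s : ℝ} (hs : 1 / 2 < s) {e : E} (he : ‖e‖ = 1) (P : ι → X →L[ℝ] E) (J : ℕ) :
    HasExp (SE X) (wE X) (1 / (2 * s)) J (fun h p => Qker s e P h p.2 0 p.1) := by
  have hh0 : 1 / (2 * s) ≤ 1 := by
    rw [div_le_one (by linarith)]; linarith
  unfold Qker
  apply HasExp.prod _ one_le_wE hh0
  intro j _
  have h1 := (hasExp_qker hs he J).comp (φ := fun p : X × ℝ => (P j p.1, p.2)) (S' := SE X)
    (w' := wE X) (((P j).continuous.measurable.comp measurable_fst).prodMk measurable_snd)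
    one_le_wE one_le_wE (fun y hy => hy) (A := 1 + ‖P j‖) (fun p hp => by
      unfold wE
      rw [← mul_div_assoc]
      have h2 := hp.1
      have h3 := (P j).le_opNorm p.1
      have h4 := norm_nonneg (P j)
      have h5 := norm_nonneg p.1
      gcongr
      nlinarith)
  exact h1

lemma integral_sub_sum_le {F : 𝓢(X, ℂ)} {Q : X → ℂ} {c : ℕ → X → ℂ} {J K : ℕ} {h B : ℝ}
    (hQ : Integrable (fun x => F x * Q x) μ)
    (hc : ∀ j, Measurable (c j)) {B' : ℝ} (hcb : ∀ j < J, ∀ x, ‖c j x‖ ≤ B' * (1 + ‖x‖) ^ K)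
    (hb : ∀ x, ‖Q x - ∑ j ∈ Finset.range J, (h : ℂ) ^ j * c j x‖ ≤ B * (1 + ‖x‖) ^ K) :
    ‖∫ x, F x * Q x ∂μ - ∑ j ∈ Finset.range J, (h : ℂ) ^ j * ∫ x, F x * c j x ∂μ‖
      ≤ B * ∫ x, (1 + ‖x‖) ^ K * ‖F x‖ ∂μ := by
  have i1 : ∀ j ∈ Finset.range J, Integrable (fun x => (h : ℂ) ^ j * (F x * c j x)) μ := fun j hj =>
    (integrable_schwartz_mul μ F (hc j).aestronglyMeasurable (hcb j (Finset.mem_range.mp hj))).const_mul _
  have e1 : ∫ x, F x * Q x ∂μ - ∑ j ∈ Finset.range J, (h : ℂ) ^ j * ∫ x, F x * c j x ∂μ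
      = ∫ x, F x * (Q x - ∑ j ∈ Finset.range J, (h : ℂ) ^ j * c j x) ∂μ := by
    have e2 : ∀ x, F x * (Q x - ∑ j ∈ Finset.range J, (h : ℂ) ^ j * c j x)
        = F x * Q x - ∑ j ∈ Finset.range J, (h : ℂ) ^ j * (F x * c j x) := by
      intro x
      rw [mul_sub, Finset.mul_sum]
      congr 1
      exact Finset.sum_congr rfl fun j _ => by ring
    simp_rw [e2]
    rw [integral_sub hQ (integrable_finsetSum _ i1), integral_finsetSum _ i1]
    simp_rw [integral_const_mul]
  rw [e1, ← integral_const_mul]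
  refine norm_integral_le_of_norm_le ((integrable_weight μ F K).const_mul B)
    (Eventually.of_forall fun x => ?_)
  rw [norm_mul]
  calc _ ≤ ‖F x‖ * (B * (1 + ‖x‖) ^ K) := by gcongr; exact hb x
    _ = _ := by ring

/-- expansions of the two kinds of terms in the Taylor formula -/
lemma hasPow_Jfun {s : ℝ} (hs : 1 / 2 < s) {e : E} (he : ‖e‖ = 1) (P : ι → X →L[ℝ] E) (J : ℕ) :
    ∃ K₀ : ℕ, ∀ F : 𝓢(X, ℂ), HasPow (1 / (2 * s)) J (fun h => Jfun μ s e P h 0 F 1) ∧
      ∀ M, K₀ ≤ M → HasPow (1 / (2 * s)) J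
        (fun h => ∫ t in (0 : ℝ)..1, ((t : ℂ) ^ M / (M.factorial : ℂ)) * Jfun μ s e P h 0 F t) := by
  have hcond : ∀ h, 0 < h → h ≤ 1 / (2 * s) → 2 * s * h ≤ 1 := by
    intro h hh hh1
    rw [le_div_iff₀ (by linarith)] at hh1
    linarith
  obtain ⟨c, hc, K, C, hC, h1, h2⟩ := hasExp_Qker (X := X) hs he P J
  have hcm : ∀ j t, Measurable (fun x => c j (x, t)) := fun j t => by
    have := Measurable.comp (hc j) (measurable_prodMk_right (y := t))
    simp only [Function.comp_def] at this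
    exact this
  -- the estimate at fixed `t`
  have key : ∀ F : 𝓢(X, ℂ), ∀ h, 0 < h → h ≤ 1 / (2 * s) → ∀ t, 0 < t → t ≤ 1 →
      ‖Jfun μ s e P h 0 F t - ∑ j ∈ Finset.range J, (h : ℂ) ^ j * ∫ x, F x * c j (x, t) ∂μ‖
        ≤ C * h ^ J * (1 / t) ^ K * ∫ x, (1 + ‖x‖) ^ K * ‖F x‖ ∂μ := by
    intro F h hh hh1 t ht ht1
    apply integral_sub_sum_le μ (integrable_GQ_t μ e P hs hh (hcond h hh hh1) ht ht1
      (fun _ => le_rfl) F) (fun j => hcm j t) (B' := C * (1 / t) ^ K)
    · intro j hj x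
      have := h1 j hj (x, t) ⟨ht, ht1⟩
      rw [wE, div_pow] at this
      calc _ ≤ _ := this
        _ = _ := by rw [div_pow, one_pow]; ring
    · intro x
      have := h2 h hh hh1 (x, t) ⟨ht, ht1⟩
      rw [wE, div_pow] at this
      calc _ ≤ _ := this
        _ = _ := by rw [div_pow, one_pow]; ring
  refine ⟨K, fun F => ⟨?_, fun M hM => ?_⟩⟩
  · rw [hasPow_iff]
    set W := ∫ x, (1 + ‖x‖) ^ K * ‖F x‖ ∂μ
    have hW : 0 ≤ W := integral_nonneg fun x => by positivity
    refine ⟨fun j => ∫ x, F x * c j (x, 1) ∂μ, C * W, by positivity, fun h hh hh1 => ?_⟩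
    have := key F h hh hh1 1 one_pos le_rfl
    rw [div_one, one_pow, mul_one] at this
    calc _ ≤ _ := this
      _ = _ := by ring
  · rw [hasPow_iff]
    set W := ∫ x, (1 + ‖x‖) ^ K * ‖F x‖ ∂μ
    have hW : 0 ≤ W := integral_nonneg fun x => by positivity
    have hM1 : ∀ t : ℝ, 0 < t → t ≤ 1 → ‖((t : ℂ) ^ M / (M.factorial : ℂ))‖ * (1 / t) ^ K ≤ 1 := by
      intro t ht ht1
      rw [norm_div, norm_pow, Complex.norm_real, Real.norm_of_nonneg ht.le, Complex.norm_natCast]
      have h3 : (1 : ℝ) ≤ (M.factorial : ℝ) := by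
        exact_mod_cast Nat.one_le_iff_ne_zero.mpr (Nat.factorial_ne_zero M)
      have h4 : t ^ M / (M.factorial : ℝ) ≤ t ^ K :=
        (div_le_self (by positivity) h3).trans (pow_le_pow_of_le_one ht.le ht1 hM)
      calc _ ≤ t ^ K * (1 / t) ^ K := by gcongr
        _ = 1 := by rw [← mul_pow, mul_one_div_cancel ht.ne', one_pow]
    have hαm : ∀ j, StronglyMeasurable (fun t : ℝ => ∫ x, F x * c j (x, t) ∂μ) := by
      intro j
      have h3 : Measurable (fun p : ℝ × X => F p.2 * c j (p.2, p.1)) := by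
        apply Measurable.mul
        · exact F.continuous.measurable.comp measurable_snd
        · have := Measurable.comp (hc j) (measurable_snd.prodMk measurable_fst : Measurable (fun p : ℝ × X => (p.2, p.1)))
          simp only [Function.comp_def] at this
          exact this
      exact (h3.stronglyMeasurable).integral_prod_right' (ν := μ)
    have hαb : ∀ j < J, ∀ t, 0 < t → t ≤ 1 → ‖∫ x, F x * c j (x, t) ∂μ‖ ≤ C * (1 / t) ^ K * W := by
      intro j hj t ht ht1
      rw [← integral_const_mul]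
      refine norm_integral_le_of_norm_le ((integrable_weight μ F K).const_mul _)
        (Eventually.of_forall fun x => ?_)
      have := h1 j hj (x, t) ⟨ht, ht1⟩
      rw [wE, div_pow] at this
      rw [norm_mul]
      calc _ ≤ ‖F x‖ * (C * ((1 + ‖x‖) ^ K / t ^ K)) := by gcongr
        _ = _ := by rw [div_pow, one_pow]; ring
    have hαi : ∀ j ∈ Finset.range J, IntervalIntegrable
        (fun t : ℝ => (t : ℂ) ^ M / (M.factorial : ℂ) * ∫ x, F x * c j (x, t) ∂μ) volume 0 1 := by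
      intro j hj
      rw [intervalIntegrable_iff_integrableOn_Ioc_of_le zero_le_one]
      refine Integrable.mono' (g := fun _ => C * W) (integrable_const _) ?_ ?_
      · apply AEStronglyMeasurable.mul
        · apply Continuous.aestronglyMeasurable; fun_prop
        · exact (hαm j).aestronglyMeasurable
      · refine (ae_restrict_iff' measurableSet_Ioc).mpr (Eventually.of_forall fun t ht => ?_)
        rw [norm_mul]
        calc _ ≤ ‖((t : ℂ) ^ M / (M.factorial : ℂ))‖ * (C * (1 / t) ^ K * W) := by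
              gcongr; exact hαb j (Finset.mem_range.mp hj) t ht.1 ht.2
          _ = (‖((t : ℂ) ^ M / (M.factorial : ℂ))‖ * (1 / t) ^ K) * (C * W) := by ring
          _ ≤ 1 * (C * W) := by gcongr; exact hM1 t ht.1 ht.2
          _ = _ := one_mul _
    refine ⟨fun j => ∫ t in (0 : ℝ)..1, (t : ℂ) ^ M / (M.factorial : ℂ) * ∫ x, F x * c j (x, t) ∂μ,
      C * W, by positivity, fun h hh hh1 => ?_⟩
    have hJi : IntervalIntegrable
        (fun t : ℝ => (t : ℂ) ^ M / (M.factorial : ℂ) * Jfun μ s e P h 0 F t) volume 0 1 := by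
      rw [intervalIntegrable_iff_integrableOn_Ioc_of_le zero_le_one]
      refine Integrable.mono' (g := fun t => C * h ^ J * W
        + ∑ j ∈ Finset.range J, h ^ j * (C * W)) (integrable_const _) ?_ ?_
      · apply AEStronglyMeasurable.mul
        · apply Continuous.aestronglyMeasurable; fun_prop
        · exact (measurable_Jfun μ s e P h 0 F).aestronglyMeasurable
      · refine (ae_restrict_iff' measurableSet_Ioc).mpr (Eventually.of_forall fun t ht => ?_)
        have k1 := key F h hh hh1 t ht.1 ht.2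
        have k2 : ‖∑ j ∈ Finset.range J, (h : ℂ) ^ j * ∫ x, F x * c j (x, t) ∂μ‖
            ≤ ∑ j ∈ Finset.range J, h ^ j * (C * (1 / t) ^ K * W) := by
          refine (norm_sum_le _ _).trans (Finset.sum_le_sum fun j hj => ?_)
          rw [norm_mul, norm_pow, Complex.norm_real, Real.norm_of_nonneg hh.le]
          gcongr
          exact hαb j (Finset.mem_range.mp hj) t ht.1 ht.2
        have k3 : ‖Jfun μ s e P h 0 F t‖ ≤ (1 / t) ^ K * (C * h ^ J * W
            + ∑ j ∈ Finset.range J, h ^ j * (C * W)) := by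
          calc ‖Jfun μ s e P h 0 F t‖ = ‖(Jfun μ s e P h 0 F t
                - ∑ j ∈ Finset.range J, (h : ℂ) ^ j * ∫ x, F x * c j (x, t) ∂μ)
                + ∑ j ∈ Finset.range J, (h : ℂ) ^ j * ∫ x, F x * c j (x, t) ∂μ‖ := by congr 1; ring
            _ ≤ _ := (norm_add_le _ _).trans (add_le_add k1 k2)
            _ = _ := by
              rw [mul_add, Finset.mul_sum]
              congr 1
              · ring
              · exact Finset.sum_congr rfl fun j _ => by ring
        rw [norm_mul]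
        have k4 : 0 ≤ C * h ^ J * W + ∑ j ∈ Finset.range J, h ^ j * (C * W) := by
          have : 0 ≤ ∑ j ∈ Finset.range J, h ^ j * (C * W) :=
            Finset.sum_nonneg fun j _ => by positivity
          positivity
        calc _ ≤ ‖((t : ℂ) ^ M / (M.factorial : ℂ))‖ * ((1 / t) ^ K * (C * h ^ J * W
            + ∑ j ∈ Finset.range J, h ^ j * (C * W))) := by gcongr
          _ = (‖((t : ℂ) ^ M / (M.factorial : ℂ))‖ * (1 / t) ^ K) * (C * h ^ J * W
            + ∑ j ∈ Finset.range J, h ^ j * (C * W)) := by ring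
          _ ≤ 1 * _ := by gcongr; exact hM1 t ht.1 ht.2
          _ = _ := one_mul _
    have e1 : (∫ t in (0 : ℝ)..1, ((t : ℂ) ^ M / (M.factorial : ℂ)) * Jfun μ s e P h 0 F t)
        - ∑ j ∈ Finset.range J, (h : ℂ) ^ j * ∫ t in (0 : ℝ)..1,
          (t : ℂ) ^ M / (M.factorial : ℂ) * ∫ x, F x * c j (x, t) ∂μ
        = ∫ t in (0 : ℝ)..1, ((t : ℂ) ^ M / (M.factorial : ℂ)) * (Jfun μ s e P h 0 F t
          - ∑ j ∈ Finset.range J, (h : ℂ) ^ j * ∫ x, F x * c j (x, t) ∂μ) := by
      have e2 : ∀ t : ℝ, ((t : ℂ) ^ M / (M.factorial : ℂ)) * (Jfun μ s e P h 0 F t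
          - ∑ j ∈ Finset.range J, (h : ℂ) ^ j * ∫ x, F x * c j (x, t) ∂μ)
          = ((t : ℂ) ^ M / (M.factorial : ℂ)) * Jfun μ s e P h 0 F t
          - ∑ j ∈ Finset.range J, (h : ℂ) ^ j * (((t : ℂ) ^ M / (M.factorial : ℂ)) *
              ∫ x, F x * c j (x, t) ∂μ) := by
        intro t
        rw [mul_sub, Finset.mul_sum]
        congr 1
        exact Finset.sum_congr rfl fun j _ => by ring
      simp_rw [e2]
      have hsumi : IntervalIntegrable (fun t : ℝ => ∑ j ∈ Finset.range J,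
          (h : ℂ) ^ j * (((t : ℂ) ^ M / (M.factorial : ℂ)) * ∫ x, F x * c j (x, t) ∂μ))
          volume 0 1 := by
        have := IntervalIntegrable.sum (μ := volume) (a := 0) (b := 1) (Finset.range J)
          (f := fun j (t : ℝ) => (h : ℂ) ^ j * (((t : ℂ) ^ M / (M.factorial : ℂ)) *
            ∫ x, F x * c j (x, t) ∂μ)) (fun j hj => (hαi j hj).const_mul _)
        refine this.congr fun t _ => ?_
        simp
      rw [intervalIntegral.integral_sub hJi hsumi,
        intervalIntegral.integral_finsetSum (fun j hj => (hαi j hj).const_mul _)]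
      simp_rw [intervalIntegral.integral_const_mul]
    rw [e1]
    have := intervalIntegral.norm_integral_le_of_norm_le_const (a := (0 : ℝ)) (b := 1)
      (f := fun t : ℝ => ((t : ℂ) ^ M / (M.factorial : ℂ)) * (Jfun μ s e P h 0 F t
          - ∑ j ∈ Finset.range J, (h : ℂ) ^ j * ∫ x, F x * c j (x, t) ∂μ))
      (C := C * W * h ^ J) ?_
    · simpa using this
    · intro t ht
      rw [uIoc_of_le zero_le_one] at ht
      rw [norm_mul]
      calc _ ≤ ‖((t : ℂ) ^ M / (M.factorial : ℂ))‖ * (C * h ^ J * (1 / t) ^ K * W) := by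
            gcongr; exact key F h hh hh1 t ht.1 ht.2
        _ = (‖((t : ℂ) ^ M / (M.factorial : ℂ))‖ * (1 / t) ^ K) * (C * W * h ^ J) := by ring
        _ ≤ 1 * (C * W * h ^ J) := by gcongr; exact hM1 t ht.1 ht.2
        _ = _ := one_mul _

lemma Jfun_sum {s h t : ℝ} (e : E) (P : ι → X →L[ℝ] E)
    (hs : 1 / 2 < s) (hh : 0 < h) (hh1 : 2 * s * h ≤ 1)
    (ht : 0 < t) (ht1 : t ≤ 1) (L : ℕ) (G : ℕ → 𝓢(X, ℂ)) :
    Jfun μ s e P h 0 (∑ l ∈ Finset.range L, (h : ℂ) ^ l • G l) t
      = ∑ l ∈ Finset.range L, (h : ℂ) ^ l * Jfun μ s e P h 0 (G l) t := by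
  unfold Jfun
  simp_rw [← integral_const_mul]
  rw [← integral_finsetSum _ (fun l _ => (integrable_GQ_t μ e P (ε := 0) hs hh hh1 ht ht1
      (fun _ => le_rfl) (G l)).const_mul _)]
  refine integral_congr_ae (Eventually.of_forall fun x => ?_)
  simp only [sum_apply, smul_apply, smul_eq_mul]
  rw [Finset.sum_mul]
  exact Finset.sum_congr rfl fun l _ => by ring

lemma intervalIntegrable_Jfun {s h : ℝ} (e : E) (P : ι → X →L[ℝ] E)
    (hs : 1 / 2 < s) (hh : 0 < h) (hh1 : 2 * s * h ≤ 1) (G : 𝓢(X, ℂ)) {M : ℕ}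
    (hM : Fintype.card ι ≤ M) :
    IntervalIntegrable (fun t : ℝ => ((t : ℂ) ^ M / (M.factorial : ℂ)) * Jfun μ s e P h 0 G t)
      volume 0 1 := by
  rw [intervalIntegrable_iff_integrableOn_Ioc_of_le zero_le_one]
  refine Integrable.mono' (g := fun _ => 2 ^ (Fintype.card ι) * ∫ x, ‖G x‖ ∂μ) (integrable_const _) ?_ ?_
  · apply AEStronglyMeasurable.mul
    · apply Continuous.aestronglyMeasurable; fun_prop
    · exact (measurable_Jfun μ s e P h 0 G).aestronglyMeasurable
  · refine (ae_restrict_iff' measurableSet_Ioc).mpr (Eventually.of_forall fun t ht => ?_)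
    exact norm_weighted_Jfun_le μ e P hs hh hh1 ht.1 ht.2 (fun _ => le_rfl) G hM

/-- **The limiting functional has a full power expansion.** -/
theorem hasPow_Ifun {s : ℝ} (hs : 1 / 2 < s) {e : E} (he : ‖e‖ = 1) (P : ι → X →L[ℝ] E) {v : X}
    (hv : ∀ j, P j v = e) (F : 𝓢(X, ℂ)) (J : ℕ) :
    HasPow (1 / (2 * s)) J (fun h => Ifun μ s e P v h 0 (Fintype.card ι) F) := by
  have hh0 : 1 / (2 * s) ≤ 1 := by
    rw [div_le_one (by linarith)]; linarith
  have hcond : ∀ h, 0 < h → h ≤ 1 / (2 * s) → 2 * s * h ≤ 1 := by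
    intro h hh hh1
    rw [le_div_iff₀ (by linarith)] at hh1
    linarith
  obtain ⟨K₀, hK⟩ := hasPow_Jfun μ hs he P J
  set M := max K₀ (Fintype.card ι)
  have hM1 : K₀ ≤ M := le_max_left _ _
  have hM2 : Fintype.card ι ≤ M := le_max_right _ _
  have h1 : HasPow (1 / (2 * s)) J (fun h => Ifun μ s e P v h 0 M F) := by
    unfold Ifun
    apply HasPow.add
    · apply HasPow.sum
      intro i _
      apply HasPow.const_mul hh0
      obtain ⟨L, G, hG⟩ := Dh_pow_poly v F i
      have h2 : HasPow (1 / (2 * s)) J (fun h => ∑ l ∈ Finset.range L,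
          (h : ℂ) ^ l * Jfun μ s e P h 0 (G l) 1) := by
        apply HasPow.sum
        intro l _
        exact ((hasPow_h hh0).pow hh0 l).mul hh0 (hK (G l)).1
      refine h2.congr fun h hh hh1 => ?_
      rw [hG h, Jfun_sum μ e P hs hh (hcond h hh hh1) one_pos le_rfl]
    · apply HasPow.const_mul hh0
      obtain ⟨L, G, hG⟩ := Dh_pow_poly v F (M + 1)
      have h2 : HasPow (1 / (2 * s)) J (fun h => ∑ l ∈ Finset.range L,
          (h : ℂ) ^ l * ∫ t in (0 : ℝ)..1, ((t : ℂ) ^ M / (M.factorial : ℂ)) *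
            Jfun μ s e P h 0 (G l) t) := by
        apply HasPow.sum
        intro l _
        exact ((hasPow_h hh0).pow hh0 l).mul hh0 ((hK (G l)).2 M hM1)
      refine h2.congr fun h hh hh1 => ?_
      have hc := hcond h hh hh1
      simp_rw [← intervalIntegral.integral_const_mul]
      rw [← intervalIntegral.integral_finsetSum
        (fun l _ => (intervalIntegrable_Jfun μ e P hs hh hc (G l) hM2).const_mul _)]
      apply intervalIntegral.integral_congr_ae
      refine Eventually.of_forall fun t ht => ?_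
      rw [uIoc_of_le zero_le_one] at ht
      rw [hG h, Jfun_sum μ e P hs hh hc ht.1 ht.2, Finset.mul_sum]
      exact Finset.sum_congr rfl fun l _ => by ring
  refine h1.congr fun h hh hh1 => ?_
  exact Ifun_eq μ he P hv hs hh (hcond h hh hh1) F le_rfl hM2

end

end FracScat
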