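import Mathlib

/-! # The rotated resolvent symbol -/

open MeasureTheory Filter Complex Set Topology
open scoped Real

namespace FracScat

section Kernel

variable {E : Type*} [NormedAddCommGroup E] [InnerProductSpace ℝ E]

/-- The denominator `e^{-2isht} |e+hξ|^{2s} - 1 - iε`. -/
noncomputable def bker (s : ℝ) (e : E) (h t ε : ℝ) (ξ : E) : ℂ :=
  Complex.exp (-((2 * s * h * t : ℝ) : ℂ) * I) * ((‖e + h • ξ‖ ^ (2 * s) : ℝ) : ℂ) - 1 - ε * I

/-- The rotated resolvent symbol. -/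
noncomputable def qker (s : ℝ) (e : E) (h t ε : ℝ) (ξ : E) : ℂ :=
  (h : ℂ) / bker s e h t ε ξ

lemma norm_bker_ge (s : ℝ) (e : E) (h t ε : ℝ) (ξ : E) :
    Real.sin (2 * s * h * t) + ε * Real.cos (2 * s * h * t) ≤ ‖bker s e h t ε ξ‖ := by
  set φ := 2 * s * h * t with hφ
  have h1 : ‖bker s e h t ε ξ‖ = ‖Complex.exp ((φ : ℂ) * I) * bker s e h t ε ξ‖ := by
    rw [norm_mul, Complex.norm_exp_ofReal_mul_I, one_mul]
  have h2 : Complex.exp ((φ : ℂ) * I) * bker s e h t ε ξ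
      = ((‖e + h • ξ‖ ^ (2 * s) : ℝ) : ℂ) - Complex.exp ((φ : ℂ) * I) * (1 + ε * I) := by
    have : Complex.exp ((φ : ℂ) * I) * Complex.exp (-((φ : ℝ) : ℂ) * I) = 1 := by
      rw [← Complex.exp_add]; simp
    rw [bker, ← hφ]
    linear_combination ((‖e + h • ξ‖ ^ (2 * s) : ℝ) : ℂ) * this
  have h3 : (Complex.exp ((φ : ℂ) * I) * bker s e h t ε ξ).im
      = -(Real.sin φ + ε * Real.cos φ) := by
    rw [h2, Complex.exp_mul_I, ← Complex.ofReal_cos, ← Complex.ofReal_sin]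
    simp only [Complex.sub_im, Complex.mul_im, Complex.add_re, Complex.add_im, Complex.mul_re,
      Complex.ofReal_re, Complex.ofReal_im, Complex.I_re, Complex.I_im, Complex.one_re,
      Complex.one_im]
    ring
  rw [h1]
  calc Real.sin φ + ε * Real.cos φ ≤ |(Complex.exp ((φ : ℂ) * I) * bker s e h t ε ξ).im| := by
        rw [h3, abs_neg]; exact le_abs_self _
    _ ≤ _ := Complex.abs_im_le_norm _

/-- admissible range of the angle -/
lemma sin_lower {φ : ℝ} (h0 : 0 ≤ φ) (h1 : φ ≤ 1) : φ / 2 ≤ Real.sin φ := by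
  have := Real.mul_le_sin h0 (by linarith [Real.pi_gt_three])
  have h3 : (1 : ℝ) / 2 ≤ 2 / π := by
    rw [div_le_div_iff₀ (by norm_num) Real.pi_pos]
    linarith [Real.pi_le_four]
  nlinarith

lemma cos_lower {φ : ℝ} (h0 : 0 ≤ φ) (h1 : φ ≤ 1) : 1 / 2 ≤ Real.cos φ := by
  have := Real.one_sub_sq_div_two_le_cos (x := φ)
  nlinarith

lemma norm_bker_ge_t {s h t ε : ℝ} (e ξ : E) (h0 : 0 ≤ 2 * s * h * t) (h1 : 2 * s * h * t ≤ 1)
    (hε : 0 ≤ ε) : s * h * t ≤ ‖bker s e h t ε ξ‖ := by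
  have := norm_bker_ge s e h t ε ξ
  have h2 := sin_lower h0 h1
  have h3 := cos_lower h0 h1
  have h4 : 0 ≤ ε * Real.cos (2 * s * h * t) := mul_nonneg hε (by linarith)
  linarith

lemma norm_bker_ge_eps {s h t ε : ℝ} (e ξ : E) (h0 : 0 ≤ 2 * s * h * t) (h1 : 2 * s * h * t ≤ 1)
    (hε : 0 ≤ ε) : ε / 2 ≤ ‖bker s e h t ε ξ‖ := by
  have := norm_bker_ge s e h t ε ξ
  have h2 := sin_lower h0 h1
  have h3 := cos_lower h0 h1
  nlinarith

/-- bound on `q` for `t > 0` -/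
lemma norm_qker_le_t {s h t ε : ℝ} (e ξ : E) (hs : 1 / 2 < s) (hh : 0 < h) (hh1 : 2 * s * h ≤ 1)
    (ht : 0 < t) (ht1 : t ≤ 1) (hε : 0 ≤ ε) : ‖qker s e h t ε ξ‖ ≤ 2 / t := by
  have h0 : 0 < 2 * s * h := by positivity
  have hb := norm_bker_ge_t (s := s) (h := h) (t := t) e ξ (by positivity) (by nlinarith) hε
  have hpos : 0 < s * h * t := by positivity
  rw [qker, norm_div, Complex.norm_real, Real.norm_of_nonneg hh.le]
  rw [div_le_div_iff₀ (lt_of_lt_of_le hpos hb) ht]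
  nlinarith

lemma norm_qker_le_eps {s h t ε : ℝ} (e ξ : E) (hs : 1 / 2 < s) (hh : 0 < h) (hh1 : 2 * s * h ≤ 1)
    (ht : 0 ≤ t) (ht1 : t ≤ 1) (hε : 0 < ε) : ‖qker s e h t ε ξ‖ ≤ 2 * h / ε := by
  have h0 : 0 < 2 * s * h := by positivity
  have hb := norm_bker_ge_eps (s := s) (h := h) (t := t) e ξ (by positivity) (by nlinarith) hε.le
  rw [qker, norm_div, Complex.norm_real, Real.norm_of_nonneg hh.le]
  rw [div_le_div_iff₀ (lt_of_lt_of_le (by positivity) hb) hε]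
  nlinarith

lemma bker_ne_zero_t {s h t ε : ℝ} (e ξ : E) (hs : 1 / 2 < s) (hh : 0 < h) (hh1 : 2 * s * h ≤ 1)
    (ht : 0 < t) (ht1 : t ≤ 1) (hε : 0 ≤ ε) : bker s e h t ε ξ ≠ 0 := by
  have h0 : 0 < 2 * s * h := by positivity
  have hb := norm_bker_ge_t (s := s) (h := h) (t := t) e ξ (by positivity) (by nlinarith) hε
  have hpos : 0 < s * h * t := by positivity
  exact norm_pos_iff.mp (lt_of_lt_of_le hpos hb)

lemma bker_ne_zero_eps {s h t ε : ℝ} (e ξ : E) (hs : 1 / 2 < s) (hh : 0 < h) (hh1 : 2 * s * h ≤ 1)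
    (ht : 0 ≤ t) (ht1 : t ≤ 1) (hε : 0 < ε) : bker s e h t ε ξ ≠ 0 := by
  have h0 : 0 < 2 * s * h := by positivity
  have hb := norm_bker_ge_eps (s := s) (h := h) (t := t) e ξ (by positivity) (by nlinarith) hε.le
  exact norm_pos_iff.mp (lt_of_lt_of_le (by positivity) hb)

/-- `∂_t b` -/
lemma hasDerivAt_bker_t (s : ℝ) (e : E) (h t ε : ℝ) (ξ : E) :
    HasDerivAt (fun t => bker s e h t ε ξ)
      (-I * (2 * s * h) * (Complex.exp (-((2 * s * h * t : ℝ) : ℂ) * I)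
        * ((‖e + h • ξ‖ ^ (2 * s) : ℝ) : ℂ))) t := by
  have h1 : HasDerivAt (fun t : ℝ => (-((2 * s * h * t : ℝ) : ℂ) * I)) (-(2 * s * h) * I) t := by
    have : HasDerivAt (fun t : ℝ => ((2 * s * h * t : ℝ) : ℂ)) ((2 * s * h : ℝ) : ℂ) t := by
      have h2 : HasDerivAt (fun t : ℝ => 2 * s * h * t) (2 * s * h) t := by
        simpa using (hasDerivAt_id t).const_mul (2 * s * h)
      exact h2.ofReal_comp
    simpa using (this.neg.mul_const I)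
  have h2 := (h1.cexp.mul_const (((‖e + h • ξ‖ ^ (2 * s) : ℝ) : ℂ))).sub_const 1
    |>.sub_const ((ε : ℂ) * I)
  refine h2.congr_deriv ?_
  ring

/-- `D_ξ b` -/
noncomputable def dbker (s : ℝ) (e : E) (h t : ℝ) (ξ : E) : E →L[ℝ] ℂ :=
  (Complex.exp (-((2 * s * h * t : ℝ) : ℂ) * I)) •
    (Complex.ofRealCLM.comp ((h * (2 * s * ‖e + h • ξ‖ ^ (2 * s - 2))) • innerSL ℝ (e + h • ξ)))

lemma hasFDerivAt_bker {s : ℝ} (hs : 1 / 2 < s) (e : E) (h t ε : ℝ) (ξ : E) :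
    HasFDerivAt (fun ξ => bker s e h t ε ξ) (dbker s e h t ξ) ξ := by
  have h1 : HasFDerivAt (fun ξ : E => e + h • ξ) (h • ContinuousLinearMap.id ℝ E) ξ := by
    exact ((hasFDerivAt_id ξ).const_smul h).const_add e
  have h2 := HasFDerivAt.comp (f := fun ξ : E => e + h • ξ) (g := fun x : E => ‖x‖ ^ (2 * s)) ξ
    (hasFDerivAt_norm_rpow (e + h • ξ) (p := 2 * s) (by linarith)) h1
  have h3 : HasFDerivAt (fun ξ : E => (((‖e + h • ξ‖ ^ (2 * s) : ℝ)) : ℂ)) _ ξ :=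
    Complex.ofRealCLM.hasFDerivAt.comp ξ h2
  have h4 := ((h3.const_mul (Complex.exp (-((2 * s * h * t : ℝ) : ℂ) * I))).sub_const 1
    |>.sub_const ((ε : ℂ) * I))
  refine h4.congr_fderiv ?_
  ext v
  simp [dbker]
  ring

lemma dbker_radial {s : ℝ} (hs : 1 / 2 < s) (e : E) (h t : ℝ) (ξ : E) :
    dbker s e h t ξ (e + h • ξ) = (2 * s * h) * (Complex.exp (-((2 * s * h * t : ℝ) : ℂ) * I)
        * ((‖e + h • ξ‖ ^ (2 * s) : ℝ) : ℂ)) := by
  have h1 : ‖e + h • ξ‖ ^ (2 * s - 2) * ‖e + h • ξ‖ ^ 2 = ‖e + h • ξ‖ ^ (2 * s) := by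
    rw [← Real.rpow_natCast, ← Real.rpow_add' (norm_nonneg _) (by push_cast; linarith)]
    norm_num
  have h2 : dbker s e h t ξ (e + h • ξ) = Complex.exp (-((2 * s * h * t : ℝ) : ℂ) * I) *
      (((h * (2 * s * ‖e + h • ξ‖ ^ (2 * s - 2))) * ‖e + h • ξ‖ ^ 2 : ℝ) : ℂ) := by
    rw [← real_inner_self_eq_norm_sq (e + h • ξ)]
    rfl
  rw [h2, ← h1]
  push_cast
  ring

/-- `D_ξ q` -/
noncomputable def dqker (s : ℝ) (e : E) (h t ε : ℝ) (ξ : E) : E →L[ℝ] ℂ :=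
  (-(h : ℂ) / (bker s e h t ε ξ) ^ 2) • dbker s e h t ξ

lemma hasFDerivAt_qker {s : ℝ} (hs : 1 / 2 < s) (e : E) (h t ε : ℝ) (ξ : E)
    (hb : bker s e h t ε ξ ≠ 0) :
    HasFDerivAt (fun ξ => qker s e h t ε ξ) (dqker s e h t ε ξ) ξ := by
  have h1 := (hasFDerivAt_bker hs e h t ε ξ)
  have h2 : HasDerivAt (fun z : ℂ => (h : ℂ) / z) (-(h : ℂ) / (bker s e h t ε ξ) ^ 2)
      (bker s e h t ε ξ) := by
    have := (hasDerivAt_inv hb).const_mul (h : ℂ)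
    simp only [div_eq_mul_inv]
    refine this.congr_deriv ?_
    ring
  have h3 := (h2.hasFDerivAt.restrictScalars ℝ).comp ξ h1
  refine h3.congr_fderiv ?_
  ext v
  simp [dqker, mul_comm]

lemma hasDerivAt_qker_t {s : ℝ} (hs : 1 / 2 < s) (e : E) (h t ε : ℝ) (ξ : E)
    (hb : bker s e h t ε ξ ≠ 0) :
    HasDerivAt (fun t => qker s e h t ε ξ) (-I * dqker s e h t ε ξ (e + h • ξ)) t := by
  have h1 := (hasDerivAt_bker_t s e h t ε ξ)
  have h2 := (h1.inv hb).const_mul (h : ℂ)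
  have h3 : (fun t => qker s e h t ε ξ) = fun t => (h : ℂ) * (bker s e h t ε ξ)⁻¹ := by
    ext t; rw [qker, div_eq_mul_inv]
  rw [h3]
  refine h2.congr_deriv ?_
  rw [dqker, smul_apply, dbker_radial hs, smul_eq_mul]
  field_simp

lemma norm_dbker_le {s : ℝ} (hs : 1 / 2 < s) (e : E) {h : ℝ} (hh : 0 ≤ h) (t : ℝ) (ξ : E) :
    ‖dbker s e h t ξ‖ ≤ 2 * s * h * ‖e + h • ξ‖ ^ (2 * s - 1) := by
  rw [dbker, norm_smul]
  have h1 : ‖Complex.exp (-((2 * s * h * t : ℝ) : ℂ) * I)‖ = 1 := by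
    rw [← Complex.ofReal_neg, Complex.norm_exp_ofReal_mul_I]
  rw [h1, one_mul]
  refine (ContinuousLinearMap.opNorm_comp_le _ _).trans ?_
  rw [Complex.ofRealCLM_norm, one_mul, norm_smul, innerSL_apply_norm]
  have h2 : ‖h * (2 * s * ‖e + h • ξ‖ ^ (2 * s - 2))‖ = h * (2 * s * ‖e + h • ξ‖ ^ (2 * s - 2)) := by
    rw [Real.norm_of_nonneg]; positivity
  rw [h2]
  have h3 : ‖e + h • ξ‖ ^ (2 * s - 2) * ‖e + h • ξ‖ = ‖e + h • ξ‖ ^ (2 * s - 1) := by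
    rw [← Real.rpow_add_one' (norm_nonneg _) (by linarith)]
    congr 1; ring
  rw [← h3]
  apply le_of_eq; ring

/-- polynomial bound for the norm power -/
lemma rpow_le_poly {s : ℝ} {e : E} (he : ‖e‖ = 1) {h : ℝ} (hh : 0 ≤ h)
    (hh1 : h ≤ 1) (ξ : E) {p : ℝ} (hp0 : 0 ≤ p) (hp : p ≤ 2 * s) :
    ‖e + h • ξ‖ ^ p ≤ (2 + ‖ξ‖) ^ (⌈2 * s⌉₊) := by
  have h1 : ‖e + h • ξ‖ ≤ 2 + ‖ξ‖ := by
    calc ‖e + h • ξ‖ ≤ ‖e‖ + ‖h • ξ‖ := norm_add_le _ _
      _ ≤ 1 + 1 * ‖ξ‖ := by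
        rw [he, norm_smul, Real.norm_of_nonneg hh]; gcongr
      _ ≤ _ := by linarith
  calc ‖e + h • ξ‖ ^ p ≤ (2 + ‖ξ‖) ^ p := Real.rpow_le_rpow (norm_nonneg _) h1 hp0
    _ ≤ (2 + ‖ξ‖) ^ ((⌈2 * s⌉₊ : ℕ) : ℝ) := by
      apply Real.rpow_le_rpow_of_exponent_le
      · linarith [norm_nonneg ξ]
      · exact hp.trans (Nat.le_ceil _)
    _ = _ := Real.rpow_natCast _ _

lemma norm_dqker_le {s h t ε : ℝ} {e : E} (he : ‖e‖ = 1) (ξ : E) (hs : 1 / 2 < s) (hh : 0 < h)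
    (hh1 : 2 * s * h ≤ 1) (ht : 0 ≤ t) (ht1 : t ≤ 1) (hε : 0 < ε) :
    ‖dqker s e h t ε ξ‖ ≤ 4 / ε ^ 2 * (2 + ‖ξ‖) ^ (⌈2 * s⌉₊) := by
  have h0 : 0 < 2 * s * h := by positivity
  have hhle : h ≤ 1 := by nlinarith
  have hb := norm_bker_ge_eps (s := s) (h := h) (t := t) e ξ (by positivity) (by nlinarith) hε.le
  rw [dqker, norm_smul, norm_div, norm_neg, Complex.norm_real, Real.norm_of_nonneg hh.le, norm_pow]
  have h1 := norm_dbker_le hs e hh.le t ξ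
  have h2 := rpow_le_poly (s := s) he hh.le hhle ξ (p := 2 * s - 1) (by linarith) (by linarith)
  have hbpos : 0 < ‖bker s e h t ε ξ‖ := lt_of_lt_of_le (by positivity) hb
  have h3 : h / ‖bker s e h t ε ξ‖ ^ 2 ≤ 4 / ε ^ 2 := by
    rw [div_le_div_iff₀ (by positivity) (by positivity)]
    have : (ε / 2) ^ 2 ≤ ‖bker s e h t ε ξ‖ ^ 2 := by gcongr
    nlinarith
  have h4 : ‖dbker s e h t ξ‖ ≤ (2 + ‖ξ‖) ^ (⌈2 * s⌉₊) := by
    calc ‖dbker s e h t ξ‖ ≤ 2 * s * h * ‖e + h • ξ‖ ^ (2 * s - 1) := h1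
      _ ≤ 1 * (2 + ‖ξ‖) ^ (⌈2 * s⌉₊) := by
        apply mul_le_mul hh1 h2 (by positivity) (by norm_num)
      _ = _ := one_mul _
  exact mul_le_mul h3 h4 (norm_nonneg _) (by positivity)

lemma measurable_bker [MeasurableSpace E] [BorelSpace E] (s : ℝ) (e : E) (h ε : ℝ) :
    Measurable (fun p : ℝ × E => bker s e h p.1 ε p.2) := by
  unfold bker
  apply Measurable.sub_const
  apply Measurable.sub_const
  apply Measurable.mul
  · apply Continuous.measurable; fun_prop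
  · apply Complex.measurable_ofReal.comp
    apply Measurable.pow_const
    apply Continuous.measurable; fun_prop

lemma measurable_qker [MeasurableSpace E] [BorelSpace E] (s : ℝ) (e : E) (h ε : ℝ) :
    Measurable (fun p : ℝ × E => qker s e h p.1 ε p.2) := by
  unfold qker
  exact (measurable_bker s e h ε).const_div _

lemma continuous_bker_eps (s : ℝ) (e : E) (h t : ℝ) (ξ : E) :
    Continuous (fun ε : ℝ => bker s e h t ε ξ) := by
  unfold bker; fun_prop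

lemma continuousAt_qker_eps {s : ℝ} (e : E) (h t ε : ℝ) (ξ : E) (hb : bker s e h t ε ξ ≠ 0) :
    ContinuousAt (fun ε : ℝ => qker s e h t ε ξ) ε := by
  unfold qker
  exact continuousAt_const.div (continuous_bker_eps s e h t ξ).continuousAt hb

end Kernel

end FracScat
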