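import Pool.Agent.Lib_helper32.FSTau

/-! # The translation-uniform limiting absorption bound (one variable) -/

open MeasureTheory Filter Complex Set Topology
open scoped Real SchwartzMap LineDeriv ContDiff NNReal

namespace FracScat

section

variable {E : Type*} [NormedAddCommGroup E] [InnerProductSpace ℝ E] [FiniteDimensional ℝ E]

/-- the bump -/
noncomputable def chi0 (E : Type*) [NormedAddCommGroup E] [InnerProductSpace ℝ E]
    [FiniteDimensional ℝ E] : ContDiffBump (0 : E) := ⟨2, 3, by norm_num, by norm_num⟩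

lemma chi0_smooth : ContDiff ℝ ∞ (fun x : E => ((chi0 E x : ℝ) : ℂ)) :=
  Complex.ofRealCLM.contDiff.comp (chi0 E).contDiff

lemma chi0_cs : HasCompactSupport (fun x : E => ((chi0 E x : ℝ) : ℂ)) :=
  (chi0 E).hasCompactSupport.comp_left (g := fun r : ℝ => (r : ℂ)) (by simp)

/-- bump function as a Schwartz function -/
noncomputable def chiS (E : Type*) [NormedAddCommGroup E] [InnerProductSpace ℝ E]
    [FiniteDimensional ℝ E] : 𝓢(E, ℂ) :=
  HasCompactSupport.toSchwartzMap (f := fun x => ((chi0 E x : ℝ) : ℂ)) chi0_cs chi0_smooth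

lemma chiS_apply (x : E) : chiS E x = ((chi0 E x : ℝ) : ℂ) := rfl

lemma chiS_one {x : E} (hx : ‖x‖ ≤ 2) : chiS E x = 1 := by
  have : chi0 E x = 1 := by
    apply ContDiffBump.one_of_mem_closedBall
    rw [mem_closedBall_zero_iff]; exact hx
  rw [chiS_apply, this, Complex.ofReal_one]

lemma chiS_zero {x : E} (hx : 3 ≤ ‖x‖) : chiS E x = 0 := by
  have : chi0 E x = 0 := by
    apply ContDiffBump.zero_of_le_dist
    rw [dist_zero_right]; exact hx
  rw [chiS_apply, this, Complex.ofReal_zero]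

lemma chiS_norm_le (x : E) : ‖chiS E x‖ ≤ 1 ∧ ‖1 - chiS E x‖ ≤ 1 := by
  have h1 : chi0 E x ≤ 1 := ContDiffBump.le_one _
  have h2 : 0 ≤ chi0 E x := ContDiffBump.nonneg _
  constructor
  · rw [chiS_apply, Complex.norm_real, Real.norm_eq_abs]
    rw [abs_le]; constructor <;> linarith
  · rw [chiS_apply]
    rw [← Complex.ofReal_one, ← Complex.ofReal_sub, Complex.norm_real, Real.norm_eq_abs, abs_le]
    constructor <;> linarith

/-- the cutoff family -/
lemma uBdd_cutoff (e : E) :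
    UBdd (fun (h : Icc (0 : ℝ) 1) (x : E) => chiS E (e + (h : ℝ) • x)) := by
  have h0 : ∀ h : ℝ, (fun x : E => chiS E (e + h • x))
      = fun x : E => (fun y : E => chiS E (y + e)) ((h • ContinuousLinearMap.id ℝ E) x) := by
    intro h; ext x
    simp [add_comm]
  have hsm : ContDiff ℝ ∞ (fun y : E => chiS E (y + e)) :=
    ((chiS E).smooth ⊤).comp (contDiff_id.add contDiff_const)
  refine ⟨fun h => ?_, fun i => ⟨SchwartzMap.seminorm ℝ 0 i (chiS E), apply_nonneg _ _,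
    fun h x => ?_⟩⟩
  · show ContDiff ℝ ∞ (fun x : E => chiS E (e + (h : ℝ) • x))
    rw [h0]; exact hsm.comp (ContinuousLinearMap.contDiff _)
  · show ‖iteratedFDeriv ℝ i (fun x : E => chiS E (e + (h : ℝ) • x)) x‖ ≤ _
    rw [h0]
    refine (norm_iteratedFDeriv_comp_clm_le hsm _ i x).trans ?_
    have h1 : ‖(h : ℝ) • ContinuousLinearMap.id ℝ E‖ ≤ 1 := by
      rw [norm_smul, Real.norm_of_nonneg h.2.1]
      calc (h : ℝ) * ‖ContinuousLinearMap.id ℝ E‖ ≤ 1 * 1 :=
            mul_le_mul h.2.2 ContinuousLinearMap.norm_id_le (norm_nonneg _) (by norm_num)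
        _ = 1 := by norm_num
    rw [iteratedFDeriv_comp_add_right]
    calc _ ≤ SchwartzMap.seminorm ℝ 0 i (chiS E) * 1 := by
          gcongr
          · exact SchwartzMap.norm_iteratedFDeriv_le_seminorm ℝ _ i _
          · exact pow_le_one₀ (norm_nonneg _) h1
      _ = _ := mul_one _

/-- sum of the norms of the first three derivatives -/
noncomputable def S2 (F : 𝓢(E, ℂ)) (x : E) : ℝ :=
  ∑ i ∈ Finset.range 3, ‖iteratedFDeriv ℝ i F x‖

lemma Dh_sq_apply (v : E) (h : ℝ) (G : 𝓢(E, ℂ)) (x : E) :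
    (((Dh v h) ^ 2) G) x = fderiv ℝ (fderiv ℝ G) x (v + h • x) (v + h • x)
      + fderiv ℝ G x (h • (v + h • x))
      + 2 * (h * (Module.finrank ℝ E : ℂ)) * fderiv ℝ G x (v + h • x)
      + (h * (Module.finrank ℝ E : ℂ)) ^ 2 * G x := by
  have e1 : ((Dh v h) ^ 2) G = Dh v h (Dh v h G) := by rw [pow_two]; rfl
  rw [e1, Dh_apply, Dh_apply]
  set d : ℂ := (Module.finrank ℝ E : ℂ)
  have hG2 : HasFDerivAt (fderiv ℝ G) (fderiv ℝ (fderiv ℝ G) x) x := by
    apply DifferentiableAt.hasFDerivAt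
    have := (G.smooth 2).fderiv_right (m := 1) (by norm_num)
    exact this.differentiable one_ne_zero x
  have hv : HasFDerivAt (fun x : E => v + h • x) (h • ContinuousLinearMap.id ℝ E) x :=
    ((hasFDerivAt_id x).const_smul h).const_add v
  have h1 := (hG2.clm_apply hv).add ((G.hasFDerivAt x).const_mul ((h : ℂ) * d))
  have h2 : ((Dh v h G : 𝓢(E, ℂ)) : E → ℂ) = fun x => fderiv ℝ G x (v + h • x) + h * d * G x := by
    ext x; rw [Dh_apply]
  rw [h2]
  erw [h1.fderiv]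
  simp only [add_apply, ContinuousLinearMap.comp_apply, ContinuousLinearMap.flip_apply, smul_apply,
    smul_eq_mul]
  simp
  ring

lemma norm_Dh_pow_le {e : E} {h : ℝ} (hh : 0 ≤ h) (hh1 : h ≤ 1) (G : 𝓢(E, ℂ)) (x : E)
    (hx : ‖e + h • x‖ ≤ 3 ∨ ∀ i, iteratedFDeriv ℝ i G x = 0) {i : ℕ} (hi : i ≤ 2) :
    ‖(((Dh e h) ^ i) G) x‖ ≤ (12 + 9 * (Module.finrank ℝ E : ℝ) + (Module.finrank ℝ E : ℝ) ^ 2) * S2 G x := by
  set d : ℝ := (Module.finrank ℝ E : ℝ) with hd
  have hd0 : 0 ≤ d := by positivity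
  have hdc : (Module.finrank ℝ E : ℂ) = ((d : ℝ) : ℂ) := by simp [hd]
  set a0 := ‖iteratedFDeriv ℝ 0 G x‖ with ha0
  set a1 := ‖iteratedFDeriv ℝ 1 G x‖ with ha1
  set a2 := ‖iteratedFDeriv ℝ 2 G x‖ with ha2
  have h0 : 0 ≤ a0 := norm_nonneg _
  have h1 : 0 ≤ a1 := norm_nonneg _
  have h2 : 0 ≤ a2 := norm_nonneg _
  have hS : S2 G x = a0 + a1 + a2 := by simp [S2, Finset.sum_range_succ, ha0, ha1, ha2]
  have n0 : ‖G x‖ = a0 := by rw [ha0, norm_iteratedFDeriv_zero]
  have n1 : ‖fderiv ℝ G x‖ = a1 := by rw [ha1, norm_iteratedFDeriv_one]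
  have n2 : ‖fderiv ℝ (fderiv ℝ G) x‖ = a2 := by
    rw [ha2, ← norm_iteratedFDeriv_fderiv, norm_iteratedFDeriv_one]
  have main : ‖e + h • x‖ ≤ 3 ∨ (a0 = 0 ∧ a1 = 0 ∧ a2 = 0) := by
    rcases hx with h | h
    · exact Or.inl h
    · right; simp [ha0, ha1, ha2, h]
  set z := e + h • x with hz
  have g1 : ‖fderiv ℝ G x z‖ ≤ 3 * a1 := by
    rcases main with h | h
    · calc _ ≤ ‖fderiv ℝ G x‖ * ‖z‖ := (fderiv ℝ G x).le_opNorm z
        _ ≤ a1 * 3 := by rw [n1]; gcongr
        _ = _ := by ring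
    · have : fderiv ℝ G x = 0 := norm_eq_zero.mp (n1.trans h.2.1)
      rw [this]; simp [h1]
  have g1' : ‖fderiv ℝ G x (h • z)‖ ≤ 3 * a1 := by
    rw [map_smul, norm_smul, Real.norm_of_nonneg hh]
    calc _ ≤ 1 * (3 * a1) := by gcongr
      _ = _ := one_mul _
  have g2 : ‖fderiv ℝ (fderiv ℝ G) x z z‖ ≤ 9 * a2 := by
    rcases main with h | h
    · calc _ ≤ ‖fderiv ℝ (fderiv ℝ G) x z‖ * ‖z‖ := ContinuousLinearMap.le_opNorm _ z
        _ ≤ (‖fderiv ℝ (fderiv ℝ G) x‖ * ‖z‖) * ‖z‖ := by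
            gcongr; exact ContinuousLinearMap.le_opNorm _ z
        _ ≤ (a2 * 3) * 3 := by rw [n2]; gcongr
        _ = _ := by ring
    · calc _ ≤ ‖fderiv ℝ (fderiv ℝ G) x z‖ * ‖z‖ := ContinuousLinearMap.le_opNorm _ z
        _ ≤ (‖fderiv ℝ (fderiv ℝ G) x‖ * ‖z‖) * ‖z‖ := by
            gcongr; exact ContinuousLinearMap.le_opNorm _ z
        _ = 9 * a2 := by rw [n2, h.2.2]; ring
  have hhd : ‖((h : ℂ) * (Module.finrank ℝ E : ℂ))‖ ≤ d := by
    rw [hdc, norm_mul, Complex.norm_real, Complex.norm_real, Real.norm_of_nonneg hh,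
      Real.norm_of_nonneg hd0]
    exact mul_le_of_le_one_left hd0 hh1
  interval_cases i
  · rw [pow_zero, hS]
    change ‖G x‖ ≤ _
    rw [n0]
    nlinarith [mul_nonneg hd0 h0, mul_nonneg hd0 h1, mul_nonneg hd0 h2,
      mul_nonneg (sq_nonneg d) h0, mul_nonneg (sq_nonneg d) h1, mul_nonneg (sq_nonneg d) h2]
  · rw [pow_one, hS, Dh_apply]
    calc _ ≤ ‖fderiv ℝ G x z‖ + ‖(h : ℂ) * (Module.finrank ℝ E : ℂ)‖ * ‖G x‖ := by
          rw [← norm_mul]; exact norm_add_le _ _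
      _ ≤ 3 * a1 + d * a0 := by rw [n0]; gcongr
      _ ≤ _ := by
        nlinarith [mul_nonneg hd0 h0, mul_nonneg hd0 h1, mul_nonneg hd0 h2,
          mul_nonneg (sq_nonneg d) h0, mul_nonneg (sq_nonneg d) h1, mul_nonneg (sq_nonneg d) h2]
  · rw [hS, Dh_sq_apply]
    have k3 : ‖2 * ((h : ℂ) * (Module.finrank ℝ E : ℂ)) * fderiv ℝ G x z‖ ≤ 2 * d * (3 * a1) := by
      rw [norm_mul, norm_mul, Complex.norm_ofNat]
      gcongr
    have k4 : ‖((h : ℂ) * (Module.finrank ℝ E : ℂ)) ^ 2 * G x‖ ≤ d ^ 2 * a0 := by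
      rw [norm_mul, norm_pow, n0]
      gcongr
    calc _ ≤ 9 * a2 + 3 * a1 + 2 * d * (3 * a1) + d ^ 2 * a0 :=
          (norm_add_le _ _).trans (add_le_add ((norm_add_le _ _).trans (add_le_add
            ((norm_add_le _ _).trans (add_le_add g2 g1')) k3)) k4)
      _ ≤ _ := by
        nlinarith [mul_nonneg hd0 h0, mul_nonneg hd0 h1, mul_nonneg hd0 h2,
          mul_nonneg (sq_nonneg d) h0, mul_nonneg (sq_nonneg d) h1, mul_nonneg (sq_nonneg d) h2]

end

section

variable {E : Type*} [NormedAddCommGroup E] [InnerProductSpace ℝ E] [FiniteDimensional ℝ E]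
  [MeasurableSpace E] [BorelSpace E]

lemma integrable_S2 (F : 𝓢(E, ℂ)) : Integrable (S2 F) (volume : Measure E) := by
  unfold S2
  apply integrable_finsetSum
  intro i _
  simpa using F.integrable_pow_mul_iteratedFDeriv volume 0 i

omit [FiniteDimensional ℝ E] [MeasurableSpace E] [BorelSpace E] in
lemma norm_qker_far {s h ε : ℝ} {e ξ : E} (hs : 1 / 2 < s) (hh : 0 < h) (hh1 : 2 * s * h ≤ 1)
    (hξ : 2 ≤ ‖e + h • ξ‖) : ‖qker s e h 0 ε ξ‖ ≤ 1 := by
  have h1 : 1 ≤ ‖bker s e h 0 ε ξ‖ := by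
    have h2 : (bker s e h 0 ε ξ).re = ‖e + h • ξ‖ ^ (2 * s) - 1 := by
      simp [bker]
    have h3 : (2 : ℝ) ≤ ‖e + h • ξ‖ ^ (2 * s) := by
      calc (2 : ℝ) = 2 ^ (1 : ℝ) := by norm_num
        _ ≤ 2 ^ (2 * s) := Real.rpow_le_rpow_of_exponent_le (by norm_num) (by linarith)
        _ ≤ _ := Real.rpow_le_rpow (by norm_num) hξ (by linarith)
    calc (1 : ℝ) ≤ |(bker s e h 0 ε ξ).re| := by
          rw [h2]; exact le_trans (by linarith) (le_abs_self _)
      _ ≤ _ := Complex.abs_re_le_norm _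
  have h2 : h ≤ 1 := by nlinarith
  rw [qker, norm_div, Complex.norm_real, Real.norm_of_nonneg hh.le, div_le_one (by linarith)]
  linarith

/-- **Translation-uniform limiting absorption bound.** -/
theorem lap_bound {s : ℝ} (hs : 1 / 2 < s) {e : E} (he : ‖e‖ = 1) :
    ∃ C, 0 ≤ C ∧ ∀ h ε, 0 < h → 2 * s * h ≤ 1 → 0 < ε → ∀ F : 𝓢(E, ℂ),
      ‖∫ ξ, F ξ * qker s e h 0 ε ξ‖ ≤ C * ∫ ξ, S2 F ξ := by
  have hcut := uBdd_cutoff e
  choose B hB0 hB using hcut.2
  set d : ℝ := (Module.finrank ℝ E : ℝ)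
  set A : ℝ := 12 + 9 * d + d ^ 2 with hA
  have hA0 : 0 ≤ A := by positivity
  -- constant for the product rule
  set B' : ℝ := ∑ i ∈ Finset.range 3, ∑ j ∈ Finset.range (i + 1), (i.choose j : ℝ) * B j with hB'
  have hB'0 : 0 ≤ B' := Finset.sum_nonneg fun i _ => Finset.sum_nonneg fun j _ => by
    have := hB0 j; positivity
  refine ⟨2 * (3 * (A * B')) + 1, by positivity, fun h ε hh hh1 hε F => ?_⟩
  have hle : h ≤ 1 := by nlinarith
  set hc : Icc (0 : ℝ) 1 := ⟨h, hh.le, hle⟩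
  have htg := hcut.tg hc
  set G : 𝓢(E, ℂ) := SchwartzMap.smulLeftCLM ℂ (fun x : E => chiS E (e + h • x)) F with hG
  have hGx : ∀ x, G x = chiS E (e + h • x) * F x := fun x => by
    rw [hG, SchwartzMap.smulLeftCLM_apply_apply htg, smul_eq_mul]
  have hGfun : (G : E → ℂ) = fun x => chiS E (e + h • x) * F x := funext hGx
  -- derivative bounds of G
  have hS2G : ∀ x, S2 G x ≤ B' * S2 F x := by
    intro x
    unfold S2
    rw [hB', Finset.sum_mul]
    apply Finset.sum_le_sum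
    intro i hi
    have hi' := Finset.mem_range.mp hi
    rw [hGfun]
    have h1 := norm_iteratedFDeriv_mul_le (𝕜 := ℝ) (n := i) (N := ∞) (hcut.1 hc) (F.smooth ⊤) x
      (mod_cast le_top)
    refine h1.trans ?_
    rw [Finset.sum_mul]
    apply Finset.sum_le_sum
    intro j hj
    have hj' := Finset.mem_range.mp hj
    have h2 := hB j hc x
    have h3 : ‖iteratedFDeriv ℝ (i - j) F x‖ ≤ ∑ i ∈ Finset.range 3, ‖iteratedFDeriv ℝ i F x‖ :=
      Finset.single_le_sum (f := fun i => ‖iteratedFDeriv ℝ i F x‖) (fun _ _ => norm_nonneg _)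
        (Finset.mem_range.mpr (by omega))
    have h4 := hB0 j
    gcongr
  -- support
  have hsupp : ∀ x, ‖e + h • x‖ ≤ 3 ∨ ∀ i, iteratedFDeriv ℝ i G x = 0 := by
    intro x
    by_cases hx : ‖e + h • x‖ ≤ 3
    · exact Or.inl hx
    · right
      intro i
      have hclosed : IsClosed {x : E | ‖e + h • x‖ ≤ 3} :=
        isClosed_le (by fun_prop) continuous_const
      have h1 : tsupport (G : E → ℂ) ⊆ {x : E | ‖e + h • x‖ ≤ 3} := by
        apply closure_minimal _ hclosed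
        intro y hy
        by_contra hy2
        apply hy
        rw [hGx, chiS_zero (not_le.mp hy2).le, zero_mul]
      by_contra hne
      exact hx (h1 (support_iteratedFDeriv_subset i hne))
  -- N1 bound
  have hN1 : N1 volume e h 2 G ≤ 3 * (A * B') * ∫ ξ, S2 F ξ := by
    unfold N1
    have h1 : ∀ i ∈ Finset.range (2 + 1), ∫ x, ‖(((Dh e h) ^ i) G) x‖ ≤ (A * B') * ∫ ξ, S2 F ξ := by
      intro i hi
      rw [← integral_const_mul]
      apply integral_mono (SchwartzMap.integrable _).norm ((integrable_S2 F).const_mul _)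
      intro x
      have h2 := norm_Dh_pow_le hh.le hle G x (hsupp x) (i := i) (by have := Finset.mem_range.mp hi; omega)
      calc _ ≤ A * S2 G x := h2
        _ ≤ A * (B' * S2 F x) := by gcongr; exact hS2G x
        _ = _ := by ring
    calc _ ≤ ∑ i ∈ Finset.range (2 + 1), (A * B') * ∫ ξ, S2 F ξ := Finset.sum_le_sum h1
      _ = _ := by rw [Finset.sum_const, Finset.card_range]; simp; ring
  -- the near part
  have hnear := norm_Jfun_zero_le (volume : Measure E) (ι := Unit) he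
    (fun _ => ContinuousLinearMap.id ℝ E) (v := e) (fun _ => rfl) (ε := fun _ => ε) hs hh hh1
    (fun _ => hε) G (M := 1) (by simp)
  have hJ : Jfun volume s e (fun _ : Unit => ContinuousLinearMap.id ℝ E) h (fun _ => ε) G 0
      = ∫ ξ, G ξ * qker s e h 0 ε ξ := by
    simp [Jfun, Qker]
  rw [hJ] at hnear
  -- the far part
  have hqm : Measurable (fun ξ : E => qker s e h 0 ε ξ) := by
    have := Measurable.comp (measurable_qker s e h ε)
      (measurable_const.prodMk measurable_id : Measurable (fun p : E => ((0 : ℝ), p)))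
    simp only [Function.comp_def] at this
    exact this
  have iF : Integrable (fun ξ => F ξ * qker s e h 0 ε ξ) := by
    apply integrable_schwartz_mul volume F hqm.aestronglyMeasurable (C := 2 * h / ε) (K := 0)
    intro x
    simpa using norm_qker_le_eps e x hs hh hh1 le_rfl zero_le_one hε
  have iG : Integrable (fun ξ => G ξ * qker s e h 0 ε ξ) := by
    apply integrable_schwartz_mul volume G hqm.aestronglyMeasurable (C := 2 * h / ε) (K := 0)
    intro x
    simpa using norm_qker_le_eps e x hs hh hh1 le_rfl zero_le_one hε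
  have hfar : ‖(∫ ξ, F ξ * qker s e h 0 ε ξ) - ∫ ξ, G ξ * qker s e h 0 ε ξ‖ ≤ ∫ ξ, S2 F ξ := by
    rw [← integral_sub iF iG]
    refine norm_integral_le_of_norm_le (integrable_S2 F) (Eventually.of_forall fun ξ => ?_)
    have e1 : F ξ * qker s e h 0 ε ξ - G ξ * qker s e h 0 ε ξ
        = (1 - chiS E (e + h • ξ)) * (F ξ * qker s e h 0 ε ξ) := by
      rw [hGx]; ring
    have hFS : ‖F ξ‖ ≤ S2 F ξ := by
      unfold S2
      have := Finset.single_le_sum (f := fun i => ‖iteratedFDeriv ℝ i F ξ‖)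
        (fun _ _ => norm_nonneg _) (Finset.mem_range.mpr (by norm_num : 0 < 3))
      simpa using this
    rw [e1]
    rcases le_or_gt ‖e + h • ξ‖ 2 with h2 | h2
    · rw [chiS_one h2, sub_self, zero_mul, norm_zero]
      exact (norm_nonneg _).trans hFS
    · rw [norm_mul, norm_mul]
      have h3 := (chiS_norm_le (e + h • ξ)).2
      have h4 := norm_qker_far (ε := ε) hs hh hh1 h2.le
      calc _ ≤ 1 * (‖F ξ‖ * 1) := by gcongr
        _ ≤ _ := by linarith
  calc ‖∫ ξ, F ξ * qker s e h 0 ε ξ‖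
      = ‖((∫ ξ, F ξ * qker s e h 0 ε ξ) - ∫ ξ, G ξ * qker s e h 0 ε ξ)
        + ∫ ξ, G ξ * qker s e h 0 ε ξ‖ := by congr 1; ring
    _ ≤ (∫ ξ, S2 F ξ) + 2 * (3 * (A * B') * ∫ ξ, S2 F ξ) := by
        refine (norm_add_le _ _).trans (add_le_add hfar ?_)
        refine hnear.trans ?_
        simp only [Fintype.card_unit, pow_one]
        gcongr
    _ = _ := by ring

end

end FracScat
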