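import Pool.Agent.Lib_helper32.FSTaylor

/-! # The limiting functional -/

open MeasureTheory Filter Complex Set Topology
open scoped Real SchwartzMap LineDeriv

namespace FracScat

variable {E : Type*} [NormedAddCommGroup E] [InnerProductSpace ℝ E]
  [MeasurableSpace E] [BorelSpace E]
variable {X : Type*} [NormedAddCommGroup X] [NormedSpace ℝ X] [FiniteDimensional ℝ X]
  [MeasurableSpace X] [BorelSpace X] (μ : Measure X) [μ.IsAddHaarMeasure]
variable {ι : Type*} [Fintype ι]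

/-- The filter of regularisation parameters. -/
def epsFilter (ι : Type*) [Fintype ι] : Filter (ι → ℝ) := 𝓝[{ε | ∀ j, 0 < ε j}] 0

instance : (epsFilter ι).NeBot := by
  unfold epsFilter
  rw [← mem_closure_iff_nhdsWithin_neBot]
  rw [mem_closure_iff_seq_limit]
  refine ⟨fun n _ => 1 / ((n : ℝ) + 1), fun n j => by positivity, ?_⟩
  rw [tendsto_pi_nhds]
  intro j
  exact tendsto_one_div_add_atTop_nhds_zero_nat

instance : (epsFilter ι).IsCountablyGenerated := by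
  unfold epsFilter; infer_instance

omit [MeasurableSpace E] [BorelSpace E] in
lemma norm_Jfun_le {s h t : ℝ} (e : E) (P : ι → X →L[ℝ] E) {ε : ι → ℝ}
    (hs : 1 / 2 < s) (hh : 0 < h) (hh1 : 2 * s * h ≤ 1)
    (ht : 0 < t) (ht1 : t ≤ 1) (hε : ∀ j, 0 ≤ ε j) (G : 𝓢(X, ℂ)) :
    ‖Jfun μ s e P h ε G t‖ ≤ (2 / t) ^ (Fintype.card ι) * ∫ x, ‖G x‖ ∂μ := by
  unfold Jfun
  rw [← integral_const_mul]
  refine norm_integral_le_of_norm_le (G.integrable.norm.const_mul _) (Eventually.of_forall fun x => ?_)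
  rw [norm_mul, mul_comm]
  gcongr
  exact norm_Qker_le_t e P x hs hh hh1 ht ht1 hε

lemma measurable_Jfun (s : ℝ) (e : E) (P : ι → X →L[ℝ] E) (h : ℝ) (ε : ι → ℝ)
    (G : 𝓢(X, ℂ)) : StronglyMeasurable (fun t => Jfun μ s e P h ε G t) := by
  unfold Jfun
  have h1 : Measurable (fun p : ℝ × X => G p.2 * Qker s e P h p.1 ε p.2) :=
    (G.continuous.measurable.comp measurable_snd).mul (measurable_Qker s e P h ε)
  exact (h1.stronglyMeasurable).integral_prod_right' (ν := μ)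

lemma tendsto_Jfun {s h t : ℝ} (e : E) (P : ι → X →L[ℝ] E)
    (hs : 1 / 2 < s) (hh : 0 < h) (hh1 : 2 * s * h ≤ 1)
    (ht : 0 < t) (ht1 : t ≤ 1) (G : 𝓢(X, ℂ)) :
    Tendsto (fun ε => Jfun μ s e P h ε G t) (epsFilter ι) (𝓝 (Jfun μ s e P h 0 G t)) := by
  unfold Jfun
  apply tendsto_integral_filter_of_dominated_convergence
    (fun x => (2 / t) ^ (Fintype.card ι) * ‖G x‖)
  · exact Eventually.of_forall fun ε => G.continuous.aestronglyMeasurable.mul
      (measurable_Qker_x s e P h t ε).aestronglyMeasurable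
  · filter_upwards [self_mem_nhdsWithin] with ε hε
    refine Eventually.of_forall fun x => ?_
    rw [norm_mul, mul_comm]
    gcongr
    exact norm_Qker_le_t e P x hs hh hh1 ht ht1 (fun j => (hε j).le)
  · exact G.integrable.norm.const_mul _
  · refine Eventually.of_forall fun x => ?_
    have := (tendsto_Qker_eps e P x hs hh hh1 ht ht1).const_mul (G x)
    exact this.mono_left nhdsWithin_le_nhds

/-- The right-hand side of the Taylor formula. -/
noncomputable def Ifun (s : ℝ) (e : E) (P : ι → X →L[ℝ] E) (v : X) (h : ℝ) (ε : ι → ℝ) (M : ℕ)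
    (F : 𝓢(X, ℂ)) : ℂ :=
  ∑ i ∈ Finset.range (M + 1), ((-I) ^ i / (i.factorial : ℂ)) * Jfun μ s e P h ε (((Dh v h) ^ i) F) 1
      + (-I) ^ (M + 1) * ∫ t in (0 : ℝ)..1, ((t : ℂ) ^ M / (M.factorial : ℂ)) *
          Jfun μ s e P h ε (((Dh v h) ^ (M + 1)) F) t

/-- `L¹` norm of the iterated fields -/
noncomputable def N1 (v : X) (h : ℝ) (m : ℕ) (F : 𝓢(X, ℂ)) : ℝ :=
  ∑ i ∈ Finset.range (m + 1), ∫ x, ‖(((Dh v h) ^ i) F) x‖ ∂μ

omit [MeasurableSpace E] [BorelSpace E] in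
lemma norm_weighted_Jfun_le {s h t : ℝ} (e : E) (P : ι → X →L[ℝ] E) {ε : ι → ℝ}
    (hs : 1 / 2 < s) (hh : 0 < h) (hh1 : 2 * s * h ≤ 1)
    (ht : 0 < t) (ht1 : t ≤ 1) (hε : ∀ j, 0 ≤ ε j) (G : 𝓢(X, ℂ)) {M : ℕ}
    (hM : Fintype.card ι ≤ M) :
    ‖((t : ℂ) ^ M / (M.factorial : ℂ)) * Jfun μ s e P h ε G t‖
      ≤ 2 ^ (Fintype.card ι) * ∫ x, ‖G x‖ ∂μ := by
  set n := Fintype.card ι
  have h0 : 0 ≤ ∫ x, ‖G x‖ ∂μ := integral_nonneg fun _ => norm_nonneg _
  have h1 := norm_Jfun_le μ e P hs hh hh1 ht ht1 hε G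
  have h2 : ‖((t : ℂ) ^ M / (M.factorial : ℂ))‖ ≤ t ^ n := by
    rw [norm_div, norm_pow, Complex.norm_real, Real.norm_of_nonneg ht.le, Complex.norm_natCast]
    have h3 : (1 : ℝ) ≤ (M.factorial : ℝ) := by exact_mod_cast Nat.one_le_iff_ne_zero.mpr (Nat.factorial_ne_zero M)
    calc t ^ M / (M.factorial : ℝ) ≤ t ^ M := div_le_self (by positivity) h3
      _ ≤ t ^ n := pow_le_pow_of_le_one ht.le ht1 hM
  rw [norm_mul]
  calc _ ≤ t ^ n * ((2 / t) ^ n * ∫ x, ‖G x‖ ∂μ) :=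
        mul_le_mul h2 h1 (norm_nonneg _) (by positivity)
    _ = _ := by
        rw [← mul_assoc, ← mul_pow]
        congr 2
        field_simp

omit [MeasurableSpace E] [BorelSpace E] in
lemma norm_Ifun_le {s h : ℝ} (e : E) (P : ι → X →L[ℝ] E) {ε : ι → ℝ} (v : X)
    (hs : 1 / 2 < s) (hh : 0 < h) (hh1 : 2 * s * h ≤ 1)
    (hε : ∀ j, 0 ≤ ε j) (F : 𝓢(X, ℂ)) {M : ℕ}
    (hM : Fintype.card ι ≤ M) :
    ‖Ifun μ s e P v h ε M F‖ ≤ 2 ^ (Fintype.card ι) * N1 μ v h (M + 1) F := by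
  set n := Fintype.card ι
  unfold Ifun N1
  rw [Finset.sum_range_succ _ (M + 1), mul_add]
  refine (norm_add_le _ _).trans (add_le_add ?_ ?_)
  · rw [Finset.mul_sum]
    refine (norm_sum_le _ _).trans (Finset.sum_le_sum fun i _ => ?_)
    rw [norm_mul]
    have h1 := norm_Jfun_le μ e P hs hh hh1 one_pos le_rfl hε (((Dh v h) ^ i) F)
    rw [div_one] at h1
    have h2 : ‖((-I) ^ i / (i.factorial : ℂ))‖ ≤ 1 := by
      rw [norm_div, norm_pow, norm_neg, Complex.norm_I, one_pow, Complex.norm_natCast]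
      apply div_le_one_of_le₀ _ (by positivity)
      exact_mod_cast Nat.one_le_iff_ne_zero.mpr (Nat.factorial_ne_zero i)
    calc _ ≤ 1 * (2 ^ n * ∫ x, ‖(((Dh v h) ^ i) F) x‖ ∂μ) :=
          mul_le_mul h2 h1 (norm_nonneg _) (by norm_num)
      _ = _ := one_mul _
  · rw [norm_mul, norm_pow, norm_neg, Complex.norm_I, one_pow, one_mul]
    have := intervalIntegral.norm_integral_le_of_norm_le_const (a := (0 : ℝ)) (b := 1)
      (f := fun t : ℝ => ((t : ℂ) ^ M / (M.factorial : ℂ)) *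
          Jfun μ s e P h ε (((Dh v h) ^ (M + 1)) F) t)
      (C := 2 ^ n * ∫ x, ‖(((Dh v h) ^ (M + 1)) F) x‖ ∂μ) ?_
    · simpa using this
    · intro t ht
      rw [uIoc_of_le zero_le_one] at ht
      exact norm_weighted_Jfun_le μ e P hs hh hh1 ht.1 ht.2 hε _ hM

/-- The limiting absorption principle for the product kernel. -/
theorem tendsto_Jfun_zero {s h : ℝ} {e : E} (he : ‖e‖ = 1) (P : ι → X →L[ℝ] E) {v : X}
    (hv : ∀ j, P j v = e)
    (hs : 1 / 2 < s) (hh : 0 < h) (hh1 : 2 * s * h ≤ 1) (F : 𝓢(X, ℂ)) {M : ℕ}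
    (hM : Fintype.card ι ≤ M) :
    Tendsto (fun ε => Jfun μ s e P h ε F 0) (epsFilter ι) (𝓝 (Ifun μ s e P v h 0 M F)) := by
  have h1 : Tendsto (fun ε => Ifun μ s e P v h ε M F) (epsFilter ι)
      (𝓝 (Ifun μ s e P v h 0 M F)) := by
    unfold Ifun
    apply Tendsto.add
    · apply tendsto_finsetSum
      intro i _
      exact (tendsto_Jfun μ e P hs hh hh1 one_pos le_rfl _).const_mul _
    · apply Tendsto.const_mul
      apply intervalIntegral.tendsto_integral_filter_of_dominated_convergence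
        (fun _ => 2 ^ (Fintype.card ι) * ∫ x, ‖(((Dh v h) ^ (M + 1)) F) x‖ ∂μ)
      · refine Eventually.of_forall fun ε => ?_
        apply AEStronglyMeasurable.mul
        · apply Continuous.aestronglyMeasurable; fun_prop
        · exact (measurable_Jfun μ s e P h ε _).aestronglyMeasurable
      · filter_upwards [self_mem_nhdsWithin] with ε hε
        refine Eventually.of_forall fun t ht => ?_
        rw [uIoc_of_le zero_le_one] at ht
        exact norm_weighted_Jfun_le μ e P hs hh hh1 ht.1 ht.2 (fun j => (hε j).le) _ hM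
      · exact intervalIntegrable_const
      · refine Eventually.of_forall fun t ht => ?_
        rw [uIoc_of_le zero_le_one] at ht
        exact (tendsto_Jfun μ e P hs hh hh1 ht.1 ht.2 _).const_mul _
  refine h1.congr' ?_
  filter_upwards [self_mem_nhdsWithin] with ε hε
  exact (Jfun_taylor μ he P hv hs hh hh1 hε F M).symm

lemma norm_Jfun_zero_le {s h : ℝ} {e : E} (he : ‖e‖ = 1) (P : ι → X →L[ℝ] E) {v : X}
    (hv : ∀ j, P j v = e) {ε : ι → ℝ}
    (hs : 1 / 2 < s) (hh : 0 < h) (hh1 : 2 * s * h ≤ 1)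
    (hε : ∀ j, 0 < ε j) (F : 𝓢(X, ℂ)) {M : ℕ}
    (hM : Fintype.card ι ≤ M) :
    ‖Jfun μ s e P h ε F 0‖ ≤ 2 ^ (Fintype.card ι) * N1 μ v h (M + 1) F := by
  rw [Jfun_taylor μ he P hv hs hh hh1 hε F M]
  exact norm_Ifun_le μ e P v hs hh hh1 (fun j => (hε j).le) F hM

/-- independence of `M` -/
lemma Ifun_eq {s h : ℝ} {e : E} (he : ‖e‖ = 1) (P : ι → X →L[ℝ] E) {v : X}
    (hv : ∀ j, P j v = e)
    (hs : 1 / 2 < s) (hh : 0 < h) (hh1 : 2 * s * h ≤ 1) (F : 𝓢(X, ℂ)) {M M' : ℕ}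
    (hM : Fintype.card ι ≤ M) (hM' : Fintype.card ι ≤ M') :
    Ifun μ s e P v h 0 M F = Ifun μ s e P v h 0 M' F :=
  tendsto_nhds_unique (tendsto_Jfun_zero μ he P hv hs hh hh1 F hM)
    (tendsto_Jfun_zero μ he P hv hs hh hh1 F hM')

end FracScat
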