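import Pool.Agent.Lib_helper32.FSSep

/-! # Analysis on lines parallel to `e` -/

open MeasureTheory Filter Complex Set Topology
open scoped Real SchwartzMap LineDeriv ContDiff NNReal FourierTransform RealInnerProductSpace

namespace FracScat

section

variable {E : Type*} [NormedAddCommGroup E] [InnerProductSpace ℝ E]

lemma hasDerivAt_line (G : 𝓢(E, ℂ)) (e ξ' : E) (l : ℕ) (τ : ℝ) :
    HasDerivAt (fun τ : ℝ => derE e G l (ξ' + τ • e)) (derE e G (l + 1) (ξ' + τ • e)) τ := by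
  have h2 : HasDerivAt (fun τ : ℝ => ξ' + τ • e) e τ := by
    simpa using ((hasDerivAt_id τ).smul_const e).const_add ξ'
  exact ((derE e G l).hasFDerivAt (ξ' + τ • e)).comp_hasDerivAt τ h2

lemma schwartz_bdd (G : 𝓢(E, ℂ)) : ∃ B, 0 ≤ B ∧ ∀ x, ‖G x‖ ≤ B := by
  refine ⟨SchwartzMap.seminorm ℝ 0 0 G, apply_nonneg _ _, fun x => ?_⟩
  simpa using SchwartzMap.le_seminorm ℝ 0 0 G x

lemma hasPow_line (G : 𝓢(E, ℂ)) (e ξ' : E) {h₁ : ℝ} (hh1 : h₁ ≤ 1) {τ : ℝ → ℝ} (J : ℕ)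
    (hτ : HasPow h₁ J (fun h => ((τ h : ℝ) : ℂ))) {A : ℝ} (hA : 0 ≤ A)
    (hτA : ∀ h, 0 < h → h ≤ h₁ → |τ h| ≤ A * h) :
    HasPow h₁ J (fun h => G (ξ' + τ h • e)) := by
  obtain ⟨B, hB0, hB⟩ := schwartz_bdd (derE e G J)
  have h1 : HasPow h₁ J (fun h => ∑ l ∈ Finset.range J, ((((τ h : ℝ) : ℂ)) ^ l / (l.factorial : ℂ)) *
      derE e G l (ξ' + (0 : ℝ) • e)) := by
    apply HasPow.sum
    intro l _
    have := (hτ.pow hh1 l).mul hh1 (hasPow_const ((1 / (l.factorial : ℂ)) * derE e G l (ξ' + (0 : ℝ) • e)))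
    refine this.congr fun h _ _ => by ring
  refine h1.of_close (C := B * A ^ J) (by positivity) fun h hh hle => ?_
  have h2 := taylor_bound_seq J (fun l τ => derE e G l (ξ' + τ • e))
    (fun l τ => hasDerivAt_line G e ξ' l τ) (fun τ => hB (ξ' + τ • e)) (τ h)
  refine h2.trans ?_
  rw [mul_assoc, ← mul_pow]
  gcongr
  exact hτA h hh hle

/-- if `G` is flat along the curve, all its `e`-derivatives vanish -/
lemma derE_eq_zero (G : 𝓢(E, ℂ)) (e ξ' : E) {τ : ℝ → ℝ} {A A' : ℝ} (hA' : 0 < A')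
    (hflat : ∀ J : ℕ, ∃ h₁, 0 < h₁ ∧ ∃ C, 0 ≤ C ∧ ∀ h, 0 < h → h ≤ h₁ →
      A' * h ≤ τ h ∧ τ h ≤ A * h ∧ ‖G (ξ' + τ h • e)‖ ≤ C * h ^ J) (l : ℕ) :
    derE e G l ξ' = 0 := by
  induction l using Nat.strong_induction_on with
  | _ l ih =>
    obtain ⟨B, hB0, hB⟩ := schwartz_bdd (derE e G (l + 1))
    obtain ⟨h₁, hh₁, C, hC0, hC⟩ := hflat (l + 1)
    have hIoc : Ioc (0 : ℝ) h₁ ∈ 𝓝[>] (0 : ℝ) := Ioc_mem_nhdsGT hh₁
    have hfac : (0 : ℝ) < (l.factorial : ℝ) := by exact_mod_cast Nat.factorial_pos l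
    have key : ∀ h, 0 < h → h ≤ h₁ → ‖derE e G l ξ'‖ ≤
        ((l.factorial : ℝ) * (C + B * A ^ (l + 1)) / A' ^ l) * h := by
      intro h hh hle
      obtain ⟨h1, h2, h3⟩ := hC h hh hle
      have hτ0 : 0 < τ h := lt_of_lt_of_le (by positivity) h1
      have h4 := taylor_bound_seq (l + 1) (fun l τ => derE e G l (ξ' + τ • e))
        (fun l τ => hasDerivAt_line G e ξ' l τ) (fun τ => hB (ξ' + τ • e)) (τ h)
      simp only [zero_smul, add_zero] at h4
      rw [Finset.sum_range_succ, Finset.sum_eq_zero (fun l' hl' => by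
        rw [ih l' (Finset.mem_range.mp hl'), mul_zero]), zero_add] at h4
      have h5 : ‖(((τ h : ℝ) : ℂ)) ^ l / (l.factorial : ℂ) * derE e G l ξ'‖
          ≤ C * h ^ (l + 1) + B * |τ h| ^ (l + 1) := by
        have h6 : (((τ h : ℝ) : ℂ)) ^ l / (l.factorial : ℂ) * derE e G l ξ'
            = derE e G 0 (ξ' + τ h • e) - (derE e G 0 (ξ' + τ h • e)
              - (((τ h : ℝ) : ℂ)) ^ l / (l.factorial : ℂ) * derE e G l ξ') := by ring
        rw [h6]
        exact (norm_sub_le _ _).trans (add_le_add h3 h4)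
      rw [norm_mul, norm_div, norm_pow, Complex.norm_real, Real.norm_of_nonneg hτ0.le,
        Complex.norm_natCast, abs_of_pos hτ0] at h5
      have h7 : (A' * h) ^ l / (l.factorial : ℝ) * ‖derE e G l ξ'‖
          ≤ (C + B * A ^ (l + 1)) * h ^ (l + 1) := by
        calc _ ≤ τ h ^ l / (l.factorial : ℝ) * ‖derE e G l ξ'‖ := by gcongr
          _ ≤ C * h ^ (l + 1) + B * τ h ^ (l + 1) := h5
          _ ≤ C * h ^ (l + 1) + B * (A * h) ^ (l + 1) := by gcongr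
          _ = _ := by rw [mul_pow]; ring
      have hAl : 0 < A' ^ l := by positivity
      have hhl : 0 < h ^ l := by positivity
      rw [div_mul_eq_mul_div, le_div_iff₀ hAl]
      rw [mul_pow, div_mul_eq_mul_div, div_le_iff₀ hfac, pow_succ] at h7
      have h8 : (‖derE e G l ξ'‖ * A' ^ l) * h ^ l
          ≤ ((l.factorial : ℝ) * (C + B * A ^ (l + 1)) * h) * h ^ l := by
        calc _ = A' ^ l * h ^ l * ‖derE e G l ξ'‖ := by ring
          _ ≤ _ := h7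
          _ = _ := by ring
      exact le_of_mul_le_mul_right h8 hhl
    have hlim : Tendsto (fun h : ℝ => ((l.factorial : ℝ) * (C + B * A ^ (l + 1)) / A' ^ l) * h)
        (𝓝[>] 0) (𝓝 0) := by
      have : Tendsto (fun h : ℝ => ((l.factorial : ℝ) * (C + B * A ^ (l + 1)) / A' ^ l) * h)
          (𝓝 0) (𝓝 (((l.factorial : ℝ) * (C + B * A ^ (l + 1)) / A' ^ l) * 0)) :=
        tendsto_id.const_mul _
      rw [mul_zero] at this
      exact this.mono_left nhdsWithin_le_nhds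
    have h9 : ‖derE e G l ξ'‖ ≤ 0 := by
      refine ge_of_tendsto hlim ?_
      filter_upwards [hIoc] with h hh
      exact key h hh.1 hh.2
    exact norm_le_zero_iff.mp h9

lemma zero_on_line {f : ℕ → ℝ → ℂ} (hd : ∀ l τ, HasDerivAt (f l) (f (l + 1) τ) τ) {M B : ℝ}
    (hM : 0 ≤ M) (hf : ∀ l τ, ‖f l τ‖ ≤ M ^ l * B) (h0 : ∀ l, f l 0 = 0) (τ : ℝ) :
    f 0 τ = 0 := by
  set Z : Set ℝ := {τ | ∀ l, f l τ = 0} with hZ
  have hclosed : IsClosed Z := by
    have : Z = ⋂ l, {τ | f l τ = 0} := by ext τ; simp [hZ]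
    rw [this]
    refine isClosed_iInter fun l => ?_
    have hc : Continuous (f l) := continuous_iff_continuousAt.mpr fun τ => (hd l τ).continuousAt
    exact isClosed_eq hc continuous_const
  have hopen : IsOpen Z := by
    rw [Metric.isOpen_iff]
    intro τ₀ hτ₀
    refine ⟨1 / (M + 1), by positivity, fun τ hτ l₀ => ?_⟩
    rw [Metric.mem_ball, Real.dist_eq] at hτ
    have h1 : ∀ L : ℕ, ‖f l₀ τ‖ ≤ (M ^ l₀ * B) * (M * |τ - τ₀|) ^ L := by
      intro L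
      have h2 := taylor_bound_seq L (fun l t => f (l₀ + l) (τ₀ + t)) (C := M ^ (l₀ + L) * B)
        (fun l t => by
          have := (hd (l₀ + l) (τ₀ + t)).comp_const_add τ₀ t
          exact this)
        (fun t => hf _ _) (τ - τ₀)
      simp only [add_zero, add_sub_cancel] at h2
      rw [Finset.sum_eq_zero (fun l _ => by rw [hτ₀ (l₀ + l), mul_zero]), sub_zero] at h2
      refine h2.trans (le_of_eq ?_)
      rw [pow_add, mul_pow]; ring
    have h3 : M * |τ - τ₀| < 1 := by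
      calc M * |τ - τ₀| ≤ M * (1 / (M + 1)) := by gcongr
        _ < 1 := by
          rw [mul_one_div, div_lt_one (by positivity)]; linarith
    have h4 : Tendsto (fun L : ℕ => (M ^ l₀ * B) * (M * |τ - τ₀|) ^ L) atTop (𝓝 0) := by
      simpa using (tendsto_pow_atTop_nhds_zero_of_lt_one (by positivity) h3).const_mul (M ^ l₀ * B)
    have h5 : ‖f l₀ τ‖ ≤ 0 := ge_of_tendsto' h4 h1
    exact norm_le_zero_iff.mp h5
  have huniv : Z = univ := IsClopen.eq_univ ⟨hclosed, hopen⟩ ⟨0, h0⟩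
  have : τ ∈ Z := by rw [huniv]; trivial
  exact this 0

end

section

variable {E : Type*} [NormedAddCommGroup E] [InnerProductSpace ℝ E] [FiniteDimensional ℝ E]
  [MeasurableSpace E] [BorelSpace E]

lemma derE_fourier (W : 𝓢(E, ℂ)) {e : E} (he : ‖e‖ = 1) {R : ℝ} (hR : ∀ x, R < ‖x‖ → W x = 0) (l : ℕ) :
    ∃ Wl : 𝓢(E, ℂ), derE e (𝓕 W) l = 𝓕 Wl ∧ ∀ x, ‖Wl x‖ ≤ (2 * π * |R|) ^ l * ‖W x‖ := by
  induction l with
  | zero => exact ⟨W, rfl, fun x => by simp⟩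
  | succ l ih =>
    obtain ⟨Wl, h1, h2⟩ := ih
    refine ⟨-(2 * π * I) • SchwartzMap.smulLeftCLM ℂ (inner ℝ · e) Wl, ?_, fun x => ?_⟩
    · change ∂_{e} (derE e (𝓕 W) l) = _
      rw [h1, SchwartzMap.lineDerivOp_fourier_eq]
    · have hx : (-(2 * π * I) • SchwartzMap.smulLeftCLM ℂ (inner ℝ · e) Wl : 𝓢(E, ℂ)) x
          = -(2 * π * I) * (((⟪x, e⟫ : ℝ) : ℂ) * Wl x) := by
        rw [smul_apply, SchwartzMap.smulLeftCLM_apply_apply (by fun_prop)]
        simp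
      rw [hx, norm_mul, norm_mul, norm_neg, norm_mul, norm_mul, Complex.norm_real, Complex.norm_real,
        Complex.norm_I, mul_one]
      have h3 : ‖(2 : ℂ)‖ = 2 := by simp
      rw [h3, Real.norm_of_nonneg Real.pi_pos.le, Real.norm_eq_abs]
      by_cases hxR : R < ‖x‖
      · have h4 := h2 x
        rw [hR x hxR] at h4 ⊢
        rw [norm_zero, mul_zero] at h4 ⊢
        have : ‖Wl x‖ = 0 := le_antisymm h4 (norm_nonneg _)
        rw [this]; simp
      · push Not at hxR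
        have h5 : |⟪x, e⟫| ≤ |R| := by
          have := abs_real_inner_le_norm x e
          rw [he, mul_one] at this
          exact this.trans (hxR.trans (le_abs_self R))
        calc 2 * π * (|⟪x, e⟫| * ‖Wl x‖) ≤ 2 * π * (|R| * ((2 * π * |R|) ^ l * ‖W x‖)) := by
              gcongr
              exact h2 x
          _ = _ := by rw [pow_succ]; ring

/-- if all `e`-derivatives of `𝓕 W` vanish at `ξ'`, it vanishes on the line through `ξ'` -/
lemma fourier_zero_on_line (W : 𝓢(E, ℂ)) {e : E} (he : ‖e‖ = 1) {R : ℝ}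
    (hR : ∀ x, R < ‖x‖ → W x = 0) (ξ' : E) (h0 : ∀ l, derE e (𝓕 W) l ξ' = 0) (τ : ℝ) :
    (𝓕 W : 𝓢(E, ℂ)) (ξ' + τ • e) = 0 := by
  have hB : ∀ l (τ : ℝ), ‖derE e (𝓕 W) l (ξ' + τ • e)‖ ≤ (2 * π * |R|) ^ l * ∫ x, ‖W x‖ := by
    intro l τ
    obtain ⟨Wl, h1, h2⟩ := derE_fourier W he hR l
    rw [h1]
    have h4 : ((𝓕 Wl : 𝓢(E, ℂ)) : E → ℂ) = 𝓕 (Wl : E → ℂ) := SchwartzMap.fourier_coe Wl
    rw [h4]
    refine (norm_fourier_le _).trans ?_
    rw [← integral_const_mul]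
    exact integral_mono Wl.integrable.norm (W.integrable.norm.const_mul _) h2
  exact zero_on_line (f := fun l (τ : ℝ) => derE e (𝓕 W) l (ξ' + τ • e))
    (fun l τ => hasDerivAt_line (𝓕 W) e ξ' l τ) (M := 2 * π * |R|) (by positivity) hB (fun l => by simpa using h0 l) τ

omit [FiniteDimensional ℝ E] [MeasurableSpace E] [BorelSpace E] in
lemma exists_perp [FiniteDimensional ℝ E] (hdim : 2 ≤ Module.finrank ℝ E) (e : E) :
    ∃ v : E, v ≠ 0 ∧ ⟪e, v⟫ = 0 := by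
  have h1 : (ℝ ∙ e)ᗮ ≠ ⊥ := by
    rw [Ne, Submodule.orthogonal_eq_bot_iff]
    intro h
    have h2 : Module.finrank ℝ (ℝ ∙ e) ≤ 1 := by
      have := finrank_span_le_card (R := ℝ) ({e} : Set E)
      simpa using this
    rw [h, finrank_top] at h2
    omega
  obtain ⟨v, hv, hv0⟩ := Submodule.exists_mem_ne_zero_of_ne_bot h1
  exact ⟨v, hv0, (Submodule.mem_orthogonal_singleton_iff_inner_right.mp hv)⟩

/-- If `𝓕 W` vanishes on all lines parallel to `e` not through the origin, then `W = 0`. -/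
lemma eq_zero_of_lines (hdim : 2 ≤ Module.finrank ℝ E) (W : 𝓢(E, ℂ)) {e : E} (he : ‖e‖ = 1)
    (h : ∀ ξ' : E, ξ' ≠ 0 → ⟪e, ξ'⟫ = 0 → ∀ τ : ℝ, (𝓕 W : 𝓢(E, ℂ)) (ξ' + τ • e) = 0) : W = 0 := by
  have h1 : ∀ ζ : E, ζ - ⟪e, ζ⟫ • e ≠ 0 → (𝓕 W : 𝓢(E, ℂ)) ζ = 0 := by
    intro ζ hζ
    have h2 := h (ζ - ⟪e, ζ⟫ • e) hζ (by
      rw [inner_sub_right, real_inner_smul_right, real_inner_self_eq_norm_sq, he]; ring) ⟪e, ζ⟫
    rwa [sub_add_cancel] at h2
  obtain ⟨v, hv0, hv⟩ := exists_perp hdim e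
  have h3 : ∀ ζ : E, (𝓕 W : 𝓢(E, ℂ)) ζ = 0 := by
    intro ζ
    by_cases hζ : ζ - ⟪e, ζ⟫ • e = 0
    · have h4 : Tendsto (fun t : ℝ => (𝓕 W : 𝓢(E, ℂ)) (ζ + t • v)) (𝓝[>] 0)
          (𝓝 ((𝓕 W : 𝓢(E, ℂ)) ζ)) := by
        have h5 : Continuous (fun t : ℝ => (𝓕 W : 𝓢(E, ℂ)) (ζ + t • v)) := by
          have := (𝓕 W : 𝓢(E, ℂ)).continuous
          fun_prop
        have h6 := h5.tendsto 0
        rw [zero_smul, add_zero] at h6
        exact h6.mono_left nhdsWithin_le_nhds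
      refine tendsto_nhds_unique h4 (tendsto_const_nhds.congr' ?_)
      filter_upwards [self_mem_nhdsWithin] with t ht
      have ht' : (0 : ℝ) < t := ht
      symm
      apply h1
      rw [inner_add_right, real_inner_smul_right, hv, mul_zero, add_zero]
      have e1 : ζ + t • v - ⟪e, ζ⟫ • e = t • v := by
        rw [add_sub_right_comm, hζ, zero_add]
      rw [e1]
      exact smul_ne_zero ht'.ne' hv0
    · exact h1 ζ hζ
  have h7 : (𝓕 W : 𝓢(E, ℂ)) = 0 := by ext ζ; simpa using h3 ζ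
  have h8 : 𝓕⁻ (𝓕 W : 𝓢(E, ℂ)) = W := by simp
  rw [← h8, h7]
  ext x
  rw [SchwartzMap.fourierInv_coe]
  simp [Real.fourierInv_eq]

end

end FracScat
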