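import Pool.Agent.Lib_helper32.FSLine

/-! # The uniqueness theorem -/

open MeasureTheory Filter Complex Set Topology
open scoped Real SchwartzMap LineDeriv ContDiff NNReal FourierTransform RealInnerProductSpace

namespace FracScat

section

variable {E : Type} [NormedAddCommGroup E] [InnerProductSpace ℝ E] [FiniteDimensional ℝ E]
  [MeasurableSpace E] [BorelSpace E]

lemma amplitude_eq (h : ℝ) (V : 𝓢(E, ℂ)) (e : E) (u : E → ℂ) :
    amplitude (2 * π / h) V e u = 𝓕 (fun x => V x * u x) ((0 : E) + h⁻¹ • e) := by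
  rw [amplitude, Real.fourier_eq', zero_add]
  refine integral_congr_ae (Eventually.of_forall fun x => ?_)
  simp only [smul_eq_mul]
  rw [← mul_assoc]
  congr 3
  rw [real_inner_smul_right, real_inner_comm e x]
  push_cast
  ring

/-- translation of a Schwartz function -/
noncomputable def transl (G : 𝓢(E, ℂ)) (ξ' : E) : 𝓢(E, ℂ) := SchwartzMap.compSubConstCLM ℂ (-ξ') G

omit [FiniteDimensional ℝ E] [MeasurableSpace E] [BorelSpace E] in
lemma transl_apply (G : 𝓢(E, ℂ)) (ξ' x : E) : transl G ξ' x = G (x + ξ') := by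
  rw [transl, SchwartzMap.compSubConstCLM_apply, sub_neg_eq_add]

/-- the full expansion of the amplitude for one potential -/
theorem one_potential {s : ℝ} (hs : 1 / 2 < s) {e : E} (he : ‖e‖ = 1) {V : 𝓢(E, ℂ)}
    (hV : HasCompactSupport V) {ξ' : E} {h₁ : ℝ} (hh₁ : 0 < h₁)
    (hle : h₁ ≤ 1 / (2 * s)) (hsm : h₁ ^ 2 * ‖ξ'‖ ^ 2 ≤ 1 / 2)
    {K : ℕ → ℝ} (hK0 : ∀ i, 0 ≤ K i) (u : ℝ → E → ℂ)
    (hu : ∀ h, 0 < h → h ≤ h₁ → IsTotalField s (2 * π / h) V (thetaf e ξ' h) (u h))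
    (hK : ∀ h, 0 < h → h ≤ h₁ → ContDiff ℝ ∞ (fun ξ => 𝓕 (fun x => V x * u h x) (ξ + h⁻¹ • e)) ∧
        ∀ i ξ, ‖iteratedFDeriv ℝ i (fun ξ => 𝓕 (fun x => V x * u h x) (ξ + h⁻¹ • e)) ξ‖ ≤ K i)
    (N : ℕ) :
    ∃ a : ℕ → ℝ → ℂ, (∀ n J, HasPow h₁ J (a n)) ∧ ∃ C, 0 ≤ C ∧
        ∀ h, 0 < h → h ≤ h₁ →
          ‖amplitude (2 * π / h) V e (u h) - (𝓕 V : 𝓢(E, ℂ)) (ξ' + tauf ‖ξ'‖ h • e)
            - ∑ n ∈ Finset.range N, ((mfun s h : ℝ) : ℂ) ^ (n + 1) * a n h‖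
            ≤ C * (mfun s h) ^ (N + 1) := by
  have hle1 : h₁ ≤ 1 := hle.trans (by rw [div_le_one (by linarith)]; linarith)
  have hcond : ∀ h, 0 < h → h ≤ h₁ → h ^ 2 * ‖ξ'‖ ^ 2 ≤ 1 := by
    intro h hh hle'
    have : h ^ 2 * ‖ξ'‖ ^ 2 ≤ h₁ ^ 2 * ‖ξ'‖ ^ 2 := by gcongr
    linarith
  have hUB : UBdd (fun h : Ioc (0 : ℝ) h₁ => (fun ξ => 𝓕 (fun x => V x * u h x) (ξ + (h : ℝ)⁻¹ • e))) :=
    ⟨fun h => (hK h h.2.1 h.2.2).1, fun i => ⟨K i, hK0 i, fun h ξ => (hK h h.2.1 h.2.2).2 i ξ⟩⟩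
  have hborn : ∀ h, 0 < h → h ≤ h₁ → BornEq s e h (𝓕 V) ((mfun s h : ℝ) : ℂ)
      (fun ξ => transl (𝓕 V) ξ' (ξ + tauf ‖ξ'‖ h • e))
      (fun ξ => 𝓕 (fun x => V x * u h x) (ξ + h⁻¹ • e)) := by
    intro h hh hle'
    have h1 := bornEq_of_totalField hh (e := e) hV (hu h hh hle')
    have e1 : (fun ξ => transl (𝓕 V) ξ' (ξ + tauf ‖ξ'‖ h • e))
        = fun η => (𝓕 V : 𝓢(E, ℂ)) (η + h⁻¹ • (e - thetaf e ξ' h)) := by
      ext ξ
      rw [transl_apply, shift_eq hh (hcond h hh hle'), add_assoc]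
    rw [e1]
    exact h1
  obtain ⟨a, ha, C, hC0, hC⟩ := amp_expansion (m := fun h => ((mfun s h : ℝ) : ℂ))
    (g := fun h ξ => 𝓕 (fun x => V x * u h x) (ξ + h⁻¹ • e)) hs he hle hUB hborn
    (fun J => hasPow_tauf hh₁ hle1 hsm J) (A := ‖ξ'‖ ^ 2) (by positivity)
    (fun h hh _ => by rw [abs_of_nonneg (tauf_nonneg hh.le)]; exact tauf_upper hh.le) N
  refine ⟨a, ha, C, hC0, fun h hh hle' => ?_⟩
  have h2 := hC h hh hle'
  rw [transl_apply, Complex.norm_real, Real.norm_of_nonneg (mfun_pos hh).le,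
    add_comm (tauf ‖ξ'‖ h • e) ξ'] at h2
  rw [amplitude_eq]
  exact h2

/-- The core uniqueness statement. -/
theorem core {s : ℝ} (hs : 1 / 2 < s) (hirr : Irrational s) {e : E} (he : ‖e‖ = 1)
    (hdim : 2 ≤ Module.finrank ℝ E) {V₁ V₂ : 𝓢(E, ℂ)} (hV₁ : HasCompactSupport V₁)
    (hV₂ : HasCompactSupport V₂) {k₀ δ : ℝ} (hδ : 0 < δ) (u₁ u₂ : ℝ → E → E → ℂ)
    (hu₁ : ∀ k, k₀ < k → ∀ θ, ‖θ‖ = 1 → ‖θ - e‖ < δ → IsTotalField s k V₁ θ (u₁ k θ))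
    (hu₂ : ∀ k, k₀ < k → ∀ θ, ‖θ‖ = 1 → ‖θ - e‖ < δ → IsTotalField s k V₂ θ (u₂ k θ))
    (hamp : ∀ k, k₀ < k → ∀ θ, ‖θ‖ = 1 → ‖θ - e‖ < δ →
      amplitude k V₁ e (u₁ k θ) = amplitude k V₂ e (u₂ k θ)) :
    V₁ = V₂ := by
  obtain ⟨a₁, ha₁, ha₁', K₁, hK₁0, hK₁⟩ := uniform_bound hs he hV₁
  obtain ⟨a₂, ha₂, ha₂', K₂, hK₂0, hK₂⟩ := uniform_bound hs he hV₂
  obtain ⟨R₁, hR₁⟩ := exists_radius hV₁
  obtain ⟨R₂, hR₂⟩ := exists_radius hV₂
  have hzero : V₁ - V₂ = 0 := by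
    refine eq_zero_of_lines hdim (V₁ - V₂) he fun ξ' hξ' hperp τ => ?_
    have hR : ∀ x, max R₁ R₂ < ‖x‖ → (V₁ - V₂) x = 0 := by
      intro x hx
      rw [sub_apply, hR₁ x ((le_max_left _ _).trans_lt hx),
        hR₂ x ((le_max_right _ _).trans_lt hx), sub_zero]
    refine fourier_zero_on_line (V₁ - V₂) he hR ξ' ?_ τ
    have hapos : 0 < ‖ξ'‖ := norm_pos_iff.mpr hξ'
    set a := ‖ξ'‖ with ha
    refine derE_eq_zero (𝓕 (V₁ - V₂)) e ξ' (τ := tauf a) (A := a ^ 2) (A' := a ^ 2 / 2)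
      (by positivity) fun J => ?_
    set h₁ : ℝ := min (min a₁ a₂) (min (1 / (2 * (a + 1))) (min (1 / (|k₀| + 1)) (δ / (a ^ 2 + a + 1))))
      with hh₁
    have hh₁pos : 0 < h₁ := by
      refine lt_min (lt_min ha₁ ha₂) (lt_min (by positivity) (lt_min (by positivity) (by positivity)))
    have hb1 : h₁ ≤ a₁ := (min_le_left _ _).trans (min_le_left _ _)
    have hb2 : h₁ ≤ a₂ := (min_le_left _ _).trans (min_le_right _ _)
    have hb3 : h₁ ≤ 1 / (2 * (a + 1)) := (min_le_right _ _).trans (min_le_left _ _)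
    have hb4 : h₁ ≤ 1 / (|k₀| + 1) :=
      (min_le_right _ _).trans ((min_le_right _ _).trans (min_le_left _ _))
    have hb5 : h₁ ≤ δ / (a ^ 2 + a + 1) :=
      (min_le_right _ _).trans ((min_le_right _ _).trans (min_le_right _ _))
    have hle : h₁ ≤ 1 / (2 * s) := hb1.trans ha₁'
    have hle1 : h₁ ≤ 1 := hle.trans (by rw [div_le_one (by linarith)]; linarith)
    have hsm : h₁ ^ 2 * a ^ 2 ≤ 1 / 2 := by
      have h3 : h₁ * a ≤ 1 / 2 := by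
        calc h₁ * a ≤ 1 / (2 * (a + 1)) * a := by gcongr
          _ ≤ 1 / 2 := by
            rw [div_mul_eq_mul_div, div_le_div_iff₀ (by positivity) (by norm_num)]
            linarith
      have h4 : 0 ≤ h₁ * a := by positivity
      nlinarith
    have hsm' : ∀ h, 0 < h → h ≤ h₁ → h ^ 2 * a ^ 2 ≤ 1 := by
      intro h hh hle'
      have : h ^ 2 * a ^ 2 ≤ h₁ ^ 2 * a ^ 2 := by gcongr
      linarith
    have hk : ∀ h, 0 < h → h ≤ h₁ → k₀ < 2 * π / h := by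
      intro h hh hle'
      have h3 : |k₀| + 1 ≤ 1 / h := by
        rw [le_div_iff₀ hh]
        have := hle'.trans hb4
        rw [le_div_iff₀ (by positivity)] at this
        linarith
      have h4 : 1 / h ≤ 2 * π / h := by
        gcongr
        linarith [Real.pi_gt_three]
      have := le_abs_self k₀
      linarith
    have hθ1 : ∀ h, 0 < h → h ≤ h₁ → ‖thetaf e ξ' h‖ = 1 := fun h hh hle' =>
      norm_thetaf he hperp (hsm' h hh hle')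
    have hθ2 : ∀ h, 0 < h → h ≤ h₁ → ‖thetaf e ξ' h - e‖ < δ := by
      intro h hh hle'
      have h3 := thetaf_sub he hh (hsm' h hh hle')
      have h4 : h ≤ 1 := hle'.trans hle1
      have h5 : h * (a ^ 2 + a + 1) ≤ δ := by
        have := hle'.trans hb5
        rwa [le_div_iff₀ (by positivity)] at this
      calc ‖thetaf e ξ' h - e‖ ≤ h * (a ^ 2 * h + a) := h3
        _ ≤ h * (a ^ 2 * 1 + a) := by gcongr
        _ < h * (a ^ 2 + a + 1) := by nlinarith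
        _ ≤ δ := h5
    obtain ⟨N, hN⟩ : ∃ N : ℕ, (J : ℝ) ≤ ((N + 1 : ℕ) : ℝ) * (2 * s - 1) := by
      obtain ⟨N, hN⟩ := exists_nat_ge ((J : ℝ) / (2 * s - 1))
      refine ⟨N, ?_⟩
      rw [div_le_iff₀ (by linarith)] at hN
      have h5 : (0 : ℝ) < 2 * s - 1 := by linarith
      push_cast
      nlinarith
    obtain ⟨b₁, hb₁, C₁, hC₁0, hC₁⟩ := one_potential hs he hV₁ (ξ' := ξ') hh₁pos hle hsm hK₁0
      (fun h => u₁ (2 * π / h) (thetaf e ξ' h))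
      (fun h hh hle' => hu₁ _ (hk h hh hle') _ (hθ1 h hh hle') (hθ2 h hh hle'))
      (fun h hh hle' => hK₁ h hh (hle'.trans hb1) _ _
        (hu₁ _ (hk h hh hle') _ (hθ1 h hh hle') (hθ2 h hh hle'))) N
    obtain ⟨b₂, hb₂, C₂, hC₂0, hC₂⟩ := one_potential hs he hV₂ (ξ' := ξ') hh₁pos hle hsm hK₂0
      (fun h => u₂ (2 * π / h) (thetaf e ξ' h))
      (fun h hh hle' => hu₂ _ (hk h hh hle') _ (hθ1 h hh hle') (hθ2 h hh hle'))
      (fun h hh hle' => hK₂ h hh (hle'.trans hb2) _ _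
        (hu₂ _ (hk h hh hle') _ (hθ1 h hh hle') (hθ2 h hh hle'))) N
    set b : ℕ → ℝ → ℂ := fun n => Nat.casesOn n
      (fun h => (𝓕 (V₁ - V₂) : 𝓢(E, ℂ)) (ξ' + tauf a h • e)) (fun n h => b₁ n h - b₂ n h) with hbdef
    have hbpow : ∀ n, HasPow h₁ J (b n) := by
      intro n
      cases n with
      | zero =>
        exact hasPow_line (𝓕 (V₁ - V₂)) e ξ' hle1 J (hasPow_tauf hh₁pos hle1 hsm J) (A := a ^ 2)
          (by positivity)
          (fun h hh _ => by rw [abs_of_nonneg (tauf_nonneg hh.le)]; exact tauf_upper hh.le)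
      | succ n => exact (hb₁ n J).sub (hb₂ n J)
    have hsum : ∀ h, 0 < h → h ≤ h₁ →
        ‖∑ n ∈ Finset.range (N + 1), ((mfun s h : ℝ) : ℂ) ^ n * b n h‖
          ≤ (C₁ + C₂) * (mfun s h) ^ (N + 1) := by
      intro h hh hle'
      have h3 := hC₁ h hh hle'
      have h4 := hC₂ h hh hle'
      have h5 := hamp _ (hk h hh hle') _ (hθ1 h hh hle') (hθ2 h hh hle')
      rw [Finset.sum_range_succ']
      have h6 : ∑ n ∈ Finset.range N, ((mfun s h : ℝ) : ℂ) ^ (n + 1) * b (n + 1) h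
          + ((mfun s h : ℝ) : ℂ) ^ 0 * b 0 h
          = (amplitude (2 * π / h) V₂ e (u₂ (2 * π / h) (thetaf e ξ' h))
              - (𝓕 V₂ : 𝓢(E, ℂ)) (ξ' + tauf ‖ξ'‖ h • e)
              - ∑ n ∈ Finset.range N, ((mfun s h : ℝ) : ℂ) ^ (n + 1) * b₂ n h)
            - (amplitude (2 * π / h) V₁ e (u₁ (2 * π / h) (thetaf e ξ' h))
              - (𝓕 V₁ : 𝓢(E, ℂ)) (ξ' + tauf ‖ξ'‖ h • e)
              - ∑ n ∈ Finset.range N, ((mfun s h : ℝ) : ℂ) ^ (n + 1) * b₁ n h) := by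
        rw [h5]
        have h7 : b 0 h = (𝓕 V₁ : 𝓢(E, ℂ)) (ξ' + tauf ‖ξ'‖ h • e)
            - (𝓕 V₂ : 𝓢(E, ℂ)) (ξ' + tauf ‖ξ'‖ h • e) := by
          change (𝓕 (V₁ - V₂) : 𝓢(E, ℂ)) (ξ' + tauf a h • e) = _
          have : (𝓕 (V₁ - V₂) : 𝓢(E, ℂ)) = 𝓕 V₁ - 𝓕 V₂ := by
            rw [sub_eq_add_neg, sub_eq_add_neg, FourierTransform.fourier_add,
              FourierTransform.fourier_neg]
          rw [this]
          rfl
        rw [h7]
        have h8 : ∀ n, b (n + 1) h = b₁ n h - b₂ n h := fun n => rfl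
        simp_rw [h8, mul_sub, Finset.sum_sub_distrib]
        ring
      rw [h6]
      refine (norm_sub_le _ _).trans ?_
      rw [add_mul]
      linarith
    obtain ⟨C', hC'0, hC'⟩ := separation hs hirr hh₁pos hle1 J N hN b hbpow
      (C := C₁ + C₂) (by positivity) hsum
    refine ⟨h₁, hh₁pos, C', hC'0, fun h hh hle' => ⟨?_, tauf_upper hh.le, hC' h hh hle'⟩⟩
    have := tauf_lower (a := a) hh.le
    linarith
  exact sub_eq_zero.mp hzero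

end

end FracScat
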