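import Pool.Agent.Lib_helper32.FSFour

/-! # From total fields to the Born equation -/

open MeasureTheory Filter Complex Set Topology
open scoped Real SchwartzMap LineDeriv ContDiff NNReal FourierTransform RealInnerProductSpace

namespace FracScat

section

variable {E : Type*} [NormedAddCommGroup E] [InnerProductSpace ℝ E] [FiniteDimensional ℝ E]
  [MeasurableSpace E] [BorelSpace E]

/-- the coupling constant -/
noncomputable def mfun (s h : ℝ) : ℝ := (2 * π) ^ (-(2 * s)) * h ^ (2 * s - 1)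

lemma mfun_eq {s h : ℝ} (hh : 0 < h) : mfun s h = ((2 * π / h) ^ (2 * s) * h)⁻¹ := by
  have h2 : (0 : ℝ) < 2 * π := by positivity
  rw [mfun, Real.div_rpow h2.le hh.le, Real.rpow_neg h2.le, Real.rpow_sub hh, Real.rpow_one]
  have h3 : (2 * π) ^ (2 * s) ≠ 0 := (Real.rpow_pos_of_pos h2 _).ne'
  have h4 : h ^ (2 * s) ≠ 0 := (Real.rpow_pos_of_pos hh _).ne'
  field_simp

lemma mfun_pos {s h : ℝ} (hh : 0 < h) : 0 < mfun s h := by
  unfold mfun
  positivity

/-- modulated test function -/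
noncomputable def modV (V : 𝓢(E, ℂ)) (w x : E) : ℂ := cexp (((-2 * π * ⟪x, w⟫ : ℝ) : ℂ) * I) * V x

omit [FiniteDimensional ℝ E] [MeasurableSpace E] [BorelSpace E] in
lemma modV_contDiff (V : 𝓢(E, ℂ)) (w : E) : ContDiff ℝ ∞ (modV V w) := by
  unfold modV
  apply ContDiff.mul _ (V.smooth ⊤)
  apply ContDiff.cexp
  apply ContDiff.mul _ contDiff_const
  apply Complex.ofRealCLM.contDiff.comp
  exact contDiff_const.mul (contDiff_id.inner ℝ contDiff_const)

omit [FiniteDimensional ℝ E] [MeasurableSpace E] [BorelSpace E] in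
lemma modV_hasCompactSupport {V : 𝓢(E, ℂ)} (hV : HasCompactSupport V) (w : E) :
    HasCompactSupport (modV V w) :=
  HasCompactSupport.mul_left (f := fun x : E => cexp (((-2 * π * ⟪x, w⟫ : ℝ) : ℂ) * I)) hV

lemma fourier_modV (V : 𝓢(E, ℂ)) (w ζ : E) : 𝓕 (modV V w) ζ = (𝓕 V : 𝓢(E, ℂ)) (ζ + w) := by
  have h4 : ((𝓕 V : 𝓢(E, ℂ)) : E → ℂ) = 𝓕 (V : E → ℂ) := SchwartzMap.fourier_coe V
  rw [h4, Real.fourier_eq', Real.fourier_eq']
  refine integral_congr_ae (Eventually.of_forall fun x => ?_)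
  simp only [modV, smul_eq_mul]
  rw [← mul_assoc, ← Complex.exp_add]
  congr 2
  rw [inner_add_right]
  push_cast
  ring

omit [FiniteDimensional ℝ E] [MeasurableSpace E] [BorelSpace E] in
lemma denom_eq {s h : ℝ} (hh : 0 < h) (e ξ : E) (ε : ℝ) :
    ((((2 * π * ‖ξ + h⁻¹ • e‖) ^ (2 * s) : ℝ) : ℂ) - (((2 * π / h) ^ (2 * s) : ℝ) : ℂ)
      - (((2 * π / h) ^ (2 * s) * ε : ℝ) : ℂ) * I)
      = (((2 * π / h) ^ (2 * s) : ℝ) : ℂ) * bker s e h 0 ε ξ := by
  have h1 : ‖ξ + h⁻¹ • e‖ = h⁻¹ * ‖e + h • ξ‖ := by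
    have : ξ + h⁻¹ • e = h⁻¹ • (e + h • ξ) := by
      rw [smul_add, smul_smul, inv_mul_cancel₀ hh.ne', one_smul, add_comm]
    rw [this, norm_smul, Real.norm_of_nonneg (by positivity)]
  have h2 : 2 * π * ‖ξ + h⁻¹ • e‖ = (2 * π / h) * ‖e + h • ξ‖ := by
    rw [h1]; ring
  rw [h2, Real.mul_rpow (by positivity) (norm_nonneg _), bker]
  push_cast
  simp only [mul_zero, neg_zero, zero_mul, Complex.exp_zero, one_mul]
  ring

lemma resolventPairing_eq {s h : ℝ} (hh : 0 < h) (e : E) (V : 𝓢(E, ℂ)) (f : E → ℂ) (η : E) (ε : ℝ) :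
    resolventPairing s (2 * π / h) ((2 * π / h) ^ (2 * s) * ε) f (modV V (η + h⁻¹ • e))
      = (mfun s h : ℂ) * ∫ ξ, ((𝓕 V : 𝓢(E, ℂ)) (η - ξ) * 𝓕 f (ξ + h⁻¹ • e)) * qker s e h 0 ε ξ := by
  rw [resolventPairing, ← integral_add_right_eq_self _ (h⁻¹ • e), ← integral_const_mul]
  refine integral_congr_ae (Eventually.of_forall fun ξ => ?_)
  simp only
  rw [denom_eq hh, fourier_modV, qker, mfun_eq hh]
  have e1 : -(ξ + h⁻¹ • e) + (η + h⁻¹ • e) = η - ξ := by abel
  rw [e1]
  have hc : (((2 * π / h) ^ (2 * s) : ℝ) : ℂ) ≠ 0 := by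
    rw [Ne, Complex.ofReal_eq_zero]
    exact (Real.rpow_pos_of_pos (by positivity) _).ne'
  have hhc : (h : ℂ) ≠ 0 := by exact_mod_cast hh.ne'
  by_cases hb : bker s e h 0 ε ξ = 0
  · rw [hb]; simp
  · push_cast
    field_simp

theorem bornEq_of_totalField {s h : ℝ} (hh : 0 < h) {e θ : E} {V : 𝓢(E, ℂ)}
    (hV : HasCompactSupport V) {u : E → ℂ} (hu : IsTotalField s (2 * π / h) V θ u) :
    BornEq s e h (𝓕 V) (mfun s h : ℝ) (fun η => (𝓕 V : 𝓢(E, ℂ)) (η + h⁻¹ • (e - θ)))
      (fun ξ => 𝓕 (fun x => V x * u x) (ξ + h⁻¹ • e)) := by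
  intro η
  obtain ⟨hloc, hloc', htend⟩ := hu
  set w := η + h⁻¹ • e with hw
  have h1 := htend (modV V w) (modV_contDiff V w) (modV_hasCompactSupport hV w)
  have hc : 0 < (2 * π / h) ^ (2 * s) := Real.rpow_pos_of_pos (by positivity) _
  have hmap : Tendsto (fun ε : ℝ => (2 * π / h) ^ (2 * s) * ε) (𝓝[>] 0) (𝓝[>] 0) := by
    apply tendsto_nhdsWithin_iff.mpr
    constructor
    · have : Tendsto (fun ε : ℝ => (2 * π / h) ^ (2 * s) * ε) (𝓝 0) (𝓝 ((2 * π / h) ^ (2 * s) * 0)) :=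
        tendsto_id.const_mul _
      rw [mul_zero] at this
      exact this.mono_left nhdsWithin_le_nhds
    · filter_upwards [self_mem_nhdsWithin] with ε hε
      exact mul_pos hc hε
  have h2 := h1.comp hmap
  have hm : (mfun s h : ℂ) ≠ 0 := by exact_mod_cast (mfun_pos hh).ne'
  have h3 := h2.const_mul ((mfun s h : ℂ)⁻¹)
  refine ⟨_, h3.congr fun ε => ?_, ?_⟩
  · simp only [Function.comp_apply]
    rw [resolventPairing_eq hh, ← mul_assoc, inv_mul_cancel₀ hm, one_mul]
  · rw [← mul_assoc, mul_inv_cancel₀ hm, one_mul]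
    have hVc : Continuous V := V.continuous
    have hmc : Continuous (modV V w) := (modV_contDiff V w).continuous
    have i1 : Integrable (fun x => u x * modV V w x) := by
      have := hloc.integrable_smul_left_of_hasCompactSupport hmc (modV_hasCompactSupport hV w)
      refine this.congr (Eventually.of_forall fun x => ?_)
      simp only [smul_eq_mul]; ring
    have hec : Continuous (fun x : E => cexp (I * ((2 * π / h * ⟪θ, x⟫ : ℝ) : ℂ))) := by
      fun_prop
    have i2 : Integrable (fun x => cexp (I * ((2 * π / h * ⟪θ, x⟫ : ℝ) : ℂ)) * modV V w x) := by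
      apply (hec.mul hmc).integrable_of_hasCompactSupport
      exact HasCompactSupport.mul_left (modV_hasCompactSupport hV w)
    have h5 : ∫ x, (u x - cexp (I * ((2 * π / h * ⟪θ, x⟫ : ℝ) : ℂ))) * modV V w x
        = 𝓕 (fun x => V x * u x) w - (𝓕 V : 𝓢(E, ℂ)) (η + h⁻¹ • (e - θ)) := by
      simp_rw [sub_mul]
      rw [integral_sub i1 i2]
      congr 1
      · rw [Real.fourier_eq']
        refine integral_congr_ae (Eventually.of_forall fun x => ?_)
        simp only [modV, smul_eq_mul]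
        ring
      · have h4 : ((𝓕 V : 𝓢(E, ℂ)) : E → ℂ) = 𝓕 (V : E → ℂ) := SchwartzMap.fourier_coe V
        rw [h4, Real.fourier_eq']
        refine integral_congr_ae (Eventually.of_forall fun x => ?_)
        simp only [modV, smul_eq_mul]
        rw [← mul_assoc, ← Complex.exp_add]
        congr 2
        rw [hw, smul_sub, inner_add_right, inner_add_right, inner_sub_right,
          real_inner_smul_right, real_inner_smul_right, real_inner_comm x θ]
        push_cast
        field_simp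
        ring
    rw [h5]
    ring

end

end FracScat
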