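import Pool.Agent.Lib_helper32.FSKernel

/-! # Product kernels on a finite-dimensional space with a family of projections -/

open MeasureTheory Filter Complex Set Topology
open scoped Real

namespace FracScat

section Prod

variable {E : Type*} [NormedAddCommGroup E] [InnerProductSpace ℝ E]
variable {X : Type*} [NormedAddCommGroup X] [NormedSpace ℝ X]
variable {ι : Type*} [Fintype ι] [DecidableEq ι]

/-- product of the kernels in the variables `P j x` -/
noncomputable def Qker (s : ℝ) (e : E) (P : ι → X →L[ℝ] E) (h t : ℝ) (ε : ι → ℝ) (x : X) : ℂ :=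
  ∏ j, qker s e h t (ε j) (P j x)

/-- derivative of the product kernel -/
noncomputable def dQker (s : ℝ) (e : E) (P : ι → X →L[ℝ] E) (h t : ℝ) (ε : ι → ℝ) (x : X) :
    X →L[ℝ] ℂ :=
  ∑ j, (∏ i ∈ Finset.univ.erase j, qker s e h t (ε i) (P i x)) •
    (dqker s e h t (ε j) (P j x)).comp (P j)

lemma hasFDerivAt_Qker {s : ℝ} (hs : 1 / 2 < s) (e : E) (P : ι → X →L[ℝ] E) (h t : ℝ)
    (ε : ι → ℝ) (x : X) (hb : ∀ j, bker s e h t (ε j) (P j x) ≠ 0) :
    HasFDerivAt (fun x => Qker s e P h t ε x) (dQker s e P h t ε x) x := by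
  unfold Qker dQker
  apply HasFDerivAt.finsetProd
  intro j _
  exact (hasFDerivAt_qker hs e h t (ε j) (P j x) (hb j)).comp x (P j).hasFDerivAt

lemma hasDerivAt_Qker_t {s : ℝ} (hs : 1 / 2 < s) (e : E) (P : ι → X →L[ℝ] E) {v : X}
    (hv : ∀ j, P j v = e) (h t : ℝ)
    (ε : ι → ℝ) (x : X) (hb : ∀ j, bker s e h t (ε j) (P j x) ≠ 0) :
    HasDerivAt (fun t => Qker s e P h t ε x) (-I * dQker s e P h t ε x (v + h • x)) t := by
  unfold Qker dQker
  have := HasDerivAt.fun_finsetProd (u := Finset.univ)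
    (f := fun j t => qker s e h t (ε j) (P j x))
    (fun j _ => hasDerivAt_qker_t hs e h t (ε j) (P j x) (hb j))
  refine this.congr_deriv ?_
  rw [sum_apply, Finset.mul_sum]
  refine Finset.sum_congr rfl fun j _ => ?_
  simp only [smul_apply, ContinuousLinearMap.comp_apply, map_add, map_smul,
    smul_eq_mul, hv j, Complex.real_smul]
  ring

omit [DecidableEq ι] in
lemma norm_Qker_le_t {s h t : ℝ} (e : E) (P : ι → X →L[ℝ] E) {ε : ι → ℝ} (x : X)
    (hs : 1 / 2 < s) (hh : 0 < h) (hh1 : 2 * s * h ≤ 1)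
    (ht : 0 < t) (ht1 : t ≤ 1) (hε : ∀ j, 0 ≤ ε j) :
    ‖Qker s e P h t ε x‖ ≤ (2 / t) ^ (Fintype.card ι) := by
  rw [Qker, norm_prod]
  calc ∏ j, ‖qker s e h t (ε j) (P j x)‖ ≤ ∏ _j : ι, (2 / t) := by
        apply Finset.prod_le_prod (fun _ _ => norm_nonneg _)
        intro j _
        exact norm_qker_le_t e _ hs hh hh1 ht ht1 (hε j)
    _ = _ := by rw [Finset.prod_const, Finset.card_univ]

omit [DecidableEq ι] in
lemma norm_Qker_le_eps {s h t : ℝ} (e : E) (P : ι → X →L[ℝ] E) {ε : ι → ℝ} (x : X)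
    (hs : 1 / 2 < s) (hh : 0 < h) (hh1 : 2 * s * h ≤ 1)
    (ht : 0 ≤ t) (ht1 : t ≤ 1) (hε : ∀ j, 0 < ε j) :
    ‖Qker s e P h t ε x‖ ≤ ∏ j, (2 * h / ε j) := by
  rw [Qker, norm_prod]
  apply Finset.prod_le_prod (fun _ _ => norm_nonneg _)
  intro j _
  exact norm_qker_le_eps e _ hs hh hh1 ht ht1 (hε j)

lemma norm_dQker_le {s h : ℝ} {e : E} (he : ‖e‖ = 1) (P : ι → X →L[ℝ] E) {ε : ι → ℝ}
    (hs : 1 / 2 < s) (hh : 0 < h) (hh1 : 2 * s * h ≤ 1) (hε : ∀ j, 0 < ε j) :
    ∃ C, 0 ≤ C ∧ ∀ x : X, ∀ t, 0 ≤ t → t ≤ 1 →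
      ‖dQker s e P h t ε x‖ ≤ C * (1 + ‖x‖) ^ (⌈2 * s⌉₊) := by
  set K := ⌈2 * s⌉₊
  refine ⟨∑ j, (∏ i ∈ Finset.univ.erase j, (2 * h / ε i)) * (4 / (ε j) ^ 2 * (2 + ‖P j‖) ^ K * ‖P j‖),
    ?_, ?_⟩
  · apply Finset.sum_nonneg
    intro j _
    apply mul_nonneg
    · apply Finset.prod_nonneg
      intro i _
      have := hε i
      positivity
    · positivity
  · intro x t ht ht1
    unfold dQker
    rw [Finset.sum_mul]
    refine (norm_sum_le _ _).trans (Finset.sum_le_sum fun j _ => ?_)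
    rw [norm_smul, norm_prod, mul_assoc]
    apply mul_le_mul
    · apply Finset.prod_le_prod (fun _ _ => norm_nonneg _)
      intro i _
      exact norm_qker_le_eps e _ hs hh hh1 ht ht1 (hε i)
    · refine (ContinuousLinearMap.opNorm_comp_le _ _).trans ?_
      have h1 := norm_dqker_le he (P j x) hs hh hh1 ht ht1 (hε j)
      have h2 : (2 + ‖P j x‖) ^ K ≤ (2 + ‖P j‖) ^ K * (1 + ‖x‖) ^ K := by
        rw [← mul_pow]
        gcongr
        have := (P j).le_opNorm x
        have h3 := norm_nonneg (P j)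
        have h4 := norm_nonneg x
        nlinarith
      calc ‖dqker s e h t (ε j) (P j x)‖ * ‖P j‖
          ≤ (4 / (ε j) ^ 2 * ((2 + ‖P j‖) ^ K * (1 + ‖x‖) ^ K)) * ‖P j‖ := by
            gcongr
            exact h1.trans (by gcongr)
        _ = _ := by ring
    · positivity
    · apply Finset.prod_nonneg
      intro i _
      have := hε i
      positivity

omit [DecidableEq ι] in
lemma measurable_Qker [MeasurableSpace E] [BorelSpace E] [MeasurableSpace X] [BorelSpace X]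
    (s : ℝ) (e : E) (P : ι → X →L[ℝ] E) (h : ℝ) (ε : ι → ℝ) :
    Measurable (fun p : ℝ × X => Qker s e P h p.1 ε p.2) := by
  have key : ∀ j, Measurable (fun p : ℝ × X => qker s e h p.1 (ε j) (P j p.2)) := by
    intro j
    have : Measurable (fun p : ℝ × X => (p.1, P j p.2)) :=
      measurable_fst.prodMk ((P j).continuous.measurable.comp measurable_snd)
    have h2 := Measurable.comp (measurable_qker s e h (ε j)) this
    simp only [Function.comp_def] at h2
    exact h2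
  unfold Qker
  exact Finset.measurable_prod Finset.univ (fun j _ => key j)

omit [DecidableEq ι] in
lemma tendsto_Qker_eps {s h t : ℝ} (e : E) (P : ι → X →L[ℝ] E) (x : X)
    (hs : 1 / 2 < s) (hh : 0 < h) (hh1 : 2 * s * h ≤ 1) (ht : 0 < t) (ht1 : t ≤ 1) :
    Tendsto (fun ε : ι → ℝ => Qker s e P h t ε x) (𝓝 0) (𝓝 (Qker s e P h t 0 x)) := by
  unfold Qker
  apply tendsto_finsetProd
  intro j _
  have h1 := continuousAt_qker_eps (s := s) e h t 0 (P j x)
    (bker_ne_zero_t e _ hs hh hh1 ht ht1 le_rfl)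
  have h2 : Tendsto (fun ε : ι → ℝ => ε j) (𝓝 0) (𝓝 0) := (continuous_apply j).tendsto 0
  exact h1.tendsto.comp h2

end Prod

end FracScat
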