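import Pool.Agent.Lib_helper32.FSBdd

/-! # The recursion between product kernels -/

open MeasureTheory Filter Complex Set Topology
open scoped Real SchwartzMap LineDeriv ContDiff NNReal

namespace FracScat

/-! ### tensor products of Schwartz functions -/

section Tensor

variable {X : Type*} [NormedAddCommGroup X] [NormedSpace ℝ X]
variable {E : Type*} [NormedAddCommGroup E] [NormedSpace ℝ E]

lemma norm_iteratedFDeriv_comp_clm_le {f : E → ℂ} (hf : ContDiff ℝ ∞ f) (L : X →L[ℝ] E) (i : ℕ)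
    (x : X) : ‖iteratedFDeriv ℝ i (fun x => f (L x)) x‖ ≤ ‖iteratedFDeriv ℝ i f (L x)‖ * ‖L‖ ^ i := by
  have h1 := L.iteratedFDeriv_comp_right hf x (i := i) (mod_cast le_top)
  have h2 : (fun x => f (L x)) = f ∘ L := rfl
  rw [h2, h1]
  refine (ContinuousMultilinearMap.norm_compContinuousLinearMap_le _ _).trans ?_
  simp

/-- tensor product -/
noncomputable def tensor (F : 𝓢(X, ℂ)) (G : 𝓢(E, ℂ)) : 𝓢(X × E, ℂ) where
  toFun p := F p.1 * G p.2
  smooth' := by
    have h1 := (F.smooth ⊤).comp (contDiff_fst (𝕜 := ℝ) (E := X) (F := E) (n := ∞))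
    have h2 := (G.smooth ⊤).comp (contDiff_snd (𝕜 := ℝ) (E := X) (F := E) (n := ∞))
    exact h1.mul h2
  decay' k n := by
    refine ⟨∑ j ∈ Finset.range (n + 1), (n.choose j : ℝ) *
      (SchwartzMap.seminorm ℝ k j F * SchwartzMap.seminorm ℝ 0 (n - j) G
        + SchwartzMap.seminorm ℝ 0 j F * SchwartzMap.seminorm ℝ k (n - j) G), fun p => ?_⟩
    have hf1 : ContDiff ℝ ∞ (fun p : X × E => F p.1) :=
      (F.smooth ⊤).comp (contDiff_fst (𝕜 := ℝ) (E := X) (F := E) (n := ∞))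
    have hf2 : ContDiff ℝ ∞ (fun p : X × E => G p.2) :=
      (G.smooth ⊤).comp (contDiff_snd (𝕜 := ℝ) (E := X) (F := E) (n := ∞))
    have h1 := norm_iteratedFDeriv_mul_le (𝕜 := ℝ) (n := n) (N := ∞) hf1 hf2 p (mod_cast le_top)
    have hn1 : ∀ j, ‖iteratedFDeriv ℝ j (fun p : X × E => F p.1) p‖ ≤ ‖iteratedFDeriv ℝ j F p.1‖ := by
      intro j
      have := norm_iteratedFDeriv_comp_clm_le (F.smooth ⊤) (ContinuousLinearMap.fst ℝ X E) j p
      refine this.trans (mul_le_of_le_one_right (norm_nonneg _) ?_)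
      exact pow_le_one₀ (norm_nonneg _) (ContinuousLinearMap.norm_fst_le ℝ X E)
    have hn2 : ∀ j, ‖iteratedFDeriv ℝ j (fun p : X × E => G p.2) p‖ ≤ ‖iteratedFDeriv ℝ j G p.2‖ := by
      intro j
      have := norm_iteratedFDeriv_comp_clm_le (G.smooth ⊤) (ContinuousLinearMap.snd ℝ X E) j p
      refine this.trans (mul_le_of_le_one_right (norm_nonneg _) ?_)
      exact pow_le_one₀ (norm_nonneg _) (ContinuousLinearMap.norm_snd_le ℝ X E)
    have hk : ‖p‖ ^ k ≤ ‖p.1‖ ^ k + ‖p.2‖ ^ k := by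
      rw [Prod.norm_def]
      rcases max_cases ‖p.1‖ ‖p.2‖ with h | h <;> rw [h.1]
      · have : 0 ≤ ‖p.2‖ ^ k := by positivity
        linarith
      · have : 0 ≤ ‖p.1‖ ^ k := by positivity
        linarith
    calc ‖p‖ ^ k * ‖iteratedFDeriv ℝ n (fun p : X × E => F p.1 * G p.2) p‖
        ≤ ‖p‖ ^ k * ∑ j ∈ Finset.range (n + 1), (n.choose j : ℝ) *
          ‖iteratedFDeriv ℝ j (fun p : X × E => F p.1) p‖ *
          ‖iteratedFDeriv ℝ (n - j) (fun p : X × E => G p.2) p‖ := by gcongr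
      _ ≤ (‖p.1‖ ^ k + ‖p.2‖ ^ k) * ∑ j ∈ Finset.range (n + 1), (n.choose j : ℝ) *
          ‖iteratedFDeriv ℝ j F p.1‖ * ‖iteratedFDeriv ℝ (n - j) G p.2‖ := by
          gcongr with j _
          · exact hn1 j
          · exact hn2 (n - j)
      _ = ∑ j ∈ Finset.range (n + 1), (n.choose j : ℝ) *
          ((‖p.1‖ ^ k * ‖iteratedFDeriv ℝ j F p.1‖) * (‖p.2‖ ^ 0 * ‖iteratedFDeriv ℝ (n - j) G p.2‖)
          + (‖p.1‖ ^ 0 * ‖iteratedFDeriv ℝ j F p.1‖) * (‖p.2‖ ^ k * ‖iteratedFDeriv ℝ (n - j) G p.2‖)) := by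
          rw [Finset.mul_sum]
          exact Finset.sum_congr rfl fun j _ => by simp; ring
      _ ≤ _ := by
          gcongr with j _
          all_goals exact SchwartzMap.le_seminorm ℝ _ _ _ _

@[simp] lemma tensor_apply (F : 𝓢(X, ℂ)) (G : 𝓢(E, ℂ)) (p : X × E) :
    tensor F G p = F p.1 * G p.2 := rfl

/-- the involution `(x, ξ) ↦ (x, η x - ξ)` -/
noncomputable def shear (η : X →L[ℝ] E) : (X × E) ≃L[ℝ] (X × E) :=
  let f : (X × E) →L[ℝ] (X × E) :=
    (ContinuousLinearMap.fst ℝ X E).prod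
      (η.comp (ContinuousLinearMap.fst ℝ X E) - ContinuousLinearMap.snd ℝ X E)
  ContinuousLinearEquiv.equivOfInverse f f (fun p => by simp [f]) (fun p => by simp [f])

/-- `F₁(x, ξ) = F₀(x) V(η x - ξ)` -/
noncomputable def nextF (F : 𝓢(X, ℂ)) (V : 𝓢(E, ℂ)) (η : X →L[ℝ] E) : 𝓢(X × E, ℂ) :=
  SchwartzMap.compCLMOfContinuousLinearEquiv ℂ (shear η) (tensor F V)

lemma nextF_apply (F : 𝓢(X, ℂ)) (V : 𝓢(E, ℂ)) (η : X →L[ℝ] E) (p : X × E) :
    nextF F V η p = F p.1 * V (η p.1 - p.2) := rfl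

end Tensor

/-! ### UBdd calculus -/

section

variable {X : Type*} [NormedAddCommGroup X] [NormedSpace ℝ X]
variable {E : Type*} [NormedAddCommGroup E] [NormedSpace ℝ E]
variable {α : Type*}

lemma UBdd.comp_clm {H : α → E → ℂ} (hH : UBdd H) (L : X →L[ℝ] E) :
    UBdd (fun a x => H a (L x)) := by
  refine ⟨fun a => (hH.1 a).comp L.contDiff, fun i => ?_⟩
  obtain ⟨B, hB0, hB⟩ := hH.2 i
  refine ⟨B * ‖L‖ ^ i, by positivity, fun a x => ?_⟩
  refine (norm_iteratedFDeriv_comp_clm_le (hH.1 a) L i x).trans ?_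
  gcongr
  exact hB a _

lemma UBdd.reindex {β : Type*} {H : α → X → ℂ} (hH : UBdd H) (φ : β → α) :
    UBdd (fun b => H (φ b)) :=
  ⟨fun b => hH.1 _, fun i => by
    obtain ⟨B, hB0, hB⟩ := hH.2 i
    exact ⟨B, hB0, fun b x => hB _ x⟩⟩

lemma uBdd_translate (G : 𝓢(X, ℂ)) (φ : α → X) : UBdd (fun a x => G (x + φ a)) := by
  refine ⟨fun a => (G.smooth ⊤).comp (contDiff_id.add contDiff_const), fun i =>
    ⟨SchwartzMap.seminorm ℝ 0 i G, apply_nonneg _ _, fun a x => ?_⟩⟩
  rw [iteratedFDeriv_comp_add_right]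
  exact SchwartzMap.norm_iteratedFDeriv_le_seminorm ℝ G i _

end

/-! ### iterated limits -/

lemma tendsto_iterated {ι : Type*} [Fintype ι] {b : (Option ι → ℝ) → ℂ} {L : ℂ}
    (hb : Tendsto b (epsFilter (Option ι)) (𝓝 L)) {a : (ι → ℝ) → ℂ}
    (ha : ∀ ε : ι → ℝ, (∀ j, 0 < ε j) →
      Tendsto (fun ε' : ℝ => b (fun o => o.elim ε' ε)) (𝓝[>] 0) (𝓝 (a ε))) :
    Tendsto a (epsFilter ι) (𝓝 L) := by
  rw [Metric.tendsto_nhds] at hb ⊢
  intro δ hδ
  have h1 := hb (δ / 2) (half_pos hδ)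
  rw [epsFilter, eventually_nhdsWithin_iff, Metric.eventually_nhds_iff] at h1
  obtain ⟨r, hr, h2⟩ := h1
  rw [epsFilter, eventually_nhdsWithin_iff, Metric.eventually_nhds_iff]
  refine ⟨r, hr, fun ε hε hpos => ?_⟩
  have h3 : ∀ᶠ ε' : ℝ in 𝓝[>] 0, dist (b (fun o => o.elim ε' ε)) L ≤ δ / 2 := by
    filter_upwards [Ioo_mem_nhdsGT hr] with ε' hε'
    apply (h2 _ _).le
    · rw [dist_pi_lt_iff hr]
      rintro (_ | j)
      · simp only [Option.elim_none, Pi.zero_apply, dist_zero_right, Real.norm_eq_abs]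
        rw [abs_of_pos hε'.1]; exact hε'.2
      · simp only [Option.elim_some]
        exact (dist_pi_lt_iff hr).mp hε j
    · rintro (_ | j)
      · exact hε'.1
      · exact hpos j
  have h4 : dist (a ε) L ≤ δ / 2 :=
    le_of_tendsto ((ha ε hpos).dist tendsto_const_nhds) h3
  linarith

/-! ### the recursion -/

section Rec

variable {E : Type*} [NormedAddCommGroup E] [InnerProductSpace ℝ E] [FiniteDimensional ℝ E]
  [MeasurableSpace E] [BorelSpace E]
variable {X : Type*} [NormedAddCommGroup X] [NormedSpace ℝ X] [FiniteDimensional ℝ X]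
  [MeasurableSpace X] [BorelSpace X] (μ : Measure X) [μ.IsAddHaarMeasure]
variable {ι : Type*} [Fintype ι]

/-- The extended family of projections -/
noncomputable def nextP (P : ι → X →L[ℝ] E) : Option ι → (X × E) →L[ℝ] E :=
  fun o => o.elim (ContinuousLinearMap.snd ℝ X E) (fun j => (P j).comp (ContinuousLinearMap.fst ℝ X E))

/-- the Born equation at a fixed `h` -/
def BornEq (s : ℝ) (e : E) (h : ℝ) (V : 𝓢(E, ℂ)) (m : ℂ) (Γ g : E → ℂ) : Prop :=
  ∀ η, ∃ ℓ, Tendsto (fun ε : ℝ => ∫ ξ, (V (η - ξ) * g ξ) * qker s e h 0 ε ξ) (𝓝[>] 0) (𝓝 ℓ) ∧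
    g η = Γ η + m * ℓ

omit [FiniteDimensional ℝ E] [MeasurableSpace E] [BorelSpace E] [FiniteDimensional ℝ X]
  [MeasurableSpace X] [BorelSpace X] in
lemma Qker_option (s : ℝ) (e : E) (P : ι → X →L[ℝ] E) (h t : ℝ) (ε' : ℝ) (ε : ι → ℝ) (p : X × E) :
    Qker s e (nextP P) h t (fun o => o.elim ε' ε) p
      = qker s e h t ε' p.2 * Qker s e P h t ε p.1 := by
  simp [Qker, nextP, Fintype.prod_option]

theorem Ifun_rec {s h : ℝ} {e : E} (he : ‖e‖ = 1) (P : ι → X →L[ℝ] E) {v : X}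
    (hv : ∀ j, P j v = e) (hs : 1 / 2 < s) (hh : 0 < h) (hh1 : 2 * s * h ≤ 1)
    (V : 𝓢(E, ℂ)) {m : ℂ} {Γ g : E → ℂ} (hΓ : UBdd (fun _ : Unit => Γ)) (hg : UBdd (fun _ : Unit => g))
    (hB : BornEq s e h V m Γ g)
    {C : ℝ} (hC : ∀ η ε, 0 < ε → ‖∫ ξ, (V (η - ξ) * g ξ) * qker s e h 0 ε ξ‖ ≤ C)
    (η : X →L[ℝ] E) (F : 𝓢(X, ℂ)) :
    Ifun μ s e P v h 0 (Fintype.card ι) (SchwartzMap.smulLeftCLM ℂ (fun x => g (η x)) F)
      = Ifun μ s e P v h 0 (Fintype.card ι) (SchwartzMap.smulLeftCLM ℂ (fun x => Γ (η x)) F)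
        + m * Ifun (μ.prod volume) s e (nextP P) (v, e) h 0 (Fintype.card (Option ι))
            (SchwartzMap.smulLeftCLM ℂ (fun p : X × E => g p.2) (nextF F V η)) := by
  have hgη := (hg.comp_clm η).tg ()
  have hΓη := (hΓ.comp_clm η).tg ()
  have hg2 : Function.HasTemperateGrowth (fun p : X × E => g p.2) :=
    (hg.comp_clm (ContinuousLinearMap.snd ℝ X E)).tg ()
  have hv' : ∀ o, nextP P o (v, e) = e := by
    rintro (_ | j)
    · rfl
    · exact hv j
  choose ℓ hℓ1 hℓ2 using hB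
  set a : (ι → ℝ) → ℂ := fun ε => ∫ x, F x * Qker s e P h 0 ε x * ℓ (η x) ∂μ with ha
  have hlim1 := tendsto_Jfun_zero μ he P hv hs hh hh1
    (SchwartzMap.smulLeftCLM ℂ (fun x => g (η x)) F) (le_refl (Fintype.card ι))
  have hlim2 := tendsto_Jfun_zero μ he P hv hs hh hh1
    (SchwartzMap.smulLeftCLM ℂ (fun x => Γ (η x)) F) (le_refl (Fintype.card ι))
  have hlim3 := tendsto_Jfun_zero (μ.prod volume) he (nextP P) hv' hs hh hh1
    (SchwartzMap.smulLeftCLM ℂ (fun p : X × E => g p.2) (nextF F V η))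
    (le_refl (Fintype.card (Option ι)))
  have hQm : ∀ ε : ι → ℝ, Measurable (fun x => Qker s e P h 0 ε x) := fun ε =>
    measurable_Qker_x s e P h 0 ε
  have hFb : ∃ B, 0 ≤ B ∧ ∀ x, ‖ℓ x‖ ≤ B := by
    refine ⟨max C 0, le_max_right _ _, fun x => ?_⟩
    have h1 : ‖ℓ x‖ ≤ C := by
      refine le_of_tendsto (hℓ1 x).norm ?_
      filter_upwards [self_mem_nhdsWithin] with ε hε
      exact hC x ε hε
    exact h1.trans (le_max_left _ _)
  obtain ⟨B, hB0, hBb⟩ := hFb
  have key : ∀ ε : ι → ℝ, (∀ j, 0 < ε j) → Tendsto (fun ε' : ℝ =>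
      Jfun (μ.prod volume) s e (nextP P) h (fun o => o.elim ε' ε)
        (SchwartzMap.smulLeftCLM ℂ (fun p : X × E => g p.2) (nextF F V η)) 0)
      (𝓝[>] 0) (𝓝 (a ε)) := by
    intro ε hε
    have e1 : ∀ ε' : ℝ, 0 < ε' → Jfun (μ.prod volume) s e (nextP P) h (fun o => o.elim ε' ε)
        (SchwartzMap.smulLeftCLM ℂ (fun p : X × E => g p.2) (nextF F V η)) 0
        = ∫ x, F x * Qker s e P h 0 ε x *
            (∫ ξ, (V (η x - ξ) * g ξ) * qker s e h 0 ε' ξ) ∂μ := by
      intro ε' hε'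
      have hint := integrable_GQ_eps (μ.prod volume) e (nextP P) (ε := fun o => o.elim ε' ε)
        hs hh hh1 le_rfl zero_le_one (by rintro (_ | j); exacts [hε', hε j])
        (SchwartzMap.smulLeftCLM ℂ (fun p : X × E => g p.2) (nextF F V η))
      rw [Jfun, integral_prod _ hint]
      refine integral_congr_ae (Eventually.of_forall fun x => ?_)
      simp only
      rw [← integral_const_mul]
      refine integral_congr_ae (Eventually.of_forall fun ξ => ?_)
      simp only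
      rw [SchwartzMap.smulLeftCLM_apply_apply hg2, Qker_option, nextF_apply, smul_eq_mul]
      ring
    have h2 : Tendsto (fun ε' : ℝ => ∫ x, F x * Qker s e P h 0 ε x *
            (∫ ξ, (V (η x - ξ) * g ξ) * qker s e h 0 ε' ξ) ∂μ) (𝓝[>] 0) (𝓝 (a ε)) := by
      apply tendsto_integral_filter_of_dominated_convergence
        (fun x => ‖F x‖ * ((∏ j, (2 * h / ε j)) * max C 0))
      · refine Eventually.of_forall fun ε' => ?_
        apply AEStronglyMeasurable.mul
        · exact F.continuous.aestronglyMeasurable.mul (hQm ε).aestronglyMeasurable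
        · have hmeas : Measurable (fun p : X × E => (V (η p.1 - p.2) * g p.2) * qker s e h 0 ε' p.2) := by
            apply Measurable.mul
            · apply Continuous.measurable
              have := V.continuous
              have h3 : Continuous g := ((hg.1 ()).continuous)
              fun_prop
            · have := Measurable.comp (measurable_qker s e h ε')
                (measurable_const.prodMk measurable_snd : Measurable (fun p : X × E => ((0 : ℝ), p.2)))
              simp only [Function.comp_def] at this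
              exact this
          exact (hmeas.stronglyMeasurable.integral_prod_right (ν := volume)).aestronglyMeasurable
      · filter_upwards [self_mem_nhdsWithin] with ε' hε'
        refine Eventually.of_forall fun x => ?_
        rw [norm_mul, norm_mul, mul_assoc]
        have h3 := norm_Qker_le_eps e P x hs hh hh1 le_rfl zero_le_one hε
        have h4 := (hC (η x) ε' hε').trans (le_max_left C 0)
        have h5 : 0 ≤ ∏ j, (2 * h / ε j) :=
          Finset.prod_nonneg fun j _ => by have := hε j; positivity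
        gcongr
      · exact F.integrable.norm.mul_const _
      · exact Eventually.of_forall fun x => (hℓ1 (η x)).const_mul _
    refine h2.congr' ?_
    filter_upwards [self_mem_nhdsWithin] with ε' hε'
    exact (e1 ε' hε').symm
  have hlima : Tendsto a (epsFilter ι) (𝓝 (Ifun (μ.prod volume) s e (nextP P) (v, e) h 0
      (Fintype.card (Option ι))
      (SchwartzMap.smulLeftCLM ℂ (fun p : X × E => g p.2) (nextF F V η)))) :=
    tendsto_iterated hlim3 key
  have hfin := hlim2.add (hlima.const_mul m)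
  refine tendsto_nhds_unique (hlim1.congr' ?_) hfin
  filter_upwards [self_mem_nhdsWithin] with ε hε
  have hℓeq : ∀ x, g x - Γ x = m * ℓ x := fun x => by rw [hℓ2 x]; ring
  have i1 := integrable_GQ_eps μ e P (ε := ε) hs hh hh1 le_rfl zero_le_one hε
    (SchwartzMap.smulLeftCLM ℂ (fun x => g (η x)) F)
  have i2 := integrable_GQ_eps μ e P (ε := ε) hs hh hh1 le_rfl zero_le_one hε
    (SchwartzMap.smulLeftCLM ℂ (fun x => Γ (η x)) F)
  have e3 : Jfun μ s e P h ε (SchwartzMap.smulLeftCLM ℂ (fun x => g (η x)) F) 0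
      - Jfun μ s e P h ε (SchwartzMap.smulLeftCLM ℂ (fun x => Γ (η x)) F) 0 = m * a ε := by
    unfold Jfun
    rw [← integral_sub i1 i2, ha, ← integral_const_mul]
    refine integral_congr_ae (Eventually.of_forall fun x => ?_)
    simp only
    rw [SchwartzMap.smulLeftCLM_apply_apply hgη, SchwartzMap.smulLeftCLM_apply_apply hΓη,
      smul_eq_mul, smul_eq_mul]
    linear_combination (F x * Qker s e P h 0 ε x) * hℓeq (η x)
  rw [← e3]
  ring

end Rec

end FracScat
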