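import Pool.Agent.Lib_helper32.FSAngle

/-! # Separation of the Born orders for irrational `s` -/

open MeasureTheory Filter Complex Set Topology
open scoped Real SchwartzMap LineDeriv ContDiff NNReal FourierTransform RealInnerProductSpace

namespace FracScat

lemma tendsto_rpow_zero {α : ℝ} (hα : 0 < α) : Tendsto (fun h : ℝ => h ^ α) (𝓝[>] 0) (𝓝 0) := by
  have h2 : ContinuousAt (fun h : ℝ => h ^ α) 0 :=
    Real.continuousAt_rpow_const 0 α (Or.inr hα.le)
  have h3 := h2.tendsto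
  rw [Real.zero_rpow hα.ne'] at h3
  exact h3.mono_left nhdsWithin_le_nhds

lemma coeff_zero {ι : Type*} (S : Finset ι) (α : ι → ℝ) (hα : Set.InjOn α S) (c : ι → ℂ)
    {A h₁ C : ℝ} (h₁pos : 0 < h₁)
    (hb : ∀ h, 0 < h → h ≤ h₁ → ‖∑ i ∈ S, c i * ((h ^ (α i) : ℝ) : ℂ)‖ ≤ C * h ^ A) :
    ∀ i ∈ S, α i < A → c i = 0 := by
  classical
  by_contra hcon
  push Not at hcon
  obtain ⟨i1, hi1, hi1A, hi1c⟩ := hcon
  set T := S.filter (fun i => c i ≠ 0 ∧ α i < A) with hT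
  have hTne : T.Nonempty := ⟨i1, by rw [hT, Finset.mem_filter]; exact ⟨hi1, hi1c, hi1A⟩⟩
  obtain ⟨i0, hi0T, hmin⟩ := Finset.exists_min_image T α hTne
  rw [hT, Finset.mem_filter] at hi0T
  obtain ⟨hi0, hi0c, hi0A⟩ := hi0T
  have hIoc : Ioc (0 : ℝ) h₁ ∈ 𝓝[>] (0 : ℝ) := Ioc_mem_nhdsGT h₁pos
  have h1 : Tendsto (fun h : ℝ => ∑ i ∈ S, c i * ((h ^ (α i - α i0) : ℝ) : ℂ)) (𝓝[>] 0)
      (𝓝 (∑ i ∈ S, if i = i0 then c i0 else 0)) := by
    apply tendsto_finsetSum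
    intro i hi
    by_cases hii : i = i0
    · subst hii
      simp only [sub_self, Real.rpow_zero, if_true, ofReal_one, mul_one]
      exact tendsto_const_nhds
    · simp only [hii, if_false]
      by_cases hci : c i = 0
      · simp only [hci, zero_mul]; exact tendsto_const_nhds
      · have hgt : 0 < α i - α i0 := by
          by_cases hiA : α i < A
          · have hiT : i ∈ T := by rw [hT, Finset.mem_filter]; exact ⟨hi, hci, hiA⟩
            have h2 := hmin i hiT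
            have h3 : α i ≠ α i0 := fun h => hii (hα hi hi0 h)
            have h4 := lt_of_le_of_ne h2 (Ne.symm h3)
            linarith
          · push Not at hiA
            linarith
        have h5 := ((Complex.continuous_ofReal.tendsto 0).comp (tendsto_rpow_zero hgt)).const_mul (c i)
        simpa using h5
  rw [Finset.sum_ite_eq' S i0, if_pos hi0] at h1
  have h2 : Tendsto (fun h : ℝ => C * h ^ (A - α i0)) (𝓝[>] 0) (𝓝 0) := by
    simpa using (tendsto_rpow_zero (show 0 < A - α i0 by linarith)).const_mul C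
  have h3 : Tendsto (fun h : ℝ => ∑ i ∈ S, c i * ((h ^ (α i - α i0) : ℝ) : ℂ)) (𝓝[>] 0) (𝓝 0) := by
    refine squeeze_zero_norm' ?_ h2
    filter_upwards [hIoc] with h hh
    have hhpos := hh.1
    have e1 : ∑ i ∈ S, c i * ((h ^ (α i - α i0) : ℝ) : ℂ)
        = (((h ^ (α i0))⁻¹ : ℝ) : ℂ) * ∑ i ∈ S, c i * ((h ^ (α i) : ℝ) : ℂ) := by
      rw [Finset.mul_sum]
      refine Finset.sum_congr rfl fun i _ => ?_
      rw [Real.rpow_sub hhpos]
      push_cast
      rw [div_eq_mul_inv]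
      ring
    have hpos : 0 < h ^ (α i0) := Real.rpow_pos_of_pos hhpos _
    rw [e1, norm_mul, Complex.norm_real, Real.norm_of_nonneg (inv_nonneg.mpr hpos.le)]
    have := hb h hh.1 hh.2
    calc (h ^ (α i0))⁻¹ * ‖∑ i ∈ S, c i * ((h ^ (α i) : ℝ) : ℂ)‖
        ≤ (h ^ (α i0))⁻¹ * (C * h ^ A) := by gcongr
      _ = C * h ^ (A - α i0) := by
          rw [Real.rpow_sub hhpos, div_eq_mul_inv]; ring
  exact hi0c (tendsto_nhds_unique h1 h3)

lemma exponent_inj {s : ℝ} (hirr : Irrational s) {n n' j j' : ℕ}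
    (h : (n : ℝ) * (2 * s - 1) + j = n' * (2 * s - 1) + j') : n = n' ∧ j = j' := by
  by_cases hn : n = n'
  · subst hn
    refine ⟨rfl, ?_⟩
    have : (j : ℝ) = j' := by linarith
    exact_mod_cast this
  · exfalso
    have h1 : ((n : ℝ) - n') ≠ 0 := by
      intro h2
      apply hn
      have : (n : ℝ) = n' := by linarith
      exact_mod_cast this
    apply hirr
    refine ⟨((((j' : ℤ) - j : ℤ) : ℚ) / ((((n : ℤ) - n' : ℤ)) : ℚ) + 1) / 2, ?_⟩
    push_cast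
    field_simp
    linarith

theorem separation {s : ℝ} (hs : 1 / 2 < s) (hirr : Irrational s) {h₁ : ℝ} (h₁pos : 0 < h₁)
    (h₁le : h₁ ≤ 1) (J N : ℕ) (hN : (J : ℝ) ≤ ((N + 1 : ℕ) : ℝ) * (2 * s - 1)) (b : ℕ → ℝ → ℂ)
    (hb : ∀ n, HasPow h₁ J (b n)) {C : ℝ} (hC : 0 ≤ C)
    (hsum : ∀ h, 0 < h → h ≤ h₁ →
      ‖∑ n ∈ Finset.range (N + 1), ((mfun s h : ℝ) : ℂ) ^ n * b n h‖ ≤ C * (mfun s h) ^ (N + 1)) :
    ∃ C', 0 ≤ C' ∧ ∀ h, 0 < h → h ≤ h₁ → ‖b 0 h‖ ≤ C' * h ^ J := by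
  set c : ℝ := (2 * π) ^ (-(2 * s)) with hc
  have hcpos : 0 < c := by positivity
  have hm : ∀ h, mfun s h = c * h ^ (2 * s - 1) := fun h => rfl
  have hmc : ∀ h, 0 < h → h ≤ 1 → mfun s h ≤ c := by
    intro h hh hh1
    rw [hm]
    have : h ^ (2 * s - 1) ≤ 1 := Real.rpow_le_one hh.le hh1 (by linarith)
    nlinarith
  simp_rw [hasPow_iff] at hb
  choose β D hD0 hD using hb
  have hmp : ∀ h, 0 < h → ∀ n : ℕ, (mfun s h) ^ n = c ^ n * h ^ ((n : ℝ) * (2 * s - 1)) := by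
    intro h hh n
    rw [hm, mul_pow, ← Real.rpow_natCast (h ^ (2 * s - 1)) n, ← Real.rpow_mul hh.le, mul_comm (2 * s - 1)]
  have key : ∀ h, 0 < h → h ≤ h₁ →
      ‖∑ p ∈ Finset.range (N + 1) ×ˢ Finset.range J, ((c : ℂ) ^ p.1 * β p.1 p.2) *
        ((h ^ ((p.1 : ℝ) * (2 * s - 1) + p.2) : ℝ) : ℂ)‖
      ≤ (C * c ^ (N + 1) + ∑ n ∈ Finset.range (N + 1), c ^ n * D n) * h ^ (J : ℝ) := by
    intro h hh hle
    have hle1 := hle.trans h₁le
    have e1 : ∑ p ∈ Finset.range (N + 1) ×ˢ Finset.range J, ((c : ℂ) ^ p.1 * β p.1 p.2) *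
        ((h ^ ((p.1 : ℝ) * (2 * s - 1) + p.2) : ℝ) : ℂ)
        = ∑ n ∈ Finset.range (N + 1), ((mfun s h : ℝ) : ℂ) ^ n * b n h
          - ∑ n ∈ Finset.range (N + 1), ((mfun s h : ℝ) : ℂ) ^ n *
            (b n h - ∑ j ∈ Finset.range J, (h : ℂ) ^ j * β n j) := by
      rw [← Finset.sum_sub_distrib, Finset.sum_product]
      refine Finset.sum_congr rfl fun n _ => ?_
      rw [mul_sub, sub_sub_cancel, Finset.mul_sum]
      refine Finset.sum_congr rfl fun j _ => ?_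
      have h1 : ((mfun s h : ℝ) : ℂ) ^ n = (((mfun s h) ^ n : ℝ) : ℂ) := by push_cast; rfl
      rw [h1, hmp h hh n, Real.rpow_add hh, Real.rpow_natCast]
      push_cast
      ring
    rw [e1]
    refine (norm_sub_le _ _).trans ?_
    rw [add_mul]
    apply add_le_add
    · refine (hsum h hh hle).trans ?_
      rw [hmp h hh, mul_assoc]
      have h2 : h ^ (((N + 1 : ℕ) : ℝ) * (2 * s - 1)) ≤ h ^ (J : ℝ) :=
        Real.rpow_le_rpow_of_exponent_ge hh hle1 hN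
      gcongr
    · rw [Finset.sum_mul]
      refine (norm_sum_le _ _).trans (Finset.sum_le_sum fun n _ => ?_)
      rw [norm_mul, norm_pow, Complex.norm_real, Real.norm_of_nonneg (mfun_pos hh).le, mul_assoc,
        Real.rpow_natCast]
      have h3 := hD n h hh hle
      have h4 := hmc h hh hle1
      have h5 := (mfun_pos (s := s) hh).le
      gcongr
  have hinj : Set.InjOn (fun p : ℕ × ℕ => (p.1 : ℝ) * (2 * s - 1) + p.2)
      (Finset.range (N + 1) ×ˢ Finset.range J : Finset (ℕ × ℕ)) := by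
    rintro ⟨n, j⟩ _ ⟨n', j'⟩ _ h
    obtain ⟨h1, h2⟩ := exponent_inj hirr h
    exact Prod.ext h1 h2
  have hz := coeff_zero _ _ hinj _ h₁pos key
  have hz0 : ∀ j, j < J → β 0 j = 0 := by
    intro j hj
    have h1 := hz (0, j) (by simp [hj]) (by simpa using hj)
    simpa using h1
  refine ⟨D 0, hD0 0, fun h hh hle => ?_⟩
  have h1 := hD 0 h hh hle
  have h2 : ∑ j ∈ Finset.range J, (h : ℂ) ^ j * β 0 j = 0 :=
    Finset.sum_eq_zero fun j hj => by rw [hz0 j (Finset.mem_range.mp hj), mul_zero]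
  rwa [h2, sub_zero] at h1

end FracScat
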