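import Pool.Agent.Lib_helper32.FSRec

/-! # Taylor expansion in the longitudinal frequency shift -/

open MeasureTheory Filter Complex Set Topology
open scoped Real SchwartzMap LineDeriv ContDiff NNReal

namespace FracScat

lemma taylor_bound_seq (L : ℕ) (f : ℕ → ℝ → ℂ) (hd : ∀ l τ, HasDerivAt (f l) (f (l + 1) τ) τ) {C : ℝ}
    (hC : ∀ τ, ‖f L τ‖ ≤ C) (τ : ℝ) :
    ‖f 0 τ - ∑ l ∈ Finset.range L, ((τ : ℂ) ^ l / (l.factorial : ℂ)) * f l 0‖ ≤ C * |τ| ^ L := by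
  induction L generalizing f τ with
  | zero => simpa using hC τ
  | succ L ih =>
    have hC0 : 0 ≤ C := (norm_nonneg _).trans (hC 0)
    set r : ℝ → ℂ := fun τ => f 0 τ - ∑ l ∈ Finset.range (L + 1), ((τ : ℂ) ^ l / (l.factorial : ℂ)) * f l 0
      with hr
    have hr0 : r 0 = 0 := by
      rw [hr]
      simp only
      rw [Finset.sum_range_succ']
      simp
    have hrd : ∀ τ, HasDerivAt r (f 1 τ - ∑ l ∈ Finset.range L, ((τ : ℂ) ^ l / (l.factorial : ℂ)) * f (l + 1) 0) τ := by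
      intro τ
      have h1 : ∀ l : ℕ, HasDerivAt (fun τ : ℝ => ((τ : ℂ) ^ (l + 1) / ((l + 1).factorial : ℂ)) * f (l + 1) 0)
          (((τ : ℂ) ^ l / (l.factorial : ℂ)) * f (l + 1) 0) τ := by
        intro l
        have h4 : HasDerivAt (fun t : ℝ => (t : ℂ)) 1 τ := Complex.ofRealCLM.hasDerivAt
        have h5 := ((h4.fun_pow (l + 1)).div_const ((l + 1).factorial : ℂ)).mul_const (f (l + 1) 0)
        refine h5.congr_deriv ?_
        rw [Nat.factorial_succ]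
        have : ((l : ℂ) + 1) ≠ 0 := by exact_mod_cast Nat.succ_ne_zero l
        have h6 : (l.factorial : ℂ) ≠ 0 := by exact_mod_cast Nat.factorial_ne_zero l
        push_cast
        field_simp
      have h2 : HasDerivAt (fun τ : ℝ => f 0 τ - (∑ l ∈ Finset.range L,
          ((τ : ℂ) ^ (l + 1) / ((l + 1).factorial : ℂ)) * f (l + 1) 0 + f 0 0))
          (f 1 τ - ∑ l ∈ Finset.range L, ((τ : ℂ) ^ l / (l.factorial : ℂ)) * f (l + 1) 0) τ := by
        have h3 := HasDerivAt.fun_sum (u := Finset.range L) (fun l _ => h1 l)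
        exact ((hd 0 τ).sub (h3.add_const (f 0 0)))
      have h3 : r = fun τ : ℝ => f 0 τ - (∑ l ∈ Finset.range L,
          ((τ : ℂ) ^ (l + 1) / ((l + 1).factorial : ℂ)) * f (l + 1) 0 + f 0 0) := by
        ext τ
        rw [hr]
        simp only
        rw [Finset.sum_range_succ']
        simp
      rw [h3]; exact h2
    have hb : ∀ τ' ∈ Icc (-|τ|) |τ|, ‖f 1 τ' - ∑ l ∈ Finset.range L, ((τ' : ℂ) ^ l / (l.factorial : ℂ)) * f (l + 1) 0‖
        ≤ C * |τ| ^ L := by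
      intro τ' hτ'
      have h1 := ih (fun l => f (l + 1)) (fun l τ => hd (l + 1) τ) hC τ'
      refine h1.trans ?_
      have : |τ'| ≤ |τ| := abs_le.mpr hτ'
      gcongr
    have h2 := (convex_Icc (-|τ|) |τ|).norm_image_sub_le_of_norm_hasDerivWithin_le
      (f := r) (fun x _ => (hrd x).hasDerivWithinAt) hb
      (x := 0) (y := τ) ⟨by simp, by simp⟩ ⟨neg_abs_le τ, le_abs_self τ⟩
    rw [hr0, sub_zero, sub_zero, Real.norm_eq_abs] at h2
    calc _ ≤ C * |τ| ^ L * |τ| := h2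
      _ = _ := by rw [pow_succ]; ring

lemma HasPow.of_le {h₀ h₁ : ℝ} {J : ℕ} {a : ℝ → ℂ} (h : HasPow h₀ J a) (hle : h₁ ≤ h₀) : HasPow h₁ J a := by
  rw [hasPow_iff] at h ⊢
  obtain ⟨c, C, hC, h1⟩ := h
  exact ⟨c, C, hC, fun h hh hh1 => h1 h hh (hh1.trans hle)⟩

lemma HasPow.of_close {h₀ : ℝ} {J : ℕ} {a b : ℝ → ℂ} (hb : HasPow h₀ J b) {C : ℝ} (hC : 0 ≤ C)
    (h : ∀ h, 0 < h → h ≤ h₀ → ‖a h - b h‖ ≤ C * h ^ J) : HasPow h₀ J a := by
  apply HasExp.of_close one_le_unit hb (K := 0) hC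
  intro h' hh hh1 _ _
  simpa using h h' hh hh1

section

variable {E : Type*} [NormedAddCommGroup E] [InnerProductSpace ℝ E]
  [MeasurableSpace E] [BorelSpace E]
variable {X : Type*} [NormedAddCommGroup X] [NormedSpace ℝ X] [FiniteDimensional ℝ X]
  [MeasurableSpace X] [BorelSpace X] (μ : Measure X) [μ.IsAddHaarMeasure]
variable {ι : Type*} [Fintype ι]

/-- the translated input -/
noncomputable def Ftau (F : 𝓢(X, ℂ)) (G : 𝓢(E, ℂ)) (η : X →L[ℝ] E) (e : E) (τ : ℝ) : 𝓢(X, ℂ) :=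
  SchwartzMap.smulLeftCLM ℂ (fun x => G (η x + τ • e)) F

omit [MeasurableSpace E] [BorelSpace E] [FiniteDimensional ℝ X] [MeasurableSpace X] [BorelSpace X] in
lemma uBdd_tau (G : 𝓢(E, ℂ)) (η : X →L[ℝ] E) (e : E) :
    UBdd (fun (τ : ℝ) (x : X) => G (η x + τ • e)) :=
  (uBdd_translate G (fun τ : ℝ => τ • e)).comp_clm η

omit [MeasurableSpace E] [BorelSpace E] [FiniteDimensional ℝ X] [MeasurableSpace X] [BorelSpace X] in
lemma Ftau_apply (F : 𝓢(X, ℂ)) (G : 𝓢(E, ℂ)) (η : X →L[ℝ] E) (e : E) (τ : ℝ) (x : X) :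
    Ftau F G η e τ x = G (η x + τ • e) * F x := by
  rw [Ftau, SchwartzMap.smulLeftCLM_apply_apply ((uBdd_tau G η e).tg τ), smul_eq_mul]

omit [MeasurableSpace E] [BorelSpace E] [FiniteDimensional ℝ X] [MeasurableSpace X] [BorelSpace X] in
lemma bddFam_Ftau (F : 𝓢(X, ℂ)) (G : 𝓢(E, ℂ)) (η : X →L[ℝ] E) (e : E) :
    BddFam (fun τ => Ftau F G η e τ) :=
  (bddFam_const F).mulU (uBdd_tau G η e)

lemma hasDerivAt_Jfun_tau {s h : ℝ} (e : E) (P : ι → X →L[ℝ] E) {ε : ι → ℝ}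
    (hs : 1 / 2 < s) (hh : 0 < h) (hh1 : 2 * s * h ≤ 1)
    (hε : ∀ j, 0 < ε j) (F : 𝓢(X, ℂ)) (G : 𝓢(E, ℂ)) (η : X →L[ℝ] E) (τ : ℝ) :
    HasDerivAt (fun τ => Jfun μ s e P h ε (Ftau F G η e τ) 0)
      (Jfun μ s e P h ε (Ftau F (∂_{e} G) η e τ) 0) τ := by
  obtain ⟨B, hB0, hB⟩ := (uBdd_tau (X := X) (∂_{e} G) η e).2 0
  have hB' : ∀ (τ : ℝ) (x : X), ‖(∂_{e} G : 𝓢(E, ℂ)) (η x + τ • e)‖ ≤ B := fun τ x => by
    simpa using hB τ x
  have key := hasDerivAt_integral_of_dominated_loc_of_deriv_le (μ := μ)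
    (F := fun τ x => Ftau F G η e τ x * Qker s e P h 0 ε x)
    (F' := fun τ x => Ftau F (∂_{e} G) η e τ x * Qker s e P h 0 ε x)
    (x₀ := τ) (s := univ) (bound := fun x => B * (∏ j, (2 * h / ε j)) * ‖F x‖)
    univ_mem ?_ ?_ ?_ ?_ ?_ ?_
  · exact key.2
  · exact Eventually.of_forall fun τ' => (SchwartzMap.continuous _).aestronglyMeasurable.mul
      (measurable_Qker_x s e P h 0 ε).aestronglyMeasurable
  · exact integrable_GQ_eps μ e P hs hh hh1 le_rfl zero_le_one hε _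
  · exact (SchwartzMap.continuous _).aestronglyMeasurable.mul
      (measurable_Qker_x s e P h 0 ε).aestronglyMeasurable
  · refine Eventually.of_forall fun x τ' _ => ?_
    rw [Ftau_apply, norm_mul, norm_mul]
    have h1 := hB' τ' x
    have h2 := norm_Qker_le_eps e P x hs hh hh1 le_rfl zero_le_one hε
    have h5 : 0 ≤ ∏ j, (2 * h / ε j) :=
      Finset.prod_nonneg fun j _ => by have := hε j; positivity
    calc _ ≤ B * ‖F x‖ * ∏ j, (2 * h / ε j) := by gcongr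
      _ = _ := by ring
  · exact F.integrable.norm.const_mul _
  · refine Eventually.of_forall fun x τ' _ => ?_
    apply HasDerivAt.mul_const
    have h1 : (fun τ => Ftau F G η e τ x) = fun τ : ℝ => G (η x + τ • e) * F x :=
      funext fun τ => Ftau_apply F G η e τ x
    rw [h1, Ftau_apply]
    apply HasDerivAt.mul_const
    have h2 : HasDerivAt (fun τ : ℝ => η x + τ • e) e τ' := by
      simpa using ((hasDerivAt_id τ').smul_const e).const_add (η x)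
    exact (G.hasFDerivAt (η x + τ' • e)).comp_hasDerivAt τ' h2

/-- iterated derivative in direction `e` -/
noncomputable def derE (e : E) (G : 𝓢(E, ℂ)) : ℕ → 𝓢(E, ℂ)
  | 0 => G
  | (l + 1) => ∂_{e} (derE e G l)

lemma Ifun_tau_taylor {s : ℝ} {e : E} (he : ‖e‖ = 1) (P : ι → X →L[ℝ] E) {v : X}
    (hv : ∀ j, P j v = e) (hs : 1 / 2 < s) (F : 𝓢(X, ℂ)) (G : 𝓢(E, ℂ)) (η : X →L[ℝ] E) (L : ℕ) :
    ∃ C, 0 ≤ C ∧ ∀ h, 0 < h → 2 * s * h ≤ 1 → ∀ τ : ℝ,
      ‖Ifun μ s e P v h 0 (Fintype.card ι) (Ftau F G η e τ)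
        - ∑ l ∈ Finset.range L, ((τ : ℂ) ^ l / (l.factorial : ℂ)) *
          Ifun μ s e P v h 0 (Fintype.card ι) (Ftau F (derE e G l) η e 0)‖ ≤ C * |τ| ^ L := by
  obtain ⟨C, hC0, hC⟩ := (bddFam_Ftau F (derE e G L) η e).N1 μ v (Fintype.card ι + 1)
  refine ⟨2 ^ (Fintype.card ι) * C, by positivity, fun h hh hh1 τ => ?_⟩
  have hle : h ≤ 1 := by nlinarith
  have h1 : ∀ ε : ι → ℝ, (∀ j, 0 < ε j) → ‖Jfun μ s e P h ε (Ftau F G η e τ) 0
        - ∑ l ∈ Finset.range L, ((τ : ℂ) ^ l / (l.factorial : ℂ)) *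
          Jfun μ s e P h ε (Ftau F (derE e G l) η e 0) 0‖ ≤ 2 ^ (Fintype.card ι) * C * |τ| ^ L := by
    intro ε hε
    apply taylor_bound_seq L (fun l τ => Jfun μ s e P h ε (Ftau F (derE e G l) η e τ) 0)
    · intro l τ
      exact hasDerivAt_Jfun_tau μ e P hs hh hh1 hε F (derE e G l) η τ
    · intro τ
      refine (norm_Jfun_zero_le μ he P hv hs hh hh1 hε _ (le_refl _)).trans ?_
      gcongr
      exact hC τ h hh.le hle
  have hlim : Tendsto (fun ε => Jfun μ s e P h ε (Ftau F G η e τ) 0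
        - ∑ l ∈ Finset.range L, ((τ : ℂ) ^ l / (l.factorial : ℂ)) *
          Jfun μ s e P h ε (Ftau F (derE e G l) η e 0) 0) (epsFilter ι)
      (𝓝 (Ifun μ s e P v h 0 (Fintype.card ι) (Ftau F G η e τ)
        - ∑ l ∈ Finset.range L, ((τ : ℂ) ^ l / (l.factorial : ℂ)) *
          Ifun μ s e P v h 0 (Fintype.card ι) (Ftau F (derE e G l) η e 0))) := by
    apply Tendsto.sub
    · exact tendsto_Jfun_zero μ he P hv hs hh hh1 _ le_rfl
    · apply tendsto_finsetSum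
      intro l _
      exact (tendsto_Jfun_zero μ he P hv hs hh hh1 _ le_rfl).const_mul _
  refine le_of_tendsto hlim.norm ?_
  filter_upwards [self_mem_nhdsWithin] with ε hε
  exact h1 ε hε

/-- expansion of the functional applied to the shifted input -/
theorem hasPow_Ifun_tau {s : ℝ} {e : E} (he : ‖e‖ = 1) (P : ι → X →L[ℝ] E) {v : X}
    (hv : ∀ j, P j v = e) (hs : 1 / 2 < s) (F : 𝓢(X, ℂ)) (G : 𝓢(E, ℂ)) (η : X →L[ℝ] E)
    {h₁ : ℝ} (hh₁ : h₁ ≤ 1 / (2 * s)) {τ : ℝ → ℝ} {J : ℕ} (hτ : HasPow h₁ J (fun h => ((τ h : ℝ) : ℂ)))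
    {A : ℝ} (hA : 0 ≤ A) (hτA : ∀ h, 0 < h → h ≤ h₁ → |τ h| ≤ A * h) :
    HasPow h₁ J (fun h => Ifun μ s e P v h 0 (Fintype.card ι) (Ftau F G η e (τ h))) := by
  have hh0 : 1 / (2 * s) ≤ 1 := by
    rw [div_le_one (by linarith)]; linarith
  have hcond : ∀ h, 0 < h → h ≤ h₁ → 2 * s * h ≤ 1 := by
    intro h hh hh1
    have := hh1.trans hh₁
    rw [le_div_iff₀ (by linarith)] at this
    linarith
  obtain ⟨C, hC0, hC⟩ := Ifun_tau_taylor μ he P hv hs F G η J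
  have h1 : HasPow h₁ J (fun h => ∑ l ∈ Finset.range J, (((τ h : ℝ) : ℂ) ^ l / (l.factorial : ℂ)) *
          Ifun μ s e P v h 0 (Fintype.card ι) (Ftau F (derE e G l) η e 0)) := by
    apply HasPow.sum
    intro l _
    apply HasPow.mul (hh₁.trans hh0)
    · have := (hτ.pow (hh₁.trans hh0) l).mul (hh₁.trans hh0) (hasPow_const (1 / (l.factorial : ℂ)))
      refine this.congr fun h _ _ => by ring
    · exact (hasPow_Ifun μ hs he P hv _ J).of_le hh₁
  refine h1.of_close (C := C * A ^ J) (by positivity) fun h hh hh1 => ?_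
  refine (hC h hh (hcond h hh hh1) (τ h)).trans ?_
  rw [mul_assoc, ← mul_pow]
  gcongr
  exact hτA h hh hh1

end

end FracScat
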