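import Pool.Agent.Lib_helper32.FSProd

/-! # Integration by parts along the dilation field and the Taylor formula in the angle -/

open MeasureTheory Filter Complex Set Topology
open scoped Real SchwartzMap LineDeriv

namespace FracScat

section Weighted

variable {X : Type*} [NormedAddCommGroup X] [NormedSpace ℝ X] [FiniteDimensional ℝ X]
  [MeasurableSpace X] [BorelSpace X] (μ : Measure X) [μ.IsAddHaarMeasure]

lemma integrable_weight (G : 𝓢(X, ℂ)) (K : ℕ) :
    Integrable (fun x => (1 + ‖x‖) ^ K * ‖G x‖) μ := by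
  have h1 := (G.integrable_pow_mul μ 0).add (G.integrable_pow_mul μ K)
  have h2 := h1.const_mul ((2 : ℝ) ^ (K - 1))
  refine h2.mono' ?_ ?_
  · apply Continuous.aestronglyMeasurable
    have := G.continuous
    fun_prop
  · refine Eventually.of_forall fun x => ?_
    rw [Real.norm_of_nonneg (by positivity)]
    have h3 := add_pow_le (zero_le_one (α := ℝ)) (norm_nonneg x) K
    simp only [Pi.add_apply]
    calc (1 + ‖x‖) ^ K * ‖G x‖ ≤ (2 ^ (K - 1) * (1 ^ K + ‖x‖ ^ K)) * ‖G x‖ := by gcongr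
      _ = _ := by simp; ring

lemma integrable_schwartz_mul (G : 𝓢(X, ℂ)) {F : X → ℂ} (hF : AEStronglyMeasurable F μ)
    {C : ℝ} {K : ℕ} (hb : ∀ x, ‖F x‖ ≤ C * (1 + ‖x‖) ^ K) :
    Integrable (fun x => G x * F x) μ := by
  refine ((integrable_weight μ G K).const_mul C).mono'
    (G.continuous.aestronglyMeasurable.mul hF) (Eventually.of_forall fun x => ?_)
  rw [norm_mul]
  calc ‖G x‖ * ‖F x‖ ≤ ‖G x‖ * (C * (1 + ‖x‖) ^ K) := by gcongr; exact hb x
    _ = _ := by ring

end Weighted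

section Ops

variable (X : Type*) [NormedAddCommGroup X] [NormedSpace ℝ X] [FiniteDimensional ℝ X]

/-- coordinates -/
noncomputable def coordR (i : Fin (Module.finrank ℝ X)) : X →L[ℝ] ℝ :=
  LinearMap.toContinuousLinearMap ((Module.finBasis ℝ X).coord i)

/-- `D₁ G = x·∇G + (dim X) G` -/
noncomputable def D1 : 𝓢(X, ℂ) →L[ℂ] 𝓢(X, ℂ) :=
  (∑ i, (SchwartzMap.smulLeftCLM ℂ (fun x : X => ((coordR X i x : ℝ) : ℂ))).comp
     (LineDeriv.lineDerivOpCLM ℂ 𝓢(X, ℂ) (Module.finBasis ℝ X i)))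
   + (Module.finrank ℝ X : ℂ) • ContinuousLinearMap.id ℂ _

variable {X}

/-- `D₀ G = ∂_v G` -/
noncomputable def D0 (v : X) : 𝓢(X, ℂ) →L[ℂ] 𝓢(X, ℂ) :=
  LineDeriv.lineDerivOpCLM ℂ 𝓢(X, ℂ) v

/-- `D_h = D₀ + h D₁` -/
noncomputable def Dh (v : X) (h : ℝ) : 𝓢(X, ℂ) →L[ℂ] 𝓢(X, ℂ) :=
  D0 v + (h : ℂ) • D1 X

lemma coordR_sum (x : X) : ∑ i, coordR X i x • (Module.finBasis ℝ X i) = x := by
  simp [coordR]

lemma coordR_basis (i : Fin (Module.finrank ℝ X)) : coordR X i (Module.finBasis ℝ X i) = 1 := by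
  simp [coordR]

lemma tg_coord (i : Fin (Module.finrank ℝ X)) :
    Function.HasTemperateGrowth (fun x : X => ((coordR X i x : ℝ) : ℂ)) :=
  (Complex.ofRealCLM.comp (coordR X i)).hasTemperateGrowth

lemma D1_apply (G : 𝓢(X, ℂ)) (x : X) :
    D1 X G x = fderiv ℝ G x x + (Module.finrank ℝ X : ℂ) * G x := by
  simp only [D1, add_apply, sum_apply, smul_apply, ContinuousLinearMap.comp_apply,
    ContinuousLinearMap.id_apply, smul_eq_mul]
  congr 1
  have h1 : ∀ i, (SchwartzMap.smulLeftCLM ℂ (fun x : X => ((coordR X i x : ℝ) : ℂ)))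
      (LineDeriv.lineDerivOpCLM ℂ 𝓢(X, ℂ) (Module.finBasis ℝ X i) G) x
      = ((coordR X i x : ℝ) : ℂ) * fderiv ℝ G x (Module.finBasis ℝ X i) := by
    intro i
    rw [SchwartzMap.smulLeftCLM_apply_apply (tg_coord i)]
    rfl
  simp_rw [h1]
  have h2 := congrArg (fderiv ℝ G x) (coordR_sum x)
  rw [map_sum] at h2
  rw [← h2]
  refine Finset.sum_congr rfl fun i _ => ?_
  rw [map_smul, Complex.real_smul]

lemma Dh_apply (v : X) (h : ℝ) (G : 𝓢(X, ℂ)) (x : X) :
    Dh v h G x = fderiv ℝ G x (v + h • x) + h * (Module.finrank ℝ X : ℂ) * G x := by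
  have h0 : D0 v G x = fderiv ℝ G x v := rfl
  simp only [Dh, add_apply, smul_apply, D1_apply, h0, map_add, map_smul, smul_eq_mul,
    Complex.real_smul]
  ring

variable [MeasurableSpace X] [BorelSpace X] (μ : Measure X) [μ.IsAddHaarMeasure]

lemma ibp_const (G : 𝓢(X, ℂ)) {Q : X → ℂ} {Q' : X → X →L[ℝ] ℂ}
    (hQ : ∀ x, HasFDerivAt Q (Q' x) x) {C : ℝ} {K : ℕ} (hQb : ∀ x, ‖Q x‖ ≤ C * (1 + ‖x‖) ^ K)
    (hQ'b : ∀ x, ‖Q' x‖ ≤ C * (1 + ‖x‖) ^ K) (v : X) :
    ∫ x, G x * Q' x v ∂μ = - ∫ x, fderiv ℝ G x v * Q x ∂μ := by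
  have hQc : Continuous Q := continuous_iff_continuousAt.mpr fun x => (hQ x).continuousAt
  have hQ'm : Measurable (fun x => Q' x v) := by
    have : (fun x => Q' x v) = fun x => fderiv ℝ Q x v := by
      ext x; rw [(hQ x).fderiv]
    rw [this]
    exact measurable_fderiv_apply_const ℝ Q v
  apply integral_bilinear_hasFDerivAt_right_eq_neg_left_of_integrable
    (B := ContinuousLinearMap.mul ℝ ℂ) (f := G) (f' := fun x => fderiv ℝ G x)
  · exact integrable_schwartz_mul μ (∂_{v} G) hQc.aestronglyMeasurable hQb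
  · refine integrable_schwartz_mul μ G hQ'm.aestronglyMeasurable (C := C * ‖v‖) (K := K)
      fun x => ?_
    calc ‖Q' x v‖ ≤ ‖Q' x‖ * ‖v‖ := (Q' x).le_opNorm v
      _ ≤ (C * (1 + ‖x‖) ^ K) * ‖v‖ := by gcongr; exact hQ'b x
      _ = _ := by ring
  · exact integrable_schwartz_mul μ G hQc.aestronglyMeasurable hQb
  · intro x _; exact G.hasFDerivAt x
  · intro x _; exact hQ x

lemma ibp (G : 𝓢(X, ℂ)) {Q : X → ℂ} {Q' : X → X →L[ℝ] ℂ}
    (hQ : ∀ x, HasFDerivAt Q (Q' x) x) {C : ℝ} {K : ℕ} (hQb : ∀ x, ‖Q x‖ ≤ C * (1 + ‖x‖) ^ K)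
    (hQ'b : ∀ x, ‖Q' x‖ ≤ C * (1 + ‖x‖) ^ K) (v : X) (h : ℝ) :
    ∫ x, G x * Q' x (v + h • x) ∂μ = - ∫ x, Dh v h G x * Q x ∂μ := by
  have hQc : Continuous Q := continuous_iff_continuousAt.mpr fun x => (hQ x).continuousAt
  have hQ'm : ∀ v, Measurable (fun x => Q' x v) := by
    intro v
    have : (fun x => Q' x v) = fun x => fderiv ℝ Q x v := by
      ext x; rw [(hQ x).fderiv]
    rw [this]
    exact measurable_fderiv_apply_const ℝ Q v
  have hQ'b2 : ∀ v x, ‖Q' x v‖ ≤ (C * ‖v‖) * (1 + ‖x‖) ^ K := by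
    intro v x
    calc ‖Q' x v‖ ≤ ‖Q' x‖ * ‖v‖ := (Q' x).le_opNorm v
      _ ≤ (C * (1 + ‖x‖) ^ K) * ‖v‖ := by gcongr; exact hQ'b x
      _ = _ := by ring
  set n := Module.finrank ℝ X
  set b := Module.finBasis ℝ X
  let H : Fin n → 𝓢(X, ℂ) := fun i =>
    SchwartzMap.smulLeftCLM ℂ (fun x : X => ((coordR X i x : ℝ) : ℂ)) G
  have hH : ∀ i x, H i x = ((coordR X i x : ℝ) : ℂ) * G x := by
    intro i x
    exact SchwartzMap.smulLeftCLM_apply_apply (tg_coord i) G x
  have hHd : ∀ i x, fderiv ℝ (H i) x (b i) = G x + ((coordR X i x : ℝ) : ℂ) * fderiv ℝ G x (b i) := by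
    intro i x
    have h1 : (H i : X → ℂ) = fun x => ((coordR X i x : ℝ) : ℂ) * G x := funext (hH i)
    have h2 : HasFDerivAt (fun x : X => ((coordR X i x : ℝ) : ℂ))
        (Complex.ofRealCLM.comp (coordR X i)) x :=
      (Complex.ofRealCLM.comp (coordR X i)).hasFDerivAt
    have h3 := h2.mul (G.hasFDerivAt x)
    rw [h1]
    erw [h3.fderiv]
    simp only [add_apply, smul_apply, ContinuousLinearMap.comp_apply, Complex.ofRealCLM_apply,
      smul_eq_mul]
    rw [coordR_basis]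
    simp
    ring
  have e1 : ∀ x, G x * Q' x (v + h • x) = G x * Q' x v + ∑ i, (h : ℂ) * (H i x * Q' x (b i)) := by
    intro x
    have h2 := congrArg (Q' x) (coordR_sum x)
    rw [map_sum] at h2
    rw [map_add, map_smul, ← h2, mul_add, Complex.real_smul, Finset.mul_sum, Finset.mul_sum]
    congr 1
    refine Finset.sum_congr rfl fun i _ => ?_
    rw [map_smul, Complex.real_smul, hH]
    ring
  have i1 : Integrable (fun x => G x * Q' x v) μ :=
    integrable_schwartz_mul μ G (hQ'm v).aestronglyMeasurable (hQ'b2 v)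
  have i2 : ∀ i, Integrable (fun x => (h : ℂ) * (H i x * Q' x (b i))) μ := fun i =>
    (integrable_schwartz_mul μ (H i) (hQ'm (b i)).aestronglyMeasurable (hQ'b2 (b i))).const_mul _
  have i3 : ∀ i, Integrable (fun x => fderiv ℝ (H i) x (b i) * Q x) μ := fun i =>
    integrable_schwartz_mul μ (∂_{b i} (H i)) hQc.aestronglyMeasurable hQb
  have i4 : Integrable (fun x => fderiv ℝ G x v * Q x) μ :=
    integrable_schwartz_mul μ (∂_{v} G) hQc.aestronglyMeasurable hQb
  simp_rw [e1]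
  rw [integral_add i1 (integrable_finsetSum _ fun i _ => i2 i),
    integral_finsetSum _ (fun i _ => i2 i)]
  simp_rw [integral_const_mul]
  rw [ibp_const μ G hQ hQb hQ'b v]
  have e2 : ∀ i, ∫ x, H i x * Q' x (b i) ∂μ = - ∫ x, fderiv ℝ (H i) x (b i) * Q x ∂μ :=
    fun i => ibp_const μ (H i) hQ hQb hQ'b (b i)
  simp_rw [e2]
  have e3 : ∀ x, Dh v h G x * Q x = fderiv ℝ G x v * Q x
      + ∑ i, (h : ℂ) * (fderiv ℝ (H i) x (b i) * Q x) := by
    intro x
    rw [Dh_apply]
    have h2 := congrArg (fderiv ℝ G x) (coordR_sum x)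
    rw [map_sum] at h2
    rw [map_add, map_smul, ← h2, Complex.real_smul]
    simp_rw [hHd, add_mul, mul_add]
    rw [Finset.sum_add_distrib]
    simp only [Finset.sum_const, Finset.card_univ, Fintype.card_fin, nsmul_eq_mul]
    rw [Finset.mul_sum, Finset.sum_mul]
    have : ∀ i, (h : ℂ) * (fderiv ℝ G x) (coordR X i x • (Module.finBasis ℝ X) i) * Q x
        = (h : ℂ) * (((coordR X i x : ℝ) : ℂ) * (fderiv ℝ G x) (b i) * Q x) := by
      intro i
      rw [map_smul, Complex.real_smul]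
      ring
    simp_rw [this]
    ring
  simp_rw [e3]
  rw [integral_add i4 (integrable_finsetSum _ fun i _ => (i3 i).const_mul _),
    integral_finsetSum _ (fun i _ => (i3 i).const_mul _)]
  simp_rw [integral_const_mul]
  simp only [mul_neg, Finset.sum_neg_distrib]
  ring

end Ops

/-- Taylor formula with weight -/
lemma taylor_seq (f : ℕ → ℝ → ℂ) (hc : ∀ i, ContinuousOn (f i) (Icc 0 1))
    (hd : ∀ i, ∀ t ∈ Ioo (0 : ℝ) 1, HasDerivAt (f i) (I * f (i + 1) t) t) (M : ℕ) :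
    f 0 0 = ∑ i ∈ Finset.range (M + 1), ((-I) ^ i / (i.factorial : ℂ)) * f i 1
      + (-I) ^ (M + 1) * ∫ t in (0 : ℝ)..1, ((t : ℂ) ^ M / (M.factorial : ℂ)) * f (M + 1) t := by
  have hint : ∀ i (k : ℕ) (c : ℂ), IntervalIntegrable (fun t : ℝ => ((t : ℂ) ^ k / c) * f i t)
      volume 0 1 := by
    intro i k c
    apply ContinuousOn.intervalIntegrable
    rw [uIcc_of_le zero_le_one]
    apply ContinuousOn.mul _ (hc i)
    fun_prop
  induction M with
  | zero =>
    have h1 := intervalIntegral.integral_eq_sub_of_hasDerivAt_of_le zero_le_one (hc 0) (hd 0)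
      (by simpa using (hint 1 0 1).const_mul I)
    simp only [zero_add, Finset.range_one, Finset.sum_singleton, pow_zero, Nat.factorial_zero,
      Nat.cast_one, div_one, one_mul, pow_one]
    rw [intervalIntegral.integral_const_mul] at h1
    linear_combination h1
  | succ M ih =>
    rw [ih, Finset.sum_range_succ _ (M + 1)]
    have h1 := intervalIntegral.integral_eq_sub_of_hasDerivAt_of_le zero_le_one
      (f := fun t : ℝ => ((t : ℂ) ^ (M + 1) / ((M + 1).factorial : ℂ)) * f (M + 1) t)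
      (f' := fun t : ℝ => ((t : ℂ) ^ M / (M.factorial : ℂ)) * f (M + 1) t
        + I * (((t : ℂ) ^ (M + 1) / ((M + 1).factorial : ℂ)) * f (M + 1 + 1) t)) ?_ ?_ ?_
    · rw [intervalIntegral.integral_add (hint _ _ _) ((hint _ _ _).const_mul _),
        intervalIntegral.integral_const_mul] at h1
      simp only [Complex.ofReal_one, one_pow, Complex.ofReal_zero, zero_pow (Nat.succ_ne_zero M),
        zero_div, zero_mul, sub_zero] at h1
      have h2 : (-I) ^ (M + 1) * (I : ℂ) = - (-I) ^ (M + 1 + 1) := by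
        rw [pow_succ (-I) (M + 1)]; ring
      linear_combination (-I) ^ (M + 1) * h1 - (∫ (x : ℝ) in 0..1, ((x : ℂ) ^ (M + 1) / ((M + 1).factorial : ℂ)) * f (M + 1 + 1) x) * h2
    · apply ContinuousOn.mul _ (hc _)
      fun_prop
    · intro t ht
      have h3 : HasDerivAt (fun t : ℝ => ((t : ℂ) ^ (M + 1) / ((M + 1).factorial : ℂ)))
          ((t : ℂ) ^ M / (M.factorial : ℂ)) t := by
        have h4 : HasDerivAt (fun t : ℝ => (t : ℂ)) 1 t := Complex.ofRealCLM.hasDerivAt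
        have h5 := (h4.fun_pow (M + 1)).div_const ((M + 1).factorial : ℂ)
        refine h5.congr_deriv ?_
        rw [Nat.factorial_succ]
        have : ((M : ℂ) + 1) ≠ 0 := by exact_mod_cast Nat.succ_ne_zero M
        have h6 : (M.factorial : ℂ) ≠ 0 := by exact_mod_cast Nat.factorial_ne_zero M
        push_cast
        field_simp
      refine (h3.mul (hd (M + 1) t ht)).congr_deriv ?_
      ring
    · exact (hint _ _ _).add ((hint _ _ _).const_mul _)

section Jfun

variable {E : Type*} [NormedAddCommGroup E] [InnerProductSpace ℝ E]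
  [MeasurableSpace E] [BorelSpace E]
variable {X : Type*} [NormedAddCommGroup X] [NormedSpace ℝ X] [FiniteDimensional ℝ X]
  [MeasurableSpace X] [BorelSpace X] (μ : Measure X) [μ.IsAddHaarMeasure]
variable {ι : Type*} [Fintype ι]

/-- The regularised functional. -/
noncomputable def Jfun (s : ℝ) (e : E) (P : ι → X →L[ℝ] E) (h : ℝ) (ε : ι → ℝ) (G : 𝓢(X, ℂ))
    (t : ℝ) : ℂ := ∫ x, G x * Qker s e P h t ε x ∂μ

omit [FiniteDimensional ℝ X] in
lemma measurable_Qker_x (s : ℝ) (e : E) (P : ι → X →L[ℝ] E) (h t : ℝ) (ε : ι → ℝ) :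
    Measurable (fun x : X => Qker s e P h t ε x) := by
  have := Measurable.comp (measurable_Qker s e P h ε) (measurable_prodMk_left (x := t))
  simp only [Function.comp_def] at this
  exact this

lemma integrable_GQ_eps {s h t : ℝ} (e : E) (P : ι → X →L[ℝ] E) {ε : ι → ℝ}
    (hs : 1 / 2 < s) (hh : 0 < h) (hh1 : 2 * s * h ≤ 1)
    (ht : 0 ≤ t) (ht1 : t ≤ 1) (hε : ∀ j, 0 < ε j) (G : 𝓢(X, ℂ)) :
    Integrable (fun x => G x * Qker s e P h t ε x) μ := by
  apply integrable_schwartz_mul μ G (measurable_Qker_x s e P h t ε).aestronglyMeasurable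
    (C := ∏ j, (2 * h / ε j)) (K := 0)
  intro x
  simpa using norm_Qker_le_eps e P x hs hh hh1 ht ht1 hε

lemma integrable_GQ_t {s h t : ℝ} (e : E) (P : ι → X →L[ℝ] E) {ε : ι → ℝ}
    (hs : 1 / 2 < s) (hh : 0 < h) (hh1 : 2 * s * h ≤ 1)
    (ht : 0 < t) (ht1 : t ≤ 1) (hε : ∀ j, 0 ≤ ε j) (G : 𝓢(X, ℂ)) :
    Integrable (fun x => G x * Qker s e P h t ε x) μ := by
  apply integrable_schwartz_mul μ G (measurable_Qker_x s e P h t ε).aestronglyMeasurable
    (C := (2 / t) ^ (Fintype.card ι)) (K := 0)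
  intro x
  simpa using norm_Qker_le_t e P x hs hh hh1 ht ht1 hε

lemma hasDerivAt_Jfun {s h t : ℝ} {e : E} (he : ‖e‖ = 1) (P : ι → X →L[ℝ] E) {v : X}
    (hv : ∀ j, P j v = e) {ε : ι → ℝ}
    (hs : 1 / 2 < s) (hh : 0 < h) (hh1 : 2 * s * h ≤ 1)
    (ht : 0 < t) (ht1 : t < 1) (hε : ∀ j, 0 < ε j) (G : 𝓢(X, ℂ)) :
    HasDerivAt (Jfun μ s e P h ε G) (I * Jfun μ s e P h ε (Dh v h G) t) t := by
  classical
  obtain ⟨C, hC, hCb⟩ := norm_dQker_le he P (ε := ε) hs hh hh1 hε
  set K := ⌈2 * s⌉₊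
  have hh1' : h ≤ 1 := by nlinarith
  have hb : ∀ t, 0 ≤ t → t ≤ 1 → ∀ x j, bker s e h t (ε j) (P j x) ≠ 0 := fun t ht ht1 x j =>
    bker_ne_zero_eps e _ hs hh hh1 ht ht1 (hε j)
  have hF : ∀ t ∈ Ioo (0 : ℝ) 1, ∀ x, HasDerivAt (fun t => G x * Qker s e P h t ε x)
      (G x * (-I * dQker s e P h t ε x (v + h • x))) t := by
    intro t ht x
    exact (hasDerivAt_Qker_t hs e P hv h t ε x (hb t ht.1.le ht.2.le x)).const_mul _
  have hmeas' : Measurable (fun x => dQker s e P h t ε x (v + h • x)) := by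
    have h1 : (fun x => dQker s e P h t ε x (v + h • x))
        = fun x => fderiv ℝ (fun x => Qker s e P h t ε x) x v
          + ∑ i, (coordR X i x : ℂ) * fderiv ℝ (fun x => Qker s e P h t ε x) x
              ((h : ℝ) • (Module.finBasis ℝ X i)) := by
      ext x
      rw [(hasFDerivAt_Qker hs e P h t ε x (hb t ht.le ht1.le x)).fderiv]
      have h2 := congrArg (dQker s e P h t ε x) (congrArg (fun y => h • y) (coordR_sum x))
      simp only [Finset.smul_sum, map_sum] at h2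
      rw [map_add, ← h2]
      congr 1
      refine Finset.sum_congr rfl fun i _ => ?_
      rw [map_smul, map_smul, map_smul]
      simp only [Complex.real_smul]
      ring
    rw [h1]
    apply Measurable.add
    · exact measurable_fderiv_apply_const ℝ _ v
    · apply Finset.measurable_fun_sum
      intro i _
      apply Measurable.mul
      · apply Continuous.measurable; fun_prop
      · exact measurable_fderiv_apply_const ℝ _ _
  have hbound : ∀ t, 0 ≤ t → t ≤ 1 → ∀ x, ‖dQker s e P h t ε x (v + h • x)‖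
      ≤ C * (‖v‖ + 1) * (1 + ‖x‖) ^ (K + 1) := by
    intro t ht ht1 x
    calc ‖dQker s e P h t ε x (v + h • x)‖ ≤ ‖dQker s e P h t ε x‖ * ‖v + h • x‖ :=
          (dQker s e P h t ε x).le_opNorm _
      _ ≤ (C * (1 + ‖x‖) ^ K) * ((‖v‖ + 1) * (1 + ‖x‖)) := by
          apply mul_le_mul (hCb x t ht ht1) _ (norm_nonneg _) (by positivity)
          calc ‖v + h • x‖ ≤ ‖v‖ + ‖h • x‖ := norm_add_le _ _
            _ ≤ ‖v‖ + 1 * ‖x‖ := by
              rw [norm_smul, Real.norm_of_nonneg hh.le]; gcongr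
            _ ≤ _ := by nlinarith [norm_nonneg v, norm_nonneg x, mul_nonneg (norm_nonneg v) (norm_nonneg x)]
      _ = _ := by ring
  have key := hasDerivAt_integral_of_dominated_loc_of_deriv_le (μ := μ)
    (F := fun t x => G x * Qker s e P h t ε x)
    (F' := fun t x => G x * (-I * dQker s e P h t ε x (v + h • x)))
    (x₀ := t) (s := Ioo 0 1) (bound := fun x => C * (‖v‖ + 1) * ((1 + ‖x‖) ^ (K + 1) * ‖G x‖))
    (Ioo_mem_nhds ht ht1) ?_ ?_ ?_ ?_ ?_ ?_
  · have h1 := key.2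
    have h2 : ∫ x, G x * (-I * dQker s e P h t ε x (v + h • x)) ∂μ
        = I * Jfun μ s e P h ε (Dh v h G) t := by
      have h3 : ∀ x, G x * (-I * dQker s e P h t ε x (v + h • x))
          = -I * (G x * dQker s e P h t ε x (v + h • x)) := fun x => by ring
      simp_rw [h3]
      rw [integral_const_mul]
      rw [ibp μ G (Q := fun x => Qker s e P h t ε x) (C := C + ∏ j, (2 * h / ε j)) (K := K)
        (fun x => hasFDerivAt_Qker hs e P h t ε x (hb t ht.le ht1.le x)) ?_ ?_ v h]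
      · simp [Jfun]
      · intro x
        have hp : 0 ≤ ∏ j, (2 * h / ε j) :=
          Finset.prod_nonneg fun j _ => by have := hε j; positivity
        have h4 := norm_Qker_le_eps e P x hs hh hh1 ht.le ht1.le hε
        have h5 : (1 : ℝ) ≤ (1 + ‖x‖) ^ K := one_le_pow₀ (by linarith [norm_nonneg x])
        nlinarith
      · intro x
        have hp : 0 ≤ ∏ j, (2 * h / ε j) :=
          Finset.prod_nonneg fun j _ => by have := hε j; positivity
        have h4 := hCb x t ht.le ht1.le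
        have h5 : (0 : ℝ) ≤ (1 + ‖x‖) ^ K := by positivity
        nlinarith
    rw [← h2]
    exact h1
  · filter_upwards [Ioo_mem_nhds ht ht1] with t' ht'
    exact (G.continuous.aestronglyMeasurable.mul (measurable_Qker_x s e P h t' ε).aestronglyMeasurable)
  · exact integrable_GQ_eps μ e P hs hh hh1 ht.le ht1.le hε G
  · exact G.continuous.aestronglyMeasurable.mul (hmeas'.const_mul _).aestronglyMeasurable
  · refine Eventually.of_forall fun x t' ht' => ?_
    rw [norm_mul, norm_mul, norm_neg, Complex.norm_I, one_mul]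
    have := hbound t' ht'.1.le ht'.2.le x
    calc ‖G x‖ * ‖dQker s e P h t' ε x (v + h • x)‖ ≤ ‖G x‖ * (C * (‖v‖ + 1) * (1 + ‖x‖) ^ (K + 1)) := by
          gcongr
      _ = _ := by ring
  · exact (integrable_weight μ G (K + 1)).const_mul _
  · exact Eventually.of_forall fun x t' ht' => hF t' ht' x

lemma continuousOn_Jfun {s h : ℝ} {e : E} (P : ι → X →L[ℝ] E) {ε : ι → ℝ}
    (hs : 1 / 2 < s) (hh : 0 < h) (hh1 : 2 * s * h ≤ 1)
    (hε : ∀ j, 0 < ε j) (G : 𝓢(X, ℂ)) :
    ContinuousOn (Jfun μ s e P h ε G) (Icc 0 1) := by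
  apply continuousOn_of_dominated (bound := fun x => (∏ j, (2 * h / ε j)) * ‖G x‖)
  · intro t _
    exact G.continuous.aestronglyMeasurable.mul (measurable_Qker_x s e P h t ε).aestronglyMeasurable
  · intro t ht
    refine Eventually.of_forall fun x => ?_
    rw [norm_mul, mul_comm]
    gcongr
    exact norm_Qker_le_eps e P x hs hh hh1 ht.1 ht.2 hε
  · exact G.integrable.norm.const_mul _
  · refine Eventually.of_forall fun x => ?_
    apply ContinuousOn.mul continuousOn_const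
    unfold Qker
    apply continuousOn_finsetProd
    intro j _ t ht
    exact (hasDerivAt_qker_t hs e h t (ε j) (P j x)
      (bker_ne_zero_eps e _ hs hh hh1 ht.1 ht.2 (hε j))).continuousAt.continuousWithinAt

/-- The Taylor formula for the regularised functional. -/
lemma Jfun_taylor {s h : ℝ} {e : E} (he : ‖e‖ = 1) (P : ι → X →L[ℝ] E) {v : X}
    (hv : ∀ j, P j v = e) {ε : ι → ℝ}
    (hs : 1 / 2 < s) (hh : 0 < h) (hh1 : 2 * s * h ≤ 1)
    (hε : ∀ j, 0 < ε j) (F : 𝓢(X, ℂ)) (M : ℕ) :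
    Jfun μ s e P h ε F 0 = ∑ i ∈ Finset.range (M + 1),
        ((-I) ^ i / (i.factorial : ℂ)) * Jfun μ s e P h ε (((Dh v h) ^ i) F) 1
      + (-I) ^ (M + 1) * ∫ t in (0 : ℝ)..1, ((t : ℂ) ^ M / (M.factorial : ℂ)) *
          Jfun μ s e P h ε (((Dh v h) ^ (M + 1)) F) t := by
  have := taylor_seq (fun i t => Jfun μ s e P h ε (((Dh v h) ^ i) F) t)
    (fun i => continuousOn_Jfun μ P hs hh hh1 hε _) ?_ M
  · simpa using this
  · intro i t ht
    have h1 := hasDerivAt_Jfun μ he P hv hs hh hh1 ht.1 ht.2 hε (((Dh v h) ^ i) F)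
    rw [pow_succ' (Dh v h) i]
    exact h1

end Jfun

end FracScat
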