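import Pool.Agent.Lib_helper32.FSPhys

/-! # Uniform bounds for total fields at high frequency -/

open MeasureTheory Filter Complex Set Topology
open scoped Real SchwartzMap LineDeriv ContDiff NNReal FourierTransform RealInnerProductSpace

namespace FracScat

section

variable {E : Type} [NormedAddCommGroup E] [InnerProductSpace ℝ E] [FiniteDimensional ℝ E]
  [MeasurableSpace E] [BorelSpace E]

omit [FiniteDimensional ℝ E] [MeasurableSpace E] [BorelSpace E] in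
lemma exists_radius {V : 𝓢(E, ℂ)} (hV : HasCompactSupport V) : ∃ R : ℝ, ∀ x, R < ‖x‖ → V x = 0 := by
  obtain ⟨R, hR⟩ := hV.isCompact.isBounded.subset_closedBall 0
  refine ⟨R, fun x hx => ?_⟩
  by_contra h
  have := hR (subset_tsupport _ h)
  rw [mem_closedBall_zero_iff] at this
  linarith

lemma tendsto_mfun {s : ℝ} (hs : 1 / 2 < s) : Tendsto (mfun s) (𝓝[>] 0) (𝓝 0) := by
  have h1 : Tendsto (fun h : ℝ => h ^ (2 * s - 1)) (𝓝[>] 0) (𝓝 0) := by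
    have h2 : ContinuousAt (fun h : ℝ => h ^ (2 * s - 1)) 0 :=
      Real.continuousAt_rpow_const 0 (2 * s - 1) (Or.inr (by linarith))
    have h3 := h2.tendsto
    rw [Real.zero_rpow (by linarith)] at h3
    exact h3.mono_left nhdsWithin_le_nhds
  have := h1.const_mul ((2 * π) ^ (-(2 * s)))
  rw [mul_zero] at this
  exact this

lemma exists_h1 {s : ℝ} (hs : 1 / 2 < s) (D : ℝ) :
    ∃ h₁, 0 < h₁ ∧ h₁ ≤ 1 / (2 * s) ∧ ∀ h, 0 < h → h ≤ h₁ → mfun s h * D ≤ 1 / 2 := by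
  have h1 : Tendsto (fun h => mfun s h * D) (𝓝[>] 0) (𝓝 0) := by
    simpa using (tendsto_mfun hs).mul_const D
  have h2 : ∀ᶠ h in 𝓝[>] (0 : ℝ), mfun s h * D < 1 / 2 := h1.eventually (gt_mem_nhds (by norm_num))
  obtain ⟨δ, hδ, hsub⟩ := mem_nhdsGT_iff_exists_Ioo_subset.mp h2
  have hδ' : (0 : ℝ) < δ := hδ
  refine ⟨min (δ / 2) (1 / (2 * s)), lt_min (by linarith) (by positivity), min_le_right _ _,
    fun h hh hle => ?_⟩
  have := @hsub h ⟨hh, by have := hle.trans (min_le_left _ _); linarith⟩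
  exact le_of_lt this

lemma integrable_Vu {V : 𝓢(E, ℂ)} (hV : HasCompactSupport V) {u : E → ℂ} (hu : LocallyIntegrable u) :
    Integrable (fun x => V x * u x) :=
  hu.integrable_smul_left_of_hasCompactSupport V.continuous hV

theorem uniform_bound {s : ℝ} (hs : 1 / 2 < s) {e : E} (he : ‖e‖ = 1) {V : 𝓢(E, ℂ)}
    (hV : HasCompactSupport V) :
    ∃ h₁, 0 < h₁ ∧ h₁ ≤ 1 / (2 * s) ∧ ∃ K : ℕ → ℝ, (∀ i, 0 ≤ K i) ∧
      ∀ h, 0 < h → h ≤ h₁ → ∀ (θ : E) (u : E → ℂ), IsTotalField s (2 * π / h) V θ u →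
        ContDiff ℝ ∞ (fun ξ => 𝓕 (fun x => V x * u x) (ξ + h⁻¹ • e)) ∧
        ∀ i ξ, ‖iteratedFDeriv ℝ i (fun ξ => 𝓕 (fun x => V x * u x) (ξ + h⁻¹ • e)) ξ‖ ≤ K i := by
  obtain ⟨R, hR⟩ := exists_radius hV
  obtain ⟨χ, hχ⟩ := exists_cutoff (E := E) R
  set Kχ : ℕ → ℝ := fun i => ∫ ξ, ‖iteratedFDeriv ℝ i (𝓕 χ : 𝓢(E, ℂ)) ξ‖ with hKχ
  have hKχ0 : ∀ i, 0 ≤ Kχ i := fun i => integral_nonneg fun _ => norm_nonneg _
  set M : ℝ := ∫ x, ‖V x‖ with hM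
  have hM0 : 0 ≤ M := integral_nonneg fun _ => norm_nonneg _
  obtain ⟨C, hC0, hC⟩ := conv_bound (E := E) hs he
  set S : ℝ := ∫ ξ, S2 (𝓕 V : 𝓢(E, ℂ)) ξ with hS
  set K02 : ℝ := Kχ 0 + Kχ 1 + Kχ 2 with hK02
  have hK020 : 0 ≤ K02 := by have := hKχ0 0; have := hKχ0 1; have := hKχ0 2; positivity
  obtain ⟨h₁, hh₁, hh₁', hsmall⟩ := exists_h1 hs (C * K02 * S)
  refine ⟨h₁, hh₁, hh₁', fun i => Kχ i * (2 * M), fun i => mul_nonneg (hKχ0 i) (by positivity),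
    fun h hh hle θ u hu => ?_⟩
  set f : E → ℂ := fun x => V x * u x with hf
  have hfi : Integrable f := integrable_Vu hV hu.1
  have hfR : ∀ x, R < ‖x‖ → f x = 0 := fun x hx => by rw [hf]; simp [hR x hx]
  have hmom := moments_of_bdd hfi hfR
  have hχf : ∀ x, χ x * f x = f x := by
    intro x
    by_cases hx : R < ‖x‖
    · rw [hfR x hx]; simp
    · rw [hχ x (not_lt.mp hx), one_mul]
  have hcd : ContDiff ℝ ∞ (𝓕 f) := contDiff_fourier_of_moments hmom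
  have hcdg : ContDiff ℝ ∞ (fun ξ => 𝓕 f (ξ + h⁻¹ • e)) :=
    hcd.comp (contDiff_id.add contDiff_const)
  refine ⟨hcdg, ?_⟩
  set B : ℝ := ⨆ ζ, ‖𝓕 f ζ‖ with hB
  have hbdd : BddAbove (range fun ζ => ‖𝓕 f ζ‖) := ⟨∫ x, ‖f x‖, by
    rintro _ ⟨ζ, rfl⟩; exact norm_fourier_le ζ⟩
  have hfB : ∀ ζ, ‖𝓕 f ζ‖ ≤ B := fun ζ => le_ciSup hbdd ζ
  have hB0 : 0 ≤ B := (norm_nonneg _).trans (hfB 0)
  have hder : ∀ (B' : ℝ), (∀ ζ, ‖𝓕 f ζ‖ ≤ B') → ∀ i ξ,
      ‖iteratedFDeriv ℝ i (fun ξ => 𝓕 f (ξ + h⁻¹ • e)) ξ‖ ≤ Kχ i * B' := by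
    intro B' hB' i ξ
    rw [iteratedFDeriv_comp_add_right]
    exact bernstein χ hfi hmom hχf hB' i _
  have hunit : UBdd (fun _ : Unit => fun ξ => 𝓕 f (ξ + h⁻¹ • e)) :=
    ⟨fun _ => hcdg, fun i => ⟨Kχ i * B, mul_nonneg (hKχ0 i) hB0, fun _ ξ => hder B hfB i ξ⟩⟩
  have hcond : 2 * s * h ≤ 1 := by
    have := hle.trans hh₁'
    rw [le_div_iff₀ (by linarith)] at this
    linarith
  have hborn := bornEq_of_totalField hh (e := e) hV hu
  have hstep : ∀ ζ, ‖𝓕 f ζ‖ ≤ M + B / 2 := by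
    intro ζ
    obtain ⟨ℓ, hℓ1, hℓ2⟩ := hborn (ζ - h⁻¹ • e)
    simp only [sub_add_cancel] at hℓ2
    rw [hℓ2]
    have h1 : ‖(𝓕 V : 𝓢(E, ℂ)) (ζ - h⁻¹ • e + h⁻¹ • (e - θ))‖ ≤ M := by
      have h4 : ((𝓕 V : 𝓢(E, ℂ)) : E → ℂ) = 𝓕 (V : E → ℂ) := SchwartzMap.fourier_coe V
      rw [h4]
      exact norm_fourier_le _
    have h2 : ‖ℓ‖ ≤ C * (K02 * B) * S := by
      refine le_of_tendsto hℓ1.norm ?_
      filter_upwards [self_mem_nhdsWithin] with ε hε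
      refine hC h ε hh hcond hε (𝓕 V) _ hunit (K02 * B) ?_ _
      intro i hi x
      refine (hder B hfB i x).trans ?_
      gcongr
      have := hKχ0 0; have := hKχ0 1; have := hKχ0 2
      interval_cases i <;> rw [hK02] <;> linarith
    have h3 := hsmall h hh hle
    refine (norm_add_le _ _).trans ?_
    rw [norm_mul, Complex.norm_real, Real.norm_of_nonneg (mfun_pos hh).le]
    have h5 : mfun s h * ‖ℓ‖ ≤ B / 2 := by
      calc mfun s h * ‖ℓ‖ ≤ mfun s h * (C * (K02 * B) * S) := by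
            have := (mfun_pos (s := s) hh).le
            gcongr
        _ = (mfun s h * (C * K02 * S)) * B := by ring
        _ ≤ 1 / 2 * B := by gcongr
        _ = B / 2 := by ring
    linarith
  have hB2 : B ≤ M + B / 2 := ciSup_le hstep
  have hB3 : B ≤ 2 * M := by linarith
  exact hder (2 * M) fun ζ => (hfB ζ).trans hB3

end

end FracScat
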