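import Pool.Agent.Lib_helper32.FSExE

/-! # Uniqueness of total fields at high frequency -/

open MeasureTheory Filter Complex Set Topology
open scoped Real SchwartzMap LineDeriv ContDiff NNReal FourierTransform RealInnerProductSpace

namespace FracScat

section

variable {E : Type} [NormedAddCommGroup E] [InnerProductSpace ℝ E] [FiniteDimensional ℝ E]
  [MeasurableSpace E] [BorelSpace E]

theorem fourier_unique {s : ℝ} (hs : 1 / 2 < s) {e : E} (he : ‖e‖ = 1) {V : 𝓢(E, ℂ)}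
    (hV : HasCompactSupport V) :
    ∃ h₁, 0 < h₁ ∧ h₁ ≤ 1 / (2 * s) ∧ ∀ h, 0 < h → h ≤ h₁ → ∀ (θ : E) (u u' : E → ℂ),
      IsTotalField s (2 * π / h) V θ u → IsTotalField s (2 * π / h) V θ u' →
      ∀ ζ, 𝓕 (fun x => V x * u x) ζ = 𝓕 (fun x => V x * u' x) ζ := by
  obtain ⟨R, hR⟩ := exists_radius hV
  obtain ⟨χ, hχ⟩ := exists_cutoff (E := E) R
  set Kχ : ℕ → ℝ := fun i => ∫ ξ, ‖iteratedFDeriv ℝ i (𝓕 χ : 𝓢(E, ℂ)) ξ‖ with hKχ
  have hKχ0 : ∀ i, 0 ≤ Kχ i := fun i => integral_nonneg fun _ => norm_nonneg _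
  obtain ⟨C, hC0, hC⟩ := conv_bound (E := E) hs he
  set S : ℝ := ∫ ξ, S2 (𝓕 V : 𝓢(E, ℂ)) ξ with hS
  set K02 : ℝ := Kχ 0 + Kχ 1 + Kχ 2 with hK02
  have hK020 : 0 ≤ K02 := by have := hKχ0 0; have := hKχ0 1; have := hKχ0 2; positivity
  obtain ⟨h₁, hh₁, hh₁', hsmall⟩ := exists_h1 hs (C * K02 * S)
  refine ⟨h₁, hh₁, hh₁', fun h hh hle θ u u' hu hu' => ?_⟩
  have i1 := integrable_Vu hV hu.1
  have i2 := integrable_Vu hV hu'.1
  set f : E → ℂ := fun x => V x * u x - V x * u' x with hf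
  have hfi : Integrable f := i1.sub i2
  have hfR : ∀ x, R < ‖x‖ → f x = 0 := fun x hx => by rw [hf]; simp [hR x hx]
  have hmom := moments_of_bdd hfi hfR
  have hχf : ∀ x, χ x * f x = f x := by
    intro x
    by_cases hx : R < ‖x‖
    · rw [hfR x hx]; simp
    · rw [hχ x (not_lt.mp hx), one_mul]
  have hFf : ∀ ζ, 𝓕 f ζ = 𝓕 (fun x => V x * u x) ζ - 𝓕 (fun x => V x * u' x) ζ := by
    intro ζ
    rw [Real.fourier_eq, Real.fourier_eq, Real.fourier_eq, ← integral_sub]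
    · refine integral_congr_ae (Eventually.of_forall fun x => ?_)
      simp only [hf, smul_sub]
    · exact (Real.fourierIntegral_convergent_iff ζ).mpr i1
    · exact (Real.fourierIntegral_convergent_iff ζ).mpr i2
  have hcd : ContDiff ℝ ∞ (𝓕 f) := contDiff_fourier_of_moments hmom
  have hcdg : ContDiff ℝ ∞ (fun ξ => 𝓕 f (ξ + h⁻¹ • e)) :=
    hcd.comp (contDiff_id.add contDiff_const)
  set B : ℝ := ⨆ ζ, ‖𝓕 f ζ‖ with hB
  have hbdd : BddAbove (range fun ζ => ‖𝓕 f ζ‖) := ⟨∫ x, ‖f x‖, by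
    rintro _ ⟨ζ, rfl⟩; exact norm_fourier_le ζ⟩
  have hfB : ∀ ζ, ‖𝓕 f ζ‖ ≤ B := fun ζ => le_ciSup hbdd ζ
  have hB0 : 0 ≤ B := (norm_nonneg _).trans (hfB 0)
  have hder : ∀ i ξ,
      ‖iteratedFDeriv ℝ i (fun ξ => 𝓕 f (ξ + h⁻¹ • e)) ξ‖ ≤ Kχ i * B := by
    intro i ξ
    rw [iteratedFDeriv_comp_add_right]
    exact bernstein χ hfi hmom hχf hfB i _
  have hunit : UBdd (fun _ : Unit => fun ξ => 𝓕 f (ξ + h⁻¹ • e)) :=
    ⟨fun _ => hcdg, fun i => ⟨Kχ i * B, mul_nonneg (hKχ0 i) hB0, fun _ ξ => hder i ξ⟩⟩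
  have hcond : 2 * s * h ≤ 1 := by
    have := hle.trans hh₁'
    rw [le_div_iff₀ (by linarith)] at this
    linarith
  have hborn := bornEq_of_totalField hh (e := e) hV hu
  have hborn' := bornEq_of_totalField hh (e := e) hV hu'
  have hVint : ∀ η, Integrable (fun ξ => (𝓕 V : 𝓢(E, ℂ)) (η - ξ)) := fun η =>
    (𝓕 V : 𝓢(E, ℂ)).integrable.comp_sub_left η
  have hFcont : ∀ w : E → ℂ, Integrable (fun x => V x * w x) →
      Continuous (𝓕 (fun x => V x * w x)) := fun w hw =>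
    (contDiff_fourier_of_moments (moments_of_bdd hw (R := R)
      (fun x hx => by simp [hR x hx]))).continuous
  have hstep : ∀ ζ, ‖𝓕 f ζ‖ ≤ B / 2 := by
    intro ζ
    obtain ⟨ℓ, hℓ1, hℓ2⟩ := hborn (ζ - h⁻¹ • e)
    obtain ⟨ℓ', hℓ1', hℓ2'⟩ := hborn' (ζ - h⁻¹ • e)
    simp only [sub_add_cancel] at hℓ2 hℓ2'
    have e1 : 𝓕 f ζ = (mfun s h : ℂ) * (ℓ - ℓ') := by rw [hFf, hℓ2, hℓ2']; ring
    have h2 : ‖ℓ - ℓ'‖ ≤ C * (K02 * B) * S := by
      refine le_of_tendsto (hℓ1.sub hℓ1').norm ?_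
      filter_upwards [self_mem_nhdsWithin] with ε hε
      have hε' : (0 : ℝ) < ε := hε
      have j : ∀ w : E → ℂ, Integrable (fun x => V x * w x) → Integrable (fun ξ =>
          ((𝓕 V : 𝓢(E, ℂ)) (ζ - h⁻¹ • e - ξ) * 𝓕 (fun x => V x * w x) (ξ + h⁻¹ • e)) *
            qker s e h 0 ε ξ) := by
        intro w hw
        apply integrable_mul_qker e hs hh hcond hε'
        have hc : Continuous (fun ξ : E => 𝓕 (fun x => V x * w x) (ξ + h⁻¹ • e)) :=
          (hFcont w hw).comp (continuous_id.add continuous_const)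
        exact (hVint _).mul_bdd (c := ∫ x, ‖V x * w x‖) hc.aestronglyMeasurable
          (Eventually.of_forall fun ξ => norm_fourier_le _)
      rw [← integral_sub (j u i1) (j u' i2)]
      have e2 : ∫ ξ, (((𝓕 V : 𝓢(E, ℂ)) (ζ - h⁻¹ • e - ξ) * 𝓕 (fun x => V x * u x) (ξ + h⁻¹ • e)) *
            qker s e h 0 ε ξ - ((𝓕 V : 𝓢(E, ℂ)) (ζ - h⁻¹ • e - ξ) *
              𝓕 (fun x => V x * u' x) (ξ + h⁻¹ • e)) * qker s e h 0 ε ξ)
          = ∫ ξ, ((𝓕 V : 𝓢(E, ℂ)) (ζ - h⁻¹ • e - ξ) * 𝓕 f (ξ + h⁻¹ • e)) * qker s e h 0 ε ξ := by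
        refine integral_congr_ae (Eventually.of_forall fun ξ => ?_)
        simp only
        rw [hFf]
        ring
      rw [e2]
      refine hC h ε hh hcond hε' (𝓕 V) _ hunit (K02 * B) ?_ _
      intro i hi x
      refine (hder i x).trans ?_
      gcongr
      have := hKχ0 0; have := hKχ0 1; have := hKχ0 2
      interval_cases i <;> rw [hK02] <;> linarith
    have h3 := hsmall h hh hle
    rw [e1, norm_mul, Complex.norm_real, Real.norm_of_nonneg (mfun_pos hh).le]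
    calc mfun s h * ‖ℓ - ℓ'‖ ≤ mfun s h * (C * (K02 * B) * S) := by
          have := (mfun_pos (s := s) hh).le
          gcongr
      _ = (mfun s h * (C * K02 * S)) * B := by ring
      _ ≤ 1 / 2 * B := by gcongr
      _ = B / 2 := by ring
  have hB2 : B ≤ B / 2 := ciSup_le hstep
  intro ζ
  have h4 := hfB ζ
  have h5 : ‖𝓕 f ζ‖ = 0 := le_antisymm (by linarith) (norm_nonneg _)
  rw [norm_eq_zero, hFf] at h5
  exact sub_eq_zero.mp h5

theorem totalField_unique {s : ℝ} (hs : 1 / 2 < s) {e : E} (he : ‖e‖ = 1) {V : 𝓢(E, ℂ)}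
    (hV : HasCompactSupport V) :
    ∃ h₁, 0 < h₁ ∧ ∀ h, 0 < h → h ≤ h₁ → ∀ (θ : E) (u u' : E → ℂ),
      IsTotalField s (2 * π / h) V θ u → IsTotalField s (2 * π / h) V θ u' →
      u =ᵐ[volume] u' := by
  obtain ⟨h₁, hh₁, _, H⟩ := fourier_unique hs he hV
  refine ⟨h₁, hh₁, fun h hh hle θ u u' hu hu' => ?_⟩
  have hF := H h hh hle θ u u' hu hu'
  refine ae_eq_of_integral_contDiff_smul_eq hu.1 hu'.1 fun g hg hgc => ?_
  set φ : E → ℂ := fun x => ((g x : ℝ) : ℂ) with hφ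
  have hφs : ContDiff ℝ ∞ φ := Complex.ofRealCLM.contDiff.comp hg
  have hφc : HasCompactSupport φ := hgc.comp_left (g := fun y : ℝ => (y : ℂ)) (by simp)
  have h1 := hu.2.2 φ hφs hφc
  have h2 := hu'.2.2 φ hφs hφc
  have h3 : ∀ ε, resolventPairing s (2 * π / h) ε (fun x => V x * u x) φ
      = resolventPairing s (2 * π / h) ε (fun x => V x * u' x) φ := by
    intro ε
    unfold resolventPairing
    simp_rw [hF]
  simp_rw [h3] at h1
  have h4 := tendsto_nhds_unique h1 h2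
  have hec : Continuous (fun x : E => cexp (I * ((2 * π / h * ⟪θ, x⟫ : ℝ) : ℂ))) := by
    fun_prop
  have i0 : Integrable (fun x => cexp (I * ((2 * π / h * ⟪θ, x⟫ : ℝ) : ℂ)) * φ x) :=
    (hec.mul hφs.continuous).integrable_of_hasCompactSupport (HasCompactSupport.mul_left hφc)
  have i1 : Integrable (fun x => u x * φ x) := by
    refine (hu.1.integrable_smul_left_of_hasCompactSupport hφs.continuous hφc).congr
      (Eventually.of_forall fun x => ?_)
    simp only [smul_eq_mul]; ring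
  have i2 : Integrable (fun x => u' x * φ x) := by
    refine (hu'.1.integrable_smul_left_of_hasCompactSupport hφs.continuous hφc).congr
      (Eventually.of_forall fun x => ?_)
    simp only [smul_eq_mul]; ring
  simp_rw [sub_mul] at h4
  rw [integral_sub i1 i0, integral_sub i2 i0, sub_left_inj] at h4
  have e1 : ∀ w : E → ℂ, ∫ x, g x • w x = ∫ x, w x * φ x := by
    intro w
    refine integral_congr_ae (Eventually.of_forall fun x => ?_)
    simp only [hφ, real_smul]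
    ring
  rw [e1, e1]
  exact h4

end

end FracScat
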