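import Mathlib

/-!
An isotropic vector in general position: for finitely many nonzero real vectors `d` there are
complex isotropic vectors `v`, `u` with `v · u = 1 / 2` and `d · v ≠ 0` for all `d`.
-/

set_option autoImplicit false

namespace Inv38

open Polynomial in
/-- two orthonormal real vectors, the first of them not orthogonal to finitely many given nonzero
vectors -/
theorem exists_pair_iso {n : ℕ} (hn : 2 ≤ n) (S : Finset (Fin n → ℝ)) (hS : ∀ d ∈ S, d ≠ 0) :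
    ∃ a b : Fin n → ℝ, (∑ i, a i * a i = 1) ∧ (∑ i, b i * b i = 1) ∧ (∑ i, a i * b i = 0) ∧
      ∀ d ∈ S, (∑ i, d i * a i) ≠ 0 := by
  obtain ⟨m, rfl⟩ : ∃ m, n = m + 2 := ⟨n - 2, by omega⟩
  -- the polynomials
  set P : (Fin (m + 2) → ℝ) → ℝ[X] := fun d => ∑ i : Fin (m + 2), C (d i) * X ^ (i : ℕ) with hP
  have hcoeff : ∀ (d : Fin (m + 2) → ℝ) (i : Fin (m + 2)), (P d).coeff (i : ℕ) = d i := by
    intro d i
    simp only [hP, finsetSum_coeff, coeff_C_mul, coeff_X_pow]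
    rw [Finset.sum_eq_single i]
    · simp
    · intro j _ hj
      have : (i : ℕ) ≠ (j : ℕ) := fun h => hj (Fin.ext h.symm)
      simp [this]
    · intro h
      exact absurd (Finset.mem_univ i) h
  have hP0 : ∀ d ∈ S, P d ≠ 0 := by
    intro d hd h0
    apply hS d hd
    funext i
    rw [← hcoeff d i, h0, coeff_zero, Pi.zero_apply]
  -- the number
  obtain ⟨x, hx⟩ : ∃ x : ℝ, x ∉ S.biUnion fun d => (P d).roots.toFinset :=
    Infinite.exists_notMem_finset _
  have hroot : ∀ d ∈ S, (∑ i : Fin (m + 2), d i * x ^ (i : ℕ)) ≠ 0 := by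
    intro d hd h0
    apply hx
    rw [Finset.mem_biUnion]
    refine ⟨d, hd, ?_⟩
    rw [Multiset.mem_toFinset, mem_roots (hP0 d hd), IsRoot.def]
    simp only [hP, eval_finsetSum, eval_mul, eval_C, eval_pow, eval_X]
    exact h0
  -- the vectors
  set A : Fin (m + 2) → ℝ := fun i => x ^ (i : ℕ) with hA
  set B : Fin (m + 2) → ℝ := Fin.cons (-x) (Fin.cons 1 fun _ => 0) with hB
  have hNA : 0 < ∑ i, A i * A i := by
    have h1 : A 0 * A 0 ≤ ∑ i, A i * A i :=
      Finset.single_le_sum (f := fun i => A i * A i) (fun i _ => mul_self_nonneg _)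
        (Finset.mem_univ 0)
    have h2 : A 0 * A 0 = 1 := by simp [hA]
    linarith
  have hNB : ∑ i, B i * B i = 1 + x ^ 2 := by
    rw [Fin.sum_univ_succ, Fin.sum_univ_succ]
    simp only [hB, Fin.cons_zero, Fin.cons_succ, mul_zero, Finset.sum_const_zero]
    ring
  have hAB : ∑ i, A i * B i = 0 := by
    rw [Fin.sum_univ_succ, Fin.sum_univ_succ]
    simp only [hB, hA, Fin.cons_zero, Fin.cons_succ, mul_zero, Finset.sum_const_zero]
    simp
  set α : ℝ := (Real.sqrt (∑ i, A i * A i))⁻¹ with hα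
  set β : ℝ := (Real.sqrt (1 + x ^ 2))⁻¹ with hβ
  have hα2 : α * α * (∑ i, A i * A i) = 1 := by
    have h1 := Real.mul_self_sqrt hNA.le
    have h2 : Real.sqrt (∑ i, A i * A i) ≠ 0 := (Real.sqrt_pos.2 hNA).ne'
    calc α * α * (∑ i, A i * A i)
        = α * α * (Real.sqrt (∑ i, A i * A i) * Real.sqrt (∑ i, A i * A i)) := by rw [h1]
      _ = 1 := by rw [mul_mul_mul_comm, hα, inv_mul_cancel₀ h2, one_mul]
  have hβ2 : β * β * (1 + x ^ 2) = 1 := by
    have h0 : (0 : ℝ) < 1 + x ^ 2 := by positivity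
    have h1 := Real.mul_self_sqrt h0.le
    have h2 : Real.sqrt (1 + x ^ 2) ≠ 0 := (Real.sqrt_pos.2 h0).ne'
    calc β * β * (1 + x ^ 2)
        = β * β * (Real.sqrt (1 + x ^ 2) * Real.sqrt (1 + x ^ 2)) := by rw [h1]
      _ = 1 := by rw [mul_mul_mul_comm, hβ, inv_mul_cancel₀ h2, one_mul]
  have hα0 : α ≠ 0 := by
    intro h
    rw [h] at hα2
    simp at hα2
  refine ⟨fun i => α * A i, fun i => β * B i, ?_, ?_, ?_, ?_⟩
  · calc ∑ i, α * A i * (α * A i) = α * α * ∑ i, A i * A i := by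
          rw [Finset.mul_sum]
          exact Finset.sum_congr rfl fun i _ => by ring
      _ = 1 := hα2
  · calc ∑ i, β * B i * (β * B i) = β * β * ∑ i, B i * B i := by
          rw [Finset.mul_sum]
          exact Finset.sum_congr rfl fun i _ => by ring
      _ = 1 := by rw [hNB, hβ2]
  · calc ∑ i, α * A i * (β * B i) = α * β * ∑ i, A i * B i := by
          rw [Finset.mul_sum]
          exact Finset.sum_congr rfl fun i _ => by ring
      _ = 0 := by rw [hAB, mul_zero]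
  · intro d hd h0
    apply hroot d hd
    have h1 : ∑ i, d i * (α * A i) = α * ∑ i, d i * A i := by
      rw [Finset.mul_sum]
      exact Finset.sum_congr rfl fun i _ => by ring
    rw [h1] at h0
    exact (mul_eq_zero.1 h0).resolve_left hα0

/-- an isotropic vector in general position -/
theorem exists_iso {n : ℕ} (hn : 2 ≤ n) (S : Finset (Fin n → ℝ)) (hS : ∀ d ∈ S, d ≠ 0) :
    ∃ v u : Fin n → ℂ, (∑ i, v i * v i = 0) ∧ (∑ i, u i * u i = 0) ∧
      (∑ i, v i * u i = 1 / 2) ∧ ∀ d ∈ S, (∑ i, (d i : ℂ) * v i) ≠ 0 := by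
  obtain ⟨a, b, ha, hb, hab, hd⟩ := exists_pair_iso hn S hS
  have hac : ∑ i, (a i : ℂ) * (a i : ℂ) = 1 := by exact_mod_cast ha
  have hbc : ∑ i, (b i : ℂ) * (b i : ℂ) = 1 := by exact_mod_cast hb
  have habc : ∑ i, (a i : ℂ) * (b i : ℂ) = 0 := by exact_mod_cast hab
  refine ⟨fun i => ((a i : ℂ) + Complex.I * (b i : ℂ)) / 2,
    fun i => ((a i : ℂ) - Complex.I * (b i : ℂ)) / 2, ?_, ?_, ?_, ?_⟩
  · have h1 : ∀ i, ((a i : ℂ) + Complex.I * (b i : ℂ)) / 2 * (((a i : ℂ) + Complex.I * (b i : ℂ)) / 2)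
        = 1 / 4 * ((a i : ℂ) * (a i : ℂ)) - 1 / 4 * ((b i : ℂ) * (b i : ℂ))
          + Complex.I / 2 * ((a i : ℂ) * (b i : ℂ)) := by
      intro i
      have hI : Complex.I * Complex.I = -1 := Complex.I_mul_I
      linear_combination (1 / 4 * (b i : ℂ) * (b i : ℂ)) * hI
    calc ∑ i, ((a i : ℂ) + Complex.I * (b i : ℂ)) / 2 * (((a i : ℂ) + Complex.I * (b i : ℂ)) / 2)
        = ∑ i, (1 / 4 * ((a i : ℂ) * (a i : ℂ)) - 1 / 4 * ((b i : ℂ) * (b i : ℂ))
          + Complex.I / 2 * ((a i : ℂ) * (b i : ℂ))) := Finset.sum_congr rfl fun i _ => h1 i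
      _ = 0 := by
        rw [Finset.sum_add_distrib, Finset.sum_sub_distrib, ← Finset.mul_sum, ← Finset.mul_sum,
          ← Finset.mul_sum, hac, hbc, habc]
        ring
  · have h1 : ∀ i, ((a i : ℂ) - Complex.I * (b i : ℂ)) / 2 * (((a i : ℂ) - Complex.I * (b i : ℂ)) / 2)
        = 1 / 4 * ((a i : ℂ) * (a i : ℂ)) - 1 / 4 * ((b i : ℂ) * (b i : ℂ))
          - Complex.I / 2 * ((a i : ℂ) * (b i : ℂ)) := by
      intro i
      have hI : Complex.I * Complex.I = -1 := Complex.I_mul_I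
      linear_combination (1 / 4 * (b i : ℂ) * (b i : ℂ)) * hI
    calc ∑ i, ((a i : ℂ) - Complex.I * (b i : ℂ)) / 2 * (((a i : ℂ) - Complex.I * (b i : ℂ)) / 2)
        = ∑ i, (1 / 4 * ((a i : ℂ) * (a i : ℂ)) - 1 / 4 * ((b i : ℂ) * (b i : ℂ))
          - Complex.I / 2 * ((a i : ℂ) * (b i : ℂ))) := Finset.sum_congr rfl fun i _ => h1 i
      _ = 0 := by
        rw [Finset.sum_sub_distrib, Finset.sum_sub_distrib, ← Finset.mul_sum, ← Finset.mul_sum,
          ← Finset.mul_sum, hac, hbc, habc]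
        ring
  · have h1 : ∀ i, ((a i : ℂ) + Complex.I * (b i : ℂ)) / 2 * (((a i : ℂ) - Complex.I * (b i : ℂ)) / 2)
        = 1 / 4 * ((a i : ℂ) * (a i : ℂ)) + 1 / 4 * ((b i : ℂ) * (b i : ℂ)) := by
      intro i
      have hI : Complex.I * Complex.I = -1 := Complex.I_mul_I
      linear_combination (-(1 / 4) * (b i : ℂ) * (b i : ℂ)) * hI
    calc ∑ i, ((a i : ℂ) + Complex.I * (b i : ℂ)) / 2 * (((a i : ℂ) - Complex.I * (b i : ℂ)) / 2)
        = ∑ i, (1 / 4 * ((a i : ℂ) * (a i : ℂ)) + 1 / 4 * ((b i : ℂ) * (b i : ℂ))) :=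
          Finset.sum_congr rfl fun i _ => h1 i
      _ = 1 / 2 := by
        rw [Finset.sum_add_distrib, ← Finset.mul_sum, ← Finset.mul_sum, hac, hbc]
        norm_num
  · intro d hdS h0
    apply hd d hdS
    have h1 : (∑ i, (d i : ℂ) * (((a i : ℂ) + Complex.I * (b i : ℂ)) / 2))
        = (((∑ i, d i * a i) / 2 : ℝ) : ℂ) + (((∑ i, d i * b i) / 2 : ℝ) : ℂ) * Complex.I := by
      push_cast
      rw [Finset.sum_div, Finset.sum_div, Finset.sum_mul, ← Finset.sum_add_distrib]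
      exact Finset.sum_congr rfl fun i _ => by ring
    rw [h1] at h0
    have h2 := congrArg Complex.re h0
    simp only [Complex.add_re, Complex.ofReal_re, Complex.mul_re, Complex.I_re, mul_zero,
      Complex.ofReal_im, Complex.I_im, zero_mul, sub_zero, add_zero, Complex.zero_re] at h2
    linarith

end Inv38
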