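import Pool.Agent.Lib_helper86.Inv.GermAlg

/-!
PART P8: the measure theory.

* `null_poly`: a nonzero real polynomial vanishes on a null set of `ℝⁿ × ℝⁿ` (homotheties with
  centre a point where the polynomial does not vanish, and Fubini);
* `exists_ultra`: a set which is not null lies in an ultrafilter containing all conull sets;
* `ind_germ`: the coordinate germs along such an ultrafilter are algebraically independent.
-/

set_option autoImplicit false

/-! PART P8 -/

namespace Inv38

open MeasureTheory Filter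

/-- the coordinates of a point of `ℝⁿ × ℝⁿ` -/
noncomputable def coordFun {n : ℕ} (p : EuclideanSpace ℝ (Fin n) × EuclideanSpace ℝ (Fin n)) :
    Fin n ⊕ Fin n → ℝ :=
  Sum.elim (fun i => p.1 i) (fun i => p.2 i)

theorem continuous_coordFun {n : ℕ} (i : Fin n ⊕ Fin n) :
    Continuous fun p : EuclideanSpace ℝ (Fin n) × EuclideanSpace ℝ (Fin n) => coordFun p i := by
  rcases i with i | i
  · change Continuous fun p : EuclideanSpace ℝ (Fin n) × EuclideanSpace ℝ (Fin n) => p.1 i
    fun_prop
  · change Continuous fun p : EuclideanSpace ℝ (Fin n) × EuclideanSpace ℝ (Fin n) => p.2 i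
    fun_prop

theorem coordFun_add_smul_sub {n : ℕ}
    (y x : EuclideanSpace ℝ (Fin n) × EuclideanSpace ℝ (Fin n)) (t : ℝ) (i : Fin n ⊕ Fin n) :
    coordFun (y + t • (x - y)) i = coordFun y i + t * (coordFun x i - coordFun y i) := by
  rcases i with i | i <;> simp [coordFun]

theorem continuous_eval_coordFun {n : ℕ} (Q : MvPolynomial (Fin n ⊕ Fin n) ℝ) :
    Continuous fun p : EuclideanSpace ℝ (Fin n) × EuclideanSpace ℝ (Fin n) =>
      MvPolynomial.eval (coordFun p) Q :=
  (MvPolynomial.continuous_eval Q).comp (continuous_pi continuous_coordFun)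

/-- P8.1: a nonzero real polynomial in 2n variables vanishes on a null set of `ℝⁿ × ℝⁿ` -/
theorem null_poly {n : ℕ} (Q : MvPolynomial (Fin n ⊕ Fin n) ℝ) (hQ : Q ≠ 0) :
    (volume : Measure (EuclideanSpace ℝ (Fin n) × EuclideanSpace ℝ (Fin n)))
      {p | MvPolynomial.eval (Sum.elim (fun i => p.1 i) (fun i => p.2 i)) Q = 0} = 0 := by
  set W := EuclideanSpace ℝ (Fin n) × EuclideanSpace ℝ (Fin n) with hW
  set Z : Set W := {p | MvPolynomial.eval (coordFun p) Q = 0} with hZ
  change (volume : Measure W) Z = 0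
  have hHaar : (volume : Measure W).IsAddHaarMeasure := by
    change ((volume : Measure (EuclideanSpace ℝ (Fin n))).prod
      (volume : Measure (EuclideanSpace ℝ (Fin n)))).IsAddHaarMeasure
    infer_instance
  -- a point where `Q` does not vanish
  obtain ⟨z, hz⟩ : ∃ z : Fin n ⊕ Fin n → ℝ, MvPolynomial.eval z Q ≠ 0 := by
    by_contra hcon
    push Not at hcon
    exact hQ (MvPolynomial.funext fun z => by rw [hcon z, map_zero])
  obtain ⟨y, hy⟩ : ∃ y : W, coordFun y = z := by
    refine ⟨(WithLp.toLp 2 fun i => z (Sum.inl i), WithLp.toLp 2 fun i => z (Sum.inr i)), ?_⟩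
    funext i
    rcases i with i | i <;> simp [coordFun]
  -- on every line through `y` there are finitely many zeros
  have hfin : ∀ x : W, {t : ℝ | y + t • (x - y) ∈ Z}.Finite := by
    intro x
    set P : Polynomial ℝ := MvPolynomial.aeval
      (fun i => Polynomial.C (coordFun y i) +
        Polynomial.X * Polynomial.C (coordFun x i - coordFun y i)) Q with hP
    have heval : ∀ t : ℝ, P.eval t = MvPolynomial.eval (coordFun (y + t • (x - y))) Q := by
      intro t
      have h1 : P.eval t = Polynomial.evalRingHom t P := rfl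
      rw [h1, hP, MvPolynomial.aeval_def, MvPolynomial.hom_eval₂]
      have h2 : (Polynomial.evalRingHom t).comp (algebraMap ℝ (Polynomial ℝ)) = RingHom.id ℝ := by
        ext a
        simp
      rw [h2]
      change MvPolynomial.eval₂ (RingHom.id ℝ) _ Q = MvPolynomial.eval₂ (RingHom.id ℝ) _ Q
      congr 1
      funext i
      rw [coordFun_add_smul_sub]
      simp
    have hP0 : P ≠ 0 := by
      intro h0
      have h1 := heval 0
      rw [h0, Polynomial.eval_zero, zero_smul, add_zero, hy] at h1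
      exact hz h1.symm
    refine (P.rootSet_finite ℝ).subset ?_
    intro t ht
    rw [Polynomial.mem_rootSet]
    refine ⟨hP0, ?_⟩
    have h1 : MvPolynomial.eval (coordFun (y + t • (x - y))) Q = 0 := ht
    simpa [Polynomial.aeval_def, Polynomial.eval₂_eq_eval_map] using (heval t).trans h1
  -- Fubini
  have hclosed : IsClosed Z := isClosed_eq (continuous_eval_coordFun Q) continuous_const
  have hmeas : MeasurableSet {q : W × ℝ | ¬ (y + q.2 • (q.1 - y) ∈ Z)} := by
    have h1 : Continuous fun q : W × ℝ => y + q.2 • (q.1 - y) := by fun_prop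
    exact (hclosed.preimage h1).measurableSet.compl
  have hae : ∀ᵐ x ∂(volume : Measure W), ∀ᵐ t ∂(volume : Measure ℝ), ¬ (y + t • (x - y) ∈ Z) := by
    refine Eventually.of_forall fun x => ?_
    have h1 : (volume : Measure ℝ) {t : ℝ | y + t • (x - y) ∈ Z} = 0 := (hfin x).measure_zero _
    exact measure_eq_zero_iff_ae_notMem.1 h1
  have hae2 : ∀ᵐ t ∂(volume : Measure ℝ), ∀ᵐ x ∂(volume : Measure W),
      ¬ (y + t • (x - y) ∈ Z) :=
    (Measure.ae_ae_comm (p := fun (x : W) (t : ℝ) => ¬ (y + t • (x - y) ∈ Z)) hmeas).1 hae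
  have hne : ∀ᵐ t ∂(volume : Measure ℝ), t ≠ 0 := by
    have h1 : (volume : Measure ℝ) {(0 : ℝ)} = 0 := measure_singleton _
    exact measure_eq_zero_iff_ae_notMem.1 h1
  obtain ⟨t, ht, ht0⟩ := (hae2.and hne).exists
  have h3 : (volume : Measure W) {x | y + t • (x - y) ∈ Z} = 0 :=
    measure_eq_zero_iff_ae_notMem.2 ht
  -- the homothety
  have h4 : {x : W | y + t • (x - y) ∈ Z} =
      (fun x => -y + x) ⁻¹' ((fun x => t • x) ⁻¹' ((fun x => y + x) ⁻¹' Z)) := by
    ext x
    change y + t • (x - y) ∈ Z ↔ y + t • (-y + x) ∈ Z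
    rw [neg_add_eq_sub]
  rw [h4, measure_preimage_add, Measure.addHaar_preimage_smul _ ht0,
    measure_preimage_add] at h3
  rcases mul_eq_zero.1 h3 with h5 | h5
  · exfalso
    rw [ENNReal.ofReal_eq_zero] at h5
    have : 0 < |(t ^ Module.finrank ℝ W)⁻¹| := abs_pos.2 (inv_ne_zero (pow_ne_zero _ ht0))
    linarith
  · exact h5

/-- P8.2: a set which is not null (outer measure, no measurability) lies in an ultrafilter which
contains the complement of every null set -/
theorem exists_ultra {α : Type*} [MeasurableSpace α] (μ : Measure α) (X : Set α) (hX : μ X ≠ 0) :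
    ∃ U : Ultrafilter α, X ∈ U ∧ ∀ N : Set α, μ N = 0 → Nᶜ ∈ U := by
  have hne : (ae μ ⊓ 𝓟 X).NeBot :=
    frequently_mem_iff_neBot.1 (frequently_ae_mem_iff.2 hX)
  refine ⟨Ultrafilter.of (ae μ ⊓ 𝓟 X), ?_, fun N hN => ?_⟩
  · exact Ultrafilter.of_le _ (mem_inf_of_right (mem_principal_self X))
  · exact Ultrafilter.of_le _ (mem_inf_of_left (compl_mem_ae_iff.2 hN))

/-- the 2n coordinate germs -/
def coordGerm {n : ℕ} (U : Ultrafilter (EuclideanSpace ℝ (Fin n) × EuclideanSpace ℝ (Fin n))) :
    Fin n ⊕ Fin n → Germ (U : Filter (EuclideanSpace ℝ (Fin n) × EuclideanSpace ℝ (Fin n))) ℝ :=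
  Sum.elim
    (fun i => ((fun p => p.1 i : EuclideanSpace ℝ (Fin n) × EuclideanSpace ℝ (Fin n) → ℝ) :
        Germ (U : Filter (EuclideanSpace ℝ (Fin n) × EuclideanSpace ℝ (Fin n))) ℝ))
    (fun i => ((fun p => p.2 i : EuclideanSpace ℝ (Fin n) × EuclideanSpace ℝ (Fin n) → ℝ) :
        Germ (U : Filter (EuclideanSpace ℝ (Fin n) × EuclideanSpace ℝ (Fin n))) ℝ))

theorem coordGerm_apply {n : ℕ}
    (U : Ultrafilter (EuclideanSpace ℝ (Fin n) × EuclideanSpace ℝ (Fin n))) (i : Fin n ⊕ Fin n) :
    coordGerm U i = ((fun p => coordFun p i :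
      EuclideanSpace ℝ (Fin n) × EuclideanSpace ℝ (Fin n) → ℝ) :
        Germ (U : Filter (EuclideanSpace ℝ (Fin n) × EuclideanSpace ℝ (Fin n))) ℝ) := by
  rcases i with i | i <;> rfl

/-- the value of a polynomial at the coordinate germs -/
theorem aeval_coordGerm {n : ℕ}
    (U : Ultrafilter (EuclideanSpace ℝ (Fin n) × EuclideanSpace ℝ (Fin n)))
    (Q : MvPolynomial (Fin n ⊕ Fin n) ℝ) :
    MvPolynomial.aeval (coordGerm U) Q = ((fun p => MvPolynomial.eval (coordFun p) Q :
      EuclideanSpace ℝ (Fin n) × EuclideanSpace ℝ (Fin n) → ℝ) :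
        Germ (U : Filter (EuclideanSpace ℝ (Fin n) × EuclideanSpace ℝ (Fin n))) ℝ) := by
  induction Q using MvPolynomial.induction_on with
  | C a =>
    rw [MvPolynomial.aeval_C, algebraMap_germ]
    congr 1
    funext p
    rw [MvPolynomial.eval_C]
  | add P Q hP hQ =>
    rw [map_add, hP, hQ, ← Germ.coe_add]
    congr 1
    funext p
    rw [Pi.add_apply, map_add]
  | mul_X P i hP =>
    rw [map_mul, hP, MvPolynomial.aeval_X, coordGerm_apply, ← Germ.coe_mul]
    congr 1
    funext p
    rw [Pi.mul_apply, map_mul, MvPolynomial.eval_X]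

/-- P8.3: the coordinates of point and direction are algebraically independent -/
theorem ind_germ {n : ℕ} (U : Ultrafilter (EuclideanSpace ℝ (Fin n) × EuclideanSpace ℝ (Fin n)))
    (hU : ∀ N : Set (EuclideanSpace ℝ (Fin n) × EuclideanSpace ℝ (Fin n)),
      volume N = 0 → Nᶜ ∈ U) :
    AlgebraicIndependent ℝ (coordGerm U) := by
  rw [algebraicIndependent_iff]
  intro Q hQ
  by_contra hne
  rw [aeval_coordGerm] at hQ
  have h1 : (fun p => MvPolynomial.eval (coordFun p) Q :
      EuclideanSpace ℝ (Fin n) × EuclideanSpace ℝ (Fin n) → ℝ) =ᶠ[(U : Filter _)] 0 :=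
    Germ.coe_eq.1 hQ
  have h2 := hU _ (null_poly Q hne)
  have h3 : ∀ᶠ p in (U : Filter (EuclideanSpace ℝ (Fin n) × EuclideanSpace ℝ (Fin n))), False := by
    filter_upwards [h1, h2] with p hp1 hp2
    exact hp2 hp1
  exact (Filter.eventually_false_iff_eq_bot.1 h3 ▸ U.neBot').ne rfl

end Inv38
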