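import Mathlib

/-!
PART P7a: if a set `S` is covered, near one of its points `a`, by finitely many spheres and
hyperplanes, and if the tangent cone of `S` at `a` is a hyperplane, then the unit normal of that
hyperplane is plus or minus the unit normal of one of the mirrors through `a`.

Proof: every tangent vector of `S` at `a` is tangent to one of the mirrors through `a` (pigeonhole
along the sequence which defines it, and mirrors are closed), and a real vector space is not a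
finite union of proper subspaces.
-/

set_option autoImplicit false

namespace Inv38

open Set Filter
open scoped RealInnerProductSpace Topology

variable {n : ℕ}

/-- a mirror: a sphere (inl (c, r)) or a hyperplane (inr (ν, h)) -/
abbrev Mir (n : ℕ) : Type := (EuclideanSpace ℝ (Fin n) × ℝ) ⊕ (EuclideanSpace ℝ (Fin n) × ℝ)

/-- the points of the mirror: `‖y - c‖ = r`, resp. `⟪ν, y⟫ = h` -/
def Mir.carrier : Mir n → Set (EuclideanSpace ℝ (Fin n))
  | Sum.inl q => {y | ‖y - q.1‖ = q.2}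
  | Sum.inr q => {y | ⟪q.1, y⟫ = q.2}

/-- nondegenerate: `0 < r`, resp. `‖ν‖ = 1` -/
def Mir.Nondeg : Mir n → Prop
  | Sum.inl q => 0 < q.2
  | Sum.inr q => ‖q.1‖ = 1

/-- `m` is a unit normal of `S` at `a`: the tangent cone of `S` at `a` is the hyperplane
orthogonal to `m` -/
def IsNormal (S : Set (EuclideanSpace ℝ (Fin n))) (a m : EuclideanSpace ℝ (Fin n)) : Prop :=
  ‖m‖ = 1 ∧ a ∈ S ∧ tangentConeAt ℝ S a = {τ | ⟪m, τ⟫ = 0}

/-- `m` is plus or minus the unit normal of the mirror at its point `a` -/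
def Mir.NormalAt : Mir n → EuclideanSpace ℝ (Fin n) → EuclideanSpace ℝ (Fin n) → Prop
  | Sum.inl q, a, m => m = (q.2)⁻¹ • (a - q.1) ∨ m = -((q.2)⁻¹ • (a - q.1))
  | Sum.inr q, _, m => m = q.1 ∨ m = -q.1

/-- the unit normal of the mirror at its point `a` -/
noncomputable def Mir.nu : Mir n → EuclideanSpace ℝ (Fin n) → EuclideanSpace ℝ (Fin n)
  | Sum.inl q, a => (q.2)⁻¹ • (a - q.1)
  | Sum.inr q, _ => q.1

theorem Mir.normalAt_iff (M : Mir n) (a m : EuclideanSpace ℝ (Fin n)) :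
    M.NormalAt a m ↔ m = M.nu a ∨ m = -M.nu a := by
  rcases M with q | q <;> rfl

theorem Mir.isClosed_carrier (M : Mir n) : IsClosed M.carrier := by
  rcases M with q | q
  · exact isClosed_eq (by fun_prop) continuous_const
  · exact isClosed_eq (by fun_prop) continuous_const

theorem Mir.norm_nu {M : Mir n} (hM : M.Nondeg) {a : EuclideanSpace ℝ (Fin n)}
    (ha : a ∈ M.carrier) : ‖M.nu a‖ = 1 := by
  rcases M with q | q
  · have hq : 0 < q.2 := hM
    have h1 : ‖a - q.1‖ = q.2 := ha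
    change ‖(q.2)⁻¹ • (a - q.1)‖ = 1
    rw [norm_smul, norm_inv, Real.norm_of_nonneg hq.le, h1, inv_mul_cancel₀ hq.ne']
  · exact hM

/-- vectors tangent to a mirror are orthogonal to its normal -/
theorem Mir.inner_nu_eq_zero {M : Mir n} {a : EuclideanSpace ℝ (Fin n)}
    (ha : a ∈ M.carrier) {c : ℕ → ℝ} {d : ℕ → EuclideanSpace ℝ (Fin n)}
    {τ : EuclideanSpace ℝ (Fin n)} (hd : Tendsto d atTop (𝓝 0))
    (hS : ∃ᶠ k in atTop, a + d k ∈ M.carrier)
    (hτ : Tendsto (fun k => c k • d k) atTop (𝓝 τ)) : ⟪M.nu a, τ⟫ = 0 := by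
  rcases M with q | q
  · have h1 : ‖a - q.1‖ = q.2 := ha
    -- the function `2 ⟪a - c, c_k d_k⟫ + ⟪d_k, c_k d_k⟫` tends to `2 ⟪a - c, τ⟫`
    have hlim : Tendsto (fun k => 2 * ⟪a - q.1, c k • d k⟫ + ⟪d k, c k • d k⟫) atTop
        (𝓝 (2 * ⟪a - q.1, τ⟫ + ⟪(0 : EuclideanSpace ℝ (Fin n)), τ⟫)) :=
      ((tendsto_const_nhds.inner hτ).const_mul 2).add (hd.inner hτ)
    have hfr : ∃ᶠ k in atTop, (2 * ⟪a - q.1, c k • d k⟫ + ⟪d k, c k • d k⟫) ∈ ({0} : Set ℝ) := by
      refine hS.mono fun k hk => ?_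
      have h2 : ‖a + d k - q.1‖ = q.2 := hk
      have h3 : a + d k - q.1 = (a - q.1) + d k := by abel
      have h4 : ‖(a - q.1) + d k‖ ^ 2 = ‖a - q.1‖ ^ 2 := by rw [← h3, h2, h1]
      rw [norm_add_sq_real] at h4
      have h5 : 2 * ⟪a - q.1, d k⟫ + ⟪d k, d k⟫ = 0 := by
        rw [real_inner_self_eq_norm_sq]; linarith
      rw [mem_singleton_iff, real_inner_smul_right, real_inner_smul_right]
      calc 2 * (c k * ⟪a - q.1, d k⟫) + c k * ⟪d k, d k⟫
          = c k * (2 * ⟪a - q.1, d k⟫ + ⟪d k, d k⟫) := by ring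
        _ = 0 := by rw [h5, mul_zero]
    have h0 : (2 * ⟪a - q.1, τ⟫ + ⟪(0 : EuclideanSpace ℝ (Fin n)), τ⟫) ∈ ({0} : Set ℝ) :=
      isClosed_singleton.mem_of_frequently_of_tendsto hfr hlim
    rw [mem_singleton_iff, inner_zero_left, add_zero] at h0
    change ⟪(q.2)⁻¹ • (a - q.1), τ⟫ = 0
    rw [real_inner_smul_left]
    have : ⟪a - q.1, τ⟫ = 0 := by linarith
    rw [this, mul_zero]
  · have h1 : ⟪q.1, a⟫ = q.2 := ha
    have hlim : Tendsto (fun k => ⟪q.1, c k • d k⟫) atTop (𝓝 ⟪q.1, τ⟫) :=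
      tendsto_const_nhds.inner hτ
    have hfr : ∃ᶠ k in atTop, ⟪q.1, c k • d k⟫ ∈ ({0} : Set ℝ) := by
      refine hS.mono fun k hk => ?_
      have h2 : ⟪q.1, a + d k⟫ = q.2 := hk
      rw [inner_add_right, h1] at h2
      rw [mem_singleton_iff, real_inner_smul_right]
      have : ⟪q.1, d k⟫ = 0 := by linarith
      rw [this, mul_zero]
    have h0 : ⟪q.1, τ⟫ ∈ ({0} : Set ℝ) :=
      isClosed_singleton.mem_of_frequently_of_tendsto hfr hlim
    exact h0

/-- every tangent vector of a set covered by finitely many mirrors is tangent to one of them -/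
theorem exists_mirror_of_tangent {S : Set (EuclideanSpace ℝ (Fin n))}
    {a : EuclideanSpace ℝ (Fin n)} {V : Set (EuclideanSpace ℝ (Fin n))}
    (hV : IsOpen V) (haV : a ∈ V) {T : Set (Mir n)} (hT : T.Finite)
    (hcov : S ∩ V ⊆ ⋃ M ∈ T, M.carrier) {τ : EuclideanSpace ℝ (Fin n)}
    (hτ : τ ∈ tangentConeAt ℝ S a) :
    ∃ M ∈ T, a ∈ M.carrier ∧ ⟪M.nu a, τ⟫ = 0 := by
  obtain ⟨c, d, hd, hdS, hcd⟩ := mem_tangentConeAt_iff_exists_seq.1 hτ
  have hlim : Tendsto (fun k => a + d k) atTop (𝓝 a) := by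
    simpa using (tendsto_const_nhds (x := a)).add hd
  have hdV : ∀ᶠ k in atTop, a + d k ∈ V := hlim.eventually (hV.mem_nhds haV)
  have hfr : ∃ M ∈ T, ∃ᶠ k in atTop, a + d k ∈ M.carrier := by
    by_contra hcon
    push Not at hcon
    have h1 : ∀ᶠ k in atTop, ∀ M ∈ T, a + d k ∉ M.carrier :=
      (eventually_all_finite hT).2 fun M hM => hcon M hM
    obtain ⟨k, hk1, hk2, hk3⟩ := (h1.and (hdS.and hdV)).exists
    have h2 := hcov ⟨hk2, hk3⟩
    simp only [mem_iUnion, exists_prop] at h2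
    obtain ⟨M, hM, hM'⟩ := h2
    exact hk1 M hM hM'
  obtain ⟨M, hM, hMfr⟩ := hfr
  have haM : a ∈ M.carrier := M.isClosed_carrier.mem_of_frequently_of_tendsto hMfr hlim
  exact ⟨M, hM, haM, M.inner_nu_eq_zero haM hd hMfr hcd⟩

/-- P7a: if near `a` the set `S` is covered by finitely many mirrors then the normal of `S` at `a`
is the normal of one of them -/
theorem normal_of_cover (hn : 2 ≤ n) {S : Set (EuclideanSpace ℝ (Fin n))}
    {a m : EuclideanSpace ℝ (Fin n)} (h : IsNormal S a m) {V : Set (EuclideanSpace ℝ (Fin n))}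
    (hV : IsOpen V) (haV : a ∈ V) {T : Set (Mir n)} (hT : T.Finite) (hnd : ∀ M ∈ T, M.Nondeg)
    (hcov : S ∩ V ⊆ ⋃ M ∈ T, M.carrier) :
    ∃ M ∈ T, a ∈ M.carrier ∧ M.NormalAt a m := by
  have _ := hn
  obtain ⟨hm, -, hS⟩ := h
  set H : Submodule ℝ (EuclideanSpace ℝ (Fin n)) := (ℝ ∙ m)ᗮ with hH
  have hmemH : ∀ τ ∈ H, τ ∈ tangentConeAt ℝ S a := by
    intro τ hτ
    rw [hS]
    exact Submodule.mem_orthogonal_singleton_iff_inner_right.1 hτ
  set I : Set (Mir n) := {M ∈ T | a ∈ M.carrier} with hI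
  have hIfin : Finite I := (hT.subset (sep_subset _ _)).to_subtype
  let p : I → Subspace ℝ H := fun M => Submodule.comap H.subtype (ℝ ∙ (M : Mir n).nu a)ᗮ
  have hp : ⋃ i, (p i : Set H) = Set.univ := by
    refine eq_univ_of_forall fun τ => ?_
    obtain ⟨M, hM, haM, hMτ⟩ := exists_mirror_of_tangent hV haV hT hcov (hmemH τ τ.2)
    refine mem_iUnion.2 ⟨⟨M, hM, haM⟩, ?_⟩
    change (τ : EuclideanSpace ℝ (Fin n)) ∈ (ℝ ∙ M.nu a)ᗮ
    exact Submodule.mem_orthogonal_singleton_iff_inner_right.2 hMτ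
  obtain ⟨⟨M, hMT, haM⟩, hMtop⟩ := Subspace.exists_eq_top_of_iUnion_eq_univ hp
  refine ⟨M, hMT, haM, ?_⟩
  rw [Mir.normalAt_iff]
  have h1 : M.nu a ∈ Hᗮ := by
    rw [Submodule.mem_orthogonal']
    intro τ hτ
    have h2 : (⟨τ, hτ⟩ : H) ∈ p ⟨M, hMT, haM⟩ := by rw [hMtop]; exact Submodule.mem_top
    have h3 : τ ∈ (ℝ ∙ M.nu a)ᗮ := h2
    exact Submodule.mem_orthogonal_singleton_iff_inner_right.1 h3
  rw [hH, Submodule.orthogonal_orthogonal, Submodule.mem_span_singleton] at h1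
  obtain ⟨c, hc⟩ := h1
  have hnu : ‖M.nu a‖ = 1 := Mir.norm_nu (hnd M hMT) haM
  have hcabs : |c| = 1 := by
    rw [← hc, norm_smul, hm, mul_one, Real.norm_eq_abs] at hnu
    exact hnu
  rcases (abs_eq one_pos.le).1 hcabs with hc1 | hc1
  · left; rw [← hc, hc1, one_smul]
  · right; rw [← hc, hc1, neg_smul, one_smul, neg_neg]

end Inv38
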