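import Pool.Agent.Lib_helper67.LR.Defs

/-!
Block IP: random sampling of independent pairs.
-/

set_option autoImplicit false

namespace Pool.Agent.Lib_helper67.LR

open Finset Pool.Agent.Lib_helper78.LR
open scoped BigOperators

theorem ip_sum_update {ι A : Type} [Fintype ι] [DecidableEq ι] [Fintype A]
    (g : (ι → A) → ℝ) (i : ι) :
    ∑ w : ι → A, ∑ a : A, g (Function.update w i a) = (Fintype.card A : ℝ) * ∑ w : ι → A, g w := by
  classical
  rw [← Fintype.sum_prod_type' (f := fun (w : ι → A) (a : A) => g (Function.update w i a))]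
  have hinv : Function.Involutive
      (fun p : (ι → A) × A => ((Function.update p.1 i p.2, p.1 i) : (ι → A) × A)) := by
    intro p
    simp
  have h := Fintype.sum_equiv (hinv.toPerm _)
    (fun p : (ι → A) × A => g (Function.update p.1 i p.2)) (fun p => g p.1) (by
      intro p; rfl)
  rw [h, Fintype.sum_prod_type]
  simp [Finset.mul_sum]

open Classical in
theorem exists_indep_pairs {V : Type} [AddCommGroup V] [Module (ZMod 2) V] [DecidableEq V]
    (N : Finset V) (F : Finset (V × V)) (hF : F ⊆ N ×ˢ N) (m : ℕ) (B : ℝ)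
    (hB : ∀ T : Finset V, T.card ≤ 2 * m → ((F.filter fun p =>
      p.1 ∈ Submodule.span (ZMod 2) (T : Set V) ∨ p.2 ∈ Submodule.span (ZMod 2) (T : Set V) ∨
        p.1 + p.2 ∈ Submodule.span (ZMod 2) (T : Set V)).card : ℝ) ≤ B) :
    ∃ I J : Finset V, I ⊆ N ∧ J ⊆ N ∧ Disjoint I J ∧
      LinearIndependent (ZMod 2) (fun x : {x // x ∈ I ∪ J} => (x : V)) ∧
      (m : ℝ) ^ 2 * ((F.card : ℝ) - B) ≤
        (N.card : ℝ) ^ 2 * ((F.filter fun p => p.1 ∈ I ∧ p.2 ∈ J).card : ℝ) := by
  have hB0 : 0 ≤ B := le_trans (by positivity) (hB ∅ (by simp))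
  rcases N.eq_empty_or_nonempty with hN | hN
  · subst hN
    have hFe : F = ∅ := by
      rw [Finset.eq_empty_iff_forall_notMem]
      intro p hp
      simpa using hF hp
    refine ⟨∅, ∅, by simp, by simp, by simp, ?_, ?_⟩
    · have : IsEmpty {x // x ∈ (∅ ∪ ∅ : Finset V)} := ⟨fun x => by
        rcases Finset.mem_union.1 x.2 with h | h <;> exact absurd h (Finset.notMem_empty _)⟩
      exact linearIndependent_empty_type
    · subst hFe
      have : 0 ≤ (m : ℝ) ^ 2 * B := by positivity
      simp
      linarith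
  -- main case
  let A := {x // x ∈ N}
  let ι := Fin m ⊕ Fin m
  have hA : Nonempty A := ⟨⟨hN.choose, hN.choose_spec⟩⟩
  -- the other vectors
  let O : (ι → A) → Fin m → Fin m → Finset V := fun w i j =>
    ((Finset.univ : Finset ι).filter fun k => k ≠ Sum.inl i ∧ k ≠ Sum.inr j).image
      fun k => (w k : V)
  let good : (ι → A) → Fin m → Fin m → Prop := fun w i j =>
    (((w (Sum.inl i) : V), (w (Sum.inr j) : V)) : V × V) ∈ F ∧
      ¬ ((w (Sum.inl i) : V) ∈ Submodule.span (ZMod 2) (O w i j : Set V) ∨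
        (w (Sum.inr j) : V) ∈ Submodule.span (ZMod 2) (O w i j : Set V) ∨
        (w (Sum.inl i) : V) + (w (Sum.inr j) : V) ∈ Submodule.span (ZMod 2) (O w i j : Set V))
  have hOcard : ∀ w i j, (O w i j).card ≤ 2 * m := by
    intro w i j
    refine Finset.card_image_le.trans ((Finset.card_filter_le _ _).trans ?_)
    simp [ι, two_mul]
  have hOupd : ∀ w i j a b,
      O (Function.update (Function.update w (Sum.inl i) a) (Sum.inr j) b) i j = O w i j := by
    intro w i j a b
    apply Finset.image_congr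
    intro k hk
    have hk' := (Finset.mem_filter.1 hk).2
    simp only [Function.update_of_ne hk'.2, Function.update_of_ne hk'.1]
  -- counting for a fixed pair of indices
  have hcount : ∀ i j, (Fintype.card (ι → A) : ℝ) * ((F.card : ℝ) - B) ≤
      (N.card : ℝ) ^ 2 * ∑ w : ι → A, (if good w i j then (1 : ℝ) else 0) := by
    intro i j
    have h1 : ∑ w : ι → A, ∑ a : A, ∑ b : A,
        (if good (Function.update (Function.update w (Sum.inl i) a) (Sum.inr j) b) i j
          then (1 : ℝ) else 0) =
        (N.card : ℝ) ^ 2 * ∑ w : ι → A, (if good w i j then (1 : ℝ) else 0) := by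
      have e1 := ip_sum_update (ι := ι) (A := A)
        (fun w => ∑ b : A, (if good (Function.update w (Sum.inr j) b) i j then (1 : ℝ) else 0))
        (Sum.inl i)
      have e2 := ip_sum_update (ι := ι) (A := A)
        (fun w => (if good w i j then (1 : ℝ) else 0)) (Sum.inr j)
      have hc : Fintype.card A = N.card := by simp [A]
      rw [e1, e2, hc]
      ring
    rw [← h1]
    have h2 : ∀ w : ι → A, (F.card : ℝ) - B ≤ ∑ a : A, ∑ b : A,
        (if good (Function.update (Function.update w (Sum.inl i) a) (Sum.inr j) b) i j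
          then (1 : ℝ) else 0) := by
      intro w
      let P : V × V → Prop := fun p =>
        p.1 ∈ Submodule.span (ZMod 2) (O w i j : Set V) ∨
          p.2 ∈ Submodule.span (ZMod 2) (O w i j : Set V) ∨
          p.1 + p.2 ∈ Submodule.span (ZMod 2) (O w i j : Set V)
      have h3 : ∀ a b : A,
          (if good (Function.update (Function.update w (Sum.inl i) a) (Sum.inr j) b) i j
          then (1 : ℝ) else 0) =
          if (((a : V), (b : V)) : V × V) ∈ F.filter (fun p => ¬ P p) then (1 : ℝ) else 0 := by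
        intro a b
        have h4 : good (Function.update (Function.update w (Sum.inl i) a) (Sum.inr j) b) i j ↔
            (((a : V), (b : V)) : V × V) ∈ F.filter (fun p => ¬ P p) := by
          simp only [good, hOupd, Finset.mem_filter, P]
          simp
        simp only [h4]
      have h5 : ∑ a : A, ∑ b : A,
          (if good (Function.update (Function.update w (Sum.inl i) a) (Sum.inr j) b) i j
          then (1 : ℝ) else 0) = ((F.filter (fun p => ¬ P p)).card : ℝ) := by
        simp only [h3]
        have h6 : ∑ a : A, ∑ b : A,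
            (if (((a : V), (b : V)) : V × V) ∈ F.filter (fun p => ¬ P p) then (1 : ℝ) else 0) =
            ∑ a ∈ N, ∑ b ∈ N,
              (if ((a, b) : V × V) ∈ F.filter (fun p => ¬ P p) then (1 : ℝ) else 0) := by
          rw [Finset.sum_coe_sort N (fun a => ∑ b : A,
            (if (((a : V), (b : V)) : V × V) ∈ F.filter (fun p => ¬ P p) then (1 : ℝ) else 0))]
          refine Finset.sum_congr rfl fun a _ => ?_
          rw [Finset.sum_coe_sort N (fun b =>
            (if (((a : V), (b : V)) : V × V) ∈ F.filter (fun p => ¬ P p) then (1 : ℝ) else 0))]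
        rw [h6, ← Finset.sum_product', Finset.sum_ite_mem]
        rw [Finset.inter_eq_right.2 ((Finset.filter_subset _ _).trans hF)]
        simp
      rw [h5]
      have h7 := hB (O w i j) (hOcard w i j)
      have h8 := Finset.card_filter_add_card_filter_not (s := F) P
      have h9 : ((F.filter P).card : ℝ) + ((F.filter (fun p => ¬ P p)).card : ℝ) = F.card := by
        exact_mod_cast h8
      have h10 : ((F.filter P).card : ℝ) ≤ B := h7
      linarith
    calc (Fintype.card (ι → A) : ℝ) * ((F.card : ℝ) - B)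
        = ∑ w : ι → A, ((F.card : ℝ) - B) := by
          rw [Finset.sum_const, nsmul_eq_mul, Finset.card_univ]
      _ ≤ _ := Finset.sum_le_sum fun w _ => h2 w
  -- the average
  have hsum : (Fintype.card (ι → A) : ℝ) * ((m : ℝ) ^ 2 * ((F.card : ℝ) - B)) ≤
      ∑ w : ι → A, (N.card : ℝ) ^ 2 *
        ∑ i : Fin m, ∑ j : Fin m, (if good w i j then (1 : ℝ) else 0) := by
    have h1 : ∑ i : Fin m, ∑ j : Fin m, (Fintype.card (ι → A) : ℝ) * ((F.card : ℝ) - B) ≤
        ∑ i : Fin m, ∑ j : Fin m,
          (N.card : ℝ) ^ 2 * ∑ w : ι → A, (if good w i j then (1 : ℝ) else 0) :=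
      Finset.sum_le_sum fun i _ => Finset.sum_le_sum fun j _ => hcount i j
    have h2 : ∑ i : Fin m, ∑ j : Fin m,
          (N.card : ℝ) ^ 2 * ∑ w : ι → A, (if good w i j then (1 : ℝ) else 0) =
        ∑ w : ι → A, (N.card : ℝ) ^ 2 *
          ∑ i : Fin m, ∑ j : Fin m, (if good w i j then (1 : ℝ) else 0) := by
      simp only [Finset.mul_sum]
      have e1 : ∀ i : Fin m, ∑ j : Fin m, ∑ w : ι → A,
          (N.card : ℝ) ^ 2 * (if good w i j then (1 : ℝ) else 0) =
          ∑ w : ι → A, ∑ j : Fin m, (N.card : ℝ) ^ 2 * (if good w i j then (1 : ℝ) else 0) :=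
        fun i => Finset.sum_comm
      simp only [e1]
      rw [Finset.sum_comm]
    rw [← h2]
    refine le_trans (le_of_eq ?_) h1
    rw [Finset.sum_const, Finset.sum_const, nsmul_eq_mul, nsmul_eq_mul, Finset.card_univ,
      Fintype.card_fin]
    ring
  obtain ⟨w, -, hw⟩ : ∃ w ∈ (Finset.univ : Finset (ι → A)), (m : ℝ) ^ 2 * ((F.card : ℝ) - B) ≤
      (N.card : ℝ) ^ 2 * ∑ i : Fin m, ∑ j : Fin m, (if good w i j then (1 : ℝ) else 0) := by
    apply Finset.exists_le_of_sum_le (Finset.univ_nonempty)
    rw [Finset.sum_const, nsmul_eq_mul, Finset.card_univ]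
    exact hsum
  -- coloops
  let col : ι → Prop := fun k => (w k : V) ∉ Submodule.span (ZMod 2)
    (((Finset.univ : Finset ι).filter fun l => l ≠ k).image fun l => (w l : V) : Finset V)
  have hins : ∀ (S T : Finset V) (x y : V), (T : Set V) ⊆ insert y (S : Set V) →
      x ∉ Submodule.span (ZMod 2) (S : Set V) → x + y ∉ Submodule.span (ZMod 2) (S : Set V) →
      x ∉ Submodule.span (ZMod 2) (T : Set V) := by
    intro S T x y hT h1 h2 h3
    have h4 := Submodule.span_mono (R := ZMod 2) hT h3
    rw [Submodule.mem_span_insert] at h4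
    obtain ⟨a, z, hz, rfl⟩ := h4
    have ha : ∀ b : ZMod 2, b = 0 ∨ b = 1 := by decide
    replace ha := ha a
    rcases ha with rfl | rfl
    · apply h1
      rwa [zero_smul, zero_add]
    · apply h2
      rwa [one_smul, add_comm y z, add_assoc, ZModModule.add_self, add_zero]
  have hgood : ∀ i j, good w i j → col (Sum.inl i) ∧ col (Sum.inr j) := by
    intro i j h
    have h1 : (w (Sum.inl i) : V) ∉ Submodule.span (ZMod 2) (O w i j : Set V) :=
      fun h' => h.2 (Or.inl h')
    have h2 : (w (Sum.inr j) : V) ∉ Submodule.span (ZMod 2) (O w i j : Set V) :=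
      fun h' => h.2 (Or.inr (Or.inl h'))
    have h3 : (w (Sum.inl i) : V) + (w (Sum.inr j) : V) ∉
        Submodule.span (ZMod 2) (O w i j : Set V) :=
      fun h' => h.2 (Or.inr (Or.inr h'))
    constructor
    · refine hins (O w i j) _ _ (w (Sum.inr j)) ?_ h1 h3
      intro x hx
      simp only [Finset.coe_image, Finset.coe_filter, Finset.mem_univ, true_and, Set.mem_image,
        Set.mem_ofPred_eq] at hx
      obtain ⟨l, hl, rfl⟩ := hx
      by_cases hlj : l = Sum.inr j
      · left; rw [hlj]
      · right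
        exact Finset.mem_coe.2 (Finset.mem_image.2 ⟨l, by simp [hl, hlj], rfl⟩)
    · refine hins (O w i j) _ _ (w (Sum.inl i)) ?_ h2 (by rwa [add_comm])
      intro x hx
      simp only [Finset.coe_image, Finset.coe_filter, Finset.mem_univ, true_and, Set.mem_image,
        Set.mem_ofPred_eq] at hx
      obtain ⟨l, hl, rfl⟩ := hx
      by_cases hlj : l = Sum.inl i
      · left; rw [hlj]
      · right
        exact Finset.mem_coe.2 (Finset.mem_image.2 ⟨l, by simp [hl, hlj], rfl⟩)
  have hcol : ∀ k l, col k → k ≠ l → (w k : V) ≠ (w l : V) := by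
    intro k l hk hkl he
    apply hk
    apply Submodule.subset_span
    refine Finset.mem_coe.2 (Finset.mem_image.2 ⟨l, by simp [Ne.symm hkl], he.symm⟩)
  let I : Finset V := ((Finset.univ : Finset (Fin m)).filter fun i => col (Sum.inl i)).image
    fun i => (w (Sum.inl i) : V)
  let J : Finset V := ((Finset.univ : Finset (Fin m)).filter fun j => col (Sum.inr j)).image
    fun j => (w (Sum.inr j) : V)
  have hIJ : ∀ x ∈ I ∪ J, ∃ k, col k ∧ (w k : V) = x := by
    intro x hx
    rcases Finset.mem_union.1 hx with hx | hx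
    · obtain ⟨i, hi, rfl⟩ := Finset.mem_image.1 hx
      exact ⟨_, (Finset.mem_filter.1 hi).2, rfl⟩
    · obtain ⟨i, hi, rfl⟩ := Finset.mem_image.1 hx
      exact ⟨_, (Finset.mem_filter.1 hi).2, rfl⟩
  refine ⟨I, J, ?_, ?_, ?_, ?_, ?_⟩
  · intro x hx
    obtain ⟨i, -, rfl⟩ := Finset.mem_image.1 hx
    exact (w (Sum.inl i)).2
  · intro x hx
    obtain ⟨i, -, rfl⟩ := Finset.mem_image.1 hx
    exact (w (Sum.inr i)).2
  · rw [Finset.disjoint_left]
    intro x hx hy
    obtain ⟨i, hi, rfl⟩ := Finset.mem_image.1 hx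
    obtain ⟨j, hj, he⟩ := Finset.mem_image.1 hy
    exact hcol (Sum.inl i) (Sum.inr j) (Finset.mem_filter.1 hi).2 (by simp) he.symm
  · rw [linearIndependent_iff_notMem_span]
    rintro ⟨x, hx⟩ hmem
    obtain ⟨k, hk, rfl⟩ := hIJ x hx
    apply hk
    refine Submodule.span_mono ?_ hmem
    rintro y ⟨⟨z, hz⟩, hzk, rfl⟩
    obtain ⟨l, hl, rfl⟩ := hIJ z hz
    refine Finset.mem_coe.2 (Finset.mem_image.2 ⟨l, ?_, rfl⟩)
    simp only [Finset.mem_filter, Finset.mem_univ, true_and]
    rintro rfl
    exact hzk.2 rfl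
  · refine hw.trans ?_
    refine mul_le_mul_of_nonneg_left ?_ (by positivity)
    have h1 : ∑ i : Fin m, ∑ j : Fin m, (if good w i j then (1 : ℝ) else 0) =
        (((Finset.univ : Finset (Fin m × Fin m)).filter fun p => good w p.1 p.2).card : ℝ) := by
      rw [← Fintype.sum_prod_type' (f := fun i j => (if good w i j then (1 : ℝ) else 0)),
        Finset.sum_boole]
    rw [h1]
    norm_cast
    refine Finset.card_le_card_of_injOn
      (fun p => (((w (Sum.inl p.1) : V), (w (Sum.inr p.2) : V)) : V × V)) ?_ ?_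
    · intro p hp
      have hp' : good w p.1 p.2 := (Finset.mem_filter.1 (Finset.mem_coe.1 hp)).2
      refine Finset.mem_coe.2 (Finset.mem_filter.2 ⟨hp'.1, ?_, ?_⟩)
      · exact Finset.mem_image.2 ⟨p.1, by simp [(hgood _ _ hp').1], rfl⟩
      · exact Finset.mem_image.2 ⟨p.2, by simp [(hgood _ _ hp').2], rfl⟩
    · intro p hp q hq he
      have hp' : good w p.1 p.2 := (Finset.mem_filter.1 (Finset.mem_coe.1 hp)).2
      have h2 := Prod.mk.inj he
      by_contra hne
      by_cases h3 : p.1 = q.1
      · have h4 : p.2 ≠ q.2 := fun h => hne (Prod.ext h3 h)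
        exact hcol (Sum.inr p.2) (Sum.inr q.2) (hgood _ _ hp').2
          (fun h => h4 (Sum.inr.inj h)) h2.2
      · exact hcol (Sum.inl p.1) (Sum.inl q.1) (hgood _ _ hp').1
          (fun h => h3 (Sum.inl.inj h)) h2.1

end Pool.Agent.Lib_helper67.LR
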